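import Mathlib
import Pool.Agent.Lib.MP_7c08ba_nt.Defs
import Pool.Agent.Lib.MP_7c08ba_nt.Gen.Defs

set_option autoImplicit false

/-!
Parity of Selmer groups of conjugate self dual residually unipotent representations over
imaginary quadratic fields which are rigid at `2`, for example `ℚ(√-q)`, `q ≡ 7 (mod 16)` prime:
definitions and statements of the modules.
-/

noncomputable section

namespace BKPar

open Pool.Agent.Lib.MP_7c08ba_nt NumberField

universe u

/-! ### Part 1: groups -/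

section Smooth

variable {G X : Type*} [Group G] [TopologicalSpace G]

/-- smooth functions of one variable -/
def Loc1 (f : G → X) : Prop :=
  ∃ W : Subgroup G, IsOpen (W : Set G) ∧ ∀ g, ∀ w ∈ W, f (g * w) = f g

/-- smooth functions of two variables -/
def Loc2 (f : G → G → X) : Prop :=
  ∃ W : Subgroup G, IsOpen (W : Set G) ∧ ∀ g h, ∀ w ∈ W, ∀ w' ∈ W, f (g * w) (h * w') = f g h

end Smooth

section Pure

variable (G : Type*) [Group G] [TopologicalSpace G]

/-- smooth homomorphisms to `ℤ/2` -/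
def Hom2 : Set (G → ZMod 2) := {f | Loc1 f ∧ ∀ x y, f (x * y) = f x + f y}

/-- smooth `2`-cocycles with values in `ℤ/2` -/
def Z2 : Set (G → G → ZMod 2) :=
  {z | Loc2 z ∧ ∀ g h k, z h k + z (g * h) k + z g (h * k) + z g h = 0}

/-- smooth `2`-coboundaries with values in `ℤ/2` -/
def B2 : Set (G → G → ZMod 2) :=
  {z | ∃ β : G → ZMod 2, Loc1 β ∧ ∀ g h, z g h = β h + β (g * h) + β g}

/-- all open subgroups have `2`-power index -/
def Pro2 : Prop := ∀ U : Subgroup G, IsOpen (U : Set G) → ∃ k : ℕ, U.index = 2 ^ k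

/-- the number of homomorphisms to `ℤ/2` of the open subgroups -/
def DU (m : ℕ) : Prop :=
  ∀ U : Subgroup G, IsOpen (U : Set G) → Nat.card (Hom2 U) = 2 ^ (m * U.index + 2)

end Pure

/-- the cup product -/
def cup {G : Type*} (f g : G → ZMod 2) : G → G → ZMod 2 := fun x y => f x * g y

/-- Module LINE: `H²(G, ℤ/2)` has at most two elements, and the cup product is nondegenerate. -/
def StLine : Prop :=
  ∀ (G : Type u) [Group G] [TopologicalSpace G] [IsTopologicalGroup G] [CompactSpace G] (m : ℕ),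
    1 ≤ m → Pro2 G → DU G m →
    (∀ z ∈ Z2 G, ∀ z' ∈ Z2 G, z ∉ B2 G → z' ∉ B2 G → z + z' ∈ B2 G) ∧
    (∀ χ ∈ Hom2 G, χ ≠ 0 → ∃ ψ ∈ Hom2 G, cup ψ χ ∉ B2 G)

section Shapiro

variable {G : Type*} [Group G] [TopologicalSpace G] (H : Subgroup G)

open Classical in
/-- the action of `G` on pairs: elements outside the subgroup `H` of index two swap -/
def sw (g : G) (v : ZMod 2 × ZMod 2) : ZMod 2 × ZMod 2 :=
  if g ∈ H then v else (v.2, v.1)

/-- smooth one-cocycles with values in the pairs -/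
def Z1P : Set (G → ZMod 2 × ZMod 2) := {a | Loc1 a ∧ ∀ g h, a (g * h) = a g + sw H g (a h)}

/-- smooth two-cocycles with values in the pairs -/
def Z2P : Set (G → G → ZMod 2 × ZMod 2) :=
  {w | Loc2 w ∧ ∀ g h k, sw H g (w h k) + w (g * h) k + w g (h * k) + w g h = 0}

/-- smooth two-coboundaries with values in the pairs -/
def B2P : Set (G → G → ZMod 2 × ZMod 2) :=
  {w | ∃ β : G → ZMod 2 × ZMod 2, Loc1 β ∧ ∀ g h, w g h = sw H g (β h) + β (g * h) + β g}

end Shapiro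

/-- Module SHAPIRO: (1) number of one-cocycles with values in the pairs; (2) a two-cocycle with
values in the pairs whose first coordinate is a coboundary on `H` is a coboundary. -/
def StShapiro : Prop :=
  ∀ (G : Type u) [Group G] [TopologicalSpace G] [IsTopologicalGroup G] [CompactSpace G]
    (H : Subgroup G), IsOpen (H : Set G) → H.index = 2 →
    (Nat.card (Hom2 H) ≠ 0 → Nat.card (Z1P H) = 2 * Nat.card (Hom2 H)) ∧
    (∀ w ∈ Z2P H, (fun a b : H => (w a b).1) ∈ B2 H → w ∈ B2P H)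

/-- Module GYSIN: index two subgroups, `χ` the homomorphism with kernel `H`. -/
def StGysin : Prop :=
  ∀ (G : Type u) [Group G] [TopologicalSpace G] [IsTopologicalGroup G] [CompactSpace G]
    (χ : G → ZMod 2), χ ∈ Hom2 G → χ ≠ 0 →
    ∀ (H : Subgroup G), (∀ g, g ∈ H ↔ χ g = 0) →
    (∀ z ∈ Z2 G, (fun a b : H => z a b) ∈ B2 H → ∃ ψ ∈ Hom2 G, z + cup χ ψ ∈ B2 G) ∧
    (∀ y ∈ Hom2 G, cup χ y ∈ B2 G ↔ ∃ a ∈ Z1P H, ∀ g, y g = (a g).1 + (a g).2) ∧
    (∀ a ∈ Z1P H, ∀ b ∈ Hom2 G, ∀ z ∈ Z2 G,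
      (fun g h : H => z g h + (a g).1 * b h) ∈ B2 H → cup (fun g => (a g).1 + (a g).2) b ∈ B2 G)

/-! ### Part 2: `2`-adic coefficients -/

section Coeff

variable {G : Type*} [Group G] [TopologicalSpace G] (χ : G →* ℤ_[2]ˣ)
variable (L : Type*) [NormedField L] [NormedAlgebra ℚ_[2] L]

/-- the character `χ` with values in `L` -/
def chi (g : G) : L := algebraMap ℚ_[2] L (((χ g : ℤ_[2]ˣ) : ℤ_[2]) : ℚ_[2])

/-- continuous two-cocycles with values in `L(χ)` -/
def CZ2 : Set (G → G → L) :=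
  {z | Continuous (Function.uncurry z) ∧
    ∀ g h k, chi χ L g * z h k - z (g * h) k + z g (h * k) - z g h = 0}

/-- continuous two-coboundaries with values in `L(χ)` -/
def CB2 : Set (G → G → L) :=
  {z | ∃ β : G → L, Continuous β ∧ ∀ g h, z g h = chi χ L g * β h - β (g * h) + β g}

end Coeff

section Four

variable {G : Type*} [Group G] [TopologicalSpace G] (χ : G →* ℤ_[2]ˣ)

/-- the character modulo `4` -/
def chi4 (g : G) : ZMod 4 := PadicInt.toZModPow (p := 2) 2 ((χ g : ℤ_[2]ˣ) : ℤ_[2])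

/-- smooth two-cocycles with values in `ℤ/4(χ)` -/
def Z24 : Set (G → G → ZMod 4) :=
  {z | Loc2 z ∧ ∀ g h k, chi4 χ g * z h k - z (g * h) k + z g (h * k) - z g h = 0}

/-- smooth two-coboundaries with values in `ℤ/4(χ)` -/
def B24 : Set (G → G → ZMod 4) :=
  {z | ∃ β : G → ZMod 4, Loc1 β ∧ ∀ g h, z g h = chi4 χ g * β h - β (g * h) + β g}

/-- reduction modulo `2` -/
def red (x : ZMod 4) : ZMod 2 := ZMod.castHom (show 2 ∣ 4 by norm_num) (ZMod 2) x

end Four

/-- Module LIFT. -/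
def StLift : Prop :=
  ∀ (G : Type u) [Group G] [TopologicalSpace G] [IsTopologicalGroup G] [CompactSpace G]
    [NonarchimedeanGroup G]
    (χ : G →* ℤ_[2]ˣ), Continuous χ → ∀ (τ : G →* G), Continuous τ → (∀ g, τ (τ g) = g) →
    (∀ g, χ (τ g) = χ g) →
    (∀ z ∈ Z2 G, ∀ z' ∈ Z2 G, z ∉ B2 G → z' ∉ B2 G → z + z' ∈ B2 G) →
    ∀ z4 ∈ Z24 χ, (fun g h => red (z4 g h)) ∉ B2 G →
    (fun g h => z4 (τ g) (τ h) - z4 g h) ∈ B24 χ →
    ∀ (L : Type) [NormedField L] [NormedAlgebra ℚ_[2] L] [FiniteDimensional ℚ_[2] L],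
    (∃ z1 ∈ CZ2 χ L, ∀ z ∈ CZ2 χ L, ∃ a : L, (fun g h => z g h - a * z1 g h) ∈ CB2 χ L) ∧
    (∀ z ∈ CZ2 χ L, (fun g h => z (τ g) (τ h) - z g h) ∈ CB2 χ L)

section Rep

variable {G : Type*} [Group G] [TopologicalSpace G] {L : Type*} [NormedField L] {n : ℕ}

/-- continuous one-cocycles -/
def Z1 (ρ : G →* Matrix.GeneralLinearGroup (Fin n) L) : Submodule L (G → Fin n → L) where
  carrier := {x | Continuous x ∧
    ∀ g h, x (g * h) = x g + (ρ g : Matrix (Fin n) (Fin n) L).mulVec (x h)}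
  add_mem' := by
    rintro x y ⟨hx, hx'⟩ ⟨hy, hy'⟩
    refine ⟨hx.add hy, fun g h => ?_⟩
    simp only [Pi.add_apply, hx', hy', Matrix.mulVec_add]
    abel
  zero_mem' := by
    refine ⟨continuous_const, fun g h => ?_⟩
    simp
  smul_mem' := by
    rintro a x ⟨hx, hx'⟩
    refine ⟨hx.const_smul a, fun g h => ?_⟩
    simp only [Pi.smul_apply, hx', Matrix.mulVec_smul, smul_add]

/-- one-coboundaries -/
def B1 (ρ : G →* Matrix.GeneralLinearGroup (Fin n) L) : Submodule L (G → Fin n → L) :=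
  LinearMap.range
    ({ toFun := fun v g => (ρ g : Matrix (Fin n) (Fin n) L).mulVec v - v
       map_add' := fun v w => by
        funext g
        simp only [Pi.add_apply, Matrix.mulVec_add]
        abel
       map_smul' := fun a v => by
        funext g
        simp only [Pi.smul_apply, Matrix.mulVec_smul, RingHom.id_apply, smul_sub] } :
      (Fin n → L) →ₗ[L] (G → Fin n → L))

/-- residually unipotent representations -/
def ResUni (ρ : G →* Matrix.GeneralLinearGroup (Fin n) L) : Prop :=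
  ∀ (g : G) (i : ℕ),
    ‖((ρ g : Matrix (Fin n) (Fin n) L).charpoly - (Polynomial.X - 1) ^ n).coeff i‖ < 1

end Rep

/-- Module FIN: the cocycles which vanish on `R` form a space of finite dimension. -/
def StFin : Prop :=
  ∀ (Γ : Type u) [Group Γ] [TopologicalSpace Γ] [IsTopologicalGroup Γ] [CompactSpace Γ]
    [NonarchimedeanGroup Γ] (R : Subgroup Γ), Finite {f | f ∈ Hom2 Γ ∧ ∀ r ∈ R, f r = 0} →
    ∀ (L : Type) [NormedField L] [IsUltrametricDist L], ‖(2 : L)‖ < 1 →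
    ∀ (n : ℕ) (ρ : Γ →* Matrix.GeneralLinearGroup (Fin n) L), Continuous ρ → ResUni ρ →
    ∀ W : Submodule L (Γ → Fin n → L), W ≤ Z1 ρ → (∀ x ∈ W, ∀ r ∈ R, x r = 0) →
    FiniteDimensional L W

/-- Module EXT: if the homomorphisms `D ∩ U → ℤ/2` are trivial on `D ∩ R` for all open subgroups
`U ⊇ R`, and `D R = Γ`, then all cocycles of `D` extend to cocycles of `Γ` vanishing on `R`. -/
def StExt : Prop :=
  ∀ (Γ : Type u) [Group Γ] [TopologicalSpace Γ] [IsTopologicalGroup Γ] [CompactSpace Γ]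
    [NonarchimedeanGroup Γ] (R D : Subgroup Γ), R.Normal → IsClosed (R : Set Γ) →
    IsClosed (D : Set Γ) → (∀ g : Γ, ∃ d ∈ D, ∃ r ∈ R, g = d * r) →
    (∀ U : Subgroup Γ, IsOpen (U : Set Γ) → R ≤ U →
      ∀ f ∈ Hom2 ↥(D ⊓ U), ∀ (x : Γ) (hx : x ∈ D ⊓ U), x ∈ R → f ⟨x, hx⟩ = 0) →
    ∀ (L : Type) [NormedField L] [IsUltrametricDist L], ‖(2 : L)‖ < 1 →
    ∀ (n : ℕ) (ρ : Γ →* Matrix.GeneralLinearGroup (Fin n) L), Continuous ρ → ResUni ρ →
    (∀ r ∈ R, ρ r = 1) → ∀ y ∈ Z1 (ρ.comp D.subtype),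
    ∃ x ∈ Z1 ρ, (∀ r ∈ R, x r = 0) ∧ ∀ d : D, x d = y d

/-- Module ALT: cup product of a cocycle with its conjugate, `x ∪ xᶜ = -(x ∪ xᶜ)ᶜ`. -/
def StAlt : Prop :=
  ∀ (G : Type u) [Group G] [TopologicalSpace G] [IsTopologicalGroup G]
    (χ : G →* ℤ_[2]ˣ), Continuous χ → ∀ (τ : G →* G), Continuous τ → (∀ g, τ (τ g) = g) →
    (∀ g, χ (τ g) = χ g) →
    ∀ (L : Type) [NormedField L] [NormedAlgebra ℚ_[2] L] (n : ℕ)
    (ρ : G →* Matrix.GeneralLinearGroup (Fin n) L), Continuous ρ →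
    ∀ (B : Matrix (Fin n) (Fin n) L), B.transpose = B →
    (∀ g, (ρ g : Matrix (Fin n) (Fin n) L).transpose * B * (ρ (τ g) : Matrix (Fin n) (Fin n) L) =
      chi χ L g • B) →
    (∀ x ∈ Z1 ρ, ∀ y ∈ Z1 ρ, (fun g h => x g ⬝ᵥ
      B.mulVec ((ρ (τ g) : Matrix (Fin n) (Fin n) L).mulVec (y (τ h)))) ∈ CZ2 χ L) ∧
    (∀ x ∈ Z1 ρ, ∀ z : G → G → L, (∀ g h, z g h = x g ⬝ᵥ
      B.mulVec ((ρ (τ g) : Matrix (Fin n) (Fin n) L).mulVec (x (τ h)))) →
      (fun g h => z (τ g) (τ h) + z g h) ∈ CB2 χ L)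

/-! ### Part 3: number theory -/

section NT

variable (F : Type) [Field F]

/-- open normal subgroups of `2`-power index which contain the inertia groups away from `2` -/
def IsAdm (N : Subgroup (AbsGal F)) : Prop :=
  N.Normal ∧ IsOpen (N : Set (AbsGal F)) ∧ (∃ k : ℕ, N.index = 2 ^ k) ∧
    ∀ P : Ideal (AllInt F), P.IsPrime → (2 : AllInt F) ∉ P → inert F P ≤ N

/-- The subgroup fixing the maximal `2`-extension unramified outside `2`. -/
def R : Subgroup (AbsGal F) := sInf {N | IsAdm F N}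

/-- the decomposition group of the place `ι` -/
abbrev D (ι : AlgebraicClosure F →+* PadicAlgCl 2) : Subgroup (AbsGal F) :=
  BKGen.Dec F (AlgebraicClosure F) ι

/-- the cyclotomic character -/
def cyc : AbsGal F →* ℤ_[2]ˣ :=
  (cyclotomicCharacter (AlgebraicClosure F) 2).comp
    (MulSemiringAction.toRingAut (AbsGal F) (AlgebraicClosure F))

variable {F}

/-- The representation is unramified at all primes not above `2`. -/
def UnramifiedAwayTwo {L : Type} [NormedField L] {n : ℕ}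
    (ρ : AbsGal F →* Matrix.GeneralLinearGroup (Fin n) L) : Prop :=
  ∀ P : Ideal (AllInt F), P.IsPrime → (2 : AllInt F) ∉ P → ∀ g ∈ inert F P, ρ g = 1

/-- algebraic numbers which are units outside `2` -/
def IsTwoUnit (y : AlgebraicClosure F) : Prop :=
  y ≠ 0 ∧ ∃ k : ℕ, IsIntegral ℤ (2 ^ k * y) ∧ IsIntegral ℤ (2 ^ k * y⁻¹)

/-- conjugation of the absolute Galois group with an automorphism `c` of the algebraic closure
which induces the automorphism `σ` of `F` -/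
def conj (c : AlgebraicClosure F ≃+* AlgebraicClosure F) (σ : F ≃+* F)
    (h : ∀ a, c (algebraMap F (AlgebraicClosure F) a) = algebraMap F (AlgebraicClosure F) (σ a)) :
    AbsGal F →* AbsGal F where
  toFun g := AlgEquiv.ofRingEquiv (f := (c.symm.trans g.toRingEquiv).trans c) (by
    intro a
    have h1 : c.symm (algebraMap F (AlgebraicClosure F) a) =
        algebraMap F (AlgebraicClosure F) (σ.symm a) := by
      rw [RingEquiv.symm_apply_eq, h, RingEquiv.apply_symm_apply]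
    change c (g (c.symm (algebraMap F (AlgebraicClosure F) a))) = _
    rw [h1, AlgEquiv.commutes, h, RingEquiv.apply_symm_apply])
  map_one' := by
    ext x
    change c ((1 : AbsGal F) (c.symm x)) = x
    rw [AlgEquiv.one_apply, RingEquiv.apply_symm_apply]
  map_mul' g k := by
    ext x
    change c ((g * k) (c.symm x)) = c (g (c.symm (c (k (c.symm x)))))
    rw [RingEquiv.symm_apply_apply, AlgEquiv.mul_apply]

end NT

/-- the hypotheses on the field: `F = ℚ(√-q)`, `q` squarefree, `q ≡ 7 (mod 8)`, and `F` is rigid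
at the places above `2` (for example `q ≡ 7 (mod 16)` prime) -/
structure FieldHyp (q : ℕ) (F : Type) [Field F] [NumberField F] (s : F) : Prop where
  hq0 : 0 < q
  sqf : Squarefree q
  h8 : q % 8 = 7
  hF : Module.finrank ℚ F = 2
  hs : s ^ 2 = -(q : F)
  rig : ∀ j : F →+* PadicAlgCl 2, BKGen.Rigid 2 F j

/-- the hypotheses on complex conjugation -/
structure ConjHyp {F : Type} [Field F] (s : F) (c : AlgebraicClosure F ≃+* AlgebraicClosure F)
    (σ : F ≃+* F) : Prop where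
  h : ∀ a, c (algebraMap F (AlgebraicClosure F) a) = algebraMap F (AlgebraicClosure F) (σ a)
  hσ : σ s = -s
  hc : ∀ x, c (c x) = x

/-- Module ADM: general facts on `R`. -/
def StAdm : Prop :=
  ∀ (F : Type) [Field F] [NumberField F],
    (R F).Normal ∧ IsClosed (R F : Set (AbsGal F)) ∧
    (∀ P : Ideal (AllInt F), P.IsPrime → (2 : AllInt F) ∉ P → inert F P ≤ R F) ∧
    (∀ U : Subgroup (AbsGal F), IsOpen (U : Set (AbsGal F)) → R F ≤ U →
      ∃ N, IsAdm F N ∧ N ≤ U) ∧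
    (∀ U : Subgroup (AbsGal F), IsOpen (U : Set (AbsGal F)) → R F ≤ U →
      ∃ k : ℕ, U.index = 2 ^ k)

/-- Module KILL: `R` acts trivially on residually unipotent representations unramified outside
`2`, and cocycles vanishing on inertia vanish on `R`. -/
def StKill : Prop :=
  ∀ (F : Type) [Field F] [NumberField F] (L : Type) [NormedField L] [IsUltrametricDist L],
    ‖(2 : L)‖ < 1 → ∀ (n : ℕ) (ρ : AbsGal F →* Matrix.GeneralLinearGroup (Fin n) L),
    Continuous ρ → ResUni ρ → UnramifiedAwayTwo ρ →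
    (∀ r ∈ R F, ρ r = 1) ∧
    (∀ x ∈ Z1 ρ, (∀ P : Ideal (AllInt F), P.IsPrime → (2 : AllInt F) ∉ P →
      ∀ g ∈ inert F P, x g = 0) → ∀ r ∈ R F, x r = 0)

/-- Module DR: the decomposition group at `ι` generates the Galois group of the maximal
`2`-extension unramified outside `2`. -/
def StDR : Prop :=
  ∀ (q : ℕ) (F : Type) [Field F] [NumberField F] (s : F), FieldHyp q F s →
    ∀ (ι : AlgebraicClosure F →+* PadicAlgCl 2) (g : AbsGal F),
      ∃ d ∈ D F ι, ∃ r ∈ R F, g = d * r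

/-- Module SQ: the maximal `2`-extension unramified outside `2` is closed under square roots of
units outside `2`. -/
def StSq : Prop :=
  ∀ (F : Type) [Field F] [NumberField F] (y : AlgebraicClosure F), IsTwoUnit y →
    (∀ r ∈ R F, r (y ^ 2) = y ^ 2) → ∀ r ∈ R F, r y = y

/-- Module UNITS: many square roots of units outside `2` of the fixed field of `U`. -/
def StUnits : Prop :=
  ∀ (q : ℕ) (F : Type) [Field F] [NumberField F] (s : F), FieldHyp q F s →
    ∀ (U : Subgroup (AbsGal F)), IsOpen (U : Set (AbsGal F)) →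
    ∃ S : Finset (U → ZMod 2), S.card = 2 ^ (U.index + 2) ∧
      ∀ f ∈ S, ∃ y : AlgebraicClosure F, IsTwoUnit y ∧ (∀ u ∈ U, u (y ^ 2) = y ^ 2) ∧
        ∀ u : U, f u = 0 ↔ (u : AbsGal F) y = y

/-- Module LOCSQ: square classes of a finite extension of `ℚ₂`. -/
def StLocSq : Prop :=
  ∀ (E : IntermediateField ℚ_[2] (PadicAlgCl 2)) [FiniteDimensional ℚ_[2] E] (S : Finset E),
    (∀ x ∈ S, x ≠ 0) → (∀ x ∈ S, ∀ y ∈ S, x ≠ y → ¬ IsSquare (x * y)) →
    S.card ≤ 2 ^ (Module.finrank ℚ_[2] E + 2)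

/-- Module LOCHOM: homomorphisms of the decomposition groups to `ℤ/2`. -/
def StLocHom : Prop :=
  ∀ (q : ℕ) (F : Type) [Field F] [NumberField F] (s : F), FieldHyp q F s →
    ∀ (ι : AlgebraicClosure F →+* PadicAlgCl 2) (U : Subgroup (AbsGal F)),
    IsOpen (U : Set (AbsGal F)) → ∀ S : Finset (↥(D F ι ⊓ U) → ZMod 2),
    (∀ f ∈ S, f ∈ Hom2 ↥(D F ι ⊓ U)) → S.card ≤ 2 ^ (U.index + 2)

/-- Module COUNT. -/
def StCount : Prop :=
  ∀ (q : ℕ) (F : Type) [Field F] [NumberField F] (s : F), FieldHyp q F s →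
    ∀ (ι : AlgebraicClosure F →+* PadicAlgCl 2) (_ : (R F).Normal),
    Pro2 (AbsGal F ⧸ R F) ∧ DU (AbsGal F ⧸ R F) 1 ∧
    (∀ U : Subgroup (AbsGal F), IsOpen (U : Set (AbsGal F)) → R F ≤ U →
      ∀ f ∈ Hom2 ↥(D F ι ⊓ U), ∀ (x : AbsGal F) (hx : x ∈ D F ι ⊓ U), x ∈ R F → f ⟨x, hx⟩ = 0) ∧
    Finite {f | f ∈ Hom2 (AbsGal F) ∧ ∀ r ∈ R F, f r = 0} ∧
    (∀ f ∈ Hom2 (AbsGal F), (∀ r ∈ R F, f r = 0) → ∃ y : AlgebraicClosure F, IsTwoUnit y ∧
      (∀ u : AbsGal F, u (y ^ 2) = y ^ 2) ∧ ∀ u : AbsGal F, f u = 0 ↔ u y = y)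

/-- Module CONJ: conjugation. -/
def StConj : Prop :=
  ∀ (F : Type) [Field F] [NumberField F] (s : F) (c : AlgebraicClosure F ≃+* AlgebraicClosure F)
    (σ : F ≃+* F) (hcs : ConjHyp s c σ), s ≠ 0 →
    Continuous (conj c σ hcs.h) ∧ (∀ g, conj c σ hcs.h (conj c σ hcs.h g) = g) ∧
    (∀ r ∈ R F, conj c σ hcs.h r ∈ R F) ∧ (∀ g, cyc F (conj c σ hcs.h g) = cyc F g) ∧
    (∀ i : AlgebraicClosure F, i ^ 2 = -1 → c i = -i)

/-- Module CYCR: the cyclotomic character is continuous and trivial on `R`. -/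
def StCycR : Prop :=
  ∀ (F : Type) [Field F] [NumberField F], Continuous (cyc F) ∧ ∀ r ∈ R F, cyc F r = 1

/-- Module CYC: explicit classes modulo `4`. -/
def StCyc : Prop :=
  ∀ (q : ℕ) (F : Type) [Field F] [NumberField F] (s : F), FieldHyp q F s →
    ∀ (c : AlgebraicClosure F ≃+* AlgebraicClosure F) (σ : F ≃+* F) (hcs : ConjHyp s c σ)
    (y t : AlgebraicClosure F), IsTwoUnit y → (∀ g : AbsGal F, g (y ^ 2) = y ^ 2) → t ^ 2 = 2 →
    ∃ z4 ∈ Z24 (cyc F), (∀ g h, ∀ r ∈ R F, ∀ r' ∈ R F, z4 (g * r) (h * r') = z4 g h) ∧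
      (∀ g h, red (z4 g h) ≠ 0 ↔ (g y ≠ y ∧ h t ≠ t)) ∧
      ∃ β : AbsGal F → ZMod 4, Loc1 β ∧ (∀ g, ∀ r ∈ R F, β (g * r) = β g) ∧
        ∀ g h, z4 (conj c σ hcs.h g) (conj c σ hcs.h h) - z4 g h =
          chi4 (cyc F) g * β h - β (g * h) + β g

/-! ### Part 4: assembly -/

section Sel

variable {Γ : Type*} [Group Γ] [TopologicalSpace Γ] {L : Type*} [NormedField L]
  [NormedAlgebra ℚ_[2] L] {n : ℕ}

/-- the cup product of a cocycle `y` on the subgroup `D` with the conjugate of a cocycle `x`,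
for the pairing with matrix `B` -/
def cupD (ρ : Γ →* Matrix.GeneralLinearGroup (Fin n) L) (τ : Γ →* Γ)
    (B : Matrix (Fin n) (Fin n) L) (Dd : Subgroup Γ) (y : Dd → Fin n → L) (x : Γ → Fin n → L) :
    Dd → Dd → L :=
  fun g h => y g ⬝ᵥ B.mulVec ((ρ (τ g) : Matrix (Fin n) (Fin n) L).mulVec (x (τ h)))

/-- the Selmer cocycles: cocycles in `W` with restriction to `D` in `A`, whose conjugate is
orthogonal to `A` -/
def Sel (χ : Γ →* ℤ_[2]ˣ) (ρ : Γ →* Matrix.GeneralLinearGroup (Fin n) L)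
    (τ : Γ →* Γ) (B : Matrix (Fin n) (Fin n) L) (Dd : Subgroup Γ)
    (W : Submodule L (Γ → Fin n → L)) (A : Submodule L (Dd → Fin n → L)) :
    Submodule L (Γ → Fin n → L) where
  carrier := {x | x ∈ W ∧ (fun d : Dd => x d) ∈ A ∧
    ∀ y ∈ A, cupD ρ τ B Dd y x ∈ CB2 (χ.comp Dd.subtype) L}
  add_mem' := by
    rintro x x' ⟨h1, h2, h3⟩ ⟨h1', h2', h3'⟩
    refine ⟨W.add_mem h1 h1', A.add_mem h2 h2', fun y hy => ?_⟩
    obtain ⟨β, hβ, hβ'⟩ := h3 y hy
    obtain ⟨γ, hγ, hγ'⟩ := h3' y hy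
    refine ⟨β + γ, hβ.add hγ, fun g h => ?_⟩
    have e1 : cupD ρ τ B Dd y (x + x') g h = cupD ρ τ B Dd y x g h + cupD ρ τ B Dd y x' g h := by
      simp only [cupD, Pi.add_apply, Matrix.mulVec_add, dotProduct_add]
    rw [e1, hβ', hγ']
    simp only [Pi.add_apply]
    ring
  zero_mem' := by
    refine ⟨W.zero_mem, A.zero_mem, fun y _ => ⟨0, continuous_const, fun g h => ?_⟩⟩
    simp [cupD]
  smul_mem' := by
    rintro a x ⟨h1, h2, h3⟩
    refine ⟨W.smul_mem a h1, A.smul_mem a h2, fun y hy => ?_⟩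
    obtain ⟨β, hβ, hβ'⟩ := h3 y hy
    refine ⟨a • β, hβ.const_smul a, fun g h => ?_⟩
    have e1 : cupD ρ τ B Dd y (a • x) g h = a * cupD ρ τ B Dd y x g h := by
      simp only [cupD, Pi.smul_apply, Matrix.mulVec_smul, dotProduct_smul, smul_eq_mul]
    rw [e1, hβ']
    simp only [Pi.smul_apply, smul_eq_mul]
    ring

end Sel

/-- Module PAR: parity from alternating forms. -/
def StPar : Prop :=
  ∀ (Γ : Type u) [Group Γ] [TopologicalSpace Γ] [IsTopologicalGroup Γ] [CompactSpace Γ]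
    (Dd : Subgroup Γ) (χ : Γ →* ℤ_[2]ˣ), Continuous χ →
    ∀ (τ : Γ →* Γ), Continuous τ → (∀ g, τ (τ g) = g) → (∀ g, χ (τ g) = χ g) →
    ∀ (L : Type) [NormedField L] [NormedAlgebra ℚ_[2] L] (n : ℕ)
    (ρ : Γ →* Matrix.GeneralLinearGroup (Fin n) L), Continuous ρ →
    ∀ (B : Matrix (Fin n) (Fin n) L), B.transpose = B →
    (∀ g, (ρ g : Matrix (Fin n) (Fin n) L).transpose * B * (ρ (τ g) : Matrix (Fin n) (Fin n) L) =
      chi χ L g • B) →
    ∀ W : Submodule L (Γ → Fin n → L), FiniteDimensional L W → W ≤ Z1 ρ →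
    (∀ y ∈ Z1 (ρ.comp Dd.subtype), ∃ x ∈ W, ∀ d : Dd, x d = y d) →
    (∀ x ∈ W, (∀ d : Dd, x d = 0) → x = 0) →
    (∃ z1 : Γ → Γ → L, ∀ x ∈ W, ∀ y ∈ W, ∃ a : L, (fun g h => x g ⬝ᵥ
      B.mulVec ((ρ (τ g) : Matrix (Fin n) (Fin n) L).mulVec (y (τ h))) - a * z1 g h)
        ∈ CB2 χ L) →
    (∀ x ∈ W, ∀ z : Γ → Γ → L, (∀ g h, z g h = x g ⬝ᵥ
      B.mulVec ((ρ (τ g) : Matrix (Fin n) (Fin n) L).mulVec (x (τ h)))) →
      (fun g h => z (τ g) (τ h) - z g h) ∈ CB2 χ L) →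
    ∀ A : Submodule L (Dd → Fin n → L), A ≤ Z1 (ρ.comp Dd.subtype) →
    FiniteDimensional L A ∧
    Module.finrank L (Sel χ ρ τ B Dd W A) % 2 = Module.finrank L A % 2

end BKPar
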