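import Mathlib
import Pool.Agent.Lib.MP_7c08ba_nt.Par.Stmts

set_option autoImplicit false

/-!
Module CONJ: conjugation of the absolute Galois group with complex conjugation.
-/

noncomputable section

namespace BKPar

open Pool.Agent.Lib.MP_7c08ba_nt NumberField

namespace Conj

section

variable {F : Type} [Field F] {c : AlgebraicClosure F ≃+* AlgebraicClosure F} {σ : F ≃+* F}
  (h : ∀ a, c (algebraMap F (AlgebraicClosure F) a) = algebraMap F (AlgebraicClosure F) (σ a))

lemma conj_apply (g : AbsGal F) (x : AlgebraicClosure F) :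
    conj c σ h g x = c (g (c.symm x)) := rfl

/-- Conjugation is continuous. -/
lemma continuous_conj : Continuous (conj c σ h) := by
  refine continuous_of_continuousAt_one _ ?_
  rw [ContinuousAt, map_one]
  intro s hs
  rw [krullTopology_mem_nhds_one_iff] at hs
  obtain ⟨E, hE, hEs⟩ := hs
  obtain ⟨t, ht⟩ : E.FG := IntermediateField.essFiniteType_iff.mp inferInstance
  have h1 : (⋂ x ∈ t, (MulAction.stabilizer (AbsGal F) (c.symm x) : Set (AbsGal F))) ∈
      nhds (1 : AbsGal F) := by
    rw [Filter.biInter_finset_mem]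
    intro x _
    exact (stabilizer_isOpen_of_isIntegral (K := F) (c.symm x)).mem_nhds (Subgroup.one_mem _)
  rw [Filter.mem_map]
  refine Filter.mem_of_superset h1 ?_
  intro g hg
  apply hEs
  rw [SetLike.mem_coe, IntermediateField.mem_fixingSubgroup_iff]
  have h2 := (IntermediateField.forall_mem_adjoin_smul_eq_self_iff F (S := (t : Set (AlgebraicClosure F)))
    (conj c σ h g)).mpr ?_
  · rw [ht] at h2
    exact h2
  · intro x hx
    have h3 : g (c.symm x) = c.symm x := by
      simp only [Set.mem_iInter] at hg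
      exact hg x hx
    rw [AlgEquiv.smul_def, conj_apply, h3, RingEquiv.apply_symm_apply]

/-- The cyclotomic character is invariant under conjugation. -/
lemma cyc_conj (g : AbsGal F) : cyc F (conj c σ h g) = cyc F g := by
  have h1 : MulSemiringAction.toRingAut (AbsGal F) (AlgebraicClosure F) (conj c σ h g) =
      c * MulSemiringAction.toRingAut (AbsGal F) (AlgebraicClosure F) g * c⁻¹ := by
    ext x
    rfl
  change cyclotomicCharacter (AlgebraicClosure F) 2
      (MulSemiringAction.toRingAut (AbsGal F) (AlgebraicClosure F) (conj c σ h g)) =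
    cyclotomicCharacter (AlgebraicClosure F) 2
      (MulSemiringAction.toRingAut (AbsGal F) (AlgebraicClosure F) g)
  rw [h1, map_mul, map_mul, map_inv, mul_comm (cyclotomicCharacter (AlgebraicClosure F) 2 c),
    mul_inv_cancel_right]

/-- Conjugation is an involution. -/
lemma conj_conj (hc : ∀ x, c (c x) = x) (g : AbsGal F) : conj c σ h (conj c σ h g) = g := by
  have hs : ∀ x, c.symm x = c x := fun x => by
    rw [RingEquiv.symm_apply_eq, hc]
  ext x
  rw [conj_apply, conj_apply, hs, hs, hc, hc]

/-- Conjugation maps inertia groups to inertia groups. -/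
lemma conj_inert (P : Ideal (AllInt F)) (g : AbsGal F) (hg : g ∈ inert F P) :
    conj c σ h g ∈ inert F (P.comap (RingOfIntegers.mapRingHom
      (c.symm : AlgebraicClosure F →+* AlgebraicClosure F))) := by
  intro x
  rw [Ideal.mem_comap]
  have h1 := hg (RingOfIntegers.mapRingHom
      (c.symm : AlgebraicClosure F →+* AlgebraicClosure F) x)
  have h2 : RingOfIntegers.mapRingHom (c.symm : AlgebraicClosure F →+* AlgebraicClosure F)
      (conj c σ h g • x - x) = g • RingOfIntegers.mapRingHom
      (c.symm : AlgebraicClosure F →+* AlgebraicClosure F) x -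
      RingOfIntegers.mapRingHom (c.symm : AlgebraicClosure F →+* AlgebraicClosure F) x := by
    apply RingOfIntegers.ext
    rw [map_sub]
    change c.symm (c (g (c.symm (x : AlgebraicClosure F)))) - c.symm (x : AlgebraicClosure F) =
      g (c.symm (x : AlgebraicClosure F)) - c.symm (x : AlgebraicClosure F)
    rw [RingEquiv.symm_apply_apply]
  rw [h2]
  exact h1

/-- Admissible subgroups are permuted. -/
lemma isAdm_comap (hc : ∀ x, c (c x) = x) (N : Subgroup (AbsGal F)) (hN : IsAdm F N) :
    IsAdm F (N.comap (conj c σ h)) := by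
  obtain ⟨h1, h2, ⟨k, hk⟩, h4⟩ := hN
  refine ⟨h1.comap _, h2.preimage (continuous_conj h), ⟨k, ?_⟩, ?_⟩
  · rw [Subgroup.index_comap_of_surjective, hk]
    intro g
    exact ⟨conj c σ h g, conj_conj h hc g⟩
  · intro P hP h2P g hg
    rw [Subgroup.mem_comap]
    refine h4 _ (Ideal.IsPrime.comap _ (hK := hP)) ?_ (conj_inert h P g hg)
    rw [Ideal.mem_comap, map_ofNat]
    exact h2P

lemma conj_mem_R (hc : ∀ x, c (c x) = x) (r : AbsGal F) (hr : r ∈ R F) :
    conj c σ h r ∈ R F := by
  rw [R, Subgroup.mem_sInf] at hr ⊢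
  intro N hN
  exact hr _ (isAdm_comap h hc N hN)

include h in
/-- Complex conjugation changes the sign of the square roots of `-1`. -/
lemma apply_i [CharZero F] {s : F} (hs : s ≠ 0) (hσ : σ s = -s) (hc : ∀ x, c (c x) = x)
    (i : AlgebraicClosure F) (hi : i ^ 2 = -1) : c i = -i := by
  have h1 : c i ^ 2 = i ^ 2 := by rw [← map_pow, hi, map_neg, map_one]
  rcases sq_eq_sq_iff_eq_or_eq_neg.mp h1 with h2 | h2
  · exfalso
    obtain ⟨t, ht⟩ := IsAlgClosed.exists_pow_nat_eq (algebraMap F (AlgebraicClosure F) s)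
      (n := 2) (by norm_num)
    have h3 : c t ^ 2 = (i * t) ^ 2 := by
      rw [← map_pow, ht, h, hσ, mul_pow, hi, ht, map_neg]
      ring
    have h4 : c (c t) = -t := by
      rcases sq_eq_sq_iff_eq_or_eq_neg.mp h3 with h5 | h5
      · rw [h5, map_mul, h2, h5, ← mul_assoc, ← sq, hi]
        ring
      · rw [h5, map_neg, map_mul, h2, h5, mul_neg, neg_neg, ← mul_assoc, ← sq, hi]
        ring
    rw [hc] at h4
    have h5 : t = 0 := self_eq_neg.mp h4
    rw [h5, zero_pow two_ne_zero] at ht
    exact hs ((map_eq_zero _).mp ht.symm)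
  · exact h2

end

end Conj

theorem stConj (_h : StAdm) : StConj := by
  intro F _ _ s c σ hcs hs
  exact ⟨Conj.continuous_conj hcs.h, Conj.conj_conj hcs.h hcs.hc, Conj.conj_mem_R hcs.h hcs.hc,
    Conj.cyc_conj hcs.h, Conj.apply_i hcs.h hs hcs.hσ hcs.hc⟩

end BKPar
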