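import Mathlib
import Pool.Agent.Lib.MP_7c08ba_nt.Par.Stmts

set_option autoImplicit false

/-!
Module LIFT: from classes modulo `2` and `4` to classes with `2`-adic coefficients, by successive
approximation.
-/

noncomputable section

namespace BKPar

open Filter Topology

universe u

namespace Lift

/-! ### Smooth functions -/

section Smooth

variable {G X Y : Type*} [Group G] [TopologicalSpace G]

theorem Loc1.of_isLocallyConstant [CompactSpace G] [NonarchimedeanGroup G]
    {f : G → X} (hf : IsLocallyConstant f) : Loc1 f := by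
  classical
  have h1 : ∀ g : G, ∃ V : OpenSubgroup G, ∀ w ∈ V, f (g * w) = f g := by
    intro g
    have ho : IsOpen {x | f (g * x) = f g} :=
      (hf.isOpen_fiber (f g)).preimage (continuous_const_mul g)
    obtain ⟨V, hV⟩ := NonarchimedeanGroup.is_nonarchimedean {x | f (g * x) = f g}
      (ho.mem_nhds (by simp))
    exact ⟨V, fun w hw => hV hw⟩
  choose V hV using h1
  obtain ⟨t, ht⟩ := isCompact_univ.elim_nhds_subcover (fun g => {x | g⁻¹ * x ∈ V g})
    (fun g _ => ((V g).isOpen.preimage (continuous_const_mul g⁻¹)).mem_nhds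
      (by simp [one_mem]))
  refine ⟨⨅ g ∈ t, (V g).toSubgroup, ?_, ?_⟩
  · have : ((⨅ g ∈ t, (V g).toSubgroup : Subgroup G) : Set G) =
        ⋂ g ∈ t, ((V g) : Set G) := by
      simp [Subgroup.coe_iInf]
    rw [this]
    exact isOpen_biInter_finset fun g _ => (V g).isOpen
  · intro g w hw
    have hg := ht.2 (Set.mem_univ g)
    simp only [Set.mem_iUnion, Set.mem_ofPred_eq] at hg
    obtain ⟨g0, hg0, hg1⟩ := hg
    have hw0 : w ∈ V g0 := by
      have := (Subgroup.mem_iInf.1 hw) g0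
      exact (Subgroup.mem_iInf.1 this) hg0
    have e1 : f g = f g0 := by
      have := hV g0 _ hg1
      rwa [mul_inv_cancel_left] at this
    have e2 : f (g * w) = f g0 := by
      have := hV g0 (g0⁻¹ * g * w) (mul_mem hg1 hw0)
      rwa [mul_assoc, mul_inv_cancel_left] at this
    rw [e1, e2]

theorem Loc2.of_isLocallyConstant [CompactSpace G] [NonarchimedeanGroup G]
    {f : G → G → X} (hf : IsLocallyConstant (Function.uncurry f)) : Loc2 f := by
  obtain ⟨W, hW, hW'⟩ := Loc1.of_isLocallyConstant hf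
  refine ⟨W.comap (MonoidHom.inl G G) ⊓ W.comap (MonoidHom.inr G G), ?_, ?_⟩
  · have h1 : IsOpen ((W.comap (MonoidHom.inl G G) : Subgroup G) : Set G) := by
      have : Continuous (fun g : G => ((g, 1) : G × G)) := by fun_prop
      exact hW.preimage this
    have h2 : IsOpen ((W.comap (MonoidHom.inr G G) : Subgroup G) : Set G) := by
      have : Continuous (fun g : G => ((1, g) : G × G)) := by fun_prop
      exact hW.preimage this
    exact h1.inter h2
  · intro g h w hw w' hw'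
    have h1 : ((w, w') : G × G) ∈ W := by
      have := mul_mem (Subgroup.mem_comap.1 hw.1) (Subgroup.mem_comap.1 hw'.2)
      simpa using this
    exact hW' (g, h) _ h1

theorem Loc1.isLocallyConstant [IsTopologicalGroup G] {f : G → X} (hf : Loc1 f) :
    IsLocallyConstant f := by
  obtain ⟨W, hW, hW'⟩ := hf
  rw [IsLocallyConstant.iff_exists_open]
  intro x
  refine ⟨{y | x⁻¹ * y ∈ W}, hW.preimage (continuous_const_mul x⁻¹), by simp [one_mem], ?_⟩
  intro y hy
  have := hW' x _ hy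
  rwa [mul_inv_cancel_left] at this

theorem Loc2.isLocallyConstant [IsTopologicalGroup G] {f : G → G → X} (hf : Loc2 f) :
    IsLocallyConstant (Function.uncurry f) := by
  obtain ⟨W, hW, hW'⟩ := hf
  rw [IsLocallyConstant.iff_exists_open]
  rintro ⟨x, y⟩
  refine ⟨{p | x⁻¹ * p.1 ∈ W ∧ y⁻¹ * p.2 ∈ W}, ?_, by simp [one_mem], ?_⟩
  · exact (hW.preimage ((continuous_const_mul x⁻¹).comp continuous_fst)).inter
      (hW.preimage ((continuous_const_mul y⁻¹).comp continuous_snd))
  · rintro ⟨a, b⟩ ⟨ha, hb⟩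
    have := hW' x y _ ha _ hb
    rw [mul_inv_cancel_left, mul_inv_cancel_left] at this
    exact this

theorem Loc1.comp_left {f : G → X} (hf : Loc1 f) (φ : X → Y) : Loc1 fun g => φ (f g) := by
  obtain ⟨W, hW, hW'⟩ := hf
  exact ⟨W, hW, fun g w hw => congrArg φ (hW' g w hw)⟩

theorem Loc2.comp_left {f : G → G → X} (hf : Loc2 f) (φ : X → Y) :
    Loc2 fun g h => φ (f g h) := by
  obtain ⟨W, hW, hW'⟩ := hf
  exact ⟨W, hW, fun g h w hw w' hw' => congrArg φ (hW' g h w hw w' hw')⟩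

theorem Loc1.map₂ {Z : Type*} {f : G → X} {f' : G → Y} (hf : Loc1 f) (hf' : Loc1 f')
    (φ : X → Y → Z) : Loc1 fun g => φ (f g) (f' g) := by
  obtain ⟨W, hW, hW'⟩ := hf
  obtain ⟨V, hV, hV'⟩ := hf'
  exact ⟨W ⊓ V, hW.inter hV, fun g w hw => congrArg₂ φ (hW' g w hw.1) (hV' g w hw.2)⟩

theorem Loc2.map₂ {Z : Type*} {f : G → G → X} {f' : G → G → Y} (hf : Loc2 f) (hf' : Loc2 f')
    (φ : X → Y → Z) : Loc2 fun g h => φ (f g h) (f' g h) := by
  obtain ⟨W, hW, hW'⟩ := hf
  obtain ⟨V, hV, hV'⟩ := hf'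
  exact ⟨W ⊓ V, hW.inter hV, fun g h w hw w' hw' =>
    congrArg₂ φ (hW' g h w hw.1 w' hw'.1) (hV' g h w hw.2 w' hw'.2)⟩

theorem Loc1.comp_hom {f : G → X} (hf : Loc1 f) (τ : G →* G) (hτ : Continuous τ) :
    Loc1 fun g => f (τ g) := by
  obtain ⟨W, hW, hW'⟩ := hf
  refine ⟨W.comap τ, hW.preimage hτ, fun g w hw => ?_⟩
  simp only [map_mul]
  exact hW' _ _ hw

end Smooth

/-! ### Cochains with coefficients in a ring -/

section Ring

variable {G A : Type*} [Group G] [CommRing A] (κ : G → A)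

/-- coboundary of a one-cochain -/
def dd (β : G → A) (g h : G) : A := κ g * β h - β (g * h) + β g

/-- two-cocycles -/
def IsC (z : G → G → A) : Prop :=
  ∀ g h k, κ g * z h k - z (g * h) k + z g (h * k) - z g h = 0

variable {κ}

theorem isC_dd (hκ : ∀ g h, κ (g * h) = κ g * κ h) (β : G → A) : IsC κ (dd κ β) := by
  intro g h k
  simp only [dd, hκ, mul_assoc]
  ring

end Ring

/-! ### Reduction modulo `2` and `4` -/

/-- reduction modulo `4` -/
abbrev r4 : ℤ_[2] →+* ZMod 4 := PadicInt.toZModPow (p := 2) 2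

/-- reduction of `ZMod 4` modulo `2` -/
abbrev redH : ZMod 4 →+* ZMod 2 := ZMod.castHom (show 2 ∣ 4 by norm_num) (ZMod 2)

theorem red_eq (x : ZMod 4) : red x = redH x := rfl

/-- reduction modulo `2` -/
abbrev r2 : ℤ_[2] →+* ZMod 2 := redH.comp r4

theorem r2_eq (x : ℤ_[2]) : r2 x = red (r4 x) := rfl

theorem r4_eq_zero {x : ℤ_[2]} (h : r4 x = 0) : ∃ y, x = 4 * y := by
  have h1 : x ∈ RingHom.ker (PadicInt.toZModPow (p := 2) 2 : ℤ_[2] →+* ZMod (2 ^ 2)) := h
  rw [PadicInt.ker_toZModPow, Ideal.mem_span_singleton] at h1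
  obtain ⟨y, hy⟩ := h1
  refine ⟨y, ?_⟩
  rw [hy]
  norm_num

theorem red_cases : ∀ t : ZMod 4, redH t = 0 → t = 0 ∨ t = 2 := by decide

theorem r2_eq_zero {x : ℤ_[2]} (h : r2 x = 0) : ∃ y, x = 2 * y := by
  rcases red_cases (r4 x) h with h1 | h1
  · obtain ⟨y, hy⟩ := r4_eq_zero h1
    exact ⟨2 * y, by rw [hy]; ring⟩
  · have h2 : r4 (x - 2) = 0 := by
      rw [map_sub, h1, map_ofNat, sub_self]
    obtain ⟨y, hy⟩ := r4_eq_zero h2
    exact ⟨2 * y + 1, by linear_combination hy⟩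

theorem r2_unit (u : ℤ_[2]ˣ) : r2 (u : ℤ_[2]) = 1 := by
  have h1 : IsUnit (r2 (u : ℤ_[2])) := u.isUnit.map r2
  have h2 : ∀ x : ZMod 2, IsUnit x → x = 1 := by decide
  exact h2 _ h1

theorem r2_val (x : ZMod 2) : r2 ((x.val : ℕ) : ℤ_[2]) = x := by
  rw [map_natCast, ZMod.natCast_zmod_val]

theorem r4_val (x : ZMod 4) : r4 ((x.val : ℕ) : ℤ_[2]) = x := by
  rw [map_natCast, ZMod.natCast_zmod_val]

theorem isLocallyConstant_r4 : IsLocallyConstant (fun x : ℤ_[2] => r4 x) := by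
  rw [IsLocallyConstant.iff_exists_open]
  intro x
  refine ⟨Metric.ball x (1 / 4), Metric.isOpen_ball, Metric.mem_ball_self (by norm_num), ?_⟩
  intro y hy
  rw [Metric.mem_ball, dist_eq_norm] at hy
  have h1 : ‖y - x‖ ≤ ((2 : ℕ) : ℝ) ^ (-(2 : ℕ) : ℤ) := by
    refine hy.le.trans ?_
    norm_num
  rw [PadicInt.norm_le_pow_iff_mem_span_pow, ← PadicInt.ker_toZModPow] at h1
  have h2 : r4 (y - x) = 0 := h1
  rw [map_sub, sub_eq_zero] at h2
  exact h2

theorem continuous_of_coe {X : Type*} [TopologicalSpace X] {f : X → ℤ_[2]}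
    (h : Continuous fun x => ((f x : ℤ_[2]) : ℚ_[2])) : Continuous f :=
  continuous_induced_rng.2 h

theorem norm_two_pow (n : ℕ) : ‖(2 : ℤ_[2]) ^ n‖ = (1 / 2 : ℝ) ^ n := by
  have h1 : ‖((2 : ℕ) : ℤ_[2])‖ = ((2 : ℕ) : ℝ)⁻¹ := PadicInt.norm_p
  rw [norm_pow]
  congr 1
  rw [Nat.cast_ofNat] at h1
  rw [h1]
  norm_num

/-! ### Successive approximation over `ℤ₂` -/

section Int

variable {G : Type*} [Group G] [TopologicalSpace G] (κ : G → ℤ_[2])

/-- continuous cocycles with values in `ℤ₂` -/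
def IZ (z : G → G → ℤ_[2]) : Prop := Continuous (Function.uncurry z) ∧ IsC κ z

variable {κ}

theorem continuous_dd [IsTopologicalGroup G] (hc : Continuous κ) {b : G → ℤ_[2]}
    (hb : Continuous b) : Continuous (Function.uncurry (dd κ b)) := by
  unfold dd Function.uncurry
  fun_prop

/-- division by `m` -/
theorem exists_div [IsTopologicalGroup G] (hκ : ∀ g h, κ (g * h) = κ g * κ h)
    (hc : Continuous κ) {z : G → G → ℤ_[2]} (hz : IZ κ z) {b : G → ℤ_[2]} (hb : Continuous b)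
    {m : ℤ_[2]} (hm : m ≠ 0) {w : G → G → ℤ_[2]} (hw : ∀ g h, z g h - dd κ b g h = m * w g h) :
    IZ κ w := by
  constructor
  · apply continuous_of_coe
    have hm' : ((m : ℤ_[2]) : ℚ_[2]) ≠ 0 := by
      intro h
      exact hm (PadicInt.ext h)
    have h1 : (fun x : G × G => ((Function.uncurry w x : ℤ_[2]) : ℚ_[2])) =
        fun x : G × G => (((Function.uncurry z x - Function.uncurry (dd κ b) x : ℤ_[2])) : ℚ_[2]) /
          ((m : ℤ_[2]) : ℚ_[2]) := by
      funext x
      rw [eq_div_iff hm', mul_comm, ← PadicInt.coe_mul]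
      congr 1
      exact (hw x.1 x.2).symm
    rw [h1]
    have h2 : Continuous fun x : G × G => (Function.uncurry z x - Function.uncurry (dd κ b) x) :=
      hz.1.sub (continuous_dd hc hb)
    exact (continuous_subtype_val.comp h2).div_const _
  · intro g h k
    have h1 := hz.2 g h k
    have h2 := isC_dd hκ b g h k
    apply mul_left_cancel₀ hm
    rw [mul_zero]
    linear_combination h1 - h2 - κ g * hw h k + hw (g * h) k - hw g (h * k) + hw g h

theorem iter [CompactSpace G] [IsTopologicalGroup G] (z1 : G → G → ℤ_[2])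
    (H : ∀ z, IZ κ z → ∃ (e : ℤ_[2]) (b : G → ℤ_[2]) (z' : G → G → ℤ_[2]), Continuous b ∧
      IZ κ z' ∧ ∀ g h, z g h = e * z1 g h + dd κ b g h + 2 * z' g h) :
    ∀ z, IZ κ z → ∃ (a : ℤ_[2]) (β : G → ℤ_[2]), Continuous β ∧
      ∀ g h, z g h = a * z1 g h + dd κ β g h := by
  intro z hz
  have H' : ∀ z : {z // IZ κ z}, ∃ (e : ℤ_[2]) (b : G → ℤ_[2]) (z' : {z // IZ κ z}),
      Continuous b ∧ ∀ g h, z.1 g h = e * z1 g h + dd κ b g h + 2 * z'.1 g h := by
    intro z
    obtain ⟨e, b, z', h1, h2, h3⟩ := H z.1 z.2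
    exact ⟨e, b, ⟨z', h2⟩, h1, h3⟩
  choose E B N hB hN using H'
  set zs : ℕ → {z // IZ κ z} := fun n => N^[n] ⟨z, hz⟩ with hzs
  have hE : Summable fun n => (2 : ℤ_[2]) ^ n * E (zs n) := by
    refine Summable.of_norm_bounded (g := fun n => (1 / 2 : ℝ) ^ n) (summable_geometric_two) ?_
    intro n
    rw [norm_mul, norm_two_pow]
    exact mul_le_of_le_one_right (by positivity) (PadicInt.norm_le_one _)
  have hBs : ∀ g, Summable fun n => (2 : ℤ_[2]) ^ n * B (zs n) g := by
    intro g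
    refine Summable.of_norm_bounded (g := fun n => (1 / 2 : ℝ) ^ n) (summable_geometric_two) ?_
    intro n
    rw [norm_mul, norm_two_pow]
    exact mul_le_of_le_one_right (by positivity) (PadicInt.norm_le_one _)
  have key : ∀ m g h, z g h = (∑ n ∈ Finset.range m, (2 : ℤ_[2]) ^ n * E (zs n)) * z1 g h +
      dd κ (fun g => ∑ n ∈ Finset.range m, (2 : ℤ_[2]) ^ n * B (zs n) g) g h +
      2 ^ m * (zs m).1 g h := by
    intro m
    induction m with
    | zero => intro g h; simp [dd, hzs]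
    | succ m ih =>
      intro g h
      have h1 := ih g h
      have h2 := hN (zs m) g h
      have h3 : zs (m + 1) = N (zs m) := by
        simp only [hzs]
        exact Function.iterate_succ_apply' N m _
      rw [h3]
      simp only [dd, Finset.sum_range_succ] at h1 h2 ⊢
      rw [pow_succ]
      linear_combination h1 + 2 ^ m * h2
  refine ⟨∑' n, (2 : ℤ_[2]) ^ n * E (zs n), fun g => ∑' n, (2 : ℤ_[2]) ^ n * B (zs n) g, ?_, ?_⟩
  · refine continuous_tsum (u := fun n => (1 / 2 : ℝ) ^ n) ?_ summable_geometric_two ?_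
    · intro n
      exact continuous_const.mul (hB _)
    · intro n g
      rw [norm_mul, norm_two_pow]
      exact mul_le_of_le_one_right (by positivity) (PadicInt.norm_le_one _)
  · intro g h
    have t1 := hE.hasSum.tendsto_sum_nat
    have t2 := fun g => (hBs g).hasSum.tendsto_sum_nat
    have t3 : Tendsto (fun m => (2 : ℤ_[2]) ^ m * (zs m).1 g h) atTop (𝓝 0) := by
      rw [tendsto_zero_iff_norm_tendsto_zero]
      refine squeeze_zero (fun _ => norm_nonneg _) (g := fun n => (1 / 2 : ℝ) ^ n) ?_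
        (tendsto_pow_atTop_nhds_zero_of_lt_one (by norm_num) (by norm_num))
      intro n
      rw [norm_mul, norm_two_pow]
      exact mul_le_of_le_one_right (by positivity) (PadicInt.norm_le_one _)
    have t4 := ((t1.mul_const (z1 g h)).add
      ((((t2 h).const_mul (κ g)).sub (t2 (g * h))).add (t2 g))).add t3
    rw [add_zero] at t4
    have t5 : Tendsto (fun _ : ℕ => z g h) atTop (𝓝 (z g h)) := tendsto_const_nhds
    refine tendsto_nhds_unique t5 (t4.congr ?_)
    intro m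
    exact (key m g h).symm

end Int

/-! ### The steps modulo `2` and `4` -/

/-- the inclusion of `ZMod 2` in `ZMod 4` -/
def iota (x : ZMod 2) : ZMod 4 := if x = 0 then 0 else 2

/-- a section of `iota` -/
def pi2 (x : ZMod 4) : ZMod 2 := if x = 0 then 0 else 1

theorem iota_pi2 : ∀ t : ZMod 4, redH t = 0 → iota (pi2 t) = t := by decide

theorem pi2_cocycle : ∀ c x y z t : ZMod 4, redH c = 1 → redH x = 0 → redH y = 0 → redH z = 0 →
    redH t = 0 → c * x - y + z - t = 0 → pi2 x + pi2 y + pi2 z + pi2 t = 0 := by decide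

theorem iota_cob : ∀ (c : ZMod 4) (x y z : ZMod 2), redH c = 1 →
    iota (x + y + z) = c * iota x - iota y + iota z := by decide

theorem iota_red : ∀ x : ZMod 4, iota (redH x) = 2 * x := by decide

theorem iota_add : ∀ x y : ZMod 2, iota (x + y) = iota x + iota y := by decide

theorem iota_self : ∀ x : ZMod 2, iota x + iota x = 0 := by decide

section Alg

variable {G : Type*} [Group G] (χ : G →* ℤ_[2]ˣ)

/-- the character with values in `ℤ₂` -/
def kap (g : G) : ℤ_[2] := ((χ g : ℤ_[2]ˣ) : ℤ_[2])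

variable {χ}

theorem kap_mul (g h : G) : kap χ (g * h) = kap χ g * kap χ h := by
  simp [kap]

theorem r2_kap (g : G) : r2 (kap χ g) = 1 := r2_unit _

theorem chi4_eq (g : G) : chi4 χ g = r4 (kap χ g) := rfl

theorem red_chi4 (g : G) : redH (chi4 χ g) = 1 := r2_unit _

theorem chi4_mul (g h : G) : chi4 χ (g * h) = chi4 χ g * chi4 χ h := by
  rw [chi4_eq, chi4_eq, chi4_eq, kap_mul, map_mul]

theorem z2_of_Z24 [TopologicalSpace G] {z : G → G → ZMod 4} (hz : z ∈ Z24 χ) :
    (fun g h => redH (z g h)) ∈ Z2 G := by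
  refine ⟨Loc2.comp_left hz.1 _, ?_⟩
  intro g h k
  have h1 := congrArg redH (hz.2 g h k)
  rw [map_sub, map_add, map_sub, map_mul, red_chi4, map_zero] at h1
  have h2 : ∀ a b c d : ZMod 2, 1 * a - b + c - d = 0 → a + b + c + d = 0 := by decide
  exact h2 _ _ _ _ h1

theorem continuous_kap [TopologicalSpace G] (hχ : Continuous χ) : Continuous (kap χ) :=
  Units.continuous_val.comp hχ

end Alg

section Steps

variable {G : Type*} [Group G] [TopologicalSpace G] [CompactSpace G]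
  [NonarchimedeanGroup G] {χ : G →* ℤ_[2]ˣ}

theorem z2_of_IZ {z : G → G → ℤ_[2]} (hz : IZ (kap χ) z) : (fun g h => r2 (z g h)) ∈ Z2 G := by
  constructor
  · apply Loc2.of_isLocallyConstant
    have h1 : IsLocallyConstant (fun x : ℤ_[2] => r2 x) := isLocallyConstant_r4.comp redH
    exact h1.comp_continuous hz.1
  · intro g h k
    have h1 := congrArg r2 (hz.2 g h k)
    rw [map_sub, map_add, map_sub, map_mul, r2_kap, map_zero] at h1
    have h2 : ∀ a b c d : ZMod 2, 1 * a - b + c - d = 0 → a + b + c + d = 0 := by decide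
    exact h2 _ _ _ _ h1

theorem z24_of_IZ {z : G → G → ℤ_[2]} (hz : IZ (kap χ) z) :
    (fun g h => r4 (z g h)) ∈ Z24 χ := by
  constructor
  · apply Loc2.of_isLocallyConstant
    exact isLocallyConstant_r4.comp_continuous hz.1
  · intro g h k
    have h1 := congrArg r4 (hz.2 g h k)
    rw [map_sub, map_add, map_sub, map_mul, map_zero] at h1
    exact h1

omit [CompactSpace G] in
/-- reduction in `B2`: divide by `2` -/
theorem step2 (hχ : Continuous χ) {z : G → G → ℤ_[2]} (hz : IZ (kap χ) z)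
    (hb : (fun g h => r2 (z g h)) ∈ B2 G) :
    ∃ (b : G → ℤ_[2]) (z' : G → G → ℤ_[2]), Continuous b ∧ IZ (kap χ) z' ∧
      ∀ g h, z g h = dd (kap χ) b g h + 2 * z' g h := by
  obtain ⟨β, hβ, hβ'⟩ := hb
  have hbc : Continuous fun g => (((β g).val : ℕ) : ℤ_[2]) :=
    ((Loc1.isLocallyConstant hβ).comp fun x : ZMod 2 => ((x.val : ℕ) : ℤ_[2])).continuous
  have h1 : ∀ g h, ∃ y, z g h - dd (kap χ) (fun g => (((β g).val : ℕ) : ℤ_[2])) g h = 2 * y := by
    intro g h
    apply r2_eq_zero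
    have h2 : r2 (z g h) = β h + β (g * h) + β g := hβ' g h
    simp only [dd]
    rw [map_sub, map_add, map_sub, map_mul, r2_kap, r2_val, r2_val, r2_val, h2]
    have h3 : ∀ a b c : ZMod 2, a + b + c - (1 * a - b + c) = 0 := by decide
    exact h3 _ _ _
  choose w hw using h1
  refine ⟨_, w, hbc, exists_div kap_mul (continuous_kap hχ) hz hbc two_ne_zero hw, ?_⟩
  intro g h
  linear_combination hw g h

theorem loc2_dd4 (hχ : Continuous χ) {b : G → ZMod 4} (hb : Loc1 b) :
    Loc2 (dd (chi4 χ) b) := by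
  apply Loc2.of_isLocallyConstant
  have h1 : IsLocallyConstant (chi4 χ) := isLocallyConstant_r4.comp_continuous (continuous_kap hχ)
  have h2 := Loc1.isLocallyConstant hb
  have h3 : IsLocallyConstant fun p : G × G => chi4 χ p.1 := h1.comp_continuous continuous_fst
  have h4 : IsLocallyConstant fun p : G × G => b p.1 := h2.comp_continuous continuous_fst
  have h5 : IsLocallyConstant fun p : G × G => b p.2 := h2.comp_continuous continuous_snd
  have h6 : IsLocallyConstant fun p : G × G => b (p.1 * p.2) := h2.comp_continuous continuous_mul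
  exact ((h3.mul h5).sub h6).add h4

/-- comparison modulo `4` -/
theorem compare4 (hχ : Continuous χ)
    (hline : ∀ z ∈ Z2 G, ∀ z' ∈ Z2 G, z ∉ B2 G → z' ∉ B2 G → z + z' ∈ B2 G)
    {m z4 : G → G → ZMod 4} (hm : m ∈ Z24 χ) (hz : z4 ∈ Z24 χ)
    (hm' : (fun g h => redH (m g h)) ∉ B2 G) (hz' : (fun g h => redH (z4 g h)) ∉ B2 G) :
    ∃ (c : ZMod 4) (γ : G → ZMod 4), Loc1 γ ∧
      ∀ g h, m g h = c * z4 g h + dd (chi4 χ) γ g h := by
  obtain ⟨β, hβ, hβ'⟩ := hline _ (z2_of_Z24 hm) _ (z2_of_Z24 hz) hm' hz'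
  set b : G → ZMod 4 := fun g => (((β g).val : ℕ) : ZMod 4) with hb
  have hbL : Loc1 b := Loc1.comp_left hβ fun x : ZMod 2 => ((x.val : ℕ) : ZMod 4)
  have hbr : ∀ g, redH (b g) = β g := by
    intro g
    simp only [hb]
    rw [map_natCast, ZMod.natCast_zmod_val]
  set t : G → G → ZMod 4 := fun g h => m g h - z4 g h - dd (chi4 χ) b g h with ht
  have htr : ∀ g h, redH (t g h) = 0 := by
    intro g h
    have h1 : redH (m g h) + redH (z4 g h) = β h + β (g * h) + β g := hβ' g h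
    simp only [ht, dd]
    rw [map_sub, map_sub, map_add, map_sub, map_mul, red_chi4, hbr, hbr, hbr]
    have h2 : ∀ a b x y z : ZMod 2, a + b = x + y + z → a - b - (1 * x - y + z) = 0 := by decide
    exact h2 _ _ _ _ _ h1
  have htC : IsC (chi4 χ) t := by
    intro g h k
    have h1 := hm.2 g h k
    have h2 := hz.2 g h k
    have h3 := isC_dd (κ := chi4 χ) chi4_mul b g h k
    simp only [ht]
    linear_combination h1 - h2 - h3
  have htL : Loc2 t :=
    Loc2.map₂ (Loc2.map₂ hm.1 hz.1 fun x y => x - y) (loc2_dd4 hχ hbL) fun x y => x - y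
  set w : G → G → ZMod 2 := fun g h => pi2 (t g h) with hw
  have hwt : ∀ g h, iota (w g h) = t g h := fun g h => iota_pi2 _ (htr g h)
  have hwZ : w ∈ Z2 G := by
    refine ⟨Loc2.comp_left htL _, fun g h k => ?_⟩
    exact pi2_cocycle _ _ _ _ _ (red_chi4 g) (htr _ _) (htr _ _) (htr _ _) (htr _ _) (htC g h k)
  by_cases hwB : w ∈ B2 G
  · obtain ⟨β', hβ1, hβ2⟩ := hwB
    refine ⟨1, fun g => b g + iota (β' g),
      Loc1.map₂ hbL hβ1 fun x y => x + iota y, fun g h => ?_⟩
    have h1 := hwt g h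
    rw [hβ2 g h, iota_cob _ _ _ _ (red_chi4 (χ := χ) g)] at h1
    simp only [ht, dd] at h1 ⊢
    linear_combination -h1
  · obtain ⟨β', hβ1, hβ2⟩ := hline _ hwZ _ (z2_of_Z24 hz) hwB hz'
    refine ⟨3, fun g => b g + iota (β' g),
      Loc1.map₂ hbL hβ1 fun x y => x + iota y, fun g h => ?_⟩
    have h1 := hwt g h
    have h2 : w g h + redH (z4 g h) = β' h + β' (g * h) + β' g := hβ2 g h
    have h3 : w g h = (β' h + β' (g * h) + β' g) + redH (z4 g h) := by
      rw [← h2]
      have : ∀ x y : ZMod 2, x = x + y + y := by decide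
      exact this _ _
    rw [h3, iota_add, iota_cob _ _ _ _ (red_chi4 (χ := χ) g), iota_red] at h1
    simp only [ht, dd] at h1 ⊢
    linear_combination -h1

/-- Summary over `ℤ₂`. -/
theorem main_int (hχ : Continuous χ) (τ : G →* G) (hτ : Continuous τ)
    (hττ : ∀ g, τ (τ g) = g) (hχτ : ∀ g, χ (τ g) = χ g)
    (hline : ∀ z ∈ Z2 G, ∀ z' ∈ Z2 G, z ∉ B2 G → z' ∉ B2 G → z + z' ∈ B2 G)
    (z4 : G → G → ZMod 4) (hz4 : z4 ∈ Z24 χ) (hr : (fun g h => red (z4 g h)) ∉ B2 G)
    (hz4τ : (fun g h => z4 (τ g) (τ h) - z4 g h) ∈ B24 χ) :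
    ∃ z1 : G → G → ℤ_[2], IZ (kap χ) z1 ∧
      (∀ z, IZ (kap χ) z → ∃ (a : ℤ_[2]) (β : G → ℤ_[2]), Continuous β ∧
        ∀ g h, z g h = a * z1 g h + dd (kap χ) β g h) ∧
      ∃ (c : ℤ_[2]) (β : G → ℤ_[2]), c ≠ 0 ∧ Continuous β ∧
        ∀ g h, c * (z1 (τ g) (τ h) - z1 g h) = dd (kap χ) β g h := by
  by_cases hA : ∃ z, IZ (kap χ) z ∧ (fun g h => r2 (z g h)) ∉ B2 G
  · obtain ⟨z1, hz1, hz1'⟩ := hA
    have hit : ∀ z, IZ (kap χ) z → ∃ (a : ℤ_[2]) (β : G → ℤ_[2]), Continuous β ∧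
        ∀ g h, z g h = a * z1 g h + dd (kap χ) β g h := by
      apply iter
      intro z hz
      by_cases hB : (fun g h => r2 (z g h)) ∈ B2 G
      · obtain ⟨b, z', hb, hz', h1⟩ := step2 hχ hz hB
        refine ⟨0, b, z', hb, hz', fun g h => ?_⟩
        rw [h1 g h]
        ring
      · have h2 : IZ (kap χ) (fun g h => z g h - z1 g h) := by
          refine ⟨hz.1.sub hz1.1, fun g h k => ?_⟩
          have h3 := hz.2 g h k
          have h4 := hz1.2 g h k
          linear_combination h3 - h4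
        have h5 : (fun g h => r2 (z g h - z1 g h)) ∈ B2 G := by
          have h6 := hline _ (z2_of_IZ hz) _ (z2_of_IZ hz1) hB hz1'
          obtain ⟨β, hβ, hβ'⟩ := h6
          refine ⟨β, hβ, fun g h => ?_⟩
          have h7 : r2 (z g h) + r2 (z1 g h) = β h + β (g * h) + β g := hβ' g h
          rw [← h7]
          change r2 (z g h - z1 g h) = _
          rw [map_sub]
          have : ∀ x y : ZMod 2, x - y = x + y := by decide
          exact this _ _
        obtain ⟨b, z', hb, hz', h1⟩ := step2 hχ h2 h5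
        refine ⟨1, b, z', hb, hz', fun g h => ?_⟩
        have := h1 g h
        linear_combination this
    refine ⟨z1, hz1, hit, ?_⟩
    obtain ⟨c, γ, hγ, hm⟩ := compare4 hχ hline (z24_of_IZ hz1) hz4 hz1' hr
    obtain ⟨η, hη, hη'⟩ := hz4τ
    have hχ4 : ∀ g, chi4 χ (τ g) = chi4 χ g := by
      intro g
      rw [chi4, hχτ, chi4]
    have hκτ : ∀ g, kap χ (τ g) = kap χ g := by
      intro g
      rw [kap, hχτ, kap]
    set δ : G → ZMod 4 := fun g => c * η g + γ (τ g) - γ g with hδ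
    have hδL : Loc1 δ :=
      Loc1.map₂ (Loc1.map₂ hη (Loc1.comp_hom hγ τ hτ) fun x y => c * x + y) hγ fun x y => x - y
    have h1 : ∀ g h, r4 (z1 (τ g) (τ h) - z1 g h) = dd (chi4 χ) δ g h := by
      intro g h
      have e1 := hm g h
      have e2 := hm (τ g) (τ h)
      have e3 := hη' g h
      simp only [dd, hχ4, ← map_mul τ] at e1 e2 e3 ⊢
      rw [map_sub]
      simp only [hδ]
      linear_combination e2 - e1 + c * e3
    set y : G → ℤ_[2] := fun g => (((δ g).val : ℕ) : ℤ_[2]) with hy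
    have hyc : Continuous y :=
      ((Loc1.isLocallyConstant hδL).comp fun x : ZMod 4 => ((x.val : ℕ) : ℤ_[2])).continuous
    have hD : IZ (kap χ) (fun g h => z1 (τ g) (τ h) - z1 g h) := by
      refine ⟨?_, fun g h k => ?_⟩
      · have : Continuous fun p : G × G => Function.uncurry z1 (τ p.1, τ p.2) :=
          hz1.1.comp (by fun_prop)
        exact this.sub hz1.1
      · have e1 := hz1.2 g h k
        have e2 := hz1.2 (τ g) (τ h) (τ k)
        simp only [hκτ, ← map_mul τ] at e2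
        linear_combination e2 - e1
    have h2 : ∀ g h, ∃ x, (z1 (τ g) (τ h) - z1 g h) - dd (kap χ) y g h = 4 * x := by
      intro g h
      apply r4_eq_zero
      rw [map_sub, h1 g h]
      simp only [dd, hy]
      rw [map_add, map_sub, map_mul, r4_val, r4_val, r4_val, ← chi4_eq, sub_self]
    choose w hw using h2
    have h4 : (4 : ℤ_[2]) ≠ 0 := by norm_num
    have hwZ := exists_div kap_mul (continuous_kap hχ) hD hyc h4 hw
    obtain ⟨a, β, hβ, hβ'⟩ := hit w hwZ
    set B : G → ℤ_[2] := fun g => y g + 4 * β g with hB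
    have hBc : Continuous B := hyc.add (continuous_const.mul hβ)
    have h5 : ∀ g h, z1 (τ g) (τ h) = (1 + 4 * a) * z1 g h + dd (kap χ) B g h := by
      intro g h
      have e1 := hw g h
      have e2 := hβ' g h
      simp only [dd, hB] at e1 e2 ⊢
      linear_combination e1 + 4 * e2
    have h6 : ∀ g h, (1 - (1 + 4 * a) ^ 2) * z1 g h =
        dd (kap χ) (fun g => (1 + 4 * a) * B g + B (τ g)) g h := by
      intro g h
      have e1 := h5 g h
      have e2 := h5 (τ g) (τ h)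
      rw [hττ, hττ] at e2
      simp only [dd, hκτ, ← map_mul τ] at e1 e2 ⊢
      linear_combination e2 + (1 + 4 * a) * e1
    by_cases ha : a = 0
    · refine ⟨1, B, one_ne_zero, hBc, fun g h => ?_⟩
      have e1 := h5 g h
      rw [ha] at e1
      linear_combination e1
    · refine ⟨1 - (1 + 4 * a) ^ 2, fun g => 4 * a * ((1 + 4 * a) * B g + B (τ g)) +
        (1 - (1 + 4 * a) ^ 2) * B g, ?_, ?_, fun g h => ?_⟩
      · have e1 : 1 - (1 + 4 * a) ^ 2 = -(8 * a * (1 + 2 * a)) := by ring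
        rw [e1, neg_ne_zero]
        refine mul_ne_zero (mul_ne_zero (by norm_num) ha) ?_
        intro h7
        have h8 := congrArg r2 h7
        rw [map_add, map_mul, map_one, map_ofNat, map_zero] at h8
        have h9 : ∀ x : ZMod 2, 1 + 2 * x ≠ 0 := by decide
        exact h9 _ h8
      · have : Continuous fun g => B (τ g) := hBc.comp hτ
        fun_prop
      · have e1 := h5 g h
        have e2 := h6 g h
        simp only [dd] at e1 e2 ⊢
        linear_combination (1 - (1 + 4 * a) ^ 2) * e1 + 4 * a * e2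
  · push Not at hA
    refine ⟨fun _ _ => 0, ⟨continuous_const, fun g h k => by simp⟩, ?_, 1, fun _ => 0,
      one_ne_zero, continuous_const, fun g h => by simp [dd]⟩
    apply iter
    intro z hz
    obtain ⟨b, z', hb, hz', h1⟩ := step2 hχ hz (hA z hz)
    refine ⟨0, b, z', hb, hz', fun g h => ?_⟩
    rw [h1 g h]
    ring

end Steps

/-! ### Coefficients in `ℚ₂` and in `L` -/

section Rat

variable {G : Type*} [Group G] [TopologicalSpace G]

/-- the character with values in `ℚ₂` -/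
def kapQ (χ : G →* ℤ_[2]ˣ) (g : G) : ℚ_[2] := ((kap χ g : ℤ_[2]) : ℚ_[2])

variable {χ : G →* ℤ_[2]ˣ}

/-- scaling to integral values -/
theorem exists_scale [CompactSpace G] {z : G → G → ℚ_[2]} (hz : Continuous (Function.uncurry z))
    (hC : IsC (kapQ χ) z) : ∃ (N : ℕ) (z0 : G → G → ℤ_[2]), IZ (kap χ) z0 ∧
      ∀ g h, (2 : ℚ_[2]) ^ N * z g h = ((z0 g h : ℤ_[2]) : ℚ_[2]) := by
  obtain ⟨C, hC'⟩ := isCompact_univ.exists_bound_of_continuousOn hz.continuousOn
  obtain ⟨N, hN⟩ := pow_unbounded_of_one_lt C (one_lt_two)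
  have h2 : ‖(2 : ℚ_[2])‖ = 1 / 2 := by
    have h1 : ‖((2 : ℕ) : ℚ_[2])‖ = ((2 : ℕ) : ℝ)⁻¹ := Padic.norm_p
    rw [Nat.cast_ofNat] at h1
    rw [h1]
    norm_num
  have h3 : ∀ g h, ‖(2 : ℚ_[2]) ^ N * z g h‖ ≤ 1 := by
    intro g h
    have h4 : ‖z g h‖ ≤ C := hC' (g, h) (Set.mem_univ _)
    rw [norm_mul, norm_pow, h2, one_div, inv_pow, inv_mul_le_iff₀ (by positivity), mul_one]
    exact h4.trans hN.le
  refine ⟨N, fun g h => ⟨(2 : ℚ_[2]) ^ N * z g h, h3 g h⟩, ⟨?_, ?_⟩, fun g h => rfl⟩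
  · apply continuous_of_coe
    exact continuous_const.mul hz
  · intro g h k
    apply PadicInt.ext
    have h5 := hC g h k
    simp only [PadicInt.coe_sub, PadicInt.coe_add, PadicInt.coe_mul, PadicInt.coe_zero]
    change kapQ χ g * ((2 : ℚ_[2]) ^ N * z h k) - ((2 : ℚ_[2]) ^ N * z (g * h) k) +
      ((2 : ℚ_[2]) ^ N * z g (h * k)) - ((2 : ℚ_[2]) ^ N * z g h) = 0
    linear_combination (2 : ℚ_[2]) ^ N * h5

omit [TopologicalSpace G] in
theorem coe_dd (β : G → ℤ_[2]) (g h : G) :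
    ((dd (kap χ) β g h : ℤ_[2]) : ℚ_[2]) = dd (kapQ χ) (fun g => ((β g : ℤ_[2]) : ℚ_[2])) g h := by
  simp only [dd, kapQ, PadicInt.coe_sub, PadicInt.coe_add, PadicInt.coe_mul]

/-- Summary over `ℚ₂`. -/
theorem main_rat [CompactSpace G] [NonarchimedeanGroup G]
    (hχ : Continuous χ) (τ : G →* G) (hτ : Continuous τ)
    (hττ : ∀ g, τ (τ g) = g) (hχτ : ∀ g, χ (τ g) = χ g)
    (hline : ∀ z ∈ Z2 G, ∀ z' ∈ Z2 G, z ∉ B2 G → z' ∉ B2 G → z + z' ∈ B2 G)
    (z4 : G → G → ZMod 4) (hz4 : z4 ∈ Z24 χ) (hr : (fun g h => red (z4 g h)) ∉ B2 G)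
    (hz4τ : (fun g h => z4 (τ g) (τ h) - z4 g h) ∈ B24 χ) :
    ∃ z1 : G → G → ℚ_[2], Continuous (Function.uncurry z1) ∧ IsC (kapQ χ) z1 ∧
      (∀ z, Continuous (Function.uncurry z) → IsC (kapQ χ) z →
        ∃ (a : ℚ_[2]) (β : G → ℚ_[2]), Continuous β ∧
        ∀ g h, z g h = a * z1 g h + dd (kapQ χ) β g h) ∧
      (∀ z, Continuous (Function.uncurry z) → IsC (kapQ χ) z →
        ∃ (β : G → ℚ_[2]), Continuous β ∧
        ∀ g h, z (τ g) (τ h) - z g h = dd (kapQ χ) β g h) := by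
  obtain ⟨y1, hy1, hit, c, γ, hc, hγ, hγ'⟩ :=
    main_int hχ τ hτ hττ hχτ hline z4 hz4 hr hz4τ
  have hc' : ((c : ℤ_[2]) : ℚ_[2]) ≠ 0 := fun h => hc (PadicInt.ext h)
  have h2 : (2 : ℚ_[2]) ≠ 0 := two_ne_zero
  have hline' : ∀ z : G → G → ℚ_[2], Continuous (Function.uncurry z) → IsC (kapQ χ) z →
        ∃ (a : ℚ_[2]) (β : G → ℚ_[2]), Continuous β ∧
        ∀ g h, z g h = a * ((y1 g h : ℤ_[2]) : ℚ_[2]) + dd (kapQ χ) β g h := by
    intro z hz hzC
    obtain ⟨N, z0, hz0, hN⟩ := exists_scale hz hzC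
    obtain ⟨a, β, hβ, hβ'⟩ := hit z0 hz0
    refine ⟨((a : ℤ_[2]) : ℚ_[2]) / 2 ^ N, fun g => ((β g : ℤ_[2]) : ℚ_[2]) / 2 ^ N,
      (continuous_subtype_val.comp hβ).div_const _, fun g h => ?_⟩
    have e1 := hN g h
    have e2 := congrArg (fun x : ℤ_[2] => (x : ℚ_[2])) (hβ' g h)
    simp only [PadicInt.coe_add, PadicInt.coe_mul, coe_dd] at e2
    have h3 : (2 : ℚ_[2]) ^ N ≠ 0 := pow_ne_zero _ h2
    apply mul_left_cancel₀ h3
    rw [e1, e2]
    simp only [dd]
    field_simp
  refine ⟨fun g h => ((y1 g h : ℤ_[2]) : ℚ_[2]), continuous_subtype_val.comp hy1.1, ?_, hline', ?_⟩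
  · intro g h k
    have h1 := congrArg (fun x : ℤ_[2] => (x : ℚ_[2])) (hy1.2 g h k)
    simp only [PadicInt.coe_sub, PadicInt.coe_add, PadicInt.coe_mul, PadicInt.coe_zero] at h1
    exact h1
  · intro z hz hzC
    obtain ⟨a, β, hβ, hβ'⟩ := hline' z hz hzC
    refine ⟨fun g => a / ((c : ℤ_[2]) : ℚ_[2]) * ((γ g : ℤ_[2]) : ℚ_[2]) + β (τ g) - β g,
      ?_, fun g h => ?_⟩
    · have h4 : Continuous fun g => ((γ g : ℤ_[2]) : ℚ_[2]) := continuous_subtype_val.comp hγ
      have h5 : Continuous fun g => β (τ g) := hβ.comp hτ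
      fun_prop
    · have e1 := hβ' g h
      have e2 := hβ' (τ g) (τ h)
      have e3 := congrArg (fun x : ℤ_[2] => (x : ℚ_[2])) (hγ' g h)
      simp only [PadicInt.coe_sub, PadicInt.coe_mul, coe_dd] at e3
      have hκτ : ∀ g, kapQ χ (τ g) = kapQ χ g := by
        intro g
        rw [kapQ, kap, hχτ, kapQ, kap]
      simp only [dd, hκτ, ← map_mul τ] at e1 e2 e3 ⊢
      have e4 : a * (((y1 (τ g) (τ h) : ℤ_[2]) : ℚ_[2]) - ((y1 g h : ℤ_[2]) : ℚ_[2])) =
          a / ((c : ℤ_[2]) : ℚ_[2]) * (kapQ χ g * ((γ h : ℤ_[2]) : ℚ_[2]) -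
            ((γ (g * h) : ℤ_[2]) : ℚ_[2]) + ((γ g : ℤ_[2]) : ℚ_[2])) := by
        rw [← e3]
        field_simp
      linear_combination e2 - e1 + e4

end Rat

end Lift

open Lift in
/-- Module LIFT. -/
theorem stLift : StLift.{u} := by
  intro G _ _ _ _ _ χ hχ τ hτ hττ hχτ hline z4 hz4 hr hz4τ L _ _ _
  obtain ⟨z1, hz1, hz1C, h1, h2⟩ := main_rat hχ τ hτ hττ hχτ hline z4 hz4 hr hz4τ
  set b := Module.finBasis ℚ_[2] L with hb
  have hcont : ∀ i, Continuous fun x : L => b.repr x i := by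
    intro i
    exact (b.coord i).continuous_of_finiteDimensional
  have hchi : ∀ (g : G) (x : L), chi χ L g * x = kapQ χ g • x := by
    intro g x
    rw [Algebra.smul_def]
    rfl
  have hsum : ∀ x : L, x = ∑ i, b.repr x i • b i := fun x => (b.sum_repr x).symm
  have hC : ∀ z ∈ CZ2 χ L, ∀ i, IsC (kapQ χ) fun g h => b.repr (z g h) i := by
    intro z hz i g h k
    have h3 := hz.2 g h k
    rw [hchi] at h3
    have h4 := congrArg (fun x : L => b.repr x i) h3
    simpa only [map_sub, map_add, map_smul, Finsupp.coe_sub, Finsupp.coe_add, Finsupp.coe_smul,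
      Pi.sub_apply, Pi.add_apply, Pi.smul_apply, smul_eq_mul, map_zero, Finsupp.coe_zero,
      Pi.zero_apply] using h4
  have hcob : ∀ z : G → G → L, (∀ i, ∃ β : G → ℚ_[2], Continuous β ∧
      ∀ g h, b.repr (z g h) i = dd (kapQ χ) β g h) → z ∈ CB2 χ L := by
    intro z hz
    choose β hβ hβ' using hz
    refine ⟨fun g => ∑ i, β i g • b i, ?_, fun g h => ?_⟩
    · exact continuous_finsetSum _ fun i _ => (hβ i).smul continuous_const
    · rw [hsum (z g h), hchi, Finset.smul_sum, ← Finset.sum_sub_distrib, ← Finset.sum_add_distrib]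
      refine Finset.sum_congr rfl fun i _ => ?_
      rw [hβ' i g h]
      simp only [dd, add_smul, sub_smul, mul_smul]
  constructor
  · refine ⟨fun g h => algebraMap ℚ_[2] L (z1 g h), ⟨?_, ?_⟩, ?_⟩
    · exact (continuous_algebraMap ℚ_[2] L).comp hz1
    · intro g h k
      have h3 := congrArg (algebraMap ℚ_[2] L) (hz1C g h k)
      simp only [map_sub, map_add, map_mul, map_zero] at h3
      exact h3
    · intro z hz
      have h3 : ∀ i, ∃ (a : ℚ_[2]) (β : G → ℚ_[2]), Continuous β ∧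
          ∀ g h, b.repr (z g h) i = a * z1 g h + dd (kapQ χ) β g h := by
        intro i
        exact h1 _ ((hcont i).comp hz.1) (hC z hz i)
      choose a β hβ hβ' using h3
      refine ⟨∑ i, a i • b i, ?_⟩
      apply hcob
      intro i
      refine ⟨β i, hβ i, fun g h => ?_⟩
      have h4 : (∑ i, a i • b i) * algebraMap ℚ_[2] L (z1 g h) = z1 g h • ∑ i, a i • b i := by
        rw [Algebra.smul_def, mul_comm]
      rw [h4, map_sub, map_smul, Finsupp.coe_sub, Pi.sub_apply, Finsupp.coe_smul, Pi.smul_apply,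
        Module.Basis.repr_sum_self, hβ' i g h, smul_eq_mul]
      ring
  · intro z hz
    apply hcob
    intro i
    obtain ⟨β, hβ, hβ'⟩ := h2 (fun g h => b.repr (z g h) i) ((hcont i).comp hz.1) (hC z hz i)
    refine ⟨β, hβ, fun g h => ?_⟩
    rw [map_sub, Finsupp.coe_sub, Pi.sub_apply]
    exact hβ' g h

end BKPar
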