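import Mathlib
import Pool.Agent.Lib.MP_7c08ba_nt.Par.Stmts

set_option autoImplicit false

/-!
Admissible subgroups and the subgroup `R`.
-/

namespace BKPar

open Pool.Agent.Lib.MP_7c08ba_nt NumberField

section

variable {F : Type} [Field F]

/-- The whole group is admissible. -/
lemma isAdm_top : IsAdm F (⊤ : Subgroup (AbsGal F)) :=
  ⟨inferInstance, isOpen_univ, ⟨0, by simp⟩, fun _ _ _ => le_top⟩

/-- Intersections of two admissible subgroups are admissible. -/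
lemma IsAdm.inf {N M : Subgroup (AbsGal F)} (hN : IsAdm F N) (hM : IsAdm F M) :
    IsAdm F (N ⊓ M) := by
  obtain ⟨hN1, hN2, ⟨k, hk⟩, hN4⟩ := hN
  obtain ⟨hM1, hM2, ⟨l, hl⟩, hM4⟩ := hM
  refine ⟨inferInstance, ?_, ?_, fun P hP h2 => le_inf (hN4 P hP h2) (hM4 P hP h2)⟩
  · rw [Subgroup.coe_inf]
    exact hN2.inter hM2
  · have h1 : (N ⊓ M).index = M.relIndex N * N.index := by
      rw [← Subgroup.inf_relIndex_left N M]
      exact (Subgroup.relIndex_mul_index (inf_le_left : N ⊓ M ≤ N)).symm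
    have h2 : M.relIndex N ∣ M.index := Subgroup.relIndex_dvd_index_of_normal M N
    have h3 : (N ⊓ M).index ∣ 2 ^ (l + k) := by
      rw [h1, pow_add, ← hk, ← hl]
      exact mul_dvd_mul_right h2 _
    obtain ⟨i, _, hi⟩ := (Nat.dvd_prime_pow Nat.prime_two).mp h3
    exact ⟨i, hi⟩

lemma R_le {N : Subgroup (AbsGal F)} (hN : IsAdm F N) : R F ≤ N := sInf_le hN

lemma normal_R : (R F).Normal := by
  refine ⟨fun n hn g => ?_⟩
  rw [R, Subgroup.mem_sInf] at hn ⊢
  intro N hN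
  exact hN.1.conj_mem n (hn N hN) g

lemma isClosed_R : IsClosed (R F : Set (AbsGal F)) := by
  rw [R, Subgroup.coe_sInf]
  exact isClosed_biInter fun N hN => Subgroup.isClosed_of_isOpen N hN.2.1

lemma inert_le_R (P : Ideal (AllInt F)) (hP : P.IsPrime) (h2 : (2 : AllInt F) ∉ P) :
    inert F P ≤ R F :=
  le_sInf fun _ hN => hN.2.2.2 P hP h2

/-- Every open subgroup containing `R` contains an admissible subgroup. -/
lemma exists_isAdm_le [PerfectField F] {U : Subgroup (AbsGal F)} (hU : IsOpen (U : Set (AbsGal F)))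
    (hR : R F ≤ U) : ∃ N, IsAdm F N ∧ N ≤ U := by
  have hc : IsCompact ((U : Set (AbsGal F))ᶜ) := hU.isClosed_compl.isCompact
  have : Nonempty {N : Subgroup (AbsGal F) // IsAdm F N} := ⟨⟨⊤, isAdm_top⟩⟩
  obtain ⟨N, hN⟩ := hc.elim_directed_family_closed
    (fun N : {N : Subgroup (AbsGal F) // IsAdm F N} => (N.1 : Set (AbsGal F)))
    (fun N => Subgroup.isClosed_of_isOpen N.1 N.2.2.1) (by
      rw [Set.eq_empty_iff_forall_notMem]
      rintro g ⟨hg, hg'⟩
      refine hg (hR ?_)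
      rw [R, Subgroup.mem_sInf]
      intro N hN
      exact Set.mem_iInter.mp hg' ⟨N, hN⟩)
    (by
      intro N M
      refine ⟨⟨N.1 ⊓ M.1, N.2.inf M.2⟩, ?_, ?_⟩
      · exact fun x hx => hx.1
      · exact fun x hx => hx.2)
  refine ⟨N.1, N.2, fun g hg => ?_⟩
  by_contra hgU
  have : g ∈ ((U : Set (AbsGal F))ᶜ ∩ (N.1 : Set (AbsGal F))) := ⟨hgU, hg⟩
  rw [hN] at this
  exact this

end

/-- Module ADM. -/
theorem stAdm : StAdm := by
  intro F _ _
  refine ⟨normal_R, isClosed_R, inert_le_R, fun U hU hR => exists_isAdm_le hU hR,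
    fun U hU hR => ?_⟩
  obtain ⟨N, hN, hNU⟩ := exists_isAdm_le hU hR
  obtain ⟨k, hk⟩ := hN.2.2.1
  have h3 : U.index ∣ 2 ^ k := by
    rw [← hk]
    exact Subgroup.index_dvd_of_le hNU
  obtain ⟨i, _, hi⟩ := (Nat.dvd_prime_pow Nat.prime_two).mp h3
  exact ⟨i, hi⟩

end BKPar
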