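import Pool.Agent.Lib.MP_7c08ba_nt.Par.Stmts

set_option autoImplicit false

/-! Module COUNT of the parity project. -/

noncomputable section

namespace BKPar

open Pool.Agent.Lib.MP_7c08ba_nt NumberField

namespace CountAux

section Groups

variable {G : Type*} [Group G]

lemma hom_one {f : G → ZMod 2} (h : ∀ x y, f (x * y) = f x + f y) : f 1 = 0 := by
  have := h 1 1
  rw [mul_one] at this
  have h2 : f 1 + 0 = f 1 + f 1 := by rw [add_zero]; exact this
  exact (add_left_cancel h2).symm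

lemma zmod_eq {a b : ZMod 2} (h : a = 0 ↔ b = 0) : a = b := by
  revert a b
  decide

/-- the kernel -/
def kerS (f : G → ZMod 2) (h : ∀ x y, f (x * y) = f x + f y) : Subgroup G where
  carrier := {x | f x = 0}
  one_mem' := hom_one h
  mul_mem' := by
    intro a b ha hb
    simp only [Set.mem_ofPred_eq] at ha hb ⊢
    rw [h, ha, hb, add_zero]
  inv_mem' := by
    intro a ha
    simp only [Set.mem_ofPred_eq] at ha ⊢
    have := h a a⁻¹
    rw [mul_inv_cancel, hom_one h, ha, zero_add] at this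
    exact this.symm

variable [TopologicalSpace G] [IsTopologicalGroup G]

lemma hom2_iff {f : G → ZMod 2} :
    f ∈ Hom2 G ↔ IsOpen {x | f x = 0} ∧ ∀ x y, f (x * y) = f x + f y := by
  constructor
  · rintro ⟨⟨W, hW, hf⟩, h⟩
    refine ⟨?_, h⟩
    have h1 : W ≤ kerS f h := by
      intro w hw
      have := hf 1 w hw
      rw [one_mul, hom_one h] at this
      exact this
    exact Subgroup.isOpen_mono h1 hW
  · rintro ⟨ho, h⟩
    refine ⟨⟨kerS f h, ho, ?_⟩, h⟩
    intro g w hw
    have hw' : f w = 0 := hw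
    rw [h, hw', add_zero]

variable (R U : Subgroup G)

/-- homomorphisms of `U` to `ℤ/2` which are trivial on `R` -/
def AU : Set (U → ZMod 2) := {f | f ∈ Hom2 U ∧ ∀ x : U, (x : G) ∈ R → f x = 0}

variable {R U}

lemma key (Dd : Subgroup G) (hD : ∀ g : G, ∃ d ∈ Dd, ∃ r ∈ R, g = d * r) (hR : R ≤ U) (N : ℕ)
    (S : Finset (U → ZMod 2)) (hS : S.card = N) (hS' : ∀ f ∈ S, f ∈ AU R U)
    (hloc : ∀ S' : Finset (↥(Dd ⊓ U) → ZMod 2), (∀ f ∈ S', f ∈ Hom2 ↥(Dd ⊓ U)) → S'.card ≤ N) :
    AU R U = (S : Set (U → ZMod 2)) ∧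
      ∀ f ∈ Hom2 ↥(Dd ⊓ U), ∀ x (hx : x ∈ Dd ⊓ U), x ∈ R → f ⟨x, hx⟩ = 0 := by
  classical
  let res : (U → ZMod 2) → (↥(Dd ⊓ U) → ZMod 2) := fun f x => f ⟨x, x.2.2⟩
  have hres : ∀ f ∈ AU R U, res f ∈ Hom2 ↥(Dd ⊓ U) := by
    intro f hf
    obtain ⟨h1, h2⟩ := hom2_iff.mp hf.1
    rw [hom2_iff]
    refine ⟨?_, fun x y => h2 ⟨x, x.2.2⟩ ⟨y, y.2.2⟩⟩
    have hc : Continuous fun x : ↥(Dd ⊓ U) => (⟨x, x.2.2⟩ : U) :=
      continuous_subtype_val.subtype_mk _
    exact h1.preimage hc
  have hinj : ∀ f ∈ AU R U, ∀ f' ∈ AU R U, res f = res f' → f = f' := by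
    intro f hf f' hf' h
    funext u
    obtain ⟨d, hd, r, hr, hu⟩ := hD u
    have hrU : r ∈ U := hR hr
    have hdU : d ∈ U := by
      have : d = u * r⁻¹ := by rw [hu]; group
      rw [this]
      exact U.mul_mem u.2 (U.inv_mem hrU)
    have e : u = (⟨d, hdU⟩ : U) * ⟨r, hrU⟩ := Subtype.ext hu
    have h3 := congrFun h ⟨d, hd, hdU⟩
    simp only [res] at h3
    rw [e, hf.1.2, hf'.1.2, hf.2 ⟨r, hrU⟩ hr, hf'.2 ⟨r, hrU⟩ hr, h3]
  have hcard : ∀ S1 : Finset (U → ZMod 2), (∀ f ∈ S1, f ∈ AU R U) →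
      (S1.image res).card = S1.card := by
    intro S1 h1
    apply Finset.card_image_of_injOn
    intro f hf f' hf' h
    exact hinj f (h1 f hf) f' (h1 f' hf') h
  constructor
  · ext f
    constructor
    · intro hf
      by_contra hfS
      have hfS' : f ∉ S := hfS
      have h1 : ∀ f' ∈ insert f S, f' ∈ AU R U := by
        intro f' hf'
        rw [Finset.mem_insert] at hf'
        rcases hf' with rfl | hf'
        · exact hf
        · exact hS' f' hf'
      have h2 := hloc ((insert f S).image res) (by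
        intro g hg
        rw [Finset.mem_image] at hg
        obtain ⟨f', hf', rfl⟩ := hg
        exact hres f' (h1 f' hf'))
      rw [hcard _ h1, Finset.card_insert_of_notMem hfS', hS] at h2
      omega
    · exact fun hf => hS' f hf
  · intro g hg x hx hxR
    have h1 : g ∈ S.image res := by
      by_contra hgS
      have h2 := hloc (insert g (S.image res)) (by
        intro g' hg'
        rw [Finset.mem_insert, Finset.mem_image] at hg'
        rcases hg' with rfl | ⟨f', hf', rfl⟩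
        · exact hg
        · exact hres f' (hS' f' hf'))
      rw [Finset.card_insert_of_notMem hgS, hcard _ hS', hS] at h2
      omega
    rw [Finset.mem_image] at h1
    obtain ⟨f, hf, rfl⟩ := h1
    exact (hS' f hf).2 ⟨x, hx.2⟩ hxR

/-- homomorphisms of an open subgroup of the quotient -/
lemma card_quot (R : Subgroup G) [R.Normal] (U : Subgroup (G ⧸ R))
    (hU : IsOpen (U : Set (G ⧸ R))) :
    (Hom2 U).ncard = (AU R (U.comap (QuotientGroup.mk' R))).ncard := by
  let π' : U.comap (QuotientGroup.mk' R) → U := fun x => ⟨QuotientGroup.mk' R x, x.2⟩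
  have hπm : ∀ x y, π' (x * y) = π' x * π' y := fun x y => rfl
  have hπs : Function.Surjective π' := by
    rintro ⟨u, hu⟩
    obtain ⟨g, rfl⟩ := QuotientGroup.mk'_surjective R u
    exact ⟨⟨g, hu⟩, rfl⟩
  have hπq : Topology.IsQuotientMap π' :=
    (QuotientGroup.isQuotientMap_mk (N := R)).restrictPreimage_isOpen hU
  have hπR : ∀ x : U.comap (QuotientGroup.mk' R), π' x = 1 ↔ (x : G) ∈ R := by
    intro x
    rw [← QuotientGroup.eq_one_iff (N := R) (x : G)]
    exact Subtype.ext_iff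
  let pull : (U → ZMod 2) → (U.comap (QuotientGroup.mk' R) → ZMod 2) := fun f x => f (π' x)
  have hinj : Function.Injective pull := by
    intro f f' h
    funext u
    obtain ⟨x, rfl⟩ := hπs u
    exact congrFun h x
  rw [← Set.ncard_image_of_injective _ hinj]
  congr 1
  ext f
  constructor
  · rintro ⟨g, hg, rfl⟩
    obtain ⟨h1, h2⟩ := hom2_iff.mp hg
    refine ⟨hom2_iff.mpr ⟨h1.preimage hπq.continuous, fun x y => ?_⟩, fun x hx => ?_⟩
    · change g (π' (x * y)) = g (π' x) + g (π' y)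
      rw [hπm, h2]
    · change g (π' x) = 0
      rw [(hπR x).mpr hx]
      exact hom_one h2
  · rintro ⟨hf, hfR⟩
    obtain ⟨h1, h2⟩ := hom2_iff.mp hf
    have hwd : ∀ x y, π' x = π' y → f x = f y := by
      intro x y hxy
      have h3 : π' (x⁻¹ * y) = 1 := by
        have h4 : π' x * π' (x⁻¹ * y) = π' x * 1 := by
          rw [← hπm, mul_inv_cancel_left, mul_one, hxy]
        exact mul_left_cancel h4
      have h5 := hfR _ ((hπR _).mp h3)
      have h6 := h2 x (x⁻¹ * y)
      rw [mul_inv_cancel_left, h5, add_zero] at h6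
      exact h6.symm
    have hsp : ∀ x, f (Function.surjInv hπs (π' x)) = f x := fun x =>
      hwd _ _ (Function.surjInv_eq hπs _)
    refine ⟨fun u => f (Function.surjInv hπs u), hom2_iff.mpr ⟨?_, ?_⟩, ?_⟩
    · rw [← hπq.isOpen_preimage]
      have : π' ⁻¹' {u | f (Function.surjInv hπs u) = 0} = {x | f x = 0} := by
        ext x
        change f (Function.surjInv hπs (π' x)) = 0 ↔ f x = 0
        rw [hsp]
      rw [this]
      exact h1
    · intro u v
      obtain ⟨x, rfl⟩ := hπs u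
      obtain ⟨y, rfl⟩ := hπs v
      rw [← hπm, hsp, hsp, hsp, h2]
    · funext x
      exact hsp x

end Groups

end CountAux

open CountAux

/-- Module COUNT. -/
theorem stCount (hA : StAdm) (hD : StDR) (hS : StSq) (hU : StUnits) (hL : StLocHom) :
    StCount := by
  intro q F _ _ s hyp ι hn
  obtain ⟨-, -, -, -, hA5⟩ := hA F
  have hDR := hD q F s hyp ι
  -- the square roots give homomorphisms
  have hsq : ∀ U : Subgroup (AbsGal F), R F ≤ U → ∀ (f : U → ZMod 2) (y : AlgebraicClosure F),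
      IsTwoUnit y → (∀ u ∈ U, u (y ^ 2) = y ^ 2) → (∀ u : U, f u = 0 ↔ (u : AbsGal F) y = y) →
      f ∈ AU (R F) U := by
    intro U hRU f y hy hyU hfy
    have hy0 : y ≠ 0 := hy.1
    have hyy : y ≠ -y := by
      intro h
      have h2 : (2 : AlgebraicClosure F) * y = 0 := by linear_combination h
      rcases mul_eq_zero.mp h2 with h3 | h3
      · exact two_ne_zero h3
      · exact hy0 h3
    have hpm : ∀ u : U, (u : AbsGal F) y = y ∨ (u : AbsGal F) y = -y := by
      intro u
      have h1 := hyU u u.2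
      rw [map_pow] at h1
      exact sq_eq_sq_iff_eq_or_eq_neg.mp h1
    refine ⟨hom2_iff.mpr ⟨?_, ?_⟩, ?_⟩
    · have h1 : IsOpen (MulAction.stabilizer (AbsGal F) y : Set (AbsGal F)) :=
        stabilizer_isOpen_of_isIntegral (K := F) y
      have h2 : {u : U | f u = 0} = Subtype.val ⁻¹' (MulAction.stabilizer (AbsGal F) y :
          Set (AbsGal F)) := by
        ext u
        change f u = 0 ↔ (u : AbsGal F) • y = y
        exact hfy u
      rw [h2]
      exact h1.preimage continuous_subtype_val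
    · intro u v
      rcases hpm v with h1 | h1
      · have h2 : f v = 0 := (hfy v).mpr h1
        rw [h2, add_zero]
        apply zmod_eq
        rw [hfy, hfy]
        change (u : AbsGal F) ((v : AbsGal F) y) = y ↔ _
        rw [h1]
      · have h2 : f v = 1 := by
          have h3 : f v ≠ 0 := fun h => hyy (((hfy v).mp h).symm.trans h1)
          have : ∀ a : ZMod 2, a ≠ 0 → a = 1 := by decide
          exact this _ h3
        rw [h2]
        have h3 : f (u * v) = 0 ↔ (u : AbsGal F) y = -y := by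
          rw [hfy]
          change (u : AbsGal F) ((v : AbsGal F) y) = y ↔ _
          rw [h1, map_neg]
          exact neg_eq_iff_eq_neg
        have h4 : f (u * v) = 0 ↔ f u ≠ 0 := by
          rw [h3]
          constructor
          · intro h h5
            exact hyy (((hfy u).mp h5).symm.trans h)
          · intro h
            rcases hpm u with h5 | h5
            · exact absurd ((hfy u).mpr h5) h
            · exact h5
        have : ∀ a b : ZMod 2, (a = 0 ↔ b ≠ 0) → a = b + 1 := by decide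
        exact this _ _ h4
    · intro u hu
      rw [hfy]
      exact hS F y hy (fun r hr => hyU r (hRU hr)) u hu
  have main : ∀ U : Subgroup (AbsGal F), IsOpen (U : Set (AbsGal F)) → R F ≤ U →
      ∃ S : Finset (U → ZMod 2), S.card = 2 ^ (U.index + 2) ∧
        (∀ f ∈ S, ∃ y : AlgebraicClosure F, IsTwoUnit y ∧ (∀ u ∈ U, u (y ^ 2) = y ^ 2) ∧
          ∀ u : U, f u = 0 ↔ (u : AbsGal F) y = y) ∧
        AU (R F) U = (S : Set (U → ZMod 2)) ∧
        ∀ f ∈ Hom2 ↥(D F ι ⊓ U), ∀ x (hx : x ∈ D F ι ⊓ U), x ∈ R F → f ⟨x, hx⟩ = 0 := by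
    intro U hUo hRU
    obtain ⟨S, hSc, hSy⟩ := hU q F s hyp U hUo
    have hS' : ∀ f ∈ S, f ∈ AU (R F) U := by
      intro f hf
      obtain ⟨y, hy1, hy2, hy3⟩ := hSy f hf
      exact hsq U hRU f y hy1 hy2 hy3
    obtain ⟨k1, k2⟩ := key (D F ι) hDR hRU _ S hSc hS' (hL q F s hyp ι U hUo)
    exact ⟨S, hSc, hSy, k1, k2⟩
  have hcomap : ∀ U : Subgroup (AbsGal F ⧸ R F), IsOpen (U : Set (AbsGal F ⧸ R F)) →
      IsOpen (U.comap (QuotientGroup.mk' (R F)) : Set (AbsGal F)) ∧
      R F ≤ U.comap (QuotientGroup.mk' (R F)) ∧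
      (U.comap (QuotientGroup.mk' (R F))).index = U.index := by
    intro U hUo
    refine ⟨hUo.preimage QuotientGroup.continuous_mk, ?_, ?_⟩
    · intro r hr
      change QuotientGroup.mk' (R F) r ∈ U
      have : QuotientGroup.mk' (R F) r = 1 := (QuotientGroup.eq_one_iff r).mpr hr
      rw [this]
      exact U.one_mem
    · exact U.index_comap_of_surjective (QuotientGroup.mk'_surjective (R F))
  -- restriction of homomorphisms of the whole group
  have htop : ∀ f ∈ Hom2 (AbsGal F), (∀ r ∈ R F, f r = 0) →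
      (fun u : (⊤ : Subgroup (AbsGal F)) => f u) ∈ AU (R F) ⊤ := by
    intro f hf hfR
    obtain ⟨h1, h2⟩ := hom2_iff.mp hf
    exact ⟨hom2_iff.mpr ⟨h1.preimage continuous_subtype_val, fun x y => h2 _ _⟩,
      fun x hx => hfR x hx⟩
  obtain ⟨S₁, hS₁c, hS₁y, hS₁A, -⟩ := main ⊤ isOpen_univ le_top
  refine ⟨?_, ?_, ?_, ?_, ?_⟩
  · intro U hUo
    obtain ⟨h1, h2, h3⟩ := hcomap U hUo
    rw [← h3]
    exact hA5 _ h1 h2
  · intro U hUo
    obtain ⟨h1, h2, h3⟩ := hcomap U hUo
    obtain ⟨S, hSc, -, hSA, -⟩ := main _ h1 h2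
    rw [Nat.card_coe_set_eq, card_quot (R F) U hUo, hSA, Set.ncard_coe_finset, hSc, h3, one_mul]
  · intro U hUo hRU
    obtain ⟨S, -, -, -, h⟩ := main U hUo hRU
    exact h
  · have hfin : (S₁ : Set ((⊤ : Subgroup (AbsGal F)) → ZMod 2)).Finite := S₁.finite_toSet
    rw [← hS₁A] at hfin
    have : Finite (AU (R F) (⊤ : Subgroup (AbsGal F))) := hfin
    refine Finite.of_injective (fun f : {f | f ∈ Hom2 (AbsGal F) ∧ ∀ r ∈ R F, f r = 0} =>
      (⟨fun u => f.1 u, htop f.1 f.2.1 f.2.2⟩ : AU (R F) (⊤ : Subgroup (AbsGal F)))) ?_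
    intro f f' h
    apply Subtype.ext
    funext g
    exact congrFun (congrArg Subtype.val h) ⟨g, Subgroup.mem_top g⟩
  · intro f hf hfR
    have h1 := htop f hf hfR
    rw [hS₁A] at h1
    obtain ⟨y, hy1, hy2, hy3⟩ := hS₁y _ h1
    exact ⟨y, hy1, fun u => hy2 u (Subgroup.mem_top u),
      fun u => hy3 ⟨u, Subgroup.mem_top u⟩⟩

end BKPar
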