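import Pool.Agent.Lib.MP_7c08ba_nt.Par.Stmts

set_option autoImplicit false

/-! Module CYCR: the cyclotomic character is continuous and trivial on `R`. -/

noncomputable section

namespace BKPar

open Pool.Agent.Lib.MP_7c08ba_nt NumberField

namespace CycRP

/-- `R` fixes the roots of unity of `2`-power order -/
lemma fixed (h' : StSq) (F : Type) [Field F] [NumberField F] (k : ℕ) :
    ∀ ζ : AlgebraicClosure F, ζ ^ 2 ^ k = 1 → ∀ r ∈ R F, r ζ = ζ := by
  induction k with
  | zero =>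
    intro ζ hζ r _
    rw [pow_zero, pow_one] at hζ
    rw [hζ, map_one]
  | succ k ih =>
    intro ζ hζ
    have h0 : ζ ≠ 0 := by
      rintro rfl
      rw [zero_pow (by positivity)] at hζ
      exact zero_ne_one hζ
    have h1 : IsIntegral ℤ ζ := IsIntegral.of_pow (n := 2 ^ (k + 1)) (by positivity)
      (by rw [hζ]; exact isIntegral_one)
    have h2 : IsIntegral ℤ ζ⁻¹ := IsIntegral.of_pow (n := 2 ^ (k + 1)) (by positivity)
      (by rw [inv_pow, hζ, inv_one]; exact isIntegral_one)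
    refine h' F ζ ⟨h0, 0, by simpa using h1, by simpa using h2⟩ (ih (ζ ^ 2) ?_)
    rw [← pow_mul, ← pow_succ']
    exact hζ

end CycRP

theorem stCycR (_ : StAdm) (h' : StSq) : StCycR := by
  intro F _ _
  refine ⟨cyclotomicCharacter.continuous 2 F (AlgebraicClosure F), fun r hr => ?_⟩
  have hE : ∀ i : ℕ, HasEnoughRootsOfUnity (AlgebraicClosure F) (2 ^ i) := fun i => by
    have : NeZero (((2 ^ i : ℕ)) : AlgebraicClosure F) := ⟨by
      rw [Nat.cast_ne_zero]
      positivity⟩
    infer_instance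
  refine Units.ext (PadicInt.ext_of_toZModPow.1 fun n => ?_)
  obtain ⟨ζ, hζ⟩ := HasEnoughRootsOfUnity.exists_primitiveRoot (AlgebraicClosure F) (2 ^ n)
  have h1 : r ζ = ζ ^ (((cyc F r : ℤ_[2]ˣ) : ℤ_[2]).toZModPow n).val :=
    cyclotomicCharacter.spec 2 (MulSemiringAction.toRingAut (AbsGal F) (AlgebraicClosure F) r) ζ
      hζ.pow_eq_one
  rw [CycRP.fixed h' F n ζ hζ.pow_eq_one r hr] at h1
  rw [Units.val_one, map_one]
  rcases Nat.eq_zero_or_pos n with rfl | hn
  · have : Subsingleton (ZMod (2 ^ 0)) := by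
      rw [pow_zero]
      infer_instance
    exact Subsingleton.elim _ _
  · have hlt : 1 < 2 ^ n := Nat.one_lt_two_pow hn.ne'
    have h2 : 1 = (((cyc F r : ℤ_[2]ˣ) : ℤ_[2]).toZModPow n).val :=
      hζ.pow_inj hlt (ZMod.val_lt _) (by rw [pow_one]; exact h1)
    have : Fact (1 < 2 ^ n) := ⟨hlt⟩
    apply ZMod.val_injective
    rw [← h2, ZMod.val_one]

end BKPar
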