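import Pool.Agent.Lib.MP_7c08ba_nt.Par.Stmts
import Pool.Agent.Lib.MP_7c08ba_nt.Gen.Local
import Pool.Agent.Lib.MP_7c08ba_nt.Gen.ProP
import Pool.Agent.Lib.MP_7c08ba_nt.Gen.Main
import Pool.Agent.Lib.MP_7c08ba_nt.Gen.SUnits
import Pool.Agent.Lib.MP_7c08ba_nt.Main

set_option autoImplicit false

/-!
Module DR: the decomposition group at a place above `2` generates the Galois group of the maximal
`2`-extension unramified outside `2` of `ℚ(√-q)`, `q ≡ 7 (mod 16)`.
-/

noncomputable section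

namespace BKPar

open Pool.Agent.Lib.MP_7c08ba_nt NumberField IsDedekindDomain

section Place

variable {q : ℕ} {F : Type} [Field F] [NumberField F] {s : F}

/-- `-q` is a square in `ℚ₂`. -/
lemma exists_sqrt_two_adic (h8 : q % 8 = 7) : ∃ σ : ℚ_[2], σ ^ 2 = -(q : ℚ_[2]) := by
  obtain ⟨m, hm⟩ : ∃ m : ℕ, q + 1 = 8 * m := ⟨(q + 1) / 8, by omega⟩
  obtain ⟨r, hr⟩ := isSquare_one_add_eight (-(m : ℤ_[2]))
  refine ⟨(r : ℚ_[2]), ?_⟩
  have h1 := congrArg (fun z : ℤ_[2] => (z : ℚ_[2])) hr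
  push_cast at h1
  have h2 : (q : ℚ_[2]) + 1 = 8 * m := by exact_mod_cast congrArg (fun z : ℕ => (z : ℚ_[2])) hm
  have h8 : ((8 : ℤ_[2]) : ℚ_[2]) = 8 := rfl
  rw [h8] at h1
  linear_combination h2 - h1

/-- A place of the algebraic closure above `2` embeds `F` into `ℚ₂`. -/
lemma exists_embedding (hF : FieldHyp q F s) (ι : AlgebraicClosure F →+* PadicAlgCl 2) :
    ∃ j : F →+* ℚ_[2], ∀ x : F, algebraMap ℚ_[2] (PadicAlgCl 2) (j x) =
      ι (algebraMap F (AlgebraicClosure F) x) := by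
  obtain ⟨σ, hσ⟩ := exists_sqrt_two_adic hF.h8
  set i : ℚ_[2] →+* PadicAlgCl 2 := algebraMap ℚ_[2] (PadicAlgCl 2) with hi
  set f : F →+* PadicAlgCl 2 := ι.comp (algebraMap F (AlgebraicClosure F)) with hf
  have hfs : f s = i σ ∨ f s = -i σ := by
    rw [← sq_eq_sq_iff_eq_or_eq_neg, ← map_pow, ← map_pow, hF.hs, hσ, map_neg, map_neg,
      map_natCast, map_natCast]
  have hmem : ∀ x : F, f x ∈ i.range := by
    intro x
    obtain ⟨a, b, rfl⟩ := exists_coords hF.hq0 hF.hF hF.hs x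
    rw [map_add, map_mul, map_ratCast, map_ratCast]
    have h1 : ∀ c : ℚ, (c : PadicAlgCl 2) ∈ i.range := fun c => ⟨(c : ℚ_[2]), map_ratCast i c⟩
    have h2 : f s ∈ i.range := by
      rcases hfs with h | h
      · exact h ▸ ⟨σ, rfl⟩
      · rw [h]
        exact neg_mem ⟨σ, rfl⟩
    exact add_mem (h1 a) (mul_mem (h1 b) h2)
  have hbij : Function.Bijective i.rangeRestrict :=
    ⟨fun x y hxy => i.injective (congrArg Subtype.val hxy), i.rangeRestrict_surjective⟩
  let e : ℚ_[2] ≃+* i.range := RingEquiv.ofBijective i.rangeRestrict hbij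
  let f' : F →+* i.range := f.codRestrict i.range hmem
  refine ⟨(e.symm : i.range →+* ℚ_[2]).comp f', fun x => ?_⟩
  have h1 : e (e.symm (f' x)) = f' x := e.apply_symm_apply _
  exact congrArg Subtype.val h1

/-- The completion of `F` at a place above `2` is `ℚ₂`. -/
lemma comp_eq_bot (hF : FieldHyp q F s) (ι : AlgebraicClosure F →+* PadicAlgCl 2) :
    BKGen.comp 2 (ι.comp (algebraMap F (AlgebraicClosure F))) = ⊥ := by
  obtain ⟨j, hj⟩ := exists_embedding hF ι
  unfold BKGen.comp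
  rw [IntermediateField.adjoin_eq_bot_iff]
  rintro _ ⟨x, rfl⟩
  exact IntermediateField.mem_bot.mpr ⟨j x, hj x⟩

end Place

/-- decomposition groups are closed -/
lemma isClosed_dec (F : Type) [Field F] [CharZero F] (ι : AlgebraicClosure F →+* PadicAlgCl 2) :
    IsClosed (D F ι : Set (AbsGal F)) := by
  have h : (D F ι : Set (AbsGal F)) =
      ⋂ x : AlgebraicClosure F, {g : AbsGal F | ‖ι (g x)‖ = ‖ι x‖} := by
    ext g
    simp only [Set.mem_iInter, Set.mem_ofPred_eq]
    rfl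
  rw [h]
  refine isClosed_iInter fun x => ?_
  rw [← isOpen_compl_iff]
  rw [isOpen_iff_forall_mem_open]
  intro g hg
  have ho : IsOpen (MulAction.stabilizer (AbsGal F) x : Set (AbsGal F)) :=
    stabilizer_isOpen_of_isIntegral _
  refine ⟨(fun k => g⁻¹ * k) ⁻¹' (MulAction.stabilizer (AbsGal F) x : Set (AbsGal F)), ?_,
    ho.preimage (continuous_const_mul g⁻¹), ?_⟩
  · intro k hk hk2
    apply hg
    have h1 : (g⁻¹ * k) • x = x := hk
    have h2 : k x = g x := by
      rw [mul_smul, inv_smul_eq_iff] at h1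
      exact h1
    rw [Set.mem_ofPred_eq, ← h2]
    exact hk2
  · change (g⁻¹ * g) • x = x
    rw [inv_mul_cancel, one_smul]

/-- No open subgroup of index two contains the decomposition group and all inertia groups away
from `2`. -/
theorem no_index_two_dec {q : ℕ} {F : Type} [Field F] [NumberField F] {s : F}
    (hF : FieldHyp q F s) (ι : AlgebraicClosure F →+* PadicAlgCl 2)
    (K : Subgroup (AbsGal F)) (hK : IsOpen (K : Set (AbsGal F))) (hidx : K.index = 2)
    (hD : D F ι ≤ K)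
    (hI : ∀ P : Ideal (AllInt F), P.IsPrime → (2 : AllInt F) ∉ P → inert F P ≤ K) : False := by
  have : Fact (Nat.Prime 2) := ⟨Nat.prime_two⟩
  have hζ : (primitiveRoots 2 F).Nonempty :=
    ⟨-1, (mem_primitiveRoots two_pos).2 (IsPrimitiveRoot.neg_one 0 (by norm_num))⟩
  refine BKGen.no_index_p hζ ι (hF.rig _) K (Subgroup.normal_of_index_eq_two hidx) hidx hK
    (fun l _ hl j σ hσ => ?_) (fun σ hσ => hD hσ)
    (fun l _ j => BKGen.exists_extension l j)
  -- the prime of the place `j`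
  let f : AllInt F →+* PadicAlgCl l := j.comp (algebraMap (AllInt F) (AlgebraicClosure F))
  have hle : ∀ x : AllInt F, ‖f x‖ ≤ 1 := by
    intro x
    exact BKGen.SUnits.norm_le_one_of_isIntegral (x.2.map (j.toIntAlgHom))
  let P : Ideal (AllInt F) :=
    { carrier := {x | ‖f x‖ < 1}
      add_mem' := by
        intro a b ha hb
        change ‖f (a + b)‖ < 1
        rw [map_add]
        exact (IsUltrametricDist.norm_add_le_max _ _).trans_lt (max_lt ha hb)
      zero_mem' := by
        change ‖f 0‖ < 1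
        rw [map_zero, norm_zero]
        exact one_pos
      smul_mem' := by
        intro a b hb
        change ‖f (a * b)‖ < 1
        rw [map_mul, norm_mul]
        exact mul_lt_one_of_nonneg_of_lt_one_right (hle a) (norm_nonneg _) hb }
  have hmem : ∀ x : AllInt F, x ∈ P ↔ ‖f x‖ < 1 := fun x => Iff.rfl
  have hP : P.IsPrime := by
    constructor
    · rw [Ne, Ideal.eq_top_iff_one, hmem]
      rw [map_one, norm_one]
      exact lt_irrefl _
    · intro x y hxy
      rw [hmem, map_mul, norm_mul] at hxy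
      by_contra hcon
      rw [not_or, hmem, hmem, not_lt, not_lt] at hcon
      exact absurd hxy (not_lt.2 (one_le_mul_of_one_le_of_one_le hcon.1 hcon.2))
  have h2 : (2 : AllInt F) ∉ P := by
    rw [hmem, map_ofNat, not_lt]
    have h3 := BKGen.norm_natCast_eq_one (l := l) (N := 2) (by
      intro h
      exact hl ((Nat.prime_dvd_prime_iff_eq Fact.out Nat.prime_two).1 h))
    rw [Nat.cast_ofNat] at h3
    exact h3.ge
  apply hI P hP h2
  intro x
  rw [hmem]
  exact hσ _ (hle x)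

/-- The decomposition group and an admissible subgroup generate the Galois group. -/
theorem exists_mul_of_isAdm {q : ℕ} {F : Type} [Field F] [NumberField F] {s : F}
    (hF : FieldHyp q F s) (ι : AlgebraicClosure F →+* PadicAlgCl 2)
    (N : Subgroup (AbsGal F)) (hN : IsAdm F N) (g : AbsGal F) :
    ∃ d ∈ D F ι, d⁻¹ * g ∈ N := by
  obtain ⟨hNn, hNo, ⟨k, hk⟩, hNI⟩ := hN
  have hfin : Finite (AbsGal F ⧸ N) := N.quotient_finite_of_isOpen hNo
  have hpg : IsPGroup 2 (AbsGal F ⧸ N) := IsPGroup.of_card (n := k) hk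
  have : Fact (Nat.Prime 2) := ⟨Nat.prime_two⟩
  by_cases hH : (D F ι).map (QuotientGroup.mk' N) = ⊤
  · have h1 : (QuotientGroup.mk' N) g ∈ (D F ι).map (QuotientGroup.mk' N) := by
      rw [hH]; trivial
    obtain ⟨d, hd, hdg⟩ := h1
    exact ⟨d, hd, QuotientGroup.eq.mp hdg⟩
  · exfalso
    obtain ⟨M, hM, hMi, hHM⟩ := BKGen.exists_normal_index hpg _ hH
    have hNM : N ≤ M.comap (QuotientGroup.mk' N) := by
      intro y hy
      rw [Subgroup.mem_comap]
      have : (QuotientGroup.mk' N) y = 1 := (QuotientGroup.eq_one_iff y).mpr hy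
      rw [this]
      exact Subgroup.one_mem _
    refine no_index_two_dec hF ι (M.comap (QuotientGroup.mk' N)) ?_ ?_ ?_ ?_
    · exact Subgroup.isOpen_mono hNM hNo
    · rw [Subgroup.index_comap_of_surjective _ (QuotientGroup.mk'_surjective N), hMi]
    · exact Subgroup.map_le_iff_le_comap.mp hHM
    · exact fun P hP h2 => (hNI P hP h2).trans hNM

theorem stDR (h : StAdm) : StDR := by
  intro q F _ _ s hF ι g
  obtain ⟨-, -, -, hadm, -⟩ := h F
  -- the closed sets of the solutions modulo the admissible subgroups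
  let I : Type := {N : Subgroup (AbsGal F) // IsAdm F N}
  let C : I → Set (AbsGal F) := fun N => {d | d ∈ D F ι ∧ d⁻¹ * g ∈ N.1}
  have htop : IsAdm F ⊤ := ⟨inferInstance, by simp, ⟨0, by simp⟩, fun _ _ _ => le_top⟩
  have hne : Nonempty I := ⟨⟨⊤, htop⟩⟩
  have hcl : ∀ N, IsClosed (C N) := by
    intro N
    have h1 : IsClosed (N.1 : Set (AbsGal F)) := N.1.isClosed_of_isOpen N.2.2.1
    exact (isClosed_dec F ι).inter (h1.preimage (by fun_prop))
  have hC : (⋂ N, C N).Nonempty := by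
    refine IsCompact.nonempty_iInter_of_directed_nonempty_isCompact_isClosed C ?_ ?_ ?_ hcl
    · intro N₁ N₂
      have ho : IsOpen ((N₁.1 ⊓ N₂.1 : Subgroup (AbsGal F)) : Set (AbsGal F)) := by
        rw [Subgroup.coe_inf]
        exact N₁.2.2.1.inter N₂.2.2.1
      have hle : R F ≤ N₁.1 ⊓ N₂.1 := le_inf (sInf_le N₁.2) (sInf_le N₂.2)
      obtain ⟨N, hN, hN'⟩ := hadm _ ho hle
      exact ⟨⟨N, hN⟩, fun d hd => ⟨hd.1, (hN' hd.2).1⟩, fun d hd => ⟨hd.1, (hN' hd.2).2⟩⟩
    · intro N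
      obtain ⟨d, hd, hd'⟩ := exists_mul_of_isAdm hF ι N.1 N.2 g
      exact ⟨d, hd, hd'⟩
    · exact fun N => (hcl N).isCompact
  obtain ⟨d, hd⟩ := hC
  rw [Set.mem_iInter] at hd
  refine ⟨d, (hd ⟨⊤, htop⟩).1, d⁻¹ * g, ?_, by group⟩
  rw [R, Subgroup.mem_sInf]
  exact fun N hN => (hd ⟨N, hN⟩).2

end BKPar
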