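import Pool.Agent.Lib.MP_7c08ba_nt.Par.Stmts

set_option autoImplicit false

/-!
Parity project, module GYSIN: the transfer sequence for a subgroup of index two.
-/

noncomputable section

namespace BKPar

universe u

namespace Gysin

theorem two_cases (x : ZMod 2) : x = 0 ∨ x = 1 := by
  revert x
  decide

theorem ne_zero {x : ZMod 2} (h : x ≠ 0) : x = 1 := by
  revert x
  decide

theorem add_self (x : ZMod 2) : x + x = 0 := CharTwo.add_self_eq_zero x

section

variable {G : Type u} [Group G] [TopologicalSpace G] [IsTopologicalGroup G]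

theorem isOpen_ker {χ : G → ZMod 2} (hχ : χ ∈ Hom2 G) {H : Subgroup G}
    (hH : ∀ g, g ∈ H ↔ χ g = 0) : IsOpen (H : Set G) := by
  obtain ⟨⟨W, hW, hWc⟩, hadd⟩ := hχ
  have h1 : χ 1 = 0 := by
    have := hadd 1 1
    rw [mul_one] at this
    exact left_eq_add.1 this
  refine Subgroup.isOpen_mono (H₁ := W) ?_ hW
  intro w hw
  rw [hH]
  have := hWc 1 w hw
  rw [one_mul] at this
  rw [this, h1]

theorem index_ker {χ : G → ZMod 2} (hχ : χ ∈ Hom2 G) (h0 : χ ≠ 0) {H : Subgroup G}
    (hH : ∀ g, g ∈ H ↔ χ g = 0) : H.index = 2 := by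
  obtain ⟨a, ha⟩ : ∃ a, χ a ≠ 0 := by
    by_contra hcon
    push Not at hcon
    exact h0 (funext hcon)
  rw [Subgroup.index_eq_two_iff]
  refine ⟨a, fun b => ?_⟩
  rw [hH, hH, hχ.2, ne_zero ha]
  rcases two_cases (χ b) with hb | hb
  · rw [hb]
    exact Or.inr ⟨rfl, by decide⟩
  · rw [hb]
    exact Or.inl ⟨by decide, by decide⟩

theorem loc1_comp {X Y : Type*} {f : G → X} (hf : Loc1 f) (φ : X → Y) :
    Loc1 (fun g => φ (f g)) := by
  obtain ⟨W, hW, h⟩ := hf
  exact ⟨W, hW, fun g w hw => congrArg φ (h g w hw)⟩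

theorem loc1_pair {X Y Z : Type*} {f : G → X} {f' : G → Y} (hf : Loc1 f) (hf' : Loc1 f')
    (φ : X → Y → Z) : Loc1 (fun g => φ (f g) (f' g)) := by
  obtain ⟨W, hW, h⟩ := hf
  obtain ⟨W', hW', h'⟩ := hf'
  refine ⟨W ⊓ W', ?_, fun g w hw => ?_⟩
  · rw [Subgroup.coe_inf]
    exact hW.inter hW'
  · change φ (f (g * w)) (f' (g * w)) = φ (f g) (f' g)
    rw [h g w hw.1, h' g w hw.2]

theorem sum_sw (H : Subgroup G) (g : G) (v : ZMod 2 × ZMod 2) :
    (sw H g v).1 + (sw H g v).2 = v.1 + v.2 := by
  unfold sw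
  split_ifs
  · rfl
  · exact add_comm _ _

/-- adding the coordinates of a coboundary -/
theorem sum_B2P {H : Subgroup G} {w : G → G → ZMod 2 × ZMod 2} (hw : w ∈ B2P H) :
    ∃ β : G → ZMod 2 × ZMod 2, Loc1 β ∧
      (∀ g h, w g h = sw H g (β h) + β (g * h) + β g) ∧
      (∀ g h, (w g h).1 + (w g h).2 = ((β h).1 + (β h).2) + ((β (g * h)).1 + (β (g * h)).2) +
        ((β g).1 + (β g).2)) := by
  obtain ⟨β, hβ, hβ'⟩ := hw
  refine ⟨β, hβ, hβ', fun g h => ?_⟩
  rw [← sum_sw H g (β h), hβ']
  simp only [Prod.fst_add, Prod.snd_add]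
  ring

end

end Gysin

open Gysin in
theorem stGysin (hS : StShapiro.{u}) : StGysin.{u} := by
  intro G _ _ _ _ χ hχ h0 H hH
  have hopen : IsOpen (H : Set G) := isOpen_ker hχ hH
  have hidx : H.index = 2 := index_ker hχ h0 hH
  have hsh := (hS G H hopen hidx).2
  have hin : ∀ {g : G}, g ∈ H → χ g = 0 := fun {g} hg => (hH g).1 hg
  have hout : ∀ {g : G}, g ∉ H → χ g = 1 := fun {g} hg => ne_zero fun h => hg ((hH g).2 h)
  have hswin : ∀ {g : G} (v : ZMod 2 × ZMod 2), g ∈ H → sw H g v = v := by
    intro g v hg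
    unfold sw
    rw [if_pos hg]
  have hswout : ∀ {g : G} (v : ZMod 2 × ZMod 2), g ∉ H → sw H g v = (v.2, v.1) := by
    intro g v hg
    unfold sw
    rw [if_neg hg]
  have c2 : (2 : ZMod 2) = 0 := by decide
  refine ⟨?_, ?_, ?_⟩
  · rintro z ⟨⟨W, hW, hWz⟩, hz⟩ hzH
    have hw : (fun g h => (z g h, z g h)) ∈ Z2P H := by
      refine ⟨⟨W, hW, fun g h w hw w' hw' => ?_⟩, fun g h k => ?_⟩
      · change (z _ _, z _ _) = (z _ _, z _ _)
        rw [hWz g h w hw w' hw']
      · have e : sw H g (z h k, z h k) = (z h k, z h k) := by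
          by_cases hg : g ∈ H
          · rw [hswin _ hg]
          · rw [hswout _ hg]
        change sw H g (z h k, z h k) + (z (g * h) k, z (g * h) k) + (z g (h * k), z g (h * k)) +
          (z g h, z g h) = 0
        rw [e]
        exact Prod.ext (hz g h k) (hz g h k)
    obtain ⟨β, hβ, hβ1, hβ2⟩ := sum_B2P (hsh _ hw hzH)
    refine ⟨fun g => (β g).1 + (β g).2, ⟨loc1_comp hβ fun v => v.1 + v.2, fun x y => ?_⟩,
      fun g => (β g).1, loc1_comp hβ Prod.fst, fun g h => ?_⟩
    · have h1 := hβ2 x y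
      change z x y + z x y = _ at h1
      rw [add_self] at h1
      change (β (x * y)).1 + (β (x * y)).2 = (β x).1 + (β x).2 + ((β y).1 + (β y).2)
      linear_combination (-1 : ZMod 2) * h1 - ((β y).1 + (β y).2 + (β x).1 + (β x).2) * c2
    · have h1 : z g h = (sw H g (β h)).1 + (β (g * h)).1 + (β g).1 := by
        have := congrArg Prod.fst (hβ1 g h)
        simpa only [Prod.fst_add] using this
      change z g h + χ g * ((β h).1 + (β h).2) = (β h).1 + (β (g * h)).1 + (β g).1
      by_cases hg : g ∈ H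
      · rw [hswin _ hg] at h1
        rw [hin hg, h1]
        ring
      · rw [hswout _ hg] at h1
        rw [hout hg, h1]
        change (β h).2 + (β (g * h)).1 + (β g).1 + 1 * ((β h).1 + (β h).2) = _
        linear_combination (β h).2 * c2
  · rintro y ⟨hy, hyadd⟩
    constructor
    · rintro ⟨γ, hγ, hγ'⟩
      have hγ'' : ∀ g h, χ g * y h = γ h + γ (g * h) + γ g := hγ'
      refine ⟨fun g => (γ g, γ g + y g),
        ⟨loc1_pair hγ hy fun a b => (a, a + b), fun g h => ?_⟩, fun g => ?_⟩
      · have h1 := hγ'' g h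
        have h2 := hyadd g h
        by_cases hg : g ∈ H
        · rw [hswin _ hg]
          rw [hin hg] at h1
          refine Prod.ext ?_ ?_
          · change γ (g * h) = γ g + γ h
            linear_combination (-1 : ZMod 2) * h1 - (γ g + γ h) * c2
          · change γ (g * h) + y (g * h) = γ g + y g + (γ h + y h)
            linear_combination (-1 : ZMod 2) * h1 - (γ g + γ h) * c2 + h2
        · rw [hswout _ hg]
          rw [hout hg] at h1
          refine Prod.ext ?_ ?_
          · change γ (g * h) = γ g + (γ h + y h)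
            linear_combination (-1 : ZMod 2) * h1 - (γ g + γ h) * c2
          · change γ (g * h) + y (g * h) = γ g + y g + γ h
            linear_combination (-1 : ZMod 2) * h1 + (y h - γ g - γ h) * c2 + h2
      · change y g = γ g + (γ g + y g)
        linear_combination (-γ g) * c2
    · rintro ⟨a, ⟨ha, ha'⟩, hya⟩
      refine ⟨fun g => (a g).1, loc1_comp ha Prod.fst, fun g h => ?_⟩
      change χ g * y h = (a h).1 + (a (g * h)).1 + (a g).1
      rw [ha' g h, hya h, Prod.fst_add]
      by_cases hg : g ∈ H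
      · rw [hswin _ hg, hin hg]
        linear_combination (-((a h).1 + (a g).1)) * c2
      · rw [hswout _ hg, hout hg]
        change 1 * ((a h).1 + (a h).2) = (a h).1 + ((a g).1 + (a h).2) + (a g).1
        linear_combination (-(a g).1) * c2
  · rintro a ⟨ha, ha'⟩ b ⟨hb, hb'⟩ z ⟨hz, hz'⟩ hzH
    have hw : (fun g h => (z g h + (a g).1 * b h, z g h + (a g).2 * b h)) ∈ Z2P H := by
      refine ⟨?_, fun g h k => ?_⟩
      · obtain ⟨W1, hW1, h1⟩ := ha
        obtain ⟨W2, hW2, h2⟩ := hb
        obtain ⟨W3, hW3, h3⟩ := hz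
        refine ⟨W1 ⊓ W2 ⊓ W3, ?_, fun g h w hw w' hw' => ?_⟩
        · rw [Subgroup.coe_inf, Subgroup.coe_inf]
          exact (hW1.inter hW2).inter hW3
        · change (z _ _ + (a _).1 * b _, z _ _ + (a _).2 * b _) = (_, _)
          rw [h1 g w hw.1.1, h2 h w' hw'.1.2, h3 g h w hw.2 w' hw'.2]
      · change sw H g (z h k + (a h).1 * b k, z h k + (a h).2 * b k) +
          (z (g * h) k + (a (g * h)).1 * b k, z (g * h) k + (a (g * h)).2 * b k) +
          (z g (h * k) + (a g).1 * b (h * k), z g (h * k) + (a g).2 * b (h * k)) +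
          (z g h + (a g).1 * b h, z g h + (a g).2 * b h) = 0
        have h1 := hz' g h k
        rw [ha' g h, hb' h k]
        by_cases hg : g ∈ H
        · rw [hswin _ hg, hswin _ hg]
          refine Prod.ext ?_ ?_
          · change z h k + (a h).1 * b k + (z (g * h) k + ((a g).1 + (a h).1) * b k) +
              (z g (h * k) + (a g).1 * (b h + b k)) + (z g h + (a g).1 * b h) = 0
            linear_combination h1 + ((a h).1 * b k + (a g).1 * b k + (a g).1 * b h) * c2
          · change z h k + (a h).2 * b k + (z (g * h) k + ((a g).2 + (a h).2) * b k) +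
              (z g (h * k) + (a g).2 * (b h + b k)) + (z g h + (a g).2 * b h) = 0
            linear_combination h1 + ((a h).2 * b k + (a g).2 * b k + (a g).2 * b h) * c2
        · rw [hswout _ hg, hswout _ hg]
          refine Prod.ext ?_ ?_
          · change z h k + (a h).2 * b k + (z (g * h) k + ((a g).1 + (a h).2) * b k) +
              (z g (h * k) + (a g).1 * (b h + b k)) + (z g h + (a g).1 * b h) = 0
            linear_combination h1 + ((a h).2 * b k + (a g).1 * b k + (a g).1 * b h) * c2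
          · change z h k + (a h).1 * b k + (z (g * h) k + ((a g).2 + (a h).1) * b k) +
              (z g (h * k) + (a g).2 * (b h + b k)) + (z g h + (a g).2 * b h) = 0
            linear_combination h1 + ((a h).1 * b k + (a g).2 * b k + (a g).2 * b h) * c2
    obtain ⟨β, hβ, hβ1, hβ2⟩ := sum_B2P (hsh _ hw hzH)
    refine ⟨fun g => (β g).1 + (β g).2, loc1_comp hβ fun v => v.1 + v.2, fun g h => ?_⟩
    have h1 := hβ2 g h
    change z g h + (a g).1 * b h + (z g h + (a g).2 * b h) = _ at h1
    change ((a g).1 + (a g).2) * b h = (β h).1 + (β h).2 + ((β (g * h)).1 + (β (g * h)).2) +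
      ((β g).1 + (β g).2)
    linear_combination h1 - z g h * c2

end BKPar
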