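import Pool.Agent.Lib.MP_7c08ba_nt.Par.Gysin
import Pool.Agent.Lib.MP_7c08ba_nt.Gen.ProP

set_option autoImplicit false

/-!
Parity project, module LINE: `H²(G, ℤ/2)` has at most two elements and the cup product is
nondegenerate, for pro-`2` groups whose open subgroups have `2 ^ (m [G : U] + 2)` homomorphisms.
-/

noncomputable section

namespace BKPar

universe u v

namespace LineAux

open Gysin

section basic

variable {G : Type u} [Group G] [TopologicalSpace G] [IsTopologicalGroup G]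

theorem B2_add {z z' : G → G → ZMod 2} (h : z ∈ B2 G) (h' : z' ∈ B2 G) : z + z' ∈ B2 G := by
  obtain ⟨β, hβ, e⟩ := h
  obtain ⟨β', hβ', e'⟩ := h'
  refine ⟨fun g => β g + β' g, loc1_pair hβ hβ' (· + ·), fun g h => ?_⟩
  rw [Pi.add_apply, Pi.add_apply, e, e']
  ring

theorem fadd_self {X : Type*} (f : X → ZMod 2) : f + f = 0 := by
  funext x
  exact add_self (f x)

theorem zadd_self (z : G → G → ZMod 2) : z + z = 0 := by
  funext x y
  exact add_self (z x y)

/-- transitivity of being congruent modulo coboundaries -/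
theorem B2_trans {a b c : G → G → ZMod 2} (h : a + b ∈ B2 G) (h' : b + c ∈ B2 G) :
    a + c ∈ B2 G := by
  have h1 := B2_add h h'
  have h2 : a + b + (b + c) = a + c := by
    rw [add_assoc, ← add_assoc b b c, zadd_self, zero_add]
  rwa [h2] at h1

theorem B2_of {a b : G → G → ZMod 2} (h : a + b ∈ B2 G) (h' : b ∈ B2 G) : a ∈ B2 G := by
  have h1 := B2_add h h'
  rwa [add_assoc, zadd_self, add_zero] at h1

theorem B2_zero : (0 : G → G → ZMod 2) ∈ B2 G :=
  ⟨0, ⟨⊤, isOpen_univ, fun _ _ _ => rfl⟩, fun _ _ => by simp⟩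

theorem Hom2_zero : (0 : G → ZMod 2) ∈ Hom2 G :=
  ⟨⟨⊤, isOpen_univ, fun _ _ _ => rfl⟩, fun _ _ => by simp⟩

theorem Hom2_add {f f' : G → ZMod 2} (h : f ∈ Hom2 G) (h' : f' ∈ Hom2 G) : f + f' ∈ Hom2 G := by
  refine ⟨loc1_pair h.1 h'.1 (· + ·), fun x y => ?_⟩
  rw [Pi.add_apply, Pi.add_apply, Pi.add_apply, h.2, h'.2]
  ring

theorem neg_eq {X : Type*} (f : X → ZMod 2) : -f = f := by
  rw [neg_eq_iff_add_eq_zero]
  exact fadd_self f

variable (G) in
/-- the group of homomorphisms -/
def hom2 : AddSubgroup (G → ZMod 2) where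
  carrier := Hom2 G
  zero_mem' := Hom2_zero
  add_mem' := Hom2_add
  neg_mem' := by
    intro f hf
    rw [neg_eq]
    exact hf

theorem cup_add_right (χ f f' : G → ZMod 2) : cup χ (f + f') = cup χ f + cup χ f' := by
  funext x y
  simp only [cup, Pi.add_apply, mul_add]

theorem cup_zero_right (χ : G → ZMod 2) : cup χ 0 = 0 := by
  funext x y
  simp [cup]

theorem cup_zero_left (χ : G → ZMod 2) : cup 0 χ = 0 := by
  funext x y
  simp [cup]

theorem cup_comm {f f' : G → ZMod 2} (h : f ∈ Hom2 G) (h' : f' ∈ Hom2 G) :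
    cup f f' + cup f' f ∈ B2 G := by
  refine ⟨fun g => f g * f' g, loc1_pair h.1 h'.1 (· * ·), fun x y => ?_⟩
  simp only [cup, Pi.add_apply, h.2, h'.2]
  have h2 : (2 : ZMod 2) = 0 := by decide
  linear_combination (-(f x * f' x) - f y * f' y) * h2

/-- the homomorphisms with trivial cup product with `χ` -/
def kk (χ : G → ZMod 2) : AddSubgroup (hom2 G) where
  carrier := {y | cup χ y.1 ∈ B2 G}
  zero_mem' := by
    change cup χ (0 : G → ZMod 2) ∈ B2 G
    rw [cup_zero_right]
    exact B2_zero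
  add_mem' := by
    intro a b ha hb
    change cup χ (a.1 + b.1) ∈ B2 G
    rw [cup_add_right]
    exact B2_add ha hb
  neg_mem' := by
    intro a ha
    change cup χ (-a.1) ∈ B2 G
    rw [neg_eq]
    exact ha

theorem mem_kk {χ : G → ZMod 2} {y : hom2 G} : y ∈ kk χ ↔ cup χ y.1 ∈ B2 G := Iff.rfl

theorem loc1_neg {X : Type*} [Neg X] {f : G → X} (hf : Loc1 f) : Loc1 (-f) :=
  loc1_comp hf (fun x => -x)

theorem sw_add (H : Subgroup G) (g : G) (v w : ZMod 2 × ZMod 2) :
    sw H g (v + w) = sw H g v + sw H g w := by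
  unfold sw
  split_ifs
  · rfl
  · rfl

theorem sw_neg (H : Subgroup G) (g : G) (v : ZMod 2 × ZMod 2) :
    sw H g (-v) = -sw H g v := by
  unfold sw
  split_ifs
  · rfl
  · rfl

theorem sw_zero (H : Subgroup G) (g : G) : sw H g 0 = 0 := by
  unfold sw
  split_ifs
  · rfl
  · rfl

theorem sw_diag (H : Subgroup G) (g : G) (x : ZMod 2) : sw H g (x, x) = (x, x) := by
  unfold sw
  split_ifs
  · rfl
  · rfl

/-- the group of one-cocycles with values in the pairs -/
def z1p (H : Subgroup G) : AddSubgroup (G → ZMod 2 × ZMod 2) where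
  carrier := Z1P H
  zero_mem' := ⟨⟨⊤, isOpen_univ, fun _ _ _ => rfl⟩, fun g h => by
    simp [sw_zero]⟩
  add_mem' := by
    rintro a b ⟨ha, ha'⟩ ⟨hb, hb'⟩
    refine ⟨loc1_pair ha hb (· + ·), fun g h => ?_⟩
    rw [Pi.add_apply, Pi.add_apply, Pi.add_apply, ha', hb', sw_add]
    abel
  neg_mem' := by
    rintro a ⟨ha, ha'⟩
    refine ⟨loc1_neg ha, fun g h => ?_⟩
    rw [Pi.neg_apply, Pi.neg_apply, Pi.neg_apply, ha', sw_neg]
    abel

theorem sum_mem {H : Subgroup G} {a : G → ZMod 2 × ZMod 2} (ha : a ∈ Z1P H) :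
    (fun g => (a g).1 + (a g).2) ∈ Hom2 G := by
  refine ⟨loc1_comp ha.1 (fun v => v.1 + v.2), fun g h => ?_⟩
  change (a (g * h)).1 + (a (g * h)).2 = ((a g).1 + (a g).2) + ((a h).1 + (a h).2)
  rw [ha.2]
  rw [← sum_sw H g (a h)]
  simp only [Prod.fst_add, Prod.snd_add]
  ring

/-- sum of the coordinates -/
def Phi (H : Subgroup G) : z1p H →+ hom2 G where
  toFun a := ⟨fun g => (a.1 g).1 + (a.1 g).2, sum_mem a.2⟩
  map_zero' := by
    apply Subtype.ext
    funext g
    change (0 : ZMod 2) + 0 = 0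
    rw [add_zero]
  map_add' a b := by
    apply Subtype.ext
    funext g
    change ((a.1 g).1 + (b.1 g).1) + ((a.1 g).2 + (b.1 g).2) =
      ((a.1 g).1 + (a.1 g).2) + ((b.1 g).1 + (b.1 g).2)
    ring

theorem card_ker (H : Subgroup G) : Nat.card (Phi H).ker = Nat.card (hom2 G) := by
  refine Nat.card_congr
    { toFun := fun a => ⟨fun g => (a.1.1 g).1, ?_⟩
      invFun := fun f => ⟨⟨fun g => (f.1 g, f.1 g), ?_⟩, ?_⟩
      left_inv := ?_
      right_inv := ?_ }
  · refine ⟨loc1_comp a.1.2.1 Prod.fst, fun g h => ?_⟩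
    have e1 : ∀ g, (a.1.1 g).2 = (a.1.1 g).1 := by
      intro g
      have h1 := congrFun (congrArg Subtype.val a.2) g
      change (a.1.1 g).1 + (a.1.1 g).2 = 0 at h1
      have h2 := congrArg (fun x => (a.1.1 g).1 + x) h1
      simp only [add_zero] at h2
      rw [← add_assoc, add_self, zero_add] at h2
      exact h2
    have e2 : ∀ g, a.1.1 g = ((a.1.1 g).1, (a.1.1 g).1) := by
      intro g
      apply Prod.ext
      · rfl
      · exact e1 g
    have h3 := a.1.2.2 g h
    rw [e2 h, sw_diag] at h3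
    change (a.1.1 (g * h)).1 = (a.1.1 g).1 + (a.1.1 h).1
    rw [h3]
    rfl
  · refine ⟨loc1_comp f.2.1 (fun x => (x, x)), fun g h => ?_⟩
    rw [sw_diag]
    change (f.1 (g * h), f.1 (g * h)) = _
    rw [f.2.2]
    rfl
  · change Phi H _ = 0
    apply Subtype.ext
    funext g
    exact add_self (f.1 g)
  · intro a
    apply Subtype.ext
    apply Subtype.ext
    funext g
    have h1 := congrFun (congrArg Subtype.val a.2) g
    change (a.1.1 g).1 + (a.1.1 g).2 = 0 at h1
    have h2 := congrArg (fun x => (a.1.1 g).1 + x) h1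
    simp only [add_zero] at h2
    rw [← add_assoc, add_self, zero_add] at h2
    apply Prod.ext
    · rfl
    · exact h2.symm
  · intro f
    rfl

end basic

section comp

variable {G : Type u} {G' : Type v} [Group G] [TopologicalSpace G]
  [Group G'] [TopologicalSpace G']

theorem hom2_comp (φ : G →* G') (hφ : Continuous φ) {f : G' → ZMod 2} (hf : f ∈ Hom2 G') :
    (fun g => f (φ g)) ∈ Hom2 G := by
  obtain ⟨⟨W, hW, h⟩, hadd⟩ := hf
  refine ⟨⟨W.comap φ, hW.preimage hφ, fun g w hw => ?_⟩, fun x y => ?_⟩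
  · change f (φ (g * w)) = f (φ g)
    rw [map_mul]
    exact h _ _ hw
  · change f (φ (x * y)) = f (φ x) + f (φ y)
    rw [map_mul, hadd]

theorem Z2_comp (φ : G →* G') (hφ : Continuous φ) {z : G' → G' → ZMod 2} (hz : z ∈ Z2 G') :
    (fun g h => z (φ g) (φ h)) ∈ Z2 G := by
  obtain ⟨⟨W, hW, h⟩, hc⟩ := hz
  refine ⟨⟨W.comap φ, hW.preimage hφ, fun g h' w hw w' hw' => ?_⟩, fun x y k => ?_⟩
  · change z (φ (g * w)) (φ (h' * w')) = z (φ g) (φ h')
    rw [map_mul, map_mul]
    exact h _ _ _ hw _ hw'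
  · change z (φ y) (φ k) + z (φ (x * y)) (φ k) + z (φ x) (φ (y * k)) + z (φ x) (φ y) = 0
    rw [map_mul, map_mul]
    exact hc _ _ _

theorem B2_comp (φ : G →* G') (hφ : Continuous φ) {z : G' → G' → ZMod 2} (hz : z ∈ B2 G') :
    (fun g h => z (φ g) (φ h)) ∈ B2 G := by
  obtain ⟨β, ⟨W, hW, h⟩, hc⟩ := hz
  refine ⟨fun g => β (φ g), ⟨W.comap φ, hW.preimage hφ, fun g w hw => ?_⟩, fun x y => ?_⟩
  · change β (φ (g * w)) = β (φ g)
    rw [map_mul]
    exact h _ _ hw
  · change z (φ x) (φ y) = β (φ y) + β (φ (x * y)) + β (φ x)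
    rw [map_mul]
    exact hc _ _

theorem card_hom2_congr (e : G ≃* G') (he : Continuous e) (he' : Continuous e.symm) :
    Nat.card (Hom2 G) = Nat.card (Hom2 G') := by
  refine Nat.card_congr
    { toFun := fun f => ⟨fun g => f.1 (e.symm g), hom2_comp e.symm.toMonoidHom he' f.2⟩
      invFun := fun f => ⟨fun g => f.1 (e g), hom2_comp e.toMonoidHom he f.2⟩
      left_inv := ?_
      right_inv := ?_ }
  · intro f
    apply Subtype.ext
    funext g
    change f.1 (e.symm (e g)) = f.1 g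
    rw [MulEquiv.symm_apply_apply]
  · intro f
    apply Subtype.ext
    funext g
    change f.1 (e (e.symm g)) = f.1 g
    rw [MulEquiv.apply_symm_apply]

end comp

section count

variable {G : Type u} [Group G] [TopologicalSpace G] [IsTopologicalGroup G] [CompactSpace G]

omit [IsTopologicalGroup G] [CompactSpace G] in
theorem card_top {m : ℕ} (hD : DU G m) : Nat.card (Hom2 G) = 2 ^ (m + 2) := by
  have h1 := hD ⊤ isOpen_univ
  rw [Subgroup.index_top, mul_one] at h1
  rw [← h1]
  refine (card_hom2_congr Subgroup.topEquiv continuous_subtype_val ?_).symm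
  exact Continuous.subtype_mk continuous_id _

/-- the kernel subgroup of a homomorphism -/
def kerS {χ : G → ZMod 2} (hχ : χ ∈ Hom2 G) : Subgroup G where
  carrier := {g | χ g = 0}
  one_mem' := by
    have := hχ.2 1 1
    rw [mul_one] at this
    exact left_eq_add.1 this
  mul_mem' := by
    intro a b ha hb
    change χ (a * b) = 0
    rw [hχ.2]
    rw [show χ a = 0 from ha, show χ b = 0 from hb, add_zero]
  inv_mem' := by
    intro a ha
    have h0 : χ 1 = 0 := by
      have := hχ.2 1 1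
      rw [mul_one] at this
      exact left_eq_add.1 this
    have h1 := hχ.2 a a⁻¹
    rw [mul_inv_cancel, h0, show χ a = 0 from ha, zero_add] at h1
    exact h1.symm

theorem index_kk (hS : StShapiro.{u}) (hG : StGysin.{u}) {m : ℕ} (hD : DU G m) {χ : G → ZMod 2}
    (hχ : χ ∈ Hom2 G) (h0 : χ ≠ 0) : (kk χ).index = 2 := by
  have hH : ∀ g, g ∈ kerS hχ ↔ χ g = 0 := fun g => Iff.rfl
  have hopen : IsOpen (kerS hχ : Set G) := isOpen_ker hχ hH
  have hidx : (kerS hχ).index = 2 := index_ker hχ h0 hH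
  have hD1 := hD _ hopen
  rw [hidx] at hD1
  have h1 : Nat.card (z1p (kerS hχ)) = 2 * 2 ^ (m * 2 + 2) := by
    rw [← hD1]
    exact (hS G (kerS hχ) hopen hidx).1 (by rw [hD1]; positivity)
  have h2 := AddSubgroup.card_eq_card_quotient_mul_card_addSubgroup (Phi (kerS hχ)).ker
  rw [Nat.card_congr (QuotientAddGroup.quotientKerEquivRange (Phi (kerS hχ))).toEquiv, card_ker,
    h1] at h2
  have h3 : (Phi (kerS hχ)).range = kk χ := by
    ext y
    rw [AddMonoidHom.mem_range, mem_kk, (hG G χ hχ h0 _ hH).2.1 y.1 y.2]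
    constructor
    · rintro ⟨a, ha⟩
      exact ⟨a.1, a.2, fun g => congrFun (congrArg Subtype.val ha).symm g⟩
    · rintro ⟨a, ha, ha'⟩
      exact ⟨⟨a, ha⟩, Subtype.ext (funext fun g => (ha' g).symm)⟩
  rw [h3] at h2
  have h4 : Nat.card (hom2 G) = 2 ^ (m + 2) := card_top hD
  have h5 := AddSubgroup.card_mul_index (kk χ)
  rw [h4] at h2 h5
  have h6 : 0 < Nat.card (kk χ) := by
    rcases Nat.eq_zero_or_pos (Nat.card (kk χ)) with h | h
    · rw [h, zero_mul] at h5
      have : 0 < 2 ^ (m + 2) := by positivity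
      omega
    · exact h
  have h7 : Nat.card (kk χ) = 2 ^ (m + 1) := by
    have e1 : 2 * 2 ^ (m * 2 + 2) = 2 ^ (m + 1) * 2 ^ (m + 2) := by
      rw [← pow_succ', ← pow_add]
      congr 1
      ring
    rw [e1] at h2
    exact (Nat.eq_of_mul_eq_mul_right (by positivity) h2).symm
  rw [h7] at h5
  have e2 : (2 : ℕ) ^ (m + 2) = 2 ^ (m + 1) * 2 := by rw [← pow_succ]
  rw [e2] at h5
  exact Nat.eq_of_mul_eq_mul_left (by positivity) h5

theorem exists_not (hS : StShapiro.{u}) (hG : StGysin.{u}) {m : ℕ} (hD : DU G m) {χ : G → ZMod 2}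
    (hχ : χ ∈ Hom2 G) (h0 : χ ≠ 0) : ∃ y ∈ Hom2 G, cup χ y ∉ B2 G := by
  by_contra hcon
  push Not at hcon
  have h1 := index_kk hS hG hD hχ h0
  have h2 : kk χ = ⊤ := by
    rw [eq_top_iff]
    intro y _
    exact hcon y.1 y.2
  rw [h2, AddSubgroup.index_top] at h1
  omega

theorem add_of_not (hS : StShapiro.{u}) (hG : StGysin.{u}) {m : ℕ} (hD : DU G m) {χ : G → ZMod 2}
    (hχ : χ ∈ Hom2 G) (h0 : χ ≠ 0) {y y' : G → ZMod 2} (hy : y ∈ Hom2 G) (hy' : y' ∈ Hom2 G)
    (h : cup χ y ∉ B2 G) (h' : cup χ y' ∉ B2 G) : cup χ y + cup χ y' ∈ B2 G := by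
  have h1 := index_kk hS hG hD hχ h0
  have h2 := (AddSubgroup.add_mem_iff_of_index_two h1 (a := ⟨y, hy⟩) (b := ⟨y', hy'⟩)).2
    ⟨fun h3 => absurd h3 h, fun h3 => absurd h3 h'⟩
  rw [mem_kk] at h2
  change cup χ (y + y') ∈ B2 G at h2
  rwa [cup_add_right] at h2

omit [CompactSpace G] in
theorem not_of_add {χ : G → ZMod 2} {y y' : G → ZMod 2}
    (h : cup χ y ∉ B2 G) (h' : cup χ y' ∈ B2 G) : cup χ (y + y') ∉ B2 G := by
  intro h3
  rw [cup_add_right] at h3
  exact h (B2_of h3 h')

/-- nontrivial cup products are congruent -/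
theorem lemD (hS : StShapiro.{u}) (hG : StGysin.{u}) {m : ℕ} (hD : DU G m)
    {χ χ' y y' : G → ZMod 2} (hχ : χ ∈ Hom2 G) (hχ' : χ' ∈ Hom2 G) (hy : y ∈ Hom2 G)
    (hy' : y' ∈ Hom2 G) (h : cup χ y ∉ B2 G) (h' : cup χ' y' ∉ B2 G) :
    cup χ y + cup χ' y' ∈ B2 G := by
  have ne : ∀ {a b : G → ZMod 2}, cup a b ∉ B2 G → a ≠ 0 := by
    rintro a b hab rfl
    rw [cup_zero_left] at hab
    exact hab B2_zero
  have sy : ∀ {a b : G → ZMod 2}, a ∈ Hom2 G → b ∈ Hom2 G → cup a b ∉ B2 G → cup b a ∉ B2 G := by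
    intro a b ha hb hab hba
    exact hab (B2_of (cup_comm ha hb) hba)
  obtain ⟨w, hw, h1, h2⟩ : ∃ w ∈ Hom2 G, cup χ w ∉ B2 G ∧ cup χ' w ∉ B2 G := by
    by_cases h3 : cup χ' y ∈ B2 G
    · by_cases h4 : cup χ y' ∈ B2 G
      · refine ⟨y + y', Hom2_add hy hy', not_of_add h h4, ?_⟩
        rw [add_comm y y']
        exact not_of_add h' h3
      · exact ⟨y', hy', h4, h'⟩
    · exact ⟨y, hy, h, h3⟩
  have e1 := add_of_not hS hG hD hχ (ne h) hy hw h h1
  have e2 := cup_comm hχ hw
  have e3 := add_of_not hS hG hD hw (ne (sy hχ hw h1)) hχ hχ' (sy hχ hw h1) (sy hχ' hw h2)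
  have e4 := cup_comm hw hχ'
  have e5 := add_of_not hS hG hD hχ' (ne h') hw hy' h2 h'
  exact B2_trans e1 (B2_trans e2 (B2_trans e3 (B2_trans e4 e5)))

/-- a nonzero element of `kk χ` -/
theorem exists_ne (hS : StShapiro.{u}) (hG : StGysin.{u}) {m : ℕ} (hm : 1 ≤ m) (hD : DU G m)
    {χ : G → ZMod 2} (hχ : χ ∈ Hom2 G) (h0 : χ ≠ 0) :
    ∃ y ∈ Hom2 G, cup χ y ∈ B2 G ∧ y ≠ 0 := by
  by_contra hcon
  push Not at hcon
  have h1 := index_kk hS hG hD hχ h0
  have h2 : kk χ = ⊥ := by
    rw [eq_bot_iff]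
    intro y hy
    rw [AddSubgroup.mem_bot]
    exact Subtype.ext (hcon y.1 y.2 hy)
  rw [h2, AddSubgroup.index_bot] at h1
  have h4 : Nat.card (hom2 G) = 2 ^ (m + 2) := card_top hD
  rw [h4] at h1
  have h5 : 2 ^ 3 ≤ 2 ^ (m + 2) := Nat.pow_le_pow_right (by norm_num) (by omega)
  omega

end count

section sub

variable {G : Type u} [Group G] [TopologicalSpace G] [IsTopologicalGroup G] [CompactSpace G]

omit [CompactSpace G] in
theorem open_map {H : Subgroup G} (hH : IsOpen (H : Set G)) {U : Subgroup H}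
    (hU : IsOpen (U : Set H)) : IsOpen ((U.map H.subtype : Subgroup G) : Set G) := by
  rw [Subgroup.coe_map]
  exact hH.isOpenMap_subtype_val _ hU

omit [CompactSpace G] in
theorem pro2_sub (h : Pro2 G) {H : Subgroup G} (hH : IsOpen (H : Set G)) : Pro2 H := by
  intro U hU
  obtain ⟨k, hk⟩ := h _ (open_map hH hU)
  rw [Subgroup.index_map_subtype] at hk
  obtain ⟨j, _, hj⟩ := (Nat.dvd_prime_pow Nat.prime_two).1 (Dvd.intro _ hk)
  exact ⟨j, hj⟩

omit [CompactSpace G] in
theorem du_sub {m : ℕ} (h : DU G m) {H : Subgroup G} (hH : IsOpen (H : Set G))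
    (hi : H.index = 2) : DU H (2 * m) := by
  intro U hU
  have h1 := h _ (open_map hH hU)
  rw [Subgroup.index_map_subtype, hi] at h1
  rw [show 2 * m * U.index + 2 = m * (U.index * 2) + 2 by ring, ← h1]
  refine card_hom2_congr (U.equivMapOfInjective H.subtype H.subtype_injective) ?_ ?_
  · refine Continuous.subtype_mk (continuous_subtype_val.comp continuous_subtype_val) _
  · rw [Topology.IsInducing.subtypeVal.continuous_iff, Topology.IsInducing.subtypeVal.continuous_iff]
    refine Continuous.congr (f := fun x : ↥(U.map H.subtype) => (x : G))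
      continuous_subtype_val fun x => ?_
    obtain ⟨y, rfl⟩ := (U.equivMapOfInjective H.subtype H.subtype_injective).surjective x
    change _ = (((U.equivMapOfInjective H.subtype H.subtype_injective).symm
      (U.equivMapOfInjective H.subtype H.subtype_injective y) : U) : G)
    rw [MulEquiv.symm_apply_apply]
    rfl

theorem exists_index_two (h : Pro2 G) {W : Subgroup G} (hW : IsOpen (W : Set G)) (hne : W ≠ ⊤) :
    ∃ H : Subgroup G, H.index = 2 ∧ W ≤ H := by
  have hfin : Finite (G ⧸ W) := Subgroup.quotient_finite_of_isOpen W hW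
  have hfi : W.FiniteIndex := Subgroup.finiteIndex_of_finite_quotient
  have hcl : IsClosed (W.normalCore : Set G) :=
    W.normalCore_isClosed (Subgroup.isClosed_of_isOpen W hW)
  have hfi' : W.normalCore.FiniteIndex := Subgroup.finiteIndex_normalCore W
  have hop : IsOpen (W.normalCore : Set G) :=
    Subgroup.isOpen_of_isClosed_of_finiteIndex _ hcl
  obtain ⟨k, hk⟩ := h _ hop
  have hfinQ : Finite (G ⧸ W.normalCore) := Subgroup.quotient_finite_of_isOpen _ hop
  have hP : IsPGroup 2 (G ⧸ W.normalCore) := IsPGroup.of_card (n := k) (by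
    rw [← hk]; rfl)
  have hsurj := QuotientGroup.mk'_surjective W.normalCore
  have hne' : W.map (QuotientGroup.mk' W.normalCore) ≠ ⊤ := by
    intro hcon
    apply hne
    rw [eq_top_iff]
    intro g _
    have h1 : QuotientGroup.mk' W.normalCore g ∈ W.map (QuotientGroup.mk' W.normalCore) := by
      rw [hcon]
      exact Subgroup.mem_top _
    obtain ⟨w, hw, hwg⟩ := h1
    have h2 : w⁻¹ * g ∈ W.normalCore := QuotientGroup.eq.1 hwg
    have h3 := W.mul_mem hw (W.normalCore_le h2)
    rwa [mul_inv_cancel_left] at h3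
  have : Fact (Nat.Prime 2) := ⟨Nat.prime_two⟩
  obtain ⟨N, _, hN, hle⟩ := BKGen.exists_normal_index hP _ hne'
  refine ⟨N.comap (QuotientGroup.mk' W.normalCore), ?_, ?_⟩
  · rw [Subgroup.index_comap_of_surjective _ hsurj, hN]
  · intro w hw
    exact hle (Subgroup.mem_map_of_mem _ hw)

end sub

theorem claimQ (hS : StShapiro.{u}) (hGy : StGysin.{u}) (k : ℕ) :
    ∀ (G : Type u) [Group G] [TopologicalSpace G] [IsTopologicalGroup G] [CompactSpace G] (m : ℕ),
      1 ≤ m → Pro2 G → DU G m → ∀ z ∈ Z2 G, ∀ W : Subgroup G, IsOpen (W : Set G) →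
      W.index = 2 ^ k → (fun a b : W => z a b) ∈ B2 W →
      z ∈ B2 G ∨ ∃ u ∈ Hom2 G, ∃ v ∈ Hom2 G, cup u v ∉ B2 G ∧ z + cup u v ∈ B2 G := by
  induction k with
  | zero =>
    intro G _ _ _ _ m _ _ _ z _ W _ hi hzW
    rw [pow_zero, Subgroup.index_eq_one] at hi
    subst hi
    left
    exact B2_comp (Subgroup.topEquiv (G := G)).symm.toMonoidHom
      (Continuous.subtype_mk continuous_id _) hzW
  | succ k ih =>
    intro G _ _ _ _ m hm hP hD z hz W hW hi hzW
    have hne : W ≠ ⊤ := by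
      rintro rfl
      rw [Subgroup.index_top, pow_succ] at hi
      omega
    obtain ⟨H, hH2, hWH⟩ := exists_index_two hP hW hne
    have hHo : IsOpen (H : Set G) := Subgroup.isOpen_mono hWH hW
    have hHc : CompactSpace H :=
      isCompact_iff_compactSpace.1 (Subgroup.isClosed_of_isOpen H hHo).isCompact
    -- the homomorphism
    classical
    set χ : G → ZMod 2 := fun g => if g ∈ H then 0 else 1 with hχdef
    have hχH : ∀ g, g ∈ H ↔ χ g = 0 := by
      intro g
      rw [hχdef]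
      by_cases hg : g ∈ H
      · simp [hg]
      · simp [hg]
    have hχ : χ ∈ Hom2 G := by
      refine ⟨⟨H, hHo, fun g w hw => ?_⟩, fun x y => ?_⟩
      · simp only [hχdef, Subgroup.mul_mem_iff_of_index_two hH2, hw, iff_true]
      · simp only [hχdef, Subgroup.mul_mem_iff_of_index_two hH2]
        by_cases hx : x ∈ H
        · by_cases hy : y ∈ H
          · simp [hx, hy]
          · simp [hx, hy]
        · by_cases hy : y ∈ H
          · simp [hx, hy]
          · simp only [hx, hy, iff_self, if_true, if_false]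
            decide
    have hχ0 : χ ≠ 0 := by
      intro h0
      have : H = ⊤ := by
        rw [eq_top_iff]
        intro g _
        rw [hχH, h0]
        rfl
      rw [this, Subgroup.index_top] at hH2
      omega
    obtain ⟨ga, gb, gc⟩ := hGy G χ hχ hχ0 H hχH
    -- the subgroup
    have hzH : (fun a b : H => z a b) ∈ Z2 H := Z2_comp H.subtype continuous_subtype_val hz
    have hP' := pro2_sub hP hHo
    have hD' := du_sub hD hHo hH2
    have hi' : (W.subgroupOf H).index = 2 ^ k := by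
      have h1 := Subgroup.relIndex_mul_index hWH
      rw [hi, hH2, pow_succ] at h1
      exact Nat.eq_of_mul_eq_mul_right (by norm_num) h1
    have hWo : IsOpen ((W.subgroupOf H : Subgroup H) : Set H) := by
      rw [Subgroup.coe_subgroupOf]
      exact hW.preimage continuous_subtype_val
    have hzW' : (fun a b : W.subgroupOf H => z a.1 b.1) ∈ B2 (W.subgroupOf H) := by
      have hc : Continuous (Subgroup.subgroupOfEquivOfLe hWH).toMonoidHom := by
        refine Continuous.subtype_mk (continuous_subtype_val.comp continuous_subtype_val) _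
      exact B2_comp (Subgroup.subgroupOfEquivOfLe hWH).toMonoidHom hc hzW
    rcases ih H (2 * m) (by omega) hP' hD' _ hzH (W.subgroupOf H) hWo hi' hzW' with h1 | h1
    · obtain ⟨ψ, hψ, hψ'⟩ := ga z hz h1
      by_cases hc : cup χ ψ ∈ B2 G
      · exact Or.inl (B2_of hψ' hc)
      · exact Or.inr ⟨χ, hχ, ψ, hψ, hc, hψ'⟩
    · exfalso
      obtain ⟨u, hu, v, hv, huv, hz'⟩ := h1
      obtain ⟨y, hy, hy', hy0⟩ := exists_ne hS hGy hm hD hχ hχ0
      obtain ⟨a, ha, hya⟩ := (gb y hy).1 hy'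
      obtain ⟨b, hb, hyb⟩ := exists_not hS hGy hD hy hy0
      have hya' : (fun g => (a g).1 + (a g).2) = y := funext fun g => (hya g).symm
      have ha1 : (fun g : H => (a g).1) ∈ Hom2 H := by
        obtain ⟨⟨V, hV, hVa⟩, hac⟩ := ha
        refine ⟨⟨V.subgroupOf H, ?_, fun g w hw => ?_⟩, fun g h => ?_⟩
        · rw [Subgroup.coe_subgroupOf]
          exact hV.preimage continuous_subtype_val
        · change (a (g * w : G)).1 = (a g).1
          rw [hVa g w hw]
        · change (a (g * h : G)).1 = (a g).1 + (a h).1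
          rw [hac]
          have : sw H g (a h) = a h := by
            unfold sw
            rw [if_pos g.2]
          rw [this]
          rfl
      have hb1 : (fun g : H => b g) ∈ Hom2 H := hom2_comp H.subtype continuous_subtype_val hb
      have hnot : cup (fun g : H => (a g).1) (fun g : H => b g) ∉ B2 H := by
        intro hcon
        have h2 := gc a ha b hb 0 ⟨⟨⊤, isOpen_univ, fun _ _ _ _ _ _ => rfl⟩, fun _ _ _ => by simp⟩
          (by
            have e : (fun g h : H => (0 : G → G → ZMod 2) g h + (a g).1 * b h) =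
                cup (fun g : H => (a g).1) (fun g : H => b g) := by
              funext g h
              change 0 + (a g).1 * b h = (a g).1 * b h
              rw [zero_add]
            rw [e]
            exact hcon)
        rw [hya'] at h2
        exact hyb h2
      have h3 := lemD hS hGy hD' hu ha1 hv hb1 huv hnot
      have h4 := B2_trans hz' h3
      have h5 := gc a ha b hb z hz h4
      rw [hya'] at h5
      exact hyb h5

end LineAux

open LineAux in
theorem stLine (hS : StShapiro.{u}) (hG : StGysin.{u}) : StLine.{u} := by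
  intro G _ _ _ _ m hm hP hD
  have key : ∀ z ∈ Z2 G, z ∈ B2 G ∨
      ∃ u ∈ Hom2 G, ∃ v ∈ Hom2 G, cup u v ∉ B2 G ∧ z + cup u v ∈ B2 G := by
    intro z hz
    obtain ⟨W, hW, hWz⟩ := hz.1
    obtain ⟨k, hk⟩ := hP W hW
    refine claimQ hS hG k G m hm hP hD z hz W hW hk ?_
    refine ⟨fun _ => z 1 1, ⟨⊤, isOpen_univ, fun _ _ _ => rfl⟩, fun g h => ?_⟩
    have h1 := hWz 1 1 g g.2 h h.2
    rw [one_mul, one_mul] at h1
    change z g h = _
    rw [h1, CharTwo.add_self_eq_zero, zero_add]
  refine ⟨?_, ?_⟩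
  · intro z hz z' hz' hn hn'
    obtain ⟨u, hu, v, hv, h1, h2⟩ := (key z hz).resolve_left hn
    obtain ⟨u', hu', v', hv', h1', h2'⟩ := (key z' hz').resolve_left hn'
    have h3 := lemD hS hG hD hu hu' hv hv' h1 h1'
    refine B2_trans h2 (B2_trans h3 ?_)
    rw [add_comm]
    exact h2'
  · intro χ hχ h0
    obtain ⟨y, hy, hy'⟩ := exists_not hS hG hD hχ h0
    refine ⟨y, hy, fun hcon => hy' (B2_of (cup_comm hχ hy) hcon)⟩

end BKPar
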