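import Pool.Agent.Lib.MP_7c08ba_nt.Par.Stmts
import Pool.Agent.Lib.MP_7c08ba_nt.Kummer
import Pool.Agent.Lib.MP_7c08ba_nt.Gen.Main
import Pool.Agent.Lib.MP_7c08ba_nt.Gen.RigidTwo

set_option autoImplicit false

/-!
Module LOCHOM: homomorphisms of the decomposition groups to `ℤ/2`.
-/

noncomputable section

namespace BKPar

open Pool.Agent.Lib.MP_7c08ba_nt NumberField IntermediateField Polynomial

namespace LocHomAux

section General

variable {F Ω : Type*} [Field F] [Field Ω] [Algebra F Ω]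

/-- the decomposition group is closed -/
theorem isClosed_dec [Algebra.IsIntegral F Ω] {l : ℕ} [Fact l.Prime] (j : Ω →+* PadicAlgCl l) :
    IsClosed (BKGen.Dec F Ω j : Set (Ω ≃ₐ[F] Ω)) := by
  have h1 : (BKGen.Dec F Ω j : Set (Ω ≃ₐ[F] Ω)) = ⋂ x : Ω, {σ | ‖j (σ x)‖ = ‖j x‖} := by
    ext σ
    simp only [Set.mem_iInter]
    rfl
  rw [h1]
  refine isClosed_iInter fun x => ?_
  rw [← isOpen_compl_iff, isOpen_iff_mem_nhds]
  intro σ hσ
  have h2 : IsOpen (MulAction.stabilizer (Ω ≃ₐ[F] Ω) x : Set (Ω ≃ₐ[F] Ω)) :=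
    stabilizer_isOpen_of_isIntegral x
  have h3 : IsOpen ((fun τ => σ⁻¹ * τ) ⁻¹'
      (MulAction.stabilizer (Ω ≃ₐ[F] Ω) x : Set (Ω ≃ₐ[F] Ω))) :=
    h2.preimage (continuous_const_mul σ⁻¹)
  refine Filter.mem_of_superset (h3.mem_nhds (by
    change σ⁻¹ * σ ∈ MulAction.stabilizer (Ω ≃ₐ[F] Ω) x
    rw [inv_mul_cancel]
    exact Subgroup.one_mem _)) ?_
  intro τ hτ
  have h4 : (σ⁻¹ * τ) x = x := hτ
  have h5 : τ x = σ x := by
    have h6 := congrArg σ h4
    rw [← AlgEquiv.mul_apply, mul_inv_cancel_left] at h6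
    exact h6
  change ¬ ‖j (τ x)‖ = ‖j x‖
  rw [h5]
  exact hσ

variable [IsGalois F Ω]

/-- smooth homomorphisms of a closed subgroup to `ℤ/2` come from square roots -/
theorem exists_root (Dg : Subgroup (Ω ≃ₐ[F] Ω)) (hD : IsClosed (Dg : Set (Ω ≃ₐ[F] Ω)))
    (f : Dg → ZMod 2) (hf : f ∈ Hom2 Dg) : ∃ y : Ω, y ≠ 0 ∧ ∀ d : Dg,
    (f d = 0 → (d : Ω ≃ₐ[F] Ω) y = y) ∧ (f d ≠ 0 → (d : Ω ≃ₐ[F] Ω) y = -y) := by
  obtain ⟨⟨W, hW, hfW⟩, hmul⟩ := hf
  by_cases h0 : ∀ d, f d = 0
  · exact ⟨1, one_ne_zero, fun d => ⟨fun _ => map_one _, fun h => absurd (h0 d) h⟩⟩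
  push Not at h0
  obtain ⟨d₀, hd₀⟩ := h0
  have hf1 : f 1 = 0 := by
    have h1 := hmul 1 1
    rw [mul_one] at h1
    exact (left_eq_add.1 h1)
  set E := fixedField Dg with hE
  have hfix : E.fixingSubgroup = Dg := InfiniteGalois.fixingSubgroup_fixedField ⟨Dg, hD⟩
  have hGal : IsGalois E Ω := IsGalois.tower_top_intermediateField E
  let r : (Ω ≃ₐ[E] Ω) →* (Ω ≃ₐ[F] Ω) := AlgEquiv.restrictScalarsHom F
  have hr : Continuous r := BKGen.continuous_restrictScalars E
  have hmem : ∀ τ, r τ ∈ Dg := by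
    intro τ
    rw [← hfix, IntermediateField.mem_fixingSubgroup_iff]
    intro x hx
    exact τ.commutes (⟨x, hx⟩ : E)
  let r' : (Ω ≃ₐ[E] Ω) →* Dg := r.codRestrict Dg hmem
  have hr' : Continuous r' := hr.subtype_mk hmem
  have hlift : ∀ d : Dg, ∃ τ : Ω ≃ₐ[E] Ω, r' τ = d ∧ ∀ z, τ z = (d : Ω ≃ₐ[F] Ω) z := by
    intro d
    have hd : ∀ x ∈ E, (d : Ω ≃ₐ[F] Ω) x = x := by
      have h1 : (d : Ω ≃ₐ[F] Ω) ∈ E.fixingSubgroup := by
        rw [hfix]
        exact d.2
      rw [IntermediateField.mem_fixingSubgroup_iff] at h1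
      exact h1
    refine ⟨AlgEquiv.ofRingEquiv (f := (d : Ω ≃ₐ[F] Ω).toRingEquiv) (fun x => hd x.1 x.2), ?_,
      fun z => rfl⟩
    apply Subtype.ext
    ext z
    rfl
  let K : Subgroup (Ω ≃ₐ[E] Ω) :=
    { carrier := {τ | f (r' τ) = 0}
      one_mem' := by
        change f (r' 1) = 0
        rw [map_one, hf1]
      mul_mem' := by
        intro a b ha hb
        change f (r' (a * b)) = 0
        have ha' : f (r' a) = 0 := ha
        have hb' : f (r' b) = 0 := hb
        rw [map_mul, hmul, ha', hb', add_zero]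
      inv_mem' := by
        intro a ha
        change f (r' a⁻¹) = 0
        have ha' : f (r' a) = 0 := ha
        have h1 := hmul (r' a⁻¹) (r' a)
        rw [← map_mul, inv_mul_cancel, map_one, hf1, ha', add_zero] at h1
        exact h1.symm }
  have hK : IsOpen (K : Set (Ω ≃ₐ[E] Ω)) := by
    have h1 : W.comap r' ≤ K := by
      intro τ hτ
      change f (r' τ) = 0
      have h2 := hfW 1 (r' τ) hτ
      rw [one_mul, hf1] at h2
      exact h2
    exact Subgroup.isOpen_mono h1 (hW.preimage hr')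
  have hidx : K.index = 2 := by
    obtain ⟨τ₀, hτ₀, -⟩ := hlift d₀
    rw [Subgroup.index_eq_two_iff]
    refine ⟨τ₀, fun b => ?_⟩
    have h1 : f (r' (b * τ₀)) = f (r' b) + f d₀ := by rw [map_mul, hmul, hτ₀]
    have h2 : ∀ u v : ZMod 2, v ≠ 0 → Xor (u + v = 0) (u = 0) := by decide
    change Xor (f (r' (b * τ₀)) = 0) (f (r' b) = 0)
    rw [h1]
    exact h2 _ _ hd₀
  obtain ⟨y, -, hy0, -, hyK, hyn, -⟩ := exists_sqrt K hK hidx
  refine ⟨y, hy0, fun d => ?_⟩
  obtain ⟨τ, hτ, hτ2⟩ := hlift d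
  constructor
  · intro hd
    rw [← hτ2]
    apply hyK
    change f (r' τ) = 0
    rw [hτ, hd]
  · intro hd
    rw [← hτ2]
    apply hyn
    intro h1
    apply hd
    rw [← hτ]
    exact h1

omit [IsGalois F Ω] in
/-- elements of the completion are fixed by the decomposition group -/
theorem fixed_of_mem_comp {l : ℕ} [Fact l.Prime] (K : IntermediateField F Ω)
    (ι : Ω →+* PadicAlgCl l) {v : Ω}
    (hv : ι v ∈ BKGen.comp l (ι.comp (algebraMap K Ω))) {d : Ω ≃ₐ[F] Ω}
    (hd : ∀ x, ‖ι (d x)‖ = ‖ι x‖) (hK : ∀ x ∈ K, d x = x) : d v = v := by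
  set j : K →+* PadicAlgCl l := ι.comp (algebraMap K Ω) with hj
  let C : Subfield (PadicAlgCl l) := j.fieldRange.topologicalClosure
  have hQ : ∀ q : ℚ_[l], algebraMap ℚ_[l] (PadicAlgCl l) q ∈ C := by
    intro q
    have hcont : Continuous (algebraMap ℚ_[l] (PadicAlgCl l)) :=
      continuous_algebraMap ℚ_[l] (PadicAlgCl l)
    have h1 : algebraMap ℚ_[l] (PadicAlgCl l) q ∈
        closure (algebraMap ℚ_[l] (PadicAlgCl l) '' Set.range ((↑) : ℚ → ℚ_[l])) :=
      image_closure_subset_closure_image hcont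
        ⟨q, (Padic.denseRange_ratCast l) q, rfl⟩
    refine closure_mono ?_ h1
    rintro _ ⟨_, ⟨r, rfl⟩, rfl⟩
    refine ⟨(r : K), ?_⟩
    rw [map_ratCast, map_ratCast]
  let C' : IntermediateField ℚ_[l] (PadicAlgCl l) := C.toIntermediateField hQ
  have hle : BKGen.comp l j ≤ C' := by
    refine IntermediateField.adjoin_le_iff.mpr ?_
    rintro _ ⟨b, rfl⟩
    exact j.fieldRange.le_topologicalClosure ⟨b, rfl⟩
  have hyC : ι v ∈ closure (j.fieldRange : Set (PadicAlgCl l)) := hle hv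
  by_contra hne
  have h1 : 0 < ‖ι (d v) - ι v‖ := by
    rw [norm_pos_iff, ← map_sub]
    exact (map_ne_zero ι).2 (sub_ne_zero.2 hne)
  obtain ⟨z, ⟨b, rfl⟩, hz⟩ := Metric.mem_closure_iff.mp hyC _ h1
  rw [dist_eq_norm] at hz
  have h2 : j b = ι (b : Ω) := rfl
  rw [h2] at hz
  have h3 : ‖ι (d v) - ι (b : Ω)‖ = ‖ι v - ι (b : Ω)‖ := by
    have h4 : ι (d v) - ι (b : Ω) = ι (d (v - b)) := by
      rw [map_sub d, hK b b.2, map_sub]
    rw [h4, hd, map_sub]
  have h5 : ‖ι (d v) - ι v‖ ≤ max ‖ι (d v) - ι (b : Ω)‖ ‖ι v - ι (b : Ω)‖ := by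
    have h6 : ι (d v) - ι v = (ι (d v) - ι (b : Ω)) - (ι v - ι (b : Ω)) := by ring
    rw [h6]
    exact BKGen.norm_sub_le_max
  rw [h3, max_self] at h5
  exact absurd hz (not_lt.2 h5)

omit [IsGalois F Ω] in
/-- the degree of the completion is at most the degree of the extension -/
theorem comp_degree (K : IntermediateField F Ω) [FiniteDimensional F K] [Algebra.IsSeparable F K]
    (ι : Ω →+* PadicAlgCl 2) (hbot : BKGen.comp 2 (ι.comp (algebraMap F Ω)) = ⊥) :
    FiniteDimensional ℚ_[2] (BKGen.comp 2 (ι.comp (algebraMap K Ω))) ∧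
      Module.finrank ℚ_[2] (BKGen.comp 2 (ι.comp (algebraMap K Ω))) ≤ Module.finrank F K := by
  obtain ⟨θ, hθ⟩ := Field.exists_primitive_element F K
  set j : K →+* PadicAlgCl 2 := ι.comp (algebraMap K Ω) with hj
  have hjF : ∀ a : F, j (algebraMap F K a) ∈ (⊥ : IntermediateField ℚ_[2] (PadicAlgCl 2)) := by
    intro a
    rw [← hbot]
    exact BKGen.mem_comp (ι.comp (algebraMap F Ω)) a
  have hlift : (minpoly F θ).map (j.comp (algebraMap F K)) ∈
      Polynomial.lifts (algebraMap ℚ_[2] (PadicAlgCl 2)) := by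
    rw [Polynomial.lifts_iff_coeff_lifts]
    intro n
    rw [Polynomial.coeff_map]
    exact IntermediateField.mem_bot.1 (hjF _)
  have hint : IsIntegral F θ := IsIntegral.of_finite F θ
  obtain ⟨P, hP, hdeg, hmon⟩ := Polynomial.lifts_and_natDegree_eq_and_monic hlift
    ((minpoly.monic hint).map _)
  have hroot : aeval (j θ) P = 0 := by
    rw [aeval_def, ← eval_map, hP, eval_map, ← hom_eval₂]
    have h1 : eval₂ (algebraMap F K) θ (minpoly F θ) = 0 := minpoly.aeval F θ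
    rw [h1, map_zero]
  have hint2 : IsIntegral ℚ_[2] (j θ) := ⟨P, hmon, by rw [← aeval_def]; exact hroot⟩
  have heq : BKGen.comp 2 j = ℚ_[2]⟮j θ⟯ := by
    apply le_antisymm
    · refine IntermediateField.adjoin_le_iff.mpr ?_
      rintro _ ⟨k, rfl⟩
      let S : Subfield K := (ℚ_[2]⟮j θ⟯).toSubfield.comap j
      have hS : ∀ a : F, algebraMap F K a ∈ S := by
        intro a
        obtain ⟨b, hb⟩ := IntermediateField.mem_bot.1 (hjF a)
        change j (algebraMap F K a) ∈ ℚ_[2]⟮j θ⟯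
        rw [← hb]
        exact IntermediateField.algebraMap_mem _ _
      let S' : IntermediateField F K := S.toIntermediateField hS
      have h1 : F⟮θ⟯ ≤ S' := by
        rw [IntermediateField.adjoin_simple_le_iff]
        exact IntermediateField.mem_adjoin_simple_self ℚ_[2] (j θ)
      rw [hθ] at h1
      have h2 : k ∈ S' := h1 IntermediateField.mem_top
      exact h2
    · rw [IntermediateField.adjoin_simple_le_iff]
      exact BKGen.mem_comp j θ
  rw [heq]
  refine ⟨IntermediateField.adjoin.finiteDimensional hint2, ?_⟩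
  rw [IntermediateField.adjoin.finrank hint2]
  have h1 : (minpoly ℚ_[2] (j θ)).natDegree ≤ P.natDegree :=
    Polynomial.natDegree_le_of_dvd (minpoly.dvd _ _ hroot) hmon.ne_zero
  refine h1.trans ?_
  rw [hdeg, Polynomial.natDegree_map, (Field.primitive_element_iff_minpoly_natDegree_eq F θ).1 hθ]

end General

end LocHomAux

open LocHomAux in
theorem stLocHom (h : StLocSq) : StLocHom := by
  intro q F _ _ s hF ι U hU S hS
  classical
  have hUc : IsClosed (U : Set (AbsGal F)) := U.isClosed_of_isOpen hU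
  set K : IntermediateField F (AlgebraicClosure F) := fixedField U with hK
  have hfix : K.fixingSubgroup = U := InfiniteGalois.fixingSubgroup_fixedField ⟨U, hUc⟩
  have hfd : FiniteDimensional F K := by
    rw [← InfiniteGalois.isOpen_iff_finite]
    change IsOpen (K.fixingSubgroup : Set (AbsGal F))
    rw [hfix]
    exact hU
  have hrank : Module.finrank F K = U.index := by
    rw [IntermediateField.finrank_eq_fixingSubgroup_index (AlgebraicClosure F) K, hfix]
  have hbot : BKGen.comp 2 (ι.comp (algebraMap F (AlgebraicClosure F))) = ⊥ :=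
    BKGen.comp_two_eq_bot (D := q) hF.h8 hF.hF hF.hs _
  obtain ⟨hfdE, hle⟩ := comp_degree K ι hbot
  set E := BKGen.comp 2 (ι.comp (algebraMap K (AlgebraicClosure F))) with hE
  have hDU : IsClosed ((D F ι ⊓ U : Subgroup (AbsGal F)) : Set (AbsGal F)) :=
    (isClosed_dec ι).inter hUc
  have key : ∀ f : S, ∃ y : AlgebraicClosure F, y ≠ 0 ∧ ∀ d : ↥(D F ι ⊓ U),
      (f.1 d = 0 → (d : AbsGal F) y = y) ∧ (f.1 d ≠ 0 → (d : AbsGal F) y = -y) :=
    fun f => exists_root (D F ι ⊓ U) hDU f.1 (hS f.1 f.2)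
  choose y hy0 hy using key
  have hy2 : ∀ (f : S) (d : ↥(D F ι ⊓ U)), (d : AbsGal F) (y f ^ 2) = y f ^ 2 := by
    intro f d
    rw [map_pow]
    by_cases h1 : f.1 d = 0
    · rw [(hy f d).1 h1]
    · rw [(hy f d).2 h1, neg_sq]
  have hmem : ∀ f : S, ι (y f ^ 2) ∈ E := by
    intro f
    refine BKGen.mem_comp_of_fixed ι (y f ^ 2) (fun σ hσ => ?_)
    have h0 : σ.restrictScalars F ∈ U := by
      rw [← hfix, IntermediateField.mem_fixingSubgroup_iff]
      intro x hx
      exact σ.commutes (⟨x, hx⟩ : K)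
    have h1 : σ.restrictScalars F ∈ D F ι ⊓ U := ⟨hσ, h0⟩
    exact hy2 f ⟨_, h1⟩
  let x : S → E := fun f => ⟨ι (y f ^ 2), hmem f⟩
  have hns : ∀ f f' : S, f ≠ f' → ¬ IsSquare (x f * x f') := by
    rintro f f' hne ⟨w, hw⟩
    apply hne
    have h1 : ι (y f * y f') ^ 2 = (w : PadicAlgCl 2) ^ 2 := by
      have h2 := congrArg (fun t : E => (t : PadicAlgCl 2)) hw
      simp only [x, MulMemClass.coe_mul] at h2
      rw [sq (w : PadicAlgCl 2), ← h2, ← map_pow, mul_pow, map_mul]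
    have h3 : ι (y f * y f') ∈ E := by
      rcases sq_eq_sq_iff_eq_or_eq_neg.1 h1 with h4 | h4
      · rw [h4]
        exact w.2
      · rw [h4]
        exact neg_mem w.2
    apply Subtype.ext
    funext d
    have hd : ∀ z, ‖ι ((d : AbsGal F) z)‖ = ‖ι z‖ := d.2.1
    have hdK : ∀ z ∈ K, (d : AbsGal F) z = z := by
      have h5 : (d : AbsGal F) ∈ K.fixingSubgroup := by
        rw [hfix]
        exact d.2.2
      rw [IntermediateField.mem_fixingSubgroup_iff] at h5
      exact h5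
    have h6 := fixed_of_mem_comp K ι h3 hd hdK
    have h7 : y f * y f' ≠ 0 := mul_ne_zero (hy0 f) (hy0 f')
    have h8 : y f * y f' ≠ -(y f * y f') := by
      intro h9
      exact h7 (self_eq_neg.1 h9)
    rw [map_mul] at h6
    have h01 : ∀ u v : ZMod 2, (u = 0 ∧ v = 0) ∨ (u ≠ 0 ∧ v ≠ 0) → u = v := by decide
    apply h01
    by_cases h9 : f.1 d = 0
    · left
      refine ⟨h9, ?_⟩
      by_contra h10
      rw [(hy f d).1 h9, (hy f' d).2 h10, mul_neg] at h6
      exact h8 h6.symm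
    · right
      refine ⟨h9, ?_⟩
      intro h10
      rw [(hy f d).2 h9, (hy f' d).1 h10, neg_mul] at h6
      exact h8 h6.symm
  have hinj : Function.Injective x := by
    intro f f' hff
    by_contra hne
    exact hns f f' hne ⟨x f, by rw [← hff]⟩
  have h1 := h E (Finset.univ.image x) (by
    intro z hz
    obtain ⟨f, -, rfl⟩ := Finset.mem_image.1 hz
    intro h2
    have h3 : ι (y f ^ 2) = 0 := congrArg (fun t : E => (t : PadicAlgCl 2)) h2
    rw [map_eq_zero] at h3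
    exact pow_ne_zero 2 (hy0 f) h3) (by
    intro z hz z' hz' hne
    obtain ⟨f, -, rfl⟩ := Finset.mem_image.1 hz
    obtain ⟨f', -, rfl⟩ := Finset.mem_image.1 hz'
    exact hns f f' (fun h2 => hne (by rw [h2])))
  rw [Finset.card_image_of_injective _ hinj, Finset.card_univ, Fintype.card_coe] at h1
  refine h1.trans (Nat.pow_le_pow_right (by norm_num) ?_)
  rw [← hrank]
  omega

end BKPar
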