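import Mathlib

set_option autoImplicit false

/-!
Module LOCSQ: a finite extension of `ℚ₂` of degree `d` has at most `2^(d+2)` square classes.
-/

noncomputable section

namespace BKPar

namespace LocSq

variable (E : Type*) [NormedField E] [NormedAlgebra ℚ_[2] E] [IsUltrametricDist E]

/-- the closed unit ball -/
def O : Subring E where
  carrier := {x | ‖x‖ ≤ 1}
  mul_mem' := by
    intro a b ha hb
    have ha' : ‖a‖ ≤ 1 := ha
    have hb' : ‖b‖ ≤ 1 := hb
    change ‖a * b‖ ≤ 1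
    rw [norm_mul]
    exact mul_le_one₀ ha' (norm_nonneg _) hb'
  one_mem' := by simp
  add_mem' := by
    intro a b ha hb
    exact (IsUltrametricDist.norm_add_le_max a b).trans (max_le ha hb)
  zero_mem' := by simp
  neg_mem' := by
    intro a ha
    change ‖-a‖ ≤ 1
    rw [norm_neg]
    exact ha

variable {E}

theorem mem_O {x : E} : x ∈ O E ↔ ‖x‖ ≤ 1 := Iff.rfl

theorem norm_two : ‖(2 : E)‖ = 1 / 2 := by
  have h1 : (2 : E) = algebraMap ℚ_[2] E 2 := (map_ofNat (algebraMap ℚ_[2] E) 2).symm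
  rw [h1, norm_algebraMap']
  have h3 := Padic.norm_p (p := 2)
  rw [Nat.cast_ofNat, Nat.cast_ofNat] at h3
  rw [h3]
  norm_num

theorem norm_four : ‖(4 : E)‖ = 1 / 4 := by
  have h1 : (4 : E) = 2 * 2 := by norm_num
  rw [h1, norm_mul, norm_two]
  norm_num

theorem norm_eight : ‖(8 : E)‖ = 1 / 8 := by
  have h1 : (8 : E) = 2 * 4 := by norm_num
  rw [h1, norm_mul, norm_two, norm_four]
  norm_num

theorem two_ne : (2 : E) ≠ 0 := by
  intro h
  have := norm_two (E := E)
  rw [h, norm_zero] at this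
  norm_num at this

/-- division by a scalar of small norm -/
theorem exists_mul {c x : E} (hc : c ≠ 0) (h : ‖x‖ ≤ ‖c‖) : ∃ e ∈ O E, x = c * e := by
  refine ⟨x / c, ?_, ?_⟩
  · rw [mem_O, norm_div]
    exact div_le_one_of_le₀ h (norm_nonneg _)
  · field_simp

/-! ### elements close to one are squares -/

theorem isSquare_of_near [CompleteSpace E] {u : E} (h : ‖u - 1‖ ≤ 1 / 8) : IsSquare u := by
  have h8 : (8 : E) ≠ 0 := by
    intro h0
    have := norm_eight (E := E)
    rw [h0, norm_zero] at this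
    norm_num at this
  obtain ⟨c, hc, hc'⟩ := exists_mul (x := u - 1) h8 (by rw [norm_eight]; exact h)
  -- contraction `z ↦ c - 2 z²` on the closed unit ball
  let X := {x : E // ‖x‖ ≤ 1}
  have hclosed : IsClosed {x : E | ‖x‖ ≤ 1} := isClosed_le continuous_norm continuous_const
  have : CompleteSpace X := hclosed.completeSpace_coe
  let f : X → X := fun z => ⟨c - 2 * (z : E) ^ 2, by
    rw [sub_eq_add_neg]
    refine (IsUltrametricDist.norm_add_le_max _ _).trans (max_le hc ?_)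
    rw [norm_neg, norm_mul, norm_pow, norm_two]
    have hz : ‖(z : E)‖ ≤ 1 := z.2
    have hz' : ‖(z : E)‖ ^ 2 ≤ 1 := pow_le_one₀ (norm_nonneg _) hz
    linarith⟩
  have hf : ContractingWith (1 / 2 : NNReal) f := by
    refine ⟨by rw [← NNReal.coe_lt_coe]; norm_num, LipschitzWith.of_dist_le_mul ?_⟩
    intro z w
    change dist (c - 2 * (z : E) ^ 2) (c - 2 * (w : E) ^ 2) ≤ _ * dist (z : E) (w : E)
    rw [dist_eq_norm, dist_eq_norm]
    have e1 : c - 2 * (z : E) ^ 2 - (c - 2 * (w : E) ^ 2) =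
        2 * ((z : E) + w) * (w - z) := by ring
    rw [e1, norm_mul, norm_mul, norm_two, norm_sub_rev (w : E) z]
    have e2 : ‖(z : E) + w‖ ≤ 1 :=
      (IsUltrametricDist.norm_add_le_max _ _).trans (max_le z.2 w.2)
    have e3 : (0 : ℝ) ≤ ‖(z : E) - w‖ := norm_nonneg _
    have e4 : (((1 / 2 : NNReal)) : ℝ) = 1 / 2 := by norm_num
    rw [e4]
    nlinarith
  have : Nonempty X := ⟨⟨0, by simp⟩⟩
  have hfix : f (ContractingWith.fixedPoint f hf) = ContractingWith.fixedPoint f hf :=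
    hf.fixedPoint_isFixedPt
  set z : X := ContractingWith.fixedPoint f hf with hz
  have hz1 : c - 2 * (z : E) ^ 2 = (z : E) := congrArg Subtype.val hfix
  refine ⟨1 + 4 * (z : E), ?_⟩
  have h1 : u = 1 + 8 * c := by rw [← hc']; ring
  have h2 : c = z + 2 * (z : E) ^ 2 := by linear_combination hz1
  rw [h1, h2]
  ring

/-! ### the quotient modulo two -/

/-- the residue ring modulo two -/
abbrev B (E : Type*) [NormedField E] [NormedAlgebra ℚ_[2] E] [IsUltrametricDist E] : Type _ :=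
  O E ⧸ Ideal.span {(2 : O E)}

/-- the residue ring modulo eight -/
abbrev A (E : Type*) [NormedField E] [NormedAlgebra ℚ_[2] E] [IsUltrametricDist E] : Type _ :=
  O E ⧸ Ideal.span {(8 : O E)}

theorem two_nsmul_B (x : B E) : 2 • x = 0 := by
  obtain ⟨y, rfl⟩ := Ideal.Quotient.mk_surjective x
  rw [← map_nsmul, Ideal.Quotient.eq_zero_iff_mem, nsmul_eq_mul]
  exact Ideal.mul_mem_right _ _ (Ideal.mem_span_singleton_self _)

instance moduleB : Module (ZMod 2) (B E) := AddCommGroup.zmodModule two_nsmul_B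

/-- scalars of norm at most one are `0` or `1` modulo two -/
theorem exists_eps (c : ℚ_[2]) (hc : ‖c‖ ≤ 1) :
    ∃ (n : ℕ) (e : ℚ_[2]), ‖e‖ ≤ 1 ∧ c = n + 2 * e := by
  obtain ⟨n, hn, hn'⟩ := PadicInt.exists_mem_range (x := (⟨c, hc⟩ : ℤ_[2]))
  rw [PadicInt.maximalIdeal_eq_span_p, Ideal.mem_span_singleton] at hn'
  obtain ⟨e, he⟩ := hn'
  refine ⟨n, e, e.2, ?_⟩
  have h1 := congrArg (fun z : ℤ_[2] => (z : ℚ_[2])) he
  simp only [PadicInt.coe_sub, PadicInt.coe_natCast, PadicInt.coe_mul] at h1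
  have h2 : c - n = 2 * (e : ℚ_[2]) := by
    rw [h1]
    norm_num
  linear_combination h2

theorem linInd_lift {ι : Type*} [Fintype ι] (x : ι → O E)
    (hx : LinearIndependent (ZMod 2) (fun i => (Ideal.Quotient.mk (Ideal.span {(2 : O E)}) (x i) : B E))) :
    LinearIndependent ℚ_[2] (fun i => (x i : E)) := by
  classical
  by_contra hcon
  rw [Fintype.not_linearIndependent_iff] at hcon
  obtain ⟨g, hg, i1, hi1⟩ := hcon
  obtain ⟨i0, -, hi0⟩ := Finset.exists_max_image Finset.univ (fun i => ‖g i‖) ⟨i1, Finset.mem_univ _⟩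
  have hg0 : g i0 ≠ 0 := by
    intro h
    have := hi0 i1 (Finset.mem_univ _)
    rw [h, norm_zero] at this
    exact hi1 (norm_le_zero_iff.1 this)
  have h1 : ∀ i, ‖g i / g i0‖ ≤ 1 := by
    intro i
    rw [norm_div]
    exact div_le_one_of_le₀ (hi0 i (Finset.mem_univ _)) (norm_nonneg _)
  choose n e he hne using fun i => exists_eps (g i / g i0) (h1 i)
  have h2 : ∑ i, (g i / g i0) • (x i : E) = 0 := by
    have : ∑ i, (g i / g i0) • (x i : E) = (g i0)⁻¹ • ∑ i, g i • (x i : E) := by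
      rw [Finset.smul_sum]
      refine Finset.sum_congr rfl fun i _ => ?_
      rw [smul_smul, div_eq_inv_mul]
    rw [this, hg, smul_zero]
  -- the element `Σ e i x i` of the unit ball
  have h3 : ∀ i, e i • (x i : E) ∈ O E := by
    intro i
    rw [mem_O, norm_smul]
    exact mul_le_one₀ (he i) (norm_nonneg _) (x i).2
  let y : O E := ∑ i, (⟨e i • (x i : E), h3 i⟩ : O E)
  have hy : ((y : O E) : E) = ∑ i, e i • (x i : E) := by
    simp [y]
  have h22 : ((2 : O E) : E) = 2 := rfl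
  have h4 : (∑ i, n i • x i : O E) = -(2 * y) := by
    apply Subtype.ext
    push_cast
    rw [hy, h22]
    have h5 : ∑ i, (g i / g i0) • (x i : E) = ∑ i, n i • (x i : E) + 2 * ∑ i, e i • (x i : E) := by
      rw [Finset.mul_sum, ← Finset.sum_add_distrib]
      refine Finset.sum_congr rfl fun i _ => ?_
      rw [hne i, add_smul]
      congr 1
      · rw [← Nat.cast_smul_eq_nsmul ℚ_[2]]
      · rw [mul_smul, ofNat_smul_eq_nsmul, two_nsmul, two_mul]
    rw [h5] at h2
    have h6 : ∑ i, n i • (x i : E) = ∑ i, (n i : E) * (x i : E) := by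
      refine Finset.sum_congr rfl fun i _ => ?_
      rw [nsmul_eq_mul]
    linear_combination h2
  rw [Fintype.linearIndependent_iff] at hx
  have h7 := hx (fun i => (n i : ZMod 2)) (by
    have : (∑ i, ((n i : ZMod 2)) • (Ideal.Quotient.mk (Ideal.span {(2 : O E)}) (x i) : B E)) =
        Ideal.Quotient.mk (Ideal.span {(2 : O E)}) (∑ i, n i • x i) := by
      rw [map_sum]
      refine Finset.sum_congr rfl fun i _ => ?_
      rw [Nat.cast_smul_eq_nsmul, map_nsmul]
    rw [this, h4, Ideal.Quotient.eq_zero_iff_mem]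
    exact neg_mem (Ideal.mul_mem_right _ _ (Ideal.mem_span_singleton_self _))) i0
  -- `n i0` is odd
  have h8 : (n i0 : ℚ_[2]) = 1 - 2 * e i0 := by
    have := hne i0
    rw [div_self hg0] at this
    linear_combination -this
  rw [ZMod.natCast_eq_zero_iff] at h7
  obtain ⟨k, hk⟩ := h7
  have h9 : (2 : ℚ_[2]) * (k + e i0) = 1 := by
    rw [hk] at h8
    push_cast at h8
    linear_combination h8
  have h10 : ‖(k : ℚ_[2]) + e i0‖ ≤ 1 :=
    (IsUltrametricDist.norm_add_le_max _ _).trans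
      (max_le (IsUltrametricDist.norm_natCast_le_one ℚ_[2] k) (he i0))
  have h11 := congrArg norm h9
  rw [norm_mul, norm_one] at h11
  have h12 : ‖(2 : ℚ_[2])‖ = 1 / 2 := norm_two (E := ℚ_[2])
  rw [h12] at h11
  linarith

variable [FiniteDimensional ℚ_[2] E]

theorem rank_B : Module.rank (ZMod 2) (B E) ≤ (Module.finrank ℚ_[2] E : ℕ) := by
  refine rank_le fun s hs => ?_
  choose l hl using fun i : s => Ideal.Quotient.mk_surjective (i : B E)
  have h := linInd_lift (E := E) (fun i : s => l i) (by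
    have : (fun i : s => (Ideal.Quotient.mk (Ideal.span {(2 : O E)}) (l i) : B E)) =
        fun i : s => (i : B E) := by
      funext i
      exact hl i
    rw [this]
    exact hs)
  have := h.fintype_card_le_finrank
  simpa using this

instance finiteB : Finite (B E) := by
  have h : Module.rank (ZMod 2) (B E) < Cardinal.aleph0 :=
    (rank_B (E := E)).trans_lt Cardinal.natCast_lt_aleph0
  have : Module.Finite (ZMod 2) (B E) := Module.rank_lt_aleph0_iff.1 h
  exact Module.finite_of_finite (ZMod 2)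

theorem card_B : Nat.card (B E) ≤ 2 ^ Module.finrank ℚ_[2] E := by
  have h1 : Nat.card (B E) = Nat.card (ZMod 2) ^ Module.finrank (ZMod 2) (B E) :=
    Module.natCard_eq_pow_finrank
  have h2 : Module.finrank (ZMod 2) (B E) ≤ Module.finrank ℚ_[2] E :=
    Module.finrank_le_of_rank_le (rank_B (E := E))
  rw [h1, Nat.card_zmod]
  exact Nat.pow_le_pow_right (by norm_num) h2

instance finiteA : Finite (A E) := by
  have h : (Ideal.span {(8 : O E)}) = Ideal.span {(2 : O E)} ^ 3 := by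
    rw [Ideal.span_singleton_pow]
    norm_num
  have : Finite (O E ⧸ Ideal.span {(2 : O E)}) := finiteB
  have h2 := Ideal.finite_quotient_pow (I := Ideal.span {(2 : O E)})
    ⟨{2}, by simp⟩ 3
  unfold A
  rw [h]
  exact h2

/-! ### square roots of one modulo eight -/

theorem sq_one_near {a : E} (h : ‖a ^ 2 - 1‖ ≤ 1 / 8) : ‖a - 1‖ ≤ 1 / 4 ∨ ‖a + 1‖ ≤ 1 / 4 := by
  have e1 : a ^ 2 - 1 = (a - 1) * (a + 1) := by ring
  rw [e1, norm_mul] at h
  have h2 : ‖(a + 1) + -(a - 1)‖ = 1 / 2 := by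
    have : (a + 1) + -(a - 1) = 2 := by ring
    rw [this, norm_two]
  have h2' : ‖(a - 1) + 2‖ ≤ max ‖a - 1‖ (1 / 2) := by
    have := IsUltrametricDist.norm_add_le_max (a - 1) (2 : E)
    rwa [norm_two] at this
  have h3 : (a - 1) + 2 = a + 1 := by ring
  rw [h3] at h2'
  have h4 : 1 / 2 ≤ max ‖a + 1‖ ‖a - 1‖ := by
    rw [← h2]
    have := IsUltrametricDist.norm_add_le_max (a + 1) (-(a - 1))
    rwa [norm_neg (a - 1)] at this
  have h5 : ‖a - 1‖ ≤ max ‖a + 1‖ (1 / 2) := by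
    have e2 : a - 1 = (a + 1) + -2 := by ring
    have := IsUltrametricDist.norm_add_le_max (a + 1) (-2 : E)
    rw [norm_neg, norm_two] at this
    rw [e2]
    exact this
  have n1 := norm_nonneg (a - 1)
  have n2 := norm_nonneg (a + 1)
  by_contra hcon
  rw [not_or, not_le, not_le] at hcon
  obtain ⟨c1, c2⟩ := hcon
  rcases le_total ‖a + 1‖ ‖a - 1‖ with h6 | h6
  · rw [max_eq_right h6] at h4
    nlinarith
  · rw [max_eq_left h6] at h4
    nlinarith

theorem card_roots : Nat.card {a : A E // a ^ 2 = 1} ≤ 2 * 2 ^ Module.finrank ℚ_[2] E := by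
  classical
  have h1 : Nat.card (Bool × B E) ≤ 2 * 2 ^ Module.finrank ℚ_[2] E := by
    rw [Nat.card_prod]
    have : Nat.card Bool = 2 := by simp
    rw [this]
    exact Nat.mul_le_mul_left _ card_B
  refine le_trans ?_ h1
  choose l hl using fun b : B E => Ideal.Quotient.mk_surjective (I := Ideal.span {(2 : O E)}) b
  -- the map covering all roots
  let g : Bool × B E → A E := fun p =>
    Ideal.Quotient.mk (Ideal.span {(8 : O E)}) ((if p.1 then 1 else -1) + 4 * l p.2)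
  have hg : ∀ a : {a : A E // a ^ 2 = 1}, ∃ p, g p = a := by
    rintro ⟨a, ha⟩
    obtain ⟨x, rfl⟩ := Ideal.Quotient.mk_surjective a
    rw [← map_pow, ← map_one (Ideal.Quotient.mk _), Ideal.Quotient.eq,
      Ideal.mem_span_singleton] at ha
    obtain ⟨e, he⟩ := ha
    have he' : (x : E) ^ 2 - 1 = 8 * (e : E) := congrArg Subtype.val he
    have h2 : ‖(x : E) ^ 2 - 1‖ ≤ 1 / 8 := by
      rw [he', norm_mul, norm_eight]
      have := e.2
      rw [mem_O] at this
      linarith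
    -- `x = ±1 + 4 c`
    have key : ∀ s : E, ‖(x : E) - s‖ ≤ 1 / 4 → ∀ s' : O E, (s' : E) = s →
        ∃ b : B E, Ideal.Quotient.mk (Ideal.span {(8 : O E)}) (s' + 4 * l b) =
          Ideal.Quotient.mk (Ideal.span {(8 : O E)}) x := by
      intro s hs s' hs'
      have h4 : (4 : E) ≠ 0 := by
        intro h0
        have := norm_four (E := E)
        rw [h0, norm_zero] at this
        norm_num at this
      obtain ⟨c, hc, hc'⟩ := exists_mul (x := (x : E) - s) h4 (by rw [norm_four]; exact hs)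
      refine ⟨Ideal.Quotient.mk (Ideal.span {(2 : O E)}) ⟨c, hc⟩, ?_⟩
      have h5 := hl (Ideal.Quotient.mk (Ideal.span {(2 : O E)}) ⟨c, hc⟩)
      rw [Ideal.Quotient.eq, Ideal.mem_span_singleton] at h5
      obtain ⟨f, hf⟩ := h5
      rw [Ideal.Quotient.eq, Ideal.mem_span_singleton]
      refine ⟨f, ?_⟩
      apply Subtype.ext
      have hf' : ((l (Ideal.Quotient.mk (Ideal.span {(2 : O E)}) ⟨c, hc⟩) : O E) : E) - c =
        2 * (f : E) := congrArg Subtype.val hf
      change (s' : E) + 4 * ((l (Ideal.Quotient.mk (Ideal.span {(2 : O E)}) ⟨c, hc⟩) : O E) : E) -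
        (x : E) = 8 * (f : E)
      rw [hs']
      linear_combination 4 * hf' - hc'
    rcases sq_one_near h2 with h3 | h3
    · obtain ⟨b, hb⟩ := key 1 h3 1 rfl
      exact ⟨(true, b), by simpa [g] using hb⟩
    · obtain ⟨b, hb⟩ := key (-1) (by rwa [sub_neg_eq_add]) (-1) rfl
      exact ⟨(false, b), by simpa [g] using hb⟩
  choose p hp using hg
  refine Nat.card_le_card_of_injective p ?_
  intro a b hab
  apply Subtype.ext
  rw [← hp a, ← hp b, hab]

/-! ### uniformizer -/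

theorem exists_unif : ∃ π : E, π ≠ 0 ∧ ∀ x : E, x ≠ 0 → ∃ k : ℤ, ‖x * π ^ k‖ = 1 := by
  have hps : ProperSpace E := FiniteDimensional.proper ℚ_[2] E
  let K : Set E := {x | ‖(2 : E)‖ ≤ ‖x‖} ∩ {x | ‖x‖ < 1}
  have hK1 : IsClosed {x : E | ‖x‖ < 1} := by
    have h := IsUltrametricDist.isClosed_ball (0 : E) 1
    convert h using 1
    ext x
    simp
  have hK2 : IsClosed {x : E | ‖(2 : E)‖ ≤ ‖x‖} := isClosed_le continuous_const continuous_norm
  have hK : IsCompact K := by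
    refine Metric.isCompact_of_isClosed_isBounded (hK2.inter hK1) ?_
    refine (Metric.isBounded_ball (x := (0 : E)) (r := 1)).subset ?_
    intro x hx
    simpa using hx.2
  have hne : K.Nonempty := by
    refine ⟨2, ?_, ?_⟩
    · change ‖(2 : E)‖ ≤ ‖(2 : E)‖
      exact le_refl _
    · change ‖(2 : E)‖ < 1
      rw [norm_two]
      norm_num
  obtain ⟨π, hπ, hmax⟩ := hK.exists_isMaxOn hne continuous_norm.continuousOn
  have hπ1 : ‖(2 : E)‖ ≤ ‖π‖ := hπ.1
  have hπ2 : ‖π‖ < 1 := hπ.2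
  have hπ0 : 0 < ‖π‖ := lt_of_lt_of_le (by rw [norm_two]; norm_num) hπ1
  have hle : ∀ x : E, ‖x‖ < 1 → ‖x‖ ≤ ‖π‖ := by
    intro x hx
    rcases le_or_gt ‖(2 : E)‖ ‖x‖ with h | h
    · exact hmax ⟨h, hx⟩
    · exact h.le.trans hπ1
  refine ⟨π, norm_pos_iff.1 hπ0, ?_⟩
  intro x hx
  have hx0 : 0 < ‖x‖ := norm_pos_iff.2 hx
  have hy : 1 < ‖π‖⁻¹ := (one_lt_inv₀ hπ0).2 hπ2
  obtain ⟨n, hn1, hn2⟩ := exists_mem_Ioc_zpow hx0 hy
  refine ⟨n + 1, ?_⟩
  have h1 : ‖x * π ^ (n + 1)‖ = ‖x‖ * ‖π‖ ^ (n + 1) := by rw [norm_mul, norm_zpow]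
  have h2 : ‖x‖ * ‖π‖ ^ (n + 1) ≤ 1 := by
    have h3 : 0 < ‖π‖ ^ (n + 1) := zpow_pos hπ0 _
    calc ‖x‖ * ‖π‖ ^ (n + 1) ≤ (‖π‖⁻¹) ^ (n + 1) * ‖π‖ ^ (n + 1) :=
          mul_le_mul_of_nonneg_right hn2 h3.le
      _ = 1 := by
        rw [inv_zpow, inv_mul_cancel₀ h3.ne']
  have h4 : ‖π‖ < ‖x‖ * ‖π‖ ^ (n + 1) := by
    have h3 : 0 < ‖π‖ ^ (n + 1) := zpow_pos hπ0 _
    calc ‖π‖ = (‖π‖⁻¹) ^ n * ‖π‖ ^ (n + 1) := by
          rw [inv_zpow, zpow_add_one₀ hπ0.ne']
          have : ‖π‖ ^ n ≠ 0 := (zpow_pos hπ0 _).ne'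
          field_simp
      _ < ‖x‖ * ‖π‖ ^ (n + 1) := mul_lt_mul_of_pos_right hn1 h3
  by_contra hcon
  have h5 : ‖x * π ^ (n + 1)‖ < 1 := lt_of_le_of_ne (h1 ▸ h2) hcon
  have h6 := hle _ h5
  rw [h1] at h6
  linarith

/-! ### the count -/

/-- units of the unit ball -/
def unitO (x : E) (h : ‖x‖ = 1) : (O E)ˣ where
  val := ⟨x, h.le⟩
  inv := ⟨x⁻¹, by rw [mem_O, norm_inv, h, inv_one]⟩
  val_inv := by
    apply Subtype.ext
    change x * x⁻¹ = 1
    refine mul_inv_cancel₀ ?_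
    rintro rfl
    rw [norm_zero] at h
    norm_num at h
  inv_val := by
    apply Subtype.ext
    change x⁻¹ * x = 1
    refine inv_mul_cancel₀ ?_
    rintro rfl
    rw [norm_zero] at h
    norm_num at h

/-- the image of a unit modulo eight -/
def cls (x : E) (h : ‖x‖ = 1) : (A E)ˣ :=
  Units.map (Ideal.Quotient.mk (Ideal.span {(8 : O E)}) : O E →+* A E).toMonoidHom (unitO x h)

/-- squaring -/
def sqHom (E : Type*) [NormedField E] [NormedAlgebra ℚ_[2] E] [IsUltrametricDist E] :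
    (A E)ˣ →* (A E)ˣ where
  toFun u := u ^ 2
  map_one' := one_pow 2
  map_mul' u v := mul_pow u v 2

/-- the squares -/
abbrev Sq (E : Type*) [NormedField E] [NormedAlgebra ℚ_[2] E] [IsUltrametricDist E] :
    Subgroup (A E)ˣ := (sqHom E).range

theorem index_Sq : Nat.card ((A E)ˣ ⧸ Sq E) ≤ 2 * 2 ^ Module.finrank ℚ_[2] E := by
  have hfin : Finite (A E)ˣ := inferInstance
  let φ : (A E)ˣ →* (A E)ˣ := sqHom E
  have h1 : Nat.card φ.range * φ.range.index = Nat.card (A E)ˣ := Subgroup.card_mul_index _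
  have h2 : Nat.card φ.ker * φ.ker.index = Nat.card (A E)ˣ := Subgroup.card_mul_index _
  have h3 : φ.ker.index = Nat.card φ.range := Subgroup.index_ker φ
  have h4 : 0 < Nat.card φ.range := Nat.card_pos
  have h5 : φ.range.index = Nat.card φ.ker := by
    rw [h3, mul_comm] at h2
    exact Nat.eq_of_mul_eq_mul_left h4 (h1.trans h2.symm)
  change φ.range.index ≤ _
  rw [h5]
  refine le_trans ?_ (card_roots (E := E))
  refine Nat.card_le_card_of_injective
    (fun u : φ.ker => (⟨((u : (A E)ˣ) : A E), by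
      have := u.2
      rw [MonoidHom.mem_ker] at this
      have h6 := congrArg Units.val this
      simpa [φ, sqHom] using h6⟩ : {a : A E // a ^ 2 = 1})) ?_
  intro u v huv
  have := congrArg Subtype.val huv
  exact Subtype.ext (Units.ext this)

theorem isSquare_of_cls {x y : E} (hx : ‖x‖ = 1) (hy : ‖y‖ = 1)
    (h : (QuotientGroup.mk (cls x hx) : (A E)ˣ ⧸ Sq E) = QuotientGroup.mk (cls y hy)) :
    IsSquare (x * y) := by
  have hcs : CompleteSpace E := FiniteDimensional.complete ℚ_[2] E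
  rw [QuotientGroup.eq] at h
  obtain ⟨w, hw⟩ := h
  have hw' : w ^ 2 = (cls x hx)⁻¹ * cls y hy := hw
  obtain ⟨z, hz⟩ := Ideal.Quotient.mk_surjective (w : A E)
  have h1 : cls x hx * w ^ 2 = cls y hy := by rw [hw', mul_inv_cancel_left]
  have h2 := congrArg Units.val h1
  have h3 : Ideal.Quotient.mk (Ideal.span {(8 : O E)}) (⟨x, hx.le⟩ * z ^ 2) =
      Ideal.Quotient.mk (Ideal.span {(8 : O E)}) ⟨y, hy.le⟩ := by
    rw [map_mul, map_pow, hz]
    exact h2
  rw [Ideal.Quotient.eq, Ideal.mem_span_singleton] at h3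
  obtain ⟨e, he⟩ := h3
  have he' : x * (z : E) ^ 2 - y = 8 * (e : E) := congrArg Subtype.val he
  have hx0 : x ≠ 0 := by
    rintro rfl
    rw [norm_zero] at hx
    norm_num at hx
  have hy0 : y ≠ 0 := by
    rintro rfl
    rw [norm_zero] at hy
    norm_num at hy
  have h4 : ‖x * (z : E) ^ 2 / y - 1‖ ≤ 1 / 8 := by
    have e1 : x * (z : E) ^ 2 / y - 1 = 8 * e / y := by
      rw [← he']
      field_simp
    rw [e1, norm_div, hy, norm_mul, norm_eight]
    have := e.2
    rw [mem_O] at this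
    linarith
  obtain ⟨t, ht⟩ := isSquare_of_near h4
  have hz0 : (z : E) ≠ 0 := by
    intro h0
    rw [h0] at h4
    norm_num at h4
  refine ⟨y * t / z, ?_⟩
  have h5 : x * (z : E) ^ 2 = y * (t * t) := by
    rw [← ht]
    field_simp
  field_simp
  linear_combination h5

theorem card_le (S : Finset E) (h0 : ∀ x ∈ S, x ≠ 0)
    (hS : ∀ x ∈ S, ∀ y ∈ S, x ≠ y → ¬ IsSquare (x * y)) :
    S.card ≤ 2 ^ (Module.finrank ℚ_[2] E + 2) := by
  classical
  obtain ⟨π, hπ, hk⟩ := exists_unif (E := E)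
  have hk' : ∀ x : S, ∃ k : ℤ, ‖(x : E) * π ^ k‖ = 1 := fun x => hk x (h0 x x.2)
  choose k hk1 using hk'
  let f : S → ZMod 2 × ((A E)ˣ ⧸ Sq E) := fun x =>
    ((k x : ZMod 2), QuotientGroup.mk (cls ((x : E) * π ^ k x) (hk1 x)))
  have hf : Function.Injective f := by
    intro x y hxy
    by_contra hne
    refine hS x x.2 y y.2 (fun h => hne (Subtype.ext h)) ?_
    have h1 : (k x : ZMod 2) = k y := congrArg Prod.fst hxy
    have h2 := isSquare_of_cls (hk1 x) (hk1 y) (congrArg Prod.snd hxy)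
    obtain ⟨t, ht⟩ := h2
    have h3 : ∃ m : ℤ, k x + k y = 2 * m := by
      rw [ZMod.intCast_eq_intCast_iff_dvd_sub] at h1
      obtain ⟨c, hc⟩ := h1
      refine ⟨k x + c, ?_⟩
      push_cast at hc
      linarith
    obtain ⟨m, hm⟩ := h3
    refine ⟨t * (π ^ m)⁻¹, ?_⟩
    have h4 : (x : E) * π ^ k x * ((y : E) * π ^ k y) = (x : E) * y * (π ^ m * π ^ m) := by
      have : π ^ k x * π ^ k y = π ^ m * π ^ m := by
        rw [← zpow_add₀ hπ, ← zpow_add₀ hπ, hm, two_mul]
      calc (x : E) * π ^ k x * ((y : E) * π ^ k y) = (x : E) * y * (π ^ k x * π ^ k y) := by ring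
        _ = _ := by rw [this]
    have h5 : π ^ m ≠ 0 := zpow_ne_zero _ hπ
    have h6 : (x : E) * y * (π ^ m * π ^ m) = t * t := h4.symm.trans ht
    have h7 : (x : E) * y = t * t * (π ^ m * π ^ m)⁻¹ := by
      rw [← h6, mul_inv_cancel_right₀ (mul_ne_zero h5 h5)]
    rw [h7, mul_inv]
    ring
  have h1 : Nat.card S ≤ Nat.card (ZMod 2 × ((A E)ˣ ⧸ Sq E)) := by
    have : Finite (ZMod 2 × ((A E)ˣ ⧸ Sq E)) := inferInstance
    exact Nat.card_le_card_of_injective f hf
  rw [Nat.card_prod, Nat.card_zmod] at h1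
  have h2 : Nat.card S = S.card := by simp
  rw [h2] at h1
  have h3 := index_Sq (E := E)
  calc S.card ≤ 2 * Nat.card ((A E)ˣ ⧸ Sq E) := h1
    _ ≤ 2 * (2 * 2 ^ Module.finrank ℚ_[2] E) := Nat.mul_le_mul_left _ h3
    _ = 2 ^ (Module.finrank ℚ_[2] E + 2) := by ring

end LocSq

end BKPar
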