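import Mathlib
import Pool.Agent.Lib.MP_7c08ba_nt.Par.Stmts
import Pool.Agent.Lib.MP_7c08ba_nt.Par.LocSqA

set_option autoImplicit false

namespace BKPar

theorem stLocSq : StLocSq := by
  intro E _ S h0 hS
  have hu : IsUltrametricDist E := by
    refine IsUltrametricDist.isUltrametricDist_of_isNonarchimedean_norm ?_
    intro x y
    exact PadicAlgCl.isNonarchimedean 2 (x : PadicAlgCl 2) y
  exact LocSq.card_le S h0 hS

end BKPar
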