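import Mathlib
import Pool.Agent.Lib.MP_7c08ba_nt.Par.Stmts

set_option autoImplicit false

/-!
Module SHAPIRO of the parity project: pairs for a subgroup of index two.
-/

namespace BKPar

namespace Shap

set_option linter.unusedSectionVars false
set_option linter.unusedSimpArgs false

lemma two (a : ZMod 2) : a + a = 0 := by revert a; decide

lemma eq_of (a b : ZMod 2) (h : a + b = 0) : a = b := by revert a b; decide

section

variable {G : Type*} [Group G] {H : Subgroup G}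

lemma exists_nmem (h2 : H.index = 2) : ∃ s, s ∉ H := by
  by_contra h
  push Not at h
  have h1 : H = ⊤ := by
    ext x
    simp [h x]
  rw [h1] at h2
  simp at h2

lemma mul_mem_iff (h2 : H.index = 2) (a b : G) : a * b ∈ H ↔ (a ∈ H ↔ b ∈ H) :=
  Subgroup.mul_mem_iff_of_index_two h2

lemma sw_mem {g : G} (hg : g ∈ H) (v : ZMod 2 × ZMod 2) : sw H g v = v := if_pos hg

lemma sw_nmem {g : G} (hg : g ∉ H) (v : ZMod 2 × ZMod 2) : sw H g v = (v.2, v.1) := if_neg hg

/-- `x s⁻¹` is in `H` -/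
lemma mul_inv_mem (h2 : H.index = 2) {s x : G} (hs : s ∉ H) (hx : x ∉ H) : x * s⁻¹ ∈ H := by
  rw [mul_mem_iff h2, inv_mem_iff]
  tauto

lemma mul_mem (h2 : H.index = 2) {s x : G} (hs : s ∉ H) (hx : x ∉ H) : s * x ∈ H := by
  rw [mul_mem_iff h2]
  tauto

lemma mul_nmem (h2 : H.index = 2) {s x : G} (hs : s ∉ H) (hx : x ∈ H) : s * x ∉ H := by
  rw [mul_mem_iff h2]
  tauto

lemma mul_nmem' (h2 : H.index = 2) {s x : G} (hs : s ∉ H) (hx : x ∈ H) : x * s ∉ H := by
  rw [mul_mem_iff h2]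
  tauto

end

section Top

variable {G : Type*} [Group G] [TopologicalSpace G] [IsTopologicalGroup G]

lemma exists_conj {W : Subgroup G} (hW : IsOpen (W : Set G)) (s : G) :
    ∃ W1 : Subgroup G, IsOpen (W1 : Set G) ∧ W1 ≤ W ∧ ∀ x ∈ W1, s * x * s⁻¹ ∈ W := by
  refine ⟨W ⊓ W.comap (MulAut.conj s).toMonoidHom, ?_, inf_le_left, fun x hx => ?_⟩
  · rw [Subgroup.coe_inf]
    refine hW.inter ?_
    have hc : Continuous fun x : G => s * x * s⁻¹ := by fun_prop
    exact hW.preimage hc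
  · have := hx.2
    simpa [Subgroup.mem_comap, MulAut.conj_apply] using this

lemma isOpen_map {H : Subgroup G} (hH : IsOpen (H : Set G)) {W : Subgroup H}
    (hW : IsOpen (W : Set H)) : IsOpen ((W.map H.subtype : Subgroup G) : Set G) := by
  rw [Subgroup.coe_map]
  exact hH.isOpenMap_subtype_val _ hW

/-- extension of smooth functions on `H` -/
lemma loc_ext {H : Subgroup G} (hH : IsOpen (H : Set G)) {X : Type*} {f : H → X} (hf : Loc1 f) :
    ∃ W : Subgroup G, IsOpen (W : Set G) ∧ W ≤ H ∧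
      ∀ (w : G) (hw : w ∈ H), w ∈ W → ∀ g : H, f (g * ⟨w, hw⟩) = f g := by
  obtain ⟨W, hW, hf⟩ := hf
  refine ⟨W.map H.subtype, isOpen_map hH hW, ?_, ?_⟩
  · rintro x ⟨y, -, rfl⟩
    exact y.2
  · rintro w hw ⟨y, hy, hyw⟩ g
    have : y = ⟨w, hw⟩ := Subtype.ext hyw
    rw [← this]
    exact hf g y hy

lemma loc_restrict {H : Subgroup G} {X : Type*} {f : G → X} (hf : Loc1 f) :
    Loc1 fun h : H => f h := by
  obtain ⟨W, hW, hf⟩ := hf
  refine ⟨W.subgroupOf H, ?_, fun g w hw => hf g w hw⟩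
  exact hW.preimage continuous_subtype_val

end Top

section One

variable {G : Type*} [Group G] [TopologicalSpace G] [IsTopologicalGroup G] {H : Subgroup G}

open Classical in
/-- first coordinate of the induced cocycle -/
noncomputable def fst (H : Subgroup G) (s : G) (f : H → ZMod 2) (e : ZMod 2) (x : G) : ZMod 2 :=
  if hx : x ∈ H then f ⟨x, hx⟩ else if hx : x * s⁻¹ ∈ H then f ⟨x * s⁻¹, hx⟩ + e else 0

lemma fst_mem {s : G} {f : H → ZMod 2} {e : ZMod 2} {x : G} (hx : x ∈ H) :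
    fst H s f e x = f ⟨x, hx⟩ := dif_pos hx

lemma fst_nmem (h2 : H.index = 2) {s : G} (hs : s ∉ H) {f : H → ZMod 2} {e : ZMod 2} {x : G}
    (hx : x ∉ H) : fst H s f e x = f ⟨x * s⁻¹, mul_inv_mem h2 hs hx⟩ + e := by
  rw [fst, dif_neg hx, dif_pos (mul_inv_mem h2 hs hx)]

/-- the induced cocycle -/
noncomputable def ind (H : Subgroup G) (s : G) (f : H → ZMod 2) (e : ZMod 2) (x : G) :
    ZMod 2 × ZMod 2 :=
  (fst H s f e x, fst H s f e (s * x) + e)

lemma fst_mul_mem (h2 : H.index = 2) {s : G} (hs : s ∉ H) {f : H → ZMod 2}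
    (hf : ∀ x y, f (x * y) = f x + f y) {e : ZMod 2} {g : G} (hg : g ∈ H) (h : G) :
    fst H s f e (g * h) = fst H s f e g + fst H s f e h := by
  by_cases hh : h ∈ H
  · rw [fst_mem (H.mul_mem hg hh), fst_mem hg, fst_mem hh, ← hf]
    rfl
  · have h1 : g * h ∉ H := by
      rw [mul_mem_iff h2]
      tauto
    rw [fst_nmem h2 hs h1, fst_mem hg, fst_nmem h2 hs hh, ← add_assoc, ← hf]
    congr 2
    apply Subtype.ext
    simp [mul_assoc]

lemma fst_mul_nmem (h2 : H.index = 2) {s : G} (hs : s ∉ H) {f : H → ZMod 2}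
    (hf : ∀ x y, f (x * y) = f x + f y) {e : ZMod 2} {g : G} (hg : g ∉ H) (h : G) :
    fst H s f e (g * h) = fst H s f e g + (fst H s f e (s * h) + e) := by
  have h1 : g * h = (g * s⁻¹) * (s * h) := by group
  have h3 := fst_mul_mem h2 hs hf (e := e) (mul_inv_mem h2 hs hg) (s * h)
  rw [← h1] at h3
  rw [h3, fst_mem (mul_inv_mem h2 hs hg), fst_nmem h2 hs hg]
  have := two e
  linear_combination -this

lemma ind_cocycle (h2 : H.index = 2) {s : G} (hs : s ∉ H) {f : H → ZMod 2}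
    (hf : ∀ x y, f (x * y) = f x + f y) {e : ZMod 2} (g h : G) :
    ind H s f e (g * h) = ind H s f e g + sw H g (ind H s f e h) := by
  by_cases hg : g ∈ H
  · rw [sw_mem hg]
    refine Prod.ext ?_ ?_
    · exact fst_mul_mem h2 hs hf hg h
    · change fst H s f e (s * (g * h)) + e = (fst H s f e (s * g) + e) + (fst H s f e (s * h) + e)
      rw [← mul_assoc, fst_mul_nmem h2 hs hf (mul_nmem h2 hs hg) h]
      ring
  · rw [sw_nmem hg]
    refine Prod.ext ?_ ?_
    · exact fst_mul_nmem h2 hs hf hg h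
    · change fst H s f e (s * (g * h)) + e = (fst H s f e (s * g) + e) + fst H s f e h
      rw [← mul_assoc, fst_mul_mem h2 hs hf (mul_mem h2 hs hg) h]
      ring

lemma fst_loc (h2 : H.index = 2) (hH : IsOpen (H : Set G)) {s : G} (hs : s ∉ H)
    {f : H → ZMod 2} (hf : Loc1 f) (e : ZMod 2) :
    ∃ W : Subgroup G, IsOpen (W : Set G) ∧ ∀ g, ∀ w ∈ W,
      fst H s f e (g * w) = fst H s f e g := by
  obtain ⟨W, hW, hWH, hf⟩ := loc_ext hH hf
  obtain ⟨W1, hW1, h1, h3⟩ := exists_conj hW s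
  refine ⟨W1, hW1, fun g w hw => ?_⟩
  have hwH : w ∈ H := hWH (h1 hw)
  by_cases hg : g ∈ H
  · rw [fst_mem hg, fst_mem (H.mul_mem hg hwH)]
    exact hf w hwH (h1 hw) ⟨g, hg⟩
  · have hgw : g * w ∉ H := by
      rw [mul_mem_iff h2]
      tauto
    rw [fst_nmem h2 hs hg, fst_nmem h2 hs hgw]
    have h4 := hf (s * w * s⁻¹) (hWH (h3 w hw)) (h3 w hw) ⟨g * s⁻¹, mul_inv_mem h2 hs hg⟩
    rw [← h4]
    congr 2
    apply Subtype.ext
    simp [mul_assoc]

lemma ind_mem (h2 : H.index = 2) (hH : IsOpen (H : Set G)) {s : G} (hs : s ∉ H)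
    {f : H → ZMod 2} (hf : f ∈ Hom2 H) (e : ZMod 2) : ind H s f e ∈ Z1P H := by
  refine ⟨?_, ind_cocycle h2 hs hf.2⟩
  obtain ⟨W, hW, h⟩ := fst_loc h2 hH hs hf.1 e
  refine ⟨W, hW, fun g w hw => ?_⟩
  refine Prod.ext (h g w hw) ?_
  change fst H s f e (s * (g * w)) + e = fst H s f e (s * g) + e
  rw [← mul_assoc, h _ w hw]

lemma restrict_mem {a : G → ZMod 2 × ZMod 2} (ha : a ∈ Z1P H) :
    (fun h : H => (a h).1) ∈ Hom2 H := by
  obtain ⟨h1, h3⟩ := ha
  refine ⟨?_, fun x y => ?_⟩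
  · obtain ⟨W, hW, h⟩ := loc_restrict (H := H) h1
    exact ⟨W, hW, fun g w hw => congrArg Prod.fst (h g w hw)⟩
  · have := h3 x y
    rw [sw_mem x.2] at this
    change (a ((x : G) * y)).1 = (a x).1 + (a y).1
    rw [this]
    rfl

lemma hom_one {f : H → ZMod 2} (hf : ∀ x y, f (x * y) = f x + f y) : f 1 = 0 := by
  have := hf 1 1
  rw [mul_one] at this
  simpa using this

/-- one-cocycles with values in the pairs -/
noncomputable def equiv (h2 : H.index = 2) (hH : IsOpen (H : Set G)) {s : G} (hs : s ∉ H) :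
    Z1P H ≃ Hom2 H × ZMod 2 where
  toFun a := (⟨fun h : H => (a.1 h).1, restrict_mem a.2⟩, (a.1 s).1)
  invFun v := ⟨ind H s v.1.1 v.2, ind_mem h2 hH hs v.1.2 v.2⟩
  left_inv := by
    rintro ⟨a, ha⟩
    apply Subtype.ext
    have key : ∀ x, fst H s (fun h : H => (a h).1) (a s).1 x = (a x).1 := by
      intro x
      by_cases hx : x ∈ H
      · rw [fst_mem hx]
      · rw [fst_nmem h2 hs hx]
        have h3 := ha.2 (x * s⁻¹) s
        rw [sw_mem (mul_inv_mem h2 hs hx), inv_mul_cancel_right] at h3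
        rw [h3]
        rfl
    funext x
    refine Prod.ext (key x) ?_
    change fst H s (fun h : H => (a h).1) (a s).1 (s * x) + (a s).1 = (a x).2
    rw [key]
    have h3 := ha.2 s x
    rw [sw_nmem hs] at h3
    rw [h3]
    change (a s).1 + (a x).2 + (a s).1 = (a x).2
    have := two (a s).1
    linear_combination this
  right_inv := by
    rintro ⟨⟨f, hf⟩, e⟩
    refine Prod.ext (Subtype.ext ?_) ?_
    · funext x
      exact fst_mem x.2
    · change fst H s f e s = e
      rw [fst_nmem h2 hs hs]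
      have h4 : (⟨s * s⁻¹, mul_inv_mem h2 hs hs⟩ : H) = 1 := Subtype.ext (by simp)
      rw [h4, hom_one hf.2, zero_add]

end One

section Two

variable {G : Type*} [Group G] [TopologicalSpace G] [IsTopologicalGroup G] {H : Subgroup G}

open Classical in
/-- first coordinate of the cochain -/
noncomputable def b1 (H : Subgroup G) (s : G) (w : G → G → ZMod 2 × ZMod 2) (β : H → ZMod 2)
    (x : G) : ZMod 2 :=
  if hx : x ∈ H then β ⟨x, hx⟩ else
    if hx : x * s⁻¹ ∈ H then (w (x * s⁻¹) s).1 + β ⟨x * s⁻¹, hx⟩ else 0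

lemma b1_mem {s : G} {w : G → G → ZMod 2 × ZMod 2} {β : H → ZMod 2} {x : G} (hx : x ∈ H) :
    b1 H s w β x = β ⟨x, hx⟩ := dif_pos hx

lemma b1_nmem (h2 : H.index = 2) {s : G} (hs : s ∉ H) {w : G → G → ZMod 2 × ZMod 2}
    {β : H → ZMod 2} {x : G} (hx : x ∉ H) :
    b1 H s w β x = (w (x * s⁻¹) s).1 + β ⟨x * s⁻¹, mul_inv_mem h2 hs hx⟩ := by
  rw [b1, dif_neg hx, dif_pos (mul_inv_mem h2 hs hx)]

lemma b1_mul (h2 : H.index = 2) {s : G} (hs : s ∉ H) {w : G → G → ZMod 2 × ZMod 2}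
    {β : H → ZMod 2} {y : G} (hy : y ∈ H) : b1 H s w β (y * s) = (w y s).1 + β ⟨y, hy⟩ := by
  have key : ∀ z (hz : z ∈ H), z = y → (w z s).1 + β ⟨z, hz⟩ = (w y s).1 + β ⟨y, hy⟩ := by
    rintro z hz rfl
    rfl
  rw [b1_nmem h2 hs (mul_nmem' h2 hs hy)]
  exact key _ _ (by group)

/-- the cochain -/
noncomputable def bb (H : Subgroup G) (s : G) (w : G → G → ZMod 2 × ZMod 2) (β : H → ZMod 2)
    (x : G) : ZMod 2 × ZMod 2 :=
  (b1 H s w β x, (w s x).1 + b1 H s w β (s * x))

lemma b1_loc (h2 : H.index = 2) (hH : IsOpen (H : Set G)) {s : G} (hs : s ∉ H)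
    {w : G → G → ZMod 2 × ZMod 2} (hw : Loc2 w) {β : H → ZMod 2} (hβ : Loc1 β) :
    Loc1 (bb H s w β) := by
  obtain ⟨W, hW, hWH, hf⟩ := loc_ext hH hβ
  obtain ⟨V, hV, hw⟩ := hw
  have hVW : IsOpen ((W ⊓ V : Subgroup G) : Set G) := by
    rw [Subgroup.coe_inf]
    exact hW.inter hV
  obtain ⟨W1, hW1, h1, h3⟩ := exists_conj hVW s
  have key : ∀ g, ∀ x ∈ W1, b1 H s w β (g * x) = b1 H s w β g := by
    intro g x hx
    have hxH : x ∈ H := hWH (h1 hx).1
    by_cases hg : g ∈ H
    · rw [b1_mem hg, b1_mem (H.mul_mem hg hxH)]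
      exact hf x hxH (h1 hx).1 ⟨g, hg⟩
    · have hgw : g * x ∉ H := by
        rw [mul_mem_iff h2]
        tauto
      rw [b1_nmem h2 hs hg, b1_nmem h2 hs hgw]
      have h4 := hf (s * x * s⁻¹) (hWH (h3 x hx).1) (h3 x hx).1 ⟨g * s⁻¹, mul_inv_mem h2 hs hg⟩
      have h5 := hw (g * s⁻¹) s (s * x * s⁻¹) (h3 x hx).2 1 V.one_mem
      have h6 : g * s⁻¹ * (s * x * s⁻¹) = g * x * s⁻¹ := by group
      rw [mul_one, h6] at h5
      rw [← h4, h5]
      congr 2
      apply Subtype.ext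
      exact h6.symm
  refine ⟨W1, hW1, fun g x hx => Prod.ext (key g x hx) ?_⟩
  change (w s (g * x)).1 + b1 H s w β (s * (g * x)) = (w s g).1 + b1 H s w β (s * g)
  have h5 := hw s g 1 V.one_mem x (h1 hx).2
  rw [mul_one] at h5
  rw [h5, ← mul_assoc, key _ x hx]

/-- the difference is a cocycle -/
lemma diff_cocycle (h2 : H.index = 2) {w : G → G → ZMod 2 × ZMod 2}
    (hw : ∀ g h k, sw H g (w h k) + w (g * h) k + w g (h * k) + w g h = 0)
    (b : G → ZMod 2 × ZMod 2) (v : G → G → ZMod 2 × ZMod 2)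
    (hv : ∀ g h, v g h = w g h + (sw H g (b h) + b (g * h) + b g)) (g h k : G) :
    sw H g (v h k) + v (g * h) k + v g (h * k) + v g h = 0 := by
  have h0 := hw g h k
  have hgh := mul_mem_iff h2 g h
  have e1 := congrArg Prod.fst h0
  have e2 := congrArg Prod.snd h0
  by_cases hg : g ∈ H <;> by_cases hh : h ∈ H
  all_goals
    simp only [hg, hh, sw, if_true, if_false, iff_true, iff_false, not_true] at hgh e1 e2
    refine Prod.ext ?_ ?_
    all_goals
      simp only [hv, hg, hh, hgh, sw, if_true, if_false, Prod.fst_add, Prod.snd_add,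
        Prod.fst_zero, Prod.snd_zero, ← mul_assoc] at e1 e2 ⊢
      have t1 := two (b g).1
      have t2 := two (b g).2
      have t3 := two (b (g * h)).1
      have t4 := two (b (g * h)).2
      have t5 := two (b (g * h * k)).1
      have t6 := two (b (g * h * k)).2
      have t7 := two (b k).1
      have t8 := two (b k).2
      have t9 := two (b (h * k)).1
      have t10 := two (b (h * k)).2
      have t11 := two (b h).1
      have t12 := two (b h).2
      first
      | linear_combination e1 + t1 + t3 + t5 + t7 + t9 + t11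
      | linear_combination e1 + t1 + t3 + t5 + t7 + t9 + t12
      | linear_combination e1 + t1 + t3 + t5 + t7 + t10 + t11
      | linear_combination e1 + t1 + t3 + t5 + t7 + t10 + t12
      | linear_combination e1 + t1 + t3 + t5 + t8 + t9 + t11
      | linear_combination e1 + t1 + t3 + t5 + t8 + t9 + t12
      | linear_combination e1 + t1 + t3 + t5 + t8 + t10 + t11
      | linear_combination e1 + t1 + t3 + t5 + t8 + t10 + t12
      | linear_combination e2 + t2 + t4 + t6 + t7 + t9 + t11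
      | linear_combination e2 + t2 + t4 + t6 + t7 + t9 + t12
      | linear_combination e2 + t2 + t4 + t6 + t7 + t10 + t11
      | linear_combination e2 + t2 + t4 + t6 + t7 + t10 + t12
      | linear_combination e2 + t2 + t4 + t6 + t8 + t9 + t11
      | linear_combination e2 + t2 + t4 + t6 + t8 + t9 + t12
      | linear_combination e2 + t2 + t4 + t6 + t8 + t10 + t11
      | linear_combination e2 + t2 + t4 + t6 + t8 + t10 + t12

end Two

section Final

variable {G : Type*} [Group G] [TopologicalSpace G] [IsTopologicalGroup G] {H : Subgroup G}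

lemma main_two (h2 : H.index = 2) (hH : IsOpen (H : Set G)) {w : G → G → ZMod 2 × ZMod 2}
    (hw : w ∈ Z2P H) (hb : (fun a b : H => (w a b).1) ∈ B2 H) : w ∈ B2P H := by
  obtain ⟨s, hs⟩ := exists_nmem h2
  obtain ⟨β, hβ, hβw⟩ := hb
  obtain ⟨hl, hc⟩ := hw
  have hone : ∀ k, w 1 k = w 1 1 := by
    intro k
    have h := hc 1 1 k
    rw [sw_mem H.one_mem, one_mul, one_mul] at h
    refine Prod.ext (eq_of _ _ ?_) (eq_of _ _ ?_)
    · have h1 := congrArg Prod.fst h
      simp only [Prod.fst_add, Prod.fst_zero] at h1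
      have := two (w 1 k).1
      linear_combination h1 - this
    · have h1 := congrArg Prod.snd h
      simp only [Prod.snd_add, Prod.snd_zero] at h1
      have := two (w 1 k).2
      linear_combination h1 - this
  have hβ1 : (w 1 s).1 = β 1 := by
    have h := hβw 1 1
    rw [mul_one] at h
    change (w 1 1).1 = β 1 + β 1 + β 1 at h
    have := two (β 1)
    rw [hone, h]
    linear_combination this
  obtain ⟨v, hv⟩ : ∃ v : G → G → ZMod 2 × ZMod 2, ∀ g h, v g h = w g h +
      (sw H g (bb H s w β h) + bb H s w β (g * h) + bb H s w β g) := ⟨_, fun _ _ => rfl⟩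
  have hvc := diff_cocycle h2 hc _ v hv
  have hb1s : (bb H s w β s).1 = 0 := by
    change b1 H s w β s = 0
    have h4 := b1_mul h2 hs (w := w) (β := β) H.one_mem
    rw [one_mul, hβ1] at h4
    rw [h4]
    exact two _
  -- inside `H`
  have v1 : ∀ g ∈ H, ∀ h ∈ H, (v g h).1 = 0 := by
    intro g hg h hh
    rw [hv, sw_mem hg]
    change (w g h).1 + (b1 H s w β h + b1 H s w β (g * h) + b1 H s w β g) = 0
    rw [b1_mem hh, b1_mem hg, b1_mem (H.mul_mem hg hh)]
    have h1 := hβw ⟨g, hg⟩ ⟨h, hh⟩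
    change (w g h).1 = β ⟨h, hh⟩ + β ⟨g * h, H.mul_mem hg hh⟩ + β ⟨g, hg⟩ at h1
    rw [h1]
    exact two _
  have v2 : ∀ g ∈ H, (v g s).1 = 0 := by
    intro g hg
    rw [hv, sw_mem hg]
    have h1 : (bb H s w β (g * s)).1 = (w g s).1 + β ⟨g, hg⟩ := by
      exact b1_mul h2 hs hg
    have h3 : (bb H s w β g).1 = β ⟨g, hg⟩ := b1_mem hg
    change (w g s).1 + ((bb H s w β s).1 + (bb H s w β (g * s)).1 + (bb H s w β g).1) = 0
    rw [hb1s, h1, h3]
    have := two (w g s).1
    have h4 := two (β ⟨g, hg⟩)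
    linear_combination this + h4
  have v3 : ∀ x, (v s x).1 = 0 := by
    intro x
    rw [hv, sw_nmem hs]
    change (w s x).1 + (((w s x).1 + b1 H s w β (s * x)) + b1 H s w β (s * x) +
      (bb H s w β s).1) = 0
    rw [hb1s]
    have := two (w s x).1
    have h4 := two (b1 H s w β (s * x))
    linear_combination this + h4
  have v4 : ∀ g ∈ H, ∀ x, (v g x).1 = 0 := by
    intro g hg x
    by_cases hx : x ∈ H
    · exact v1 g hg x hx
    · have h1 := congrArg Prod.fst (hvc g (x * s⁻¹) s)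
      rw [sw_mem hg, inv_mul_cancel_right] at h1
      change (v (x * s⁻¹) s).1 + (v (g * (x * s⁻¹)) s).1 + (v g x).1 + (v g (x * s⁻¹)).1 = 0 at h1
      have hxs := mul_inv_mem h2 hs hx
      rw [v2 _ hxs, v2 _ (H.mul_mem hg hxs), v1 g hg _ hxs] at h1
      simpa using h1
  have v5 : ∀ g x, (v g x).1 = 0 := by
    intro g x
    by_cases hg : g ∈ H
    · exact v4 g hg x
    · have hgs := mul_inv_mem h2 hs hg
      have h1 := congrArg Prod.fst (hvc (g * s⁻¹) s x)
      rw [sw_mem hgs, inv_mul_cancel_right] at h1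
      change (v s x).1 + (v g x).1 + (v (g * s⁻¹) (s * x)).1 + (v (g * s⁻¹) s).1 = 0 at h1
      rw [v3, v4 _ hgs, v4 _ hgs] at h1
      simpa using h1
  have v6 : ∀ h k, v h k = 0 := by
    intro h k
    refine Prod.ext (v5 h k) ?_
    have h1 := congrArg Prod.fst (hvc s h k)
    rw [sw_nmem hs] at h1
    change (v h k).2 + (v (s * h) k).1 + (v s (h * k)).1 + (v s h).1 = 0 at h1
    rw [v5, v5, v5] at h1
    simpa using h1
  refine ⟨bb H s w β, b1_loc h2 hH hs hl hβ, fun g h => ?_⟩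
  have h1 := v6 g h
  rw [hv] at h1
  exact Prod.ext (eq_of _ _ (congrArg Prod.fst h1)) (eq_of _ _ (congrArg Prod.snd h1))

end Final

end Shap

/-- Module SHAPIRO. -/
theorem stShapiro : StShapiro := by
  intro G _ _ _ _ H hH h2
  refine ⟨fun _ => ?_, fun w hw hb => Shap.main_two h2 hH hw hb⟩
  obtain ⟨s, hs⟩ := Shap.exists_nmem h2
  rw [Nat.card_congr (Shap.equiv h2 hH hs), Nat.card_prod, Nat.card_zmod, mul_comm]

end BKPar
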