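import Mathlib
import Pool.Agent.Lib.MP_7c08ba_nt.Par.Stmts

set_option autoImplicit false

/-!
Module SQ: the maximal `2`-extension unramified outside `2` is closed under square roots of
units outside `2`.
-/

noncomputable section

namespace BKPar.Sq

open Pool.Agent.Lib.MP_7c08ba_nt NumberField

variable {F : Type} [Field F]

/-- inertia groups at primes not above `2` fix square roots which are units outside `2` -/
lemma inert_fix {P : Ideal (AllInt F)} (hP : P.IsPrime) (h2 : (2 : AllInt F) ∉ P)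
    {g : AbsGal F} (hg : g ∈ inert F P) {z : AlgebraicClosure F} (hz : IsTwoUnit z)
    (hgz : g (z ^ 2) = z ^ 2) : g z = z := by
  obtain ⟨hz0, k, h3, h4⟩ := hz
  have h5 : (g z) ^ 2 = z ^ 2 := by rw [← map_pow, hgz]
  rcases sq_eq_sq_iff_eq_or_eq_neg.mp h5 with h6 | h6
  · exact h6
  exfalso
  let w : AllInt F := ⟨2 ^ k * z, h3⟩
  let w' : AllInt F := ⟨2 ^ k * z⁻¹, h4⟩
  have h7 : g • w - w = -(2 * w) := by
    apply RingOfIntegers.ext
    have e1 : algebraMap (AllInt F) (AlgebraicClosure F) (g • w) = g (2 ^ k * z) := rfl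
    have e2 : algebraMap (AllInt F) (AlgebraicClosure F) w = 2 ^ k * z := rfl
    rw [RingOfIntegers.coe_eq_algebraMap, RingOfIntegers.coe_eq_algebraMap, map_sub, map_neg,
      map_mul, map_ofNat, e1, e2, map_mul, map_pow, map_ofNat, h6]
    ring
  have h8 : -(2 * w) ∈ P := by rw [← h7]; exact hg w
  have h9 : 2 * w ∈ P := by simpa using P.neg_mem h8
  have h10 : w ∈ P := (hP.mem_or_mem h9).resolve_left h2
  have h11 : w * w' = 2 ^ (2 * k) := by
    apply RingOfIntegers.ext
    have e2 : algebraMap (AllInt F) (AlgebraicClosure F) w = 2 ^ k * z := rfl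
    have e3 : algebraMap (AllInt F) (AlgebraicClosure F) w' = 2 ^ k * z⁻¹ := rfl
    rw [RingOfIntegers.coe_eq_algebraMap, RingOfIntegers.coe_eq_algebraMap, map_mul, map_pow,
      map_ofNat, e2, e3, pow_mul', pow_two]
    field_simp
  have h12 : (2 : AllInt F) ^ (2 * k) ∈ P := by rw [← h11]; exact P.mul_mem_right _ h10
  exact h2 (hP.mem_of_pow_mem _ h12)

lemma IsTwoUnit.map {z : AlgebraicClosure F} (hz : IsTwoUnit z) (g : AbsGal F) :
    IsTwoUnit (g z) := by
  obtain ⟨hz0, k, h3, h4⟩ := hz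
  refine ⟨?_, k, ?_, ?_⟩
  · simpa using hz0
  · have h5 := h3.map (g.toRingEquiv.toRingHom.toIntAlgHom)
    have h6 : g.toRingEquiv.toRingHom.toIntAlgHom (2 ^ k * z) = 2 ^ k * g z := by
      change g (2 ^ k * z) = 2 ^ k * g z
      rw [map_mul, map_pow, map_ofNat]
    rwa [h6] at h5
  · have h5 := h4.map (g.toRingEquiv.toRingHom.toIntAlgHom)
    have h6 : g.toRingEquiv.toRingHom.toIntAlgHom (2 ^ k * z⁻¹) = 2 ^ k * (g z)⁻¹ := by
      change g (2 ^ k * z⁻¹) = 2 ^ k * (g z)⁻¹
      rw [map_mul, map_pow, map_ofNat, map_inv₀]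
    rwa [h6] at h5

/-- square roots of the elements of the fixed field -/
lemma exists_adm [NumberField F] {y : AlgebraicClosure F} (hy : IsTwoUnit y)
    {N0 : Subgroup (AbsGal F)} (hN0 : IsAdm F N0) (hfix : ∀ g ∈ N0, g (y ^ 2) = y ^ 2) :
    IsAdm F (N0 ⊓ (MulAction.stabilizer (AbsGal F) y).normalCore) := by
  obtain ⟨hn, ho, ⟨k, hk⟩, hin⟩ := hN0
  have hn' : N0.Normal := hn
  have hopen : IsOpen ((MulAction.stabilizer (AbsGal F) y : Subgroup (AbsGal F)) :
      Set (AbsGal F)) := by
    have h1 : FiniteDimensional F (IntermediateField.adjoin F {y}) :=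
      IntermediateField.adjoin.finiteDimensional
        (Algebra.IsIntegral.isIntegral (R := F) y)
    have h2 := IntermediateField.fixingSubgroup_isOpen (IntermediateField.adjoin F {y})
    refine Subgroup.isOpen_mono ?_ h2
    intro g hg
    rw [IntermediateField.mem_fixingSubgroup_iff] at hg
    exact hg y (IntermediateField.mem_adjoin_simple_self F y)
  have hfq : Finite (AbsGal F ⧸ (MulAction.stabilizer (AbsGal F) y : Subgroup (AbsGal F))) :=
    Subgroup.quotient_finite_of_isOpen _ hopen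
  have hfi : (MulAction.stabilizer (AbsGal F) y : Subgroup (AbsGal F)).FiniteIndex :=
    Subgroup.finiteIndex_of_finite_quotient
  have hco : IsOpen (((MulAction.stabilizer (AbsGal F) y).normalCore : Subgroup (AbsGal F)) :
      Set (AbsGal F)) := by
    apply Subgroup.isOpen_of_isClosed_of_finiteIndex
    exact Subgroup.normalCore_isClosed _ (Subgroup.isClosed_of_isOpen _ hopen)
  -- elements of `N0` act by signs on the conjugates of `y`
  have hsgn : ∀ g ∈ N0, ∀ b : AbsGal F, g (b y) = b y ∨ g (b y) = -(b y) := by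
    intro g hg b
    have h1 : (b⁻¹ * g * b) ∈ N0 := by
      have := hn.conj_mem g hg b⁻¹
      simpa using this
    have h2 := hfix _ h1
    have h3 : b ((b⁻¹ * g * b) (y ^ 2)) = g (b (y ^ 2)) := by
      rw [← AlgEquiv.mul_apply, ← AlgEquiv.mul_apply]
      congr 1
      group
    rw [h2] at h3
    have h4 : (g (b y)) ^ 2 = (b y) ^ 2 := by
      rw [← map_pow, ← map_pow, ← h3]
    exact sq_eq_sq_iff_eq_or_eq_neg.mp h4
  have hmem : ∀ g : AbsGal F, g ∈ (MulAction.stabilizer (AbsGal F) y).normalCore ↔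
      ∀ b : AbsGal F, g (b y) = b y := by
    intro g
    constructor
    · intro h b
      have h1 : b⁻¹ * g * b⁻¹⁻¹ ∈ MulAction.stabilizer (AbsGal F) y := h b⁻¹
      rw [MulAction.mem_stabilizer_iff] at h1
      have h2 : b ((b⁻¹ * g * b⁻¹⁻¹) y) = g (b y) := by
        rw [← AlgEquiv.mul_apply, ← AlgEquiv.mul_apply]
        congr 1
        group
      rw [← h2]
      exact congrArg b h1
    · intro h b
      change b * g * b⁻¹ ∈ MulAction.stabilizer (AbsGal F) y
      rw [MulAction.mem_stabilizer_iff]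
      change (b * g * b⁻¹) y = y
      rw [AlgEquiv.mul_apply, AlgEquiv.mul_apply, h b⁻¹, ← AlgEquiv.mul_apply, mul_inv_cancel,
        AlgEquiv.one_apply]
  have hoN : IsOpen ((N0 ⊓ (MulAction.stabilizer (AbsGal F) y).normalCore :
      Subgroup (AbsGal F)) : Set (AbsGal F)) := by
    rw [Subgroup.coe_inf]
    exact ho.inter hco
  refine ⟨inferInstance, hoN, ?_, fun P hP h2 => ?_⟩
  · set N := N0 ⊓ (MulAction.stabilizer (AbsGal F) y).normalCore with hN
    have hNn : N.Normal := inferInstance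
    have hfin : Finite (AbsGal F ⧸ N) := N.quotient_finite_of_isOpen hoN
    have hpg : IsPGroup 2 (AbsGal F ⧸ N) := by
      intro x
      obtain ⟨g, rfl⟩ := QuotientGroup.mk'_surjective N x
      refine ⟨k + 1, ?_⟩
      rw [← map_pow]
      refine (QuotientGroup.eq_one_iff _).mpr ?_
      have h1 : g ^ (2 ^ k) ∈ N0 := by
        rw [← hk]
        exact Subgroup.pow_index_mem N0 g
      have h2 : g ^ (2 ^ (k + 1)) = g ^ (2 ^ k) * g ^ (2 ^ k) := by
        rw [pow_succ, pow_mul, pow_two]
      rw [h2]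
      refine ⟨N0.mul_mem h1 h1, (hmem _).mpr fun b => ?_⟩
      rw [AlgEquiv.mul_apply]
      rcases hsgn _ h1 b with h3 | h3
      · rw [h3, h3]
      · rw [h3, map_neg, h3, neg_neg]
    obtain ⟨i, hi⟩ := (IsPGroup.iff_card).mp hpg
    exact ⟨i, hi⟩
  · intro g hg
    have hgN0 := hin P hP h2 hg
    refine ⟨hgN0, (hmem g).mpr fun b => ?_⟩
    refine inert_fix hP h2 hg (IsTwoUnit.map hy b) ?_
    rcases hsgn g hgN0 b with h3 | h3
    · rw [map_pow, h3]
    · rw [map_pow, h3, neg_sq]

end BKPar.Sq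

namespace BKPar

open Pool.Agent.Lib.MP_7c08ba_nt NumberField

/-- Module SQ. -/
theorem stSq (h : StAdm) : StSq := by
  intro F _ _ y hy hR r hr
  obtain ⟨-, -, -, h4, -⟩ := h F
  have hopen : IsOpen ((MulAction.stabilizer (AbsGal F) (y ^ 2) : Subgroup (AbsGal F)) :
      Set (AbsGal F)) := by
    have h1 : FiniteDimensional F (IntermediateField.adjoin F {y ^ 2}) :=
      IntermediateField.adjoin.finiteDimensional
        (Algebra.IsIntegral.isIntegral (R := F) (y ^ 2))
    have h2 := IntermediateField.fixingSubgroup_isOpen (IntermediateField.adjoin F {y ^ 2})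
    refine Subgroup.isOpen_mono ?_ h2
    intro g hg
    rw [IntermediateField.mem_fixingSubgroup_iff] at hg
    exact hg (y ^ 2) (IntermediateField.mem_adjoin_simple_self F (y ^ 2))
  obtain ⟨N0, hN0, hle⟩ := h4 _ hopen (fun g hg => hR g hg)
  have hadm := Sq.exists_adm hy hN0 (fun g hg => hle hg)
  have h5 : r ∈ N0 ⊓ (MulAction.stabilizer (AbsGal F) y).normalCore :=
    (sInf_le hadm : R F ≤ _) hr
  have h6 : r ∈ MulAction.stabilizer (AbsGal F) y := Subgroup.normalCore_le _ h5.2
  exact h6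

end BKPar

end
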