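import Pool.Agent.Lib.MP_7c08ba_nt.Par.Stmts
import Pool.Agent.Lib.MP_7c08ba_nt.Gen.SUnits
import Pool.Agent.Lib.MP_7c08ba_nt.Quad

set_option autoImplicit false

/-!
Module UNITS: Dirichlet's theorem for the units outside two primes above `2`.
-/

namespace BKPar

open Pool.Agent.Lib.MP_7c08ba_nt NumberField IsDedekindDomain Module BKGen

namespace UnitsA

/-! ### units outside a finite set of primes above `2` -/

section Classes

variable {K : Type*} [Field K] [NumberField K]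

/-- An element whose poles lie above `2` is integral up to a power of `2`. -/
lemma exists_pow_mul (S : Set (HeightOneSpectrum (𝓞 K))) [Finite S]
    (hS : ∀ v ∈ S, (2 : 𝓞 K) ∈ v.asIdeal) {x : K}
    (hx : ∀ v : HeightOneSpectrum (𝓞 K), v ∉ S → v.valuation K x ≤ 1) :
    ∃ k : ℕ, ∀ n, k ≤ n → IsIntegral ℤ (2 ^ n * x) := by
  classical
  have := Fintype.ofFinite S
  have e2 : algebraMap (𝓞 K) K 2 = 2 := map_ofNat _ 2
  have h2 : ∀ v : HeightOneSpectrum (𝓞 K), v.valuation K (2 : K) ≤ 1 := fun v => by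
    rw [← e2]
    exact v.valuation_le_one (K := K) (2 : 𝓞 K)
  have hlt : ∀ v : S, (v : HeightOneSpectrum (𝓞 K)).valuation K (2 : K) < 1 := fun v => by
    rw [← e2]
    exact (HeightOneSpectrum.valuation_lt_one_iff_mem (K := K) (v : HeightOneSpectrum (𝓞 K))
      (2 : 𝓞 K)).2 (hS v v.2)
  have h0 : ∀ v : HeightOneSpectrum (𝓞 K), v.valuation K (2 : K) ≠ 0 := fun v => by
    rw [Ne, map_eq_zero]
    exact two_ne_zero
  have hk : ∀ v : S, ∃ k : ℕ, (v : HeightOneSpectrum (𝓞 K)).valuation K x ≤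
      ((v : HeightOneSpectrum (𝓞 K)).valuation K (2 : K))⁻¹ ^ k := fun v =>
    MulArchimedean.arch _ ((one_lt_inv₀ (zero_lt_iff.2 (h0 v))).2 (hlt v))
  choose k hk using hk
  refine ⟨∑ v, k v, fun n hn => ?_⟩
  obtain ⟨a, ha⟩ := HeightOneSpectrum.mem_integers_of_valuation_le_one (R := 𝓞 K) K
    (2 ^ n * x) (fun v => by
      rw [map_mul, map_pow]
      by_cases hv : v ∈ S
      · have h3 : k ⟨v, hv⟩ ≤ n := (Finset.single_le_sum (f := k) (fun _ _ => Nat.zero_le _)
          (Finset.mem_univ (⟨v, hv⟩ : S))).trans hn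
        have h4 : v.valuation K (2 : K) ^ n ≤ v.valuation K (2 : K) ^ k ⟨v, hv⟩ :=
          pow_le_pow_right_of_le_one' (h2 v) h3
        calc v.valuation K (2 : K) ^ n * v.valuation K x
            ≤ v.valuation K (2 : K) ^ k ⟨v, hv⟩ * (v.valuation K (2 : K))⁻¹ ^ k ⟨v, hv⟩ :=
              mul_le_mul' h4 (hk ⟨v, hv⟩)
          _ = 1 := by
              rw [← mul_pow, mul_inv_cancel₀ (h0 v), one_pow]
      · exact mul_le_one' (pow_le_one' (h2 v) n) (hx v hv))
  rw [← ha]
  exact RingOfIntegers.isIntegral_coe a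

/-- Many square classes of units outside two primes above `2`. -/
theorem classes (hK : IsEmpty (K →+* ℝ)) {P₁ P₂ : HeightOneSpectrum (𝓞 K)} (h12 : P₁ ≠ P₂)
    (h1 : (2 : 𝓞 K) ∈ P₁.asIdeal) (h2 : (2 : 𝓞 K) ∈ P₂.asIdeal) :
    ∃ T : Finset K, T.card = 2 ^ (finrank ℚ K / 2 + 2) ∧
      (∀ x ∈ T, x ≠ 0 ∧ ∃ k : ℕ, IsIntegral ℤ (2 ^ k * x) ∧ IsIntegral ℤ (2 ^ k * x⁻¹)) ∧
      ∀ x ∈ T, ∀ x' ∈ T, IsSquare (x * x') → x = x' := by
  classical
  have : Fact (Nat.Prime 2) := ⟨Nat.prime_two⟩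
  set S : Set (HeightOneSpectrum (𝓞 K)) := {P₁, P₂} with hS
  have hfin : Finite S := (Set.toFinite _).to_subtype
  have hζ : IsPrimitiveRoot (-1 : K) 2 := IsPrimitiveRoot.neg_one 0 (by norm_num)
  have hcard := SUnits.card_sunits K 2 hζ S
  have hrank := SUnits.rank_of_isEmpty K hK
  have hSc : Nat.card S = 2 := by
    rw [Nat.card_coe_set_eq, hS, Set.ncard_pair h12]
  rw [hSc, show Units.rank K + 2 + 1 = finrank ℚ K / 2 + 2 by omega] at hcard
  set Q := (S.unit K) ⧸ (powMonoidHom 2 : S.unit K →* S.unit K).range with hQ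
  have hQfin : Finite Q := by
    apply Nat.finite_of_card_ne_zero
    rw [hcard]
    positivity
  have := Fintype.ofFinite Q
  have hS2 : ∀ v ∈ S, (2 : 𝓞 K) ∈ v.asIdeal := by
    rintro v (rfl | rfl)
    · exact h1
    · exact h2
  let r : Q → K := fun c => (((Quotient.out c : S.unit K) : Kˣ) : K)
  have key : ∀ c c' : Q, IsSquare (r c * r c') → c = c' := by
    rintro c c' ⟨z, hz⟩
    rw [← QuotientGroup.out_eq' c, ← QuotientGroup.out_eq' c', QuotientGroup.eq]
    set a : S.unit K := Quotient.out c with ha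
    set b : S.unit K := Quotient.out c' with hb
    have hz' : ((a : Kˣ) : K) * ((b : Kˣ) : K) = z * z := hz
    have hz0 : z ≠ 0 := by
      rintro rfl
      rw [mul_zero] at hz'
      exact mul_ne_zero (Units.ne_zero _) (Units.ne_zero _) hz'
    have hzu : Units.mk0 z hz0 ∈ S.unit K := by
      intro v hv
      apply SUnits.val_eq_one_of_pow (n := 2) two_ne_zero
      have e : ((Units.mk0 z hz0 ^ 2 : Kˣ) : K) = (((a * b : S.unit K) : Kˣ) : K) := by
        rw [Units.val_pow_eq_pow_val, Units.val_mk0, sq, ← hz']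
        rfl
      rw [e]
      exact (a * b).2 v hv
    refine ⟨⟨Units.mk0 z hz0, hzu⟩ * a⁻¹, ?_⟩
    apply Subtype.ext
    apply Units.ext
    have ha0 : ((a : Kˣ) : K) ≠ 0 := Units.ne_zero _
    simp only [powMonoidHom_apply, mul_pow]
    push_cast
    rw [Units.val_mk0, inv_pow, sq z, ← hz']
    field_simp
  have hrinj : Function.Injective r := fun c c' h => key c c' ⟨r c, by rw [h]⟩
  refine ⟨Finset.univ.image r, ?_, ?_, ?_⟩
  · rw [Finset.card_image_of_injective _ hrinj, Finset.card_univ, ← Nat.card_eq_fintype_card,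
      hcard]
  · intro x hx
    obtain ⟨c, -, rfl⟩ := Finset.mem_image.1 hx
    have hu := (Quotient.out c : S.unit K).2
    have h0 : r c ≠ 0 := Units.ne_zero _
    obtain ⟨k, hk⟩ := exists_pow_mul S hS2 (x := r c) (fun v hv => (hu v hv).le)
    obtain ⟨k', hk'⟩ := exists_pow_mul S hS2 (x := (r c)⁻¹) (fun v hv => by
      have : v.valuation K (r c) = 1 := hu v hv
      rw [map_inv₀, this, inv_one])
    exact ⟨h0, k + k', hk _ (by omega), hk' _ (by omega)⟩
  · intro x hx x' hx' h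
    obtain ⟨c, -, rfl⟩ := Finset.mem_image.1 hx
    obtain ⟨c', -, rfl⟩ := Finset.mem_image.1 hx'
    rw [key c c' h]

end Classes

/-! ### two primes above `2` -/

section Primes

variable {q : ℕ} {F K : Type*} [Field F] [NumberField F] [Field K] [NumberField K] [Algebra F K]

lemma exists_c (h8 : q % 8 = 7) : ∃ c : ℕ, q + 1 = 8 * c := ⟨(q + 1) / 8, by omega⟩

lemma isIntegral_w (h8 : q % 8 = 7) {s : F} (hs : s ^ 2 = -(q : F)) :
    IsIntegral ℤ ((1 + s) / 2) := by
  obtain ⟨c, hc⟩ := exists_c h8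
  refine ⟨Polynomial.X ^ 2 - Polynomial.X + Polynomial.C (2 * (c : ℤ)), ?_, ?_⟩
  · have e : (Polynomial.X ^ 2 - Polynomial.X + Polynomial.C (2 * (c : ℤ)) : Polynomial ℤ) =
        Polynomial.X ^ 2 + (-Polynomial.X + Polynomial.C (2 * (c : ℤ))) := by ring
    rw [e]
    apply Polynomial.monic_X_pow_add
    compute_degree!
  · have hc' : (q : F) + 1 = 8 * c := by exact_mod_cast hc
    simp only [Polynomial.eval₂_add, Polynomial.eval₂_sub, Polynomial.eval₂_pow,
      Polynomial.eval₂_X, Polynomial.eval₂_C]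
    simp only [eq_intCast, Int.cast_mul, Int.cast_ofNat, Int.cast_natCast]
    linear_combination (1 / 4 : F) * hs - (1 / 4 : F) * hc'

/-- Integral elements are half-integral combinations. -/
lemma exists_int_coords' (hq0 : 0 < q) (hF : finrank ℚ F = 2) {s : F} (hs : s ^ 2 = -(q : F))
    (hsq : Squarefree q) {z : F} (hz : IsIntegral ℤ z) :
    ∃ A B : ℤ, 2 * z = A + B * s := by
  obtain ⟨a, b, rfl⟩ := exists_coords hq0 hF hs z
  obtain ⟨hN, hT⟩ := norm_trace hq0 hF hs a b
  have h1 : IsIntegral ℤ (2 * a) := by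
    rw [← hT]
    exact Algebra.isIntegral_trace hz
  have h2 : IsIntegral ℤ (a ^ 2 + q * b ^ 2) := by
    rw [← hN]
    exact Algebra.isIntegral_norm ℚ hz
  obtain ⟨A, hA⟩ := IsIntegrallyClosed.isIntegral_iff.mp h1
  obtain ⟨N, hN'⟩ := IsIntegrallyClosed.isIntegral_iff.mp h2
  have hA' : (A : ℚ) = 2 * a := hA
  have hN'' : (N : ℚ) = a ^ 2 + q * b ^ 2 := hN'
  have h3 : IsIntegral ℤ (q * (2 * b)) := by
    have h4 : ((q : ℚ) * (2 * b)) ^ 2 = ((q * (4 * N - A ^ 2) : ℤ) : ℚ) := by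
      push_cast
      rw [hN'', hA']
      ring
    refine IsIntegral.of_pow (n := 2) (by norm_num) ?_
    rw [h4]
    exact isIntegral_algebraMap (R := ℤ) (A := ℚ)
  obtain ⟨C, hC⟩ := IsIntegrallyClosed.isIntegral_iff.mp h3
  have hC' : (C : ℚ) = q * (2 * b) := hC
  have h5 : C ^ 2 = q * (4 * N - A ^ 2) := by
    have : ((C ^ 2 : ℤ) : ℚ) = ((q * (4 * N - A ^ 2) : ℤ) : ℚ) := by
      push_cast
      rw [hC', hN'', hA']
      ring
    exact_mod_cast this
  have h6 : (q : ℤ) ∣ C := by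
    have h7 : Squarefree (q : ℤ) := Int.squarefree_natCast.2 hsq
    rw [← h7.dvd_pow_iff_dvd two_ne_zero]
    exact ⟨_, h5⟩
  obtain ⟨B, rfl⟩ := h6
  have h7 : (B : ℚ) = 2 * b := by
    have hq' : (q : ℚ) ≠ 0 := by exact_mod_cast hq0.ne'
    apply mul_left_cancel₀ hq'
    rw [← hC']
    push_cast
    rfl
  refine ⟨A, B, ?_⟩
  have h8 : ((A : ℚ) : F) = ((2 * a : ℚ) : F) := by rw [hA']
  have h9 : ((B : ℚ) : F) = ((2 * b : ℚ) : F) := by rw [h7]
  push_cast at h8 h9
  rw [h8, h9]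
  ring

/-- A prime above `2` which contains `(1 + s) / 2`. -/
lemma exists_prime (hq0 : 0 < q) (hsq : Squarefree q) (h8 : q % 8 = 7) (hF : finrank ℚ F = 2) {s : F}
    (hs : s ^ 2 = -(q : F)) (w : 𝓞 K) (hw : algebraMap (𝓞 K) K w = algebraMap F K ((1 + s) / 2)) :
    ∃ P : HeightOneSpectrum (𝓞 K), (2 : 𝓞 K) ∈ P.asIdeal ∧ w ∈ P.asIdeal := by
  obtain ⟨c, hc⟩ := exists_c h8
  have hne : Ideal.span {(2 : 𝓞 K), w} ≠ ⊤ := by
    intro htop
    have h1 : (1 : 𝓞 K) ∈ Ideal.span {(2 : 𝓞 K), w} := by rw [htop]; trivial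
    rw [Ideal.mem_span_pair] at h1
    obtain ⟨a, b, hab⟩ := h1
    -- `(1 - s) / 4` is integral
    have hcF : (q : F) + 1 = 8 * c := by exact_mod_cast hc
    have hcK : algebraMap F K (q : F) + 1 = 8 * c := by
      have := congrArg (algebraMap F K) hcF
      rw [map_add, map_mul, map_one, map_ofNat, map_natCast (algebraMap F K) c] at this
      exact this
    have hsK : algebraMap F K s ^ 2 = -algebraMap F K (q : F) := by
      rw [← map_pow, hs, map_neg]
    have hw' : algebraMap (𝓞 K) K w = (1 + algebraMap F K s) / 2 := by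
      rw [hw, map_div₀, map_add, map_one, map_ofNat]
    have habK : algebraMap (𝓞 K) K a * 2 + algebraMap (𝓞 K) K b * ((1 + algebraMap F K s) / 2) =
        1 := by
      have := congrArg (algebraMap (𝓞 K) K) hab
      rw [map_add, map_mul, map_mul, map_one, map_ofNat, hw'] at this
      exact this
    have h2 : algebraMap F K ((1 - s) / 4) =
        algebraMap (𝓞 K) K (a * (1 - w) + c * b) := by
      rw [map_add, map_mul, map_mul, map_sub, map_one, map_natCast, hw']
      have e : algebraMap F K ((1 - s) / 4) = (1 - algebraMap F K s) / 4 := by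
        rw [map_div₀, map_sub, map_one, map_ofNat]
      rw [e]
      linear_combination (-(1 - algebraMap F K s) / 4) * habK +
        (-(algebraMap (𝓞 K) K b) / 8) * hsK + (algebraMap (𝓞 K) K b) / 8 * hcK
    have h3 : IsIntegral ℤ (algebraMap F K ((1 - s) / 4)) := by
      rw [h2]
      exact RingOfIntegers.isIntegral_coe _
    have h4 : IsIntegral ℤ ((1 - s) / 4 : F) := by
      have := (isIntegral_algHom_iff ((algebraMap F K).toIntAlgHom)
        (algebraMap F K).injective (x := (1 - s) / 4)).1 h3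
      exact this
    obtain ⟨A, B, hAB⟩ := exists_int_coords' hq0 hF hs hsq h4
    have h5 : (((1 / 2 : ℚ)) : F) + ((-(1 / 2) : ℚ) : F) * s = ((A : ℚ) : F) + ((B : ℚ) : F) * s := by
      push_cast
      linear_combination hAB
    have h6 := (coords_inj hq0 hs h5).1
    have h7 : (2 * A : ℤ) = 1 := by
      have : (2 * A : ℚ) = 1 := by rw [← h6]; norm_num
      exact_mod_cast this
    omega
  obtain ⟨P, hP, hle⟩ := Ideal.exists_le_maximal _ hne
  have h2 : (2 : 𝓞 K) ∈ P := hle (Ideal.subset_span (by simp))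
  refine ⟨⟨P, hP.isPrime, ?_⟩, h2, hle (Ideal.subset_span (by simp))⟩
  rintro rfl
  rw [Ideal.mem_bot] at h2
  exact two_ne_zero h2

/-- Two primes above `2`. -/
lemma exists_two_primes (hq0 : 0 < q) (hsq : Squarefree q) (h8 : q % 8 = 7) (hF : finrank ℚ F = 2) {s : F}
    (hs : s ^ 2 = -(q : F)) : ∃ P₁ P₂ : HeightOneSpectrum (𝓞 K), P₁ ≠ P₂ ∧
      (2 : 𝓞 K) ∈ P₁.asIdeal ∧ (2 : 𝓞 K) ∈ P₂.asIdeal := by
  have hs' : (-s) ^ 2 = -(q : F) := by rw [neg_sq]; exact hs
  have hi : ∀ t : F, t ^ 2 = -(q : F) →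
      ∃ w : 𝓞 K, algebraMap (𝓞 K) K w = algebraMap F K ((1 + t) / 2) := fun t ht =>
    ⟨⟨_, (isIntegral_w h8 ht).map ((algebraMap F K).toIntAlgHom)⟩, rfl⟩
  obtain ⟨w₁, hw₁⟩ := hi s hs
  obtain ⟨w₂, hw₂⟩ := hi (-s) hs'
  obtain ⟨P₁, h1, h1'⟩ := exists_prime (K := K) hq0 hsq h8 hF hs w₁ hw₁
  obtain ⟨P₂, h2, h2'⟩ := exists_prime (K := K) hq0 hsq h8 hF hs' w₂ hw₂
  refine ⟨P₁, P₂, ?_, h1, h2⟩
  rintro rfl
  have h3 := P₁.asIdeal.add_mem h1' h2'
  apply P₁.isPrime.ne_top
  rw [Ideal.eq_top_iff_one]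
  convert h3 using 1
  apply FaithfulSMul.algebraMap_injective (𝓞 K) K
  rw [map_one, map_add, hw₁, hw₂, ← map_add, show (1 + s) / 2 + (1 + -s) / 2 = (1 : F) by ring,
    map_one]

end Primes

end UnitsA

open UnitsA in
/-- Module UNITS. -/
theorem stUnits : StUnits := by
  intro q F _ _ s hFH U hU
  classical
  have hgal : IsGalois F (AlgebraicClosure F) := inferInstance
  have hfix : (IntermediateField.fixedField U).fixingSubgroup = U :=
    InfiniteGalois.fixingSubgroup_fixedField (k := F) (K := AlgebraicClosure F)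
      ⟨U, Subgroup.isClosed_of_isOpen U hU⟩
  obtain ⟨K, hKdef⟩ : ∃ K : IntermediateField F (AlgebraicClosure F),
    K = IntermediateField.fixedField U := ⟨_, rfl⟩
  rw [← hKdef] at hfix
  have hmem : ∀ x : AlgebraicClosure F, x ∈ K ↔ ∀ u ∈ U, u x = x := by
    intro x
    rw [hKdef, IntermediateField.mem_fixedField_iff]
  have hind : finrank F K = U.index := by
    rw [IntermediateField.finrank_eq_fixingSubgroup_index, hfix]
  have hUfin : Finite (AbsGal F ⧸ U) := Subgroup.quotient_finite_of_isOpen U hU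
  have hUi : U.index ≠ 0 := Subgroup.index_ne_zero_of_finite
  have hfd : FiniteDimensional F K := FiniteDimensional.of_finrank_pos (by omega)
  have hfdQ : FiniteDimensional ℚ K := FiniteDimensional.trans ℚ F K
  have hNF : NumberField K := ⟨⟩
  have hfr : finrank ℚ K = 2 * U.index := by
    rw [← Module.finrank_mul_finrank ℚ F K, hFH.hF, hind]
  have hsK : (algebraMap F K s) ^ 2 = ((-(q : ℚ) : ℚ) : K) := by
    rw [← map_pow, hFH.hs, map_neg, map_natCast (algebraMap F K) q, Rat.cast_neg,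
      Rat.cast_natCast]
  have hq0 : (0 : ℚ) < q := by exact_mod_cast hFH.hq0
  have hKe : IsEmpty (K →+* ℝ) := SUnits.isEmpty_real_of_sq K (neg_lt_zero.2 hq0) hsK
  obtain ⟨P₁, P₂, h12, h1, h2⟩ := exists_two_primes (K := K) hFH.hq0 hFH.sqf hFH.h8 hFH.hF hFH.hs
  obtain ⟨T, hTc, hT, hTi⟩ := classes hKe h12 h1 h2
  have hy : ∀ x : K, ∃ y : AlgebraicClosure F, y ^ 2 = (x : AlgebraicClosure F) := fun x =>
    IsAlgClosed.exists_pow_nat_eq _ (by norm_num)
  choose y hy using hy
  let f : K → (U → ZMod 2) := fun x u => if (u : AbsGal F) (y x) = y x then 0 else 1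
  have hf0 : ∀ (x : K) (u : U), f x u = 0 ↔ (u : AbsGal F) (y x) = y x := by
    intro x u
    simp only [f]
    split_ifs with h
    · simp [h]
    · simp [h]
  have hpm : ∀ (x : K) (u : U), (u : AbsGal F) (y x) = y x ∨ (u : AbsGal F) (y x) = -(y x) := by
    intro x u
    rw [← sq_eq_sq_iff_eq_or_eq_neg, ← map_pow, hy]
    exact (hmem _).1 x.2 u u.2
  have hinj : Set.InjOn f (T : Set K) := by
    intro x hx x' hx' h
    apply hTi x hx x' hx'
    have hz : y x * y x' ∈ K := by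
      rw [hmem]
      intro u hu
      rw [map_mul]
      by_cases h3 : u (y x) = y x
      · have h4 := (hf0 x ⟨u, hu⟩).2 h3
        rw [h] at h4
        rw [h3, (hf0 x' ⟨u, hu⟩).1 h4]
      · have h4 : ¬ u (y x') = y x' := by
          intro h5
          apply h3
          have h6 := (hf0 x' ⟨u, hu⟩).2 h5
          rw [← h] at h6
          exact (hf0 x ⟨u, hu⟩).1 h6
        have h5 := (hpm x ⟨u, hu⟩).resolve_left h3
        have h6 := (hpm x' ⟨u, hu⟩).resolve_left h4
        simp only at h5 h6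
        rw [h5, h6, neg_mul_neg]
    refine ⟨⟨_, hz⟩, ?_⟩
    apply Subtype.ext
    show (x : AlgebraicClosure F) * (x' : AlgebraicClosure F) = y x * y x' * (y x * y x')
    rw [← hy, ← hy]
    ring
  have e2 : ((2 : K) : AlgebraicClosure F) = 2 := rfl
  have i2 : IsIntegral ℤ (2 : AlgebraicClosure F) := by
    have := isIntegral_algebraMap (R := ℤ) (A := AlgebraicClosure F) (x := 2)
    rwa [map_ofNat] at this
  refine ⟨T.image f, ?_, ?_⟩
  · rw [Finset.card_image_of_injOn hinj, hTc, hfr, Nat.mul_div_cancel_left _ (by norm_num)]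
  · intro g hg
    obtain ⟨x, hx, rfl⟩ := Finset.mem_image.1 hg
    obtain ⟨hx0, k, hk, hk'⟩ := hT x hx
    refine ⟨y x, ⟨?_, k, ?_, ?_⟩, ?_, hf0 x⟩
    · intro h
      have := hy x
      rw [h, zero_pow two_ne_zero] at this
      exact hx0 (Subtype.ext this.symm)
    · refine IsIntegral.of_pow (n := 2) (by norm_num) ?_
      have h3 : (2 ^ k * y x) ^ 2 = 2 ^ k * ((2 ^ k * x : K) : AlgebraicClosure F) := by
        push_cast
        rw [← hy x, e2]
        ring
      rw [h3]
      refine IsIntegral.mul (IsIntegral.pow ?_ k) (hk.map (K.val.toRingHom.toIntAlgHom))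
      exact i2
    · refine IsIntegral.of_pow (n := 2) (by norm_num) ?_
      have h3 : (2 ^ k * (y x)⁻¹) ^ 2 = 2 ^ k * ((2 ^ k * x⁻¹ : K) : AlgebraicClosure F) := by
        push_cast
        rw [← hy x, e2]
        ring
      rw [h3]
      refine IsIntegral.mul (IsIntegral.pow ?_ k) (hk'.map (K.val.toRingHom.toIntAlgHom))
      exact i2
    · intro u hu
      rw [hy]
      exact (hmem _).1 x.2 u hu

end BKPar
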