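import Mathlib
import Pool.Agent.Lib.MP_7c08ba_nt.Par.Stmts

set_option autoImplicit false
set_option linter.unusedSectionVars false

/-!
Descent of cochains to a quotient group.
-/

noncomputable section

namespace BKPar

open Pool.Agent.Lib.MP_7c08ba_nt NumberField

universe u

section Desc

variable {Γ : Type u} [Group Γ] [TopologicalSpace Γ] [IsTopologicalGroup Γ] {R : Subgroup Γ}
  [R.Normal]

/-- quotients of nonarchimedean groups are nonarchimedean -/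
theorem nonarch_quot (h : ∀ U ∈ nhds (1 : Γ), ∃ V : OpenSubgroup Γ, (V : Set Γ) ⊆ U) :
    NonarchimedeanGroup (Γ ⧸ R) where
  is_nonarchimedean := by
    intro U hU
    have h1 : (QuotientGroup.mk : Γ → Γ ⧸ R) ⁻¹' U ∈ nhds (1 : Γ) :=
      (QuotientGroup.continuous_mk (N := R)).continuousAt.preimage_mem_nhds (by simpa using hU)
    obtain ⟨V, hV⟩ := h _ h1
    refine ⟨⟨Subgroup.map (QuotientGroup.mk' R) (V : Subgroup Γ), ?_⟩, ?_⟩
    · exact QuotientGroup.isOpenMap_coe _ V.isOpen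
    · rintro _ ⟨v, hv, rfl⟩
      exact hV hv

theorem mk_eq_iff {g h : Γ} : (g : Γ ⧸ R) = h ↔ ∃ r ∈ R, h = g * r := by
  rw [QuotientGroup.eq]
  constructor
  · intro h1
    exact ⟨g⁻¹ * h, h1, by group⟩
  · rintro ⟨r, hr, rfl⟩
    simpa using hr

/-- descent of a function of one variable -/
def d1 {X : Type*} (f : Γ → X) : Γ ⧸ R → X := fun a => f a.out

/-- descent of a function of two variables -/
def d2 {X : Type*} (f : Γ → Γ → X) : Γ ⧸ R → Γ ⧸ R → X := fun a b => f a.out b.out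

theorem d1_mk {X : Type*} {f : Γ → X} (hf : ∀ g, ∀ r ∈ R, f (g * r) = f g) (g : Γ) :
    d1 f (g : Γ ⧸ R) = f g := by
  have h1 : (g : Γ ⧸ R) = ((g : Γ ⧸ R).out : Γ) := (QuotientGroup.out_eq' _).symm
  obtain ⟨r, hr, h2⟩ := mk_eq_iff.1 h1
  change f ((g : Γ ⧸ R).out) = f g
  rw [h2, hf g r hr]

theorem d2_mk {X : Type*} {f : Γ → Γ → X}
    (hf : ∀ g h, ∀ r ∈ R, ∀ r' ∈ R, f (g * r) (h * r') = f g h) (g h : Γ) :
    d2 f (g : Γ ⧸ R) (h : Γ ⧸ R) = f g h := by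
  obtain ⟨r, hr, h2⟩ := mk_eq_iff.1 (QuotientGroup.out_eq' (g : Γ ⧸ R)).symm
  obtain ⟨r', hr', h3⟩ := mk_eq_iff.1 (QuotientGroup.out_eq' (h : Γ ⧸ R)).symm
  change f ((g : Γ ⧸ R).out) ((h : Γ ⧸ R).out) = f g h
  rw [h2, h3, hf g h r hr r' hr']

theorem loc1_d1 {X : Type*} {f : Γ → X} (hf : ∀ g, ∀ r ∈ R, f (g * r) = f g) (h : Loc1 f) :
    Loc1 (d1 f : Γ ⧸ R → X) := by
  obtain ⟨W, hW, h1⟩ := h
  refine ⟨Subgroup.map (QuotientGroup.mk' R) W, QuotientGroup.isOpenMap_coe _ hW, ?_⟩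
  rintro a _ ⟨w, hw, rfl⟩
  obtain ⟨g, rfl⟩ := QuotientGroup.mk_surjective a
  have e : ((g : Γ ⧸ R) * QuotientGroup.mk' R w) = ((g * w : Γ) : Γ ⧸ R) := rfl
  rw [e, d1_mk hf, d1_mk hf, h1 g w hw]

theorem loc2_d2 {X : Type*} {f : Γ → Γ → X}
    (hf : ∀ g h, ∀ r ∈ R, ∀ r' ∈ R, f (g * r) (h * r') = f g h) (h : Loc2 f) :
    Loc2 (d2 f : Γ ⧸ R → Γ ⧸ R → X) := by
  obtain ⟨W, hW, h1⟩ := h
  refine ⟨Subgroup.map (QuotientGroup.mk' R) W, QuotientGroup.isOpenMap_coe _ hW, ?_⟩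
  rintro a b _ ⟨w, hw, rfl⟩ _ ⟨w', hw', rfl⟩
  obtain ⟨g, rfl⟩ := QuotientGroup.mk_surjective a
  obtain ⟨k, rfl⟩ := QuotientGroup.mk_surjective b
  have e : ((g : Γ ⧸ R) * QuotientGroup.mk' R w) = ((g * w : Γ) : Γ ⧸ R) := rfl
  have e' : ((k : Γ ⧸ R) * QuotientGroup.mk' R w') = ((k * w' : Γ) : Γ ⧸ R) := rfl
  rw [e, e', d2_mk hf, d2_mk hf, h1 g k w hw w' hw']

theorem loc1_pull {X : Type*} {f : Γ ⧸ R → X} (h : Loc1 f) : Loc1 (fun g : Γ => f g) := by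
  obtain ⟨W, hW, h1⟩ := h
  refine ⟨Subgroup.comap (QuotientGroup.mk' R) W, ?_, fun g w hw => h1 g w hw⟩
  exact (QuotientGroup.continuous_mk (N := R)).isOpen_preimage _ hW

theorem hom2_pull {f : Γ ⧸ R → ZMod 2} (h : f ∈ Hom2 (Γ ⧸ R)) :
    (fun g : Γ => f g) ∈ Hom2 Γ ∧ ∀ r ∈ R, f (r : Γ) = 0 := by
  refine ⟨⟨loc1_pull h.1, fun x y => h.2 x y⟩, fun r hr => ?_⟩
  have h1 : ((r : Γ) : Γ ⧸ R) = 1 := (QuotientGroup.eq_one_iff r).2 hr
  have h2 := h.2 1 1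
  rw [mul_one] at h2
  rw [h1]
  exact left_eq_add.1 h2

theorem continuous_d1 {X : Type*} [TopologicalSpace X] {f : Γ → X}
    (hf : ∀ g, ∀ r ∈ R, f (g * r) = f g) (h : Continuous f) : Continuous (d1 f : Γ ⧸ R → X) := by
  rw [(QuotientGroup.isOpenQuotientMap_mk (N := R)).isQuotientMap.continuous_iff]
  refine h.congr fun g => ?_
  exact (d1_mk hf g).symm

theorem continuous_d2 {X : Type*} [TopologicalSpace X] {f : Γ → Γ → X}
    (hf : ∀ g h, ∀ r ∈ R, ∀ r' ∈ R, f (g * r) (h * r') = f g h)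
    (h : Continuous (Function.uncurry f)) :
    Continuous (Function.uncurry (d2 f : Γ ⧸ R → Γ ⧸ R → X)) := by
  have h1 : IsOpenQuotientMap (Prod.map (QuotientGroup.mk : Γ → Γ ⧸ R)
      (QuotientGroup.mk : Γ → Γ ⧸ R)) :=
    (QuotientGroup.isOpenQuotientMap_mk).prodMap QuotientGroup.isOpenQuotientMap_mk
  rw [h1.isQuotientMap.continuous_iff]
  refine h.congr fun g => ?_
  exact (d2_mk hf g.1 g.2).symm

end Desc

end BKPar
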