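import Pool.Agent.Lib.MP_7c08ba_nt.Par.Stmts
import Pool.Agent.Lib.MP_7c08ba_nt.Gen.Main

set_option autoImplicit false

/-!
Module EXT: extension of cocycles from a decomposition group to the whole group.
-/

noncomputable section

open Matrix Polynomial
open scoped Pointwise

namespace BKPar

universe u

section Ext

variable {Γ : Type u} [Group Γ] [TopologicalSpace Γ] [IsTopologicalGroup Γ] [CompactSpace Γ]

/-- the product of a closed subgroup of finite index in `D` with `R` is open -/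
theorem Ext.isOpen_prod (R D : Subgroup Γ) (hRn : R.Normal) (hR : IsClosed (R : Set Γ))
    (hD : IsClosed (D : Set Γ)) (hDR : ∀ g : Γ, ∃ d ∈ D, ∃ r ∈ R, g = d * r)
    (U₀ : Subgroup D) (hU₀ : IsOpen (U₀ : Set D)) :
    IsOpen ((U₀.map D.subtype ⊔ R : Subgroup Γ) : Set Γ) := by
  have hcD : CompactSpace D := isCompact_iff_compactSpace.mp hD.isCompact
  have hfin : Finite (D ⧸ U₀) := U₀.quotient_finite_of_isOpen hU₀
  set U : Subgroup Γ := U₀.map D.subtype ⊔ R with hU
  have hset : (U : Set Γ) = (U₀.map D.subtype : Set Γ) * (R : Set Γ) := by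
    rw [hU, ← Subgroup.mul_normal]
  have hclosed : IsClosed (U : Set Γ) := by
    rw [hset]
    refine IsClosed.mul_left_of_isCompact hR ?_
    have h1 : IsClosed (U₀ : Set D) := U₀.isClosed_of_isOpen hU₀
    have h2 : IsCompact (U₀ : Set D) := h1.isCompact
    exact h2.image continuous_subtype_val
  have hfi : U.FiniteIndex := by
    have hsurj : Function.Surjective (fun q : D ⧸ U₀ => Quotient.lift
        (fun d : D => (QuotientGroup.mk (d : Γ) : Γ ⧸ U)) (by
          intro a b hab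
          have h1 : a⁻¹ * b ∈ U₀ := QuotientGroup.leftRel_apply.mp hab
          refine QuotientGroup.eq.mpr ?_
          refine Subgroup.mem_sup_left ⟨a⁻¹ * b, h1, ?_⟩
          simp) q) := by
      intro q
      induction q using QuotientGroup.induction_on with
      | H g =>
        obtain ⟨d, hd, r, hr, rfl⟩ := hDR g
        refine ⟨QuotientGroup.mk (⟨d, hd⟩ : D), ?_⟩
        change (QuotientGroup.mk d : Γ ⧸ U) = QuotientGroup.mk (d * r)
        refine QuotientGroup.eq.mpr ?_
        rw [inv_mul_cancel_left]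
        exact Subgroup.mem_sup_right hr
    have : Finite (Γ ⧸ U) := Finite.of_surjective _ hsurj
    exact Subgroup.finiteIndex_of_finite_quotient
  exact Subgroup.isOpen_of_isClosed_of_finiteIndex U hclosed

end Ext

theorem stExt : StExt.{u} := by
  intro Γ _ _ _ _ _ R D hRn hR hD hDR hkill L _ _ h2 n ρ hρ hres hρR y hy
  have hcD : CompactSpace D := isCompact_iff_compactSpace.mp hD.isCompact
  obtain ⟨hyc, hyco⟩ := hy
  let φ : D →* Matrix (Fin n) (Fin n) L := (Units.coeHom _).comp (ρ.comp D.subtype)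
  have hφ : Continuous φ := Units.continuous_val.comp (hρ.comp continuous_subtype_val)
  have hcoc : BKGen.IsCocycle φ y := fun g h => hyco g h
  -- the extension
  let M := BKGen.extRep φ y hcoc
  have hM : Continuous M := by
    change Continuous fun σ => Matrix.fromBlocks (φ σ) (Matrix.of fun i _ => y σ i) 0 1
    refine Continuous.matrix_fromBlocks hφ ?_ continuous_const continuous_const
    exact continuous_matrix fun i _ => (continuous_apply i).comp hyc
  have hMu : ∀ σ i, ‖((M σ).charpoly - (X - 1) ^ Fintype.card (Fin n ⊕ Unit)).coeff i‖ < 1 :=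
    fun σ i => BKGen.extRep_charpoly φ y hcoc σ (hres σ) i
  -- the cocycle vanishes on `D ∩ R`
  have hzero : ∀ x : D, (x : Γ) ∈ R → y x = 0 := by
    intro x₀ hx₀
    by_contra hne
    obtain ⟨i₀, hi₀⟩ := Function.ne_iff.mp hne
    rw [Pi.zero_apply] at hi₀
    have hpos : 0 < ‖y x₀ i₀‖ := norm_pos_iff.mpr hi₀
    obtain ⟨r, hr, hrlt⟩ : ∃ r : ℝ, 0 < r ∧ r < ‖y x₀ i₀‖ := ⟨‖y x₀ i₀‖ / 2, by positivity, by linarith⟩
    set N := BKGen.near M r hr with hN
    have hNn : N.Normal := BKGen.near_normal M r hr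
    have hNo : IsOpen (N : Set D) := BKGen.near_isOpen M hM r hr
    have hx₀N : x₀ ∉ N := by
      intro h
      have h1 : BKGen.Bd M (M x₀ - 1) r := h
      have h3 := h1 1 1 (Sum.inl i₀) (Sum.inr ())
      rw [map_one, Matrix.mul_one, Matrix.one_mul] at h3
      have h4 : (M x₀ - 1) (Sum.inl i₀) (Sum.inr ()) = y x₀ i₀ := by
        change y x₀ i₀ - (1 : Matrix (Fin n ⊕ Unit) (Fin n ⊕ Unit) L) (Sum.inl i₀) (Sum.inr ()) = _
        rw [Matrix.one_apply_ne (by simp), sub_zero]
      rw [h4] at h3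
      linarith
    have hfin : Finite (D ⧸ N) := N.quotient_finite_of_isOpen hNo
    obtain ⟨C, hC1, hC⟩ := BKGen.exists_entry_bound M hM
    have hC0 : (0 : ℝ) ≤ C := zero_le_one.trans hC1
    have hBd1 : BKGen.Bd M 1 (C * 1 * C) := BKGen.bd_of_entries M hC0 hC 1 zero_le_one (by
      intro i j
      by_cases h : i = j
      · subst h; simp
      · rw [Matrix.one_apply_ne h]; simp)
    have : Fact (Nat.Prime 2) := ⟨Nat.prime_two⟩
    have hpg : IsPGroup 2 (D ⧸ N) := by
      rw [isPGroup_iff_pow_pow_eq_one]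
      intro x
      obtain ⟨σ, rfl⟩ := QuotientGroup.mk'_surjective N x
      obtain ⟨k, hk⟩ := BKGen.Bd.pow_sub_one Nat.prime_two (by exact_mod_cast h2) hBd1
        (by positivity) σ (hMu σ) hr
      refine ⟨k, ?_⟩
      rw [← map_pow]
      refine (QuotientGroup.eq_one_iff _).mpr ?_
      change BKGen.Bd M (M (σ ^ 2 ^ k) - 1) r
      rw [map_pow]
      exact hk
    -- the image of `D ∩ R`
    let K : Subgroup D := R.comap D.subtype
    let Kb : Subgroup (D ⧸ N) := K.map (QuotientGroup.mk' N)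
    have hKb : IsPGroup 2 Kb := hpg.to_subgroup Kb
    have hx₀K : x₀ ∈ K := hx₀
    have hbot : (⊥ : Subgroup Kb) ≠ ⊤ := by
      intro h
      have h1 : (⟨QuotientGroup.mk' N x₀, ⟨x₀, hx₀K, rfl⟩⟩ : Kb) ∈ (⊥ : Subgroup Kb) := by
        rw [h]; trivial
      rw [Subgroup.mem_bot] at h1
      have h3 : QuotientGroup.mk' N x₀ = 1 := congrArg Subtype.val h1
      exact hx₀N ((QuotientGroup.eq_one_iff x₀).mp h3)
    obtain ⟨S, -, hSi, -⟩ := BKGen.exists_normal_index hKb ⊥ hbot
    -- the open subgroup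
    let U₀ : Subgroup D := Kb.comap (QuotientGroup.mk' N)
    have hNU₀ : N ≤ U₀ := by
      intro d hd
      change QuotientGroup.mk' N d ∈ Kb
      have : QuotientGroup.mk' N d = 1 := (QuotientGroup.eq_one_iff d).mpr hd
      rw [this]
      exact Kb.one_mem
    have hU₀o : IsOpen (U₀ : Set D) := Subgroup.isOpen_mono hNU₀ hNo
    set U : Subgroup Γ := U₀.map D.subtype ⊔ R with hU
    have hUo : IsOpen (U : Set Γ) := Ext.isOpen_prod R D hRn hR hD hDR U₀ hU₀o
    have hRU : R ≤ U := le_sup_right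
    have hDU : ∀ (d : D), (d : Γ) ∈ U → d ∈ U₀ := by
      intro d hd
      have h1 : (d : Γ) ∈ ((U₀.map D.subtype ⊔ R : Subgroup Γ) : Set Γ) := hd
      rw [Subgroup.mul_normal] at h1
      obtain ⟨a, ⟨a', ha', rfl⟩, r', hr', hmul⟩ := h1
      have h3 : a'⁻¹ * d ∈ K := by
        change ((a'⁻¹ * d : D) : Γ) ∈ R
        have h4 : ((a'⁻¹ * d : D) : Γ) = r' := by
          have h5 : (a' : Γ) * r' = d := hmul
          rw [Subgroup.coe_mul, Subgroup.coe_inv, ← h5, inv_mul_cancel_left]
        rw [h4]; exact hr'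
      have h4 : d = a' * (a'⁻¹ * d) := by group
      rw [h4]
      refine U₀.mul_mem ha' ?_
      exact ⟨_, h3, rfl⟩
    -- the homomorphism
    let ψ : ↥(D ⊓ U) →* Kb :=
      { toFun := fun x => ⟨QuotientGroup.mk' N ⟨x.1, x.2.1⟩, hDU ⟨x.1, x.2.1⟩ x.2.2⟩
        map_one' := Subtype.ext (map_one (QuotientGroup.mk' N))
        map_mul' := fun a b => Subtype.ext
          (map_mul (QuotientGroup.mk' N) ⟨a.1, a.2.1⟩ ⟨b.1, b.2.1⟩) }
    classical
    let f : ↥(D ⊓ U) → ZMod 2 := fun x => if ψ x ∈ S then 0 else 1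
    have hf : f ∈ Hom2 ↥(D ⊓ U) := by
      refine ⟨⟨ψ.ker, ?_, ?_⟩, ?_⟩
      · have h1 : (ψ.ker : Set ↥(D ⊓ U)) =
            (fun x : ↥(D ⊓ U) => (⟨x.1, x.2.1⟩ : D)) ⁻¹' (N : Set D) := by
          ext x
          simp only [SetLike.mem_coe, MonoidHom.mem_ker, Set.mem_preimage]
          constructor
          · intro h
            exact (QuotientGroup.eq_one_iff _).mp (congrArg Subtype.val h)
          · intro h
            exact Subtype.ext ((QuotientGroup.eq_one_iff _).mpr h)
        rw [h1]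
        exact hNo.preimage (Continuous.subtype_mk continuous_subtype_val _)
      · intro g w hw
        have hw' : ψ w = 1 := hw
        change (if ψ (g * w) ∈ S then (0 : ZMod 2) else 1) = if ψ g ∈ S then 0 else 1
        rw [map_mul, hw', mul_one]
      · intro a b
        change (if ψ (a * b) ∈ S then (0 : ZMod 2) else 1) =
          (if ψ a ∈ S then 0 else 1) + (if ψ b ∈ S then 0 else 1)
        rw [map_mul]
        have h1 := Subgroup.mul_mem_iff_of_index_two hSi (a := ψ a) (b := ψ b)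
        by_cases ha : ψ a ∈ S
        · by_cases hb : ψ b ∈ S
          · simp [h1, ha, hb]
          · simp [h1, ha, hb]
        · by_cases hb : ψ b ∈ S
          · simp [h1, ha, hb]
          · rw [if_pos (h1.mpr (by simp [ha, hb])), if_neg ha, if_neg hb]
            rfl
    -- an element of `S`'s complement
    have hStop : S ≠ ⊤ := by
      intro h
      rw [h, Subgroup.index_top] at hSi
      omega
    obtain ⟨s, hs⟩ : ∃ s, s ∉ S := by
      by_contra hcon
      push Not at hcon
      exact hStop ((Subgroup.eq_top_iff' S).mpr hcon)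
    obtain ⟨q, k, hk, rfl⟩ := s
    have hkU : (k : Γ) ∈ U := hRU hk
    have h1 := hkill U hUo hRU f hf (k : Γ) ⟨k.2, hkU⟩ hk
    have h3 : f ⟨(k : Γ), ⟨k.2, hkU⟩⟩ = 1 := if_neg hs
    rw [h3] at h1
    exact one_ne_zero h1
  -- the extension
  choose d hd r hr hdr using hDR
  let x : Γ → Fin n → L := fun g => y ⟨d g, hd g⟩
  have hx : ∀ (a : D) (b : Γ), b ∈ R → x (a * b) = y a := by
    intro a b hb
    have h1 : (a : Γ) * b = d (a * b) * r (a * b) := hdr _
    have h3 : ((a⁻¹ * ⟨d (a * b), hd _⟩ : D) : Γ) ∈ R := by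
      have h4 : ((a⁻¹ * ⟨d (a * b), hd _⟩ : D) : Γ) = b * (r (a * b))⁻¹ := by
        rw [Subgroup.coe_mul, Subgroup.coe_inv]
        change (a : Γ)⁻¹ * d (a * b) = _
        rw [eq_mul_inv_iff_mul_eq, mul_assoc, ← h1, inv_mul_cancel_left]
      rw [h4]
      exact R.mul_mem hb (R.inv_mem (hr _))
    have h4 := hzero _ h3
    have h5 := hyco a (a⁻¹ * ⟨d (a * b), hd _⟩)
    rw [mul_inv_cancel_left, h4, Matrix.mulVec_zero, add_zero] at h5
    exact h5
  have hyone : y 1 = 0 := hzero 1 R.one_mem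
  refine ⟨x, ⟨?_, ?_⟩, ?_, ?_⟩
  · rw [continuous_iff_isClosed]
    intro Z hZ
    have h1 : x ⁻¹' Z = ((Subtype.val : D → Γ) '' (y ⁻¹' Z)) * (R : Set Γ) := by
      ext g
      constructor
      · intro hg
        exact ⟨d g, ⟨⟨d g, hd g⟩, hg, rfl⟩, r g, hr g, (hdr g).symm⟩
      · rintro ⟨_, ⟨a, ha, rfl⟩, b, hb, rfl⟩
        change x ((a : Γ) * b) ∈ Z
        rw [hx a b hb]
        exact ha
    rw [h1]
    refine IsClosed.mul_left_of_isCompact hR ?_
    exact ((hZ.preimage hyc).isCompact).image continuous_subtype_val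
  · intro g h
    obtain ⟨a, b, hb, rfl⟩ : ∃ a : D, ∃ b ∈ R, g = a * b := ⟨⟨d g, hd g⟩, r g, hr g, hdr g⟩
    obtain ⟨a', b', hb', rfl⟩ : ∃ a : D, ∃ b ∈ R, h = a * b := ⟨⟨d h, hd h⟩, r h, hr h, hdr h⟩
    have h1 : (a : Γ) * b * (a' * b') = ((a * a' : D) : Γ) * ((a' : Γ)⁻¹ * b * a' * b') := by
      rw [Subgroup.coe_mul]; group
    have h3 : (a' : Γ)⁻¹ * b * a' * b' ∈ R := by
      refine R.mul_mem ?_ hb'
      have := hRn.conj_mem b hb (a' : Γ)⁻¹
      rwa [inv_inv] at this
    rw [h1, hx _ _ h3, hx a b hb, hx a' b' hb', hyco a a']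
    congr 1
    rw [map_mul, hρR b hb, mul_one]
    rfl
  · intro b hb
    have h1 := hx 1 b hb
    rw [Subgroup.coe_one, one_mul, hyone] at h1
    exact h1
  · intro a
    have h1 := hx a 1 R.one_mem
    rwa [mul_one] at h1

end BKPar
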