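import Mathlib
import Pool.Agent.Lib.MP_7c08ba_nt.Par.Stmts
import Pool.Agent.Lib.MP_7c08ba_nt.Par.Desc
import Pool.Agent.Lib.MP_7c08ba_nt.Quad

set_option autoImplicit false
set_option linter.unusedSectionVars false

/-!
Assembly of the parity theorem.
-/

noncomputable section

namespace BKPar

open Pool.Agent.Lib.MP_7c08ba_nt NumberField

section Basics

variable (F : Type) [Field F]

instance nonarch_absGal : NonarchimedeanGroup (AbsGal F) where
  is_nonarchimedean := by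
    intro U hU
    rw [krullTopology_mem_nhds_one_iff] at hU
    obtain ⟨E, hE, hEU⟩ := hU
    exact ⟨⟨E.fixingSubgroup, E.fixingSubgroup_isOpen⟩, hEU⟩

theorem isClosed_D (ι : AlgebraicClosure F →+* PadicAlgCl 2) :
    IsClosed (D F ι : Set (AbsGal F)) := by
  have h1 : (D F ι : Set (AbsGal F)) =
      ⋂ x : AlgebraicClosure F, {g : AbsGal F | ‖ι (g x)‖ = ‖ι x‖} := by
    ext g
    simp only [Set.mem_iInter, Set.mem_ofPred_eq]
    rfl
  rw [h1]
  refine isClosed_iInter fun x => ?_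
  rw [← isOpen_compl_iff]
  have hW : IsOpen (MulAction.stabilizer (AbsGal F) x : Set (AbsGal F)) :=
    stabilizer_isOpen_of_isIntegral x
  rw [isOpen_iff_mem_nhds]
  intro g hg
  have h2 : IsOpen ((fun w => g * w) '' (MulAction.stabilizer (AbsGal F) x : Set (AbsGal F))) :=
    (Homeomorph.mulLeft g).isOpenMap _ hW
  refine Filter.mem_of_superset (h2.mem_nhds ⟨1, Subgroup.one_mem _, mul_one g⟩) ?_
  rintro _ ⟨w, hw, rfl⟩
  have h3 : w x = x := hw
  simp only [Set.mem_compl_iff, Set.mem_ofPred_eq] at hg ⊢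
  rw [AlgEquiv.mul_apply, h3]
  exact hg

variable {F}

theorem isTwoUnit_sqrt_two {t : AlgebraicClosure F} [CharZero F] (ht : t ^ 2 = 2) :
    IsTwoUnit t := by
  have ht0 : t ≠ 0 := by
    rintro rfl
    simp at ht
  have hi : IsIntegral ℤ t := by
    refine ⟨Polynomial.X ^ 2 - Polynomial.C 2, Polynomial.monic_X_pow_sub_C _ two_ne_zero, ?_⟩
    simp [ht]
  refine ⟨ht0, 1, ?_, ?_⟩
  · rw [pow_one]
    have h2 : IsIntegral ℤ (2 : AlgebraicClosure F) := by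
      have := isIntegral_algebraMap (R := ℤ) (A := AlgebraicClosure F) (x := 2)
      simpa using this
    exact h2.mul hi
  · have h1 : (2 : AlgebraicClosure F) ^ 1 * t⁻¹ = t := by
      rw [← ht]
      field_simp
    rw [h1]
    exact hi

theorem exists_move_sqrt_two [NumberField F] {q : ℕ} {s : F} (hq : FieldHyp q F s)
    {t : AlgebraicClosure F} (ht : t ^ 2 = 2) : ∃ g : AbsGal F, g t ≠ t := by
  by_contra hcon
  push Not at hcon
  have h1 : t ∈ (⊥ : IntermediateField F (AlgebraicClosure F)) := by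
    rw [InfiniteGalois.mem_bot_iff_fixed]
    exact hcon
  rw [IntermediateField.mem_bot] at h1
  obtain ⟨a, rfl⟩ := h1
  have h2 : a ^ 2 = 2 := by
    apply (algebraMap F (AlgebraicClosure F)).injective
    rw [map_pow, ht, map_ofNat]
  obtain ⟨x, y, rfl⟩ := exists_coords hq.hq0 hq.hF hq.hs a
  have h3 : ((x ^ 2 - q * y ^ 2 : ℚ) : F) + ((2 * x * y : ℚ) : F) * s =
      ((2 : ℚ) : F) + ((0 : ℚ) : F) * s := by
    push_cast
    linear_combination h2 - (y : F) ^ 2 * hq.hs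
  obtain ⟨h4, h5⟩ := coords_inj hq.hq0 hq.hs h3
  have h6 : x * y = 0 := by linarith
  have hqpos : (0 : ℚ) < q := by exact_mod_cast hq.hq0
  rcases mul_eq_zero.1 h6 with rfl | rfl
  · nlinarith [sq_nonneg y, mul_nonneg hqpos.le (sq_nonneg y)]
  · have h7 : x ^ 2 = 2 := by linarith
    have h8 : IsSquare (2 : ℚ) := ⟨x, by rw [← h7, sq]⟩
    have h9 : ¬ IsSquare (2 : ℚ) := by
      rw [show (2 : ℚ) = ((2 : ℕ) : ℚ) by norm_num, Rat.isSquare_natCast_iff]
      exact Nat.prime_two.prime.not_isSquare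
    exact h9 h8

end Basics

/-! ### The second cohomology group -/

section H2

variable {F : Type} [Field F] [NumberField F]

/-- functions of two variables which are invariant under `R` -/
def Inv2 {X : Type*} (z : AbsGal F → AbsGal F → X) : Prop :=
  ∀ g h, ∀ r ∈ R F, ∀ r' ∈ R F, z (g * r) (h * r') = z g h

theorem zmod2_eq_of_iff {a b : ZMod 2} (h : a ≠ 0 ↔ b ≠ 0) : a = b := by
  revert a b
  decide

theorem h2part (hAdm : StAdm) (hLine : StLine.{0}) (hLift : StLift.{0}) (hSq : StSq)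
    (hCount : StCount) (hConj : StConj) (hCycR : StCycR) (hCyc : StCyc)
    {q : ℕ} {s : F} (hq : FieldHyp q F s) (ι : AlgebraicClosure F →+* PadicAlgCl 2)
    (c : AlgebraicClosure F ≃+* AlgebraicClosure F) (σ : F ≃+* F) (hcs : ConjHyp s c σ)
    (L : Type) [NormedField L] [NormedAlgebra ℚ_[2] L] [FiniteDimensional ℚ_[2] L] :
    (∃ z1 : AbsGal F → AbsGal F → L, ∀ z ∈ CZ2 (cyc F) L, Inv2 z →
      ∃ a : L, (fun g h => z g h - a * z1 g h) ∈ CB2 (cyc F) L) ∧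
    (∀ z ∈ CZ2 (cyc F) L, Inv2 z →
      (fun g h => z (conj c σ hcs.h g) (conj c σ hcs.h h) - z g h) ∈ CB2 (cyc F) L) := by
  classical
  have hR : (R F).Normal := (hAdm F).1
  have hs0 : s ≠ 0 := by
    intro h0
    have h1 := hq.hs
    rw [h0] at h1
    have h2 : (q : F) = 0 := by linear_combination h1
    exact hq.hq0.ne' (Nat.cast_eq_zero.1 h2)
  obtain ⟨hP2, hDU, hloc, hfin, hkum⟩ := hCount q F s hq ι hR
  obtain ⟨hτc, hτ2, hτR, hτχ, hi⟩ := hConj F s c σ hcs hs0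
  obtain ⟨hχc, hχR⟩ := hCycR F
  set τ : AbsGal F →* AbsGal F := conj c σ hcs.h with hτdef
  -- the quotient
  have hna : NonarchimedeanGroup (AbsGal F ⧸ R F) :=
    nonarch_quot NonarchimedeanGroup.is_nonarchimedean
  have hcomp : CompactSpace (AbsGal F ⧸ R F) := inferInstance
  let χb : AbsGal F ⧸ R F →* ℤ_[2]ˣ := QuotientGroup.lift (R F) (cyc F) hχR
  have hχb : ∀ g : AbsGal F, χb g = cyc F g := fun g => QuotientGroup.lift_mk' _ _ _
  have hχbc : Continuous χb := by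
    rw [(QuotientGroup.isOpenQuotientMap_mk (N := R F)).isQuotientMap.continuous_iff]
    exact hχc
  let τb : AbsGal F ⧸ R F →* AbsGal F ⧸ R F := QuotientGroup.map (R F) (R F) τ hτR
  have hτb : ∀ g : AbsGal F, τb g = (τ g : AbsGal F) := fun g => rfl
  have hτbc : Continuous τb := by
    rw [(QuotientGroup.isOpenQuotientMap_mk (N := R F)).isQuotientMap.continuous_iff]
    exact QuotientGroup.continuous_mk.comp hτc
  have hτb2 : ∀ a, τb (τb a) = a := by
    intro a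
    obtain ⟨g, rfl⟩ := QuotientGroup.mk_surjective a
    rw [hτb, hτb, hτ2]
  have hτbχ : ∀ a, χb (τb a) = χb a := by
    intro a
    obtain ⟨g, rfl⟩ := QuotientGroup.mk_surjective a
    rw [hτb, hχb, hχb, hτχ]
  have hchi : ∀ g : AbsGal F, chi χb L (g : AbsGal F ⧸ R F) = chi (cyc F) L g := by
    intro g
    rw [chi, chi, hχb]
  have hchi4 : ∀ g : AbsGal F, chi4 χb (g : AbsGal F ⧸ R F) = chi4 (cyc F) g := by
    intro g
    rw [chi4, chi4, hχb]
  obtain ⟨hline1, hline2⟩ := hLine (AbsGal F ⧸ R F) 1 le_rfl hP2 hDU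
  -- the square root of two
  obtain ⟨t, ht⟩ : ∃ t : AlgebraicClosure F, t ^ 2 = 2 :=
    IsAlgClosed.exists_pow_nat_eq _ two_pos
  have ht2 : IsTwoUnit t := isTwoUnit_sqrt_two ht
  have htfix : ∀ g : AbsGal F, g (t ^ 2) = t ^ 2 := by
    intro g
    rw [ht, map_ofNat]
  have htR : ∀ r ∈ R F, r t = t := hSq F t ht2 fun r _ => htfix r
  have ht0 : t ≠ 0 := ht2.1
  have hpm : ∀ g : AbsGal F, g t = t ∨ g t = -t := by
    intro g
    have h1 : (g t) ^ 2 = t ^ 2 := by rw [← map_pow, htfix]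
    exact sq_eq_sq_iff_eq_or_eq_neg.1 h1
  have hneg : -t ≠ t := by
    intro h
    have h2 : (2 : AlgebraicClosure F) * t = 0 := by linear_combination -h
    rcases mul_eq_zero.1 h2 with h3 | h3
    · exact two_ne_zero h3
    · exact ht0 h3
  let φ : AbsGal F → ZMod 2 := fun g => if g t = t then 0 else 1
  have hφ0 : ∀ g : AbsGal F, g t = t → φ g = 0 := fun g h => if_pos h
  have hφ0' : ∀ g : AbsGal F, g t = -t → φ g = 1 := fun g h => if_neg (by rw [h]; exact hneg)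
  have hφ1 : ∀ g h, φ (g * h) = φ g + φ h := by
    intro g h
    rcases hpm g with h1 | h1 <;> rcases hpm h with h2 | h2
    · rw [hφ0 g h1, hφ0 h h2, hφ0 (g * h) (by rw [AlgEquiv.mul_apply, h2, h1]), add_zero]
    · rw [hφ0 g h1, hφ0' h h2, hφ0' (g * h) (by rw [AlgEquiv.mul_apply, h2, map_neg, h1]),
        zero_add]
    · rw [hφ0' g h1, hφ0 h h2, hφ0' (g * h) (by rw [AlgEquiv.mul_apply, h2, h1]), add_zero]
    · rw [hφ0' g h1, hφ0' h h2, hφ0 (g * h) (by rw [AlgEquiv.mul_apply, h2, map_neg, h1,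
        neg_neg])]
      decide
  have hφR : ∀ g, ∀ r ∈ R F, φ (g * r) = φ g := by
    intro g r hr
    simp only [φ, AlgEquiv.mul_apply, htR r hr]
  have hφloc : Loc1 φ := by
    refine ⟨MulAction.stabilizer (AbsGal F) t, stabilizer_isOpen_of_isIntegral t, ?_⟩
    intro g w hw
    have h3 : w t = t := hw
    simp only [φ, AlgEquiv.mul_apply, h3]
  have hφb : (d1 φ : AbsGal F ⧸ R F → ZMod 2) ∈ Hom2 (AbsGal F ⧸ R F) := by
    refine ⟨loc1_d1 hφR hφloc, ?_⟩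
    intro a b
    obtain ⟨g, rfl⟩ := QuotientGroup.mk_surjective a
    obtain ⟨h, rfl⟩ := QuotientGroup.mk_surjective b
    rw [← QuotientGroup.mk_mul, d1_mk hφR, d1_mk hφR, d1_mk hφR, hφ1]
  have hφb0 : (d1 φ : AbsGal F ⧸ R F → ZMod 2) ≠ 0 := by
    obtain ⟨g, hg⟩ := exists_move_sqrt_two hq ht
    intro h0
    have h1 := congrFun h0 (g : AbsGal F ⧸ R F)
    rw [d1_mk hφR] at h1
    simp only [φ, if_neg hg, Pi.zero_apply] at h1
    exact absurd h1 (by decide)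
  obtain ⟨ψ, hψ, hψφ⟩ := hline2 _ hφb hφb0
  obtain ⟨hψ1, hψR⟩ := hom2_pull hψ
  obtain ⟨y, hy, hyfix, hyψ⟩ := hkum _ hψ1 hψR
  obtain ⟨z4, hz4, hz4R, hz4red, β, hβ, hβR, hβeq⟩ := hCyc q F s hq c σ hcs y t hy hyfix ht
  have hz4b : (d2 z4 : AbsGal F ⧸ R F → AbsGal F ⧸ R F → ZMod 4) ∈ Z24 χb := by
    refine ⟨loc2_d2 hz4R hz4.1, ?_⟩
    intro a b d
    obtain ⟨g, rfl⟩ := QuotientGroup.mk_surjective a
    obtain ⟨h, rfl⟩ := QuotientGroup.mk_surjective b
    obtain ⟨k, rfl⟩ := QuotientGroup.mk_surjective d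
    rw [hchi4, ← QuotientGroup.mk_mul, ← QuotientGroup.mk_mul, d2_mk hz4R, d2_mk hz4R,
      d2_mk hz4R, d2_mk hz4R]
    exact hz4.2 g h k
  have hz4n : (fun a b => red ((d2 z4 : AbsGal F ⧸ R F → AbsGal F ⧸ R F → ZMod 4) a b)) ∉
      B2 (AbsGal F ⧸ R F) := by
    have e : (fun a b => red ((d2 z4 : AbsGal F ⧸ R F → AbsGal F ⧸ R F → ZMod 4) a b)) =
        cup ψ (d1 φ) := by
      funext a b
      obtain ⟨g, rfl⟩ := QuotientGroup.mk_surjective a
      obtain ⟨h, rfl⟩ := QuotientGroup.mk_surjective b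
      rw [d2_mk hz4R, cup, d1_mk hφR]
      apply zmod2_eq_of_iff
      rw [hz4red, mul_ne_zero_iff]
      refine and_congr ?_ ?_
      · rw [Ne, Ne, ← hyψ g]
      · simp only [φ]
        by_cases h1 : h t = t
        · simp [h1]
        · simp [h1]
    rw [e]
    exact hψφ
  have hz4τ : (fun a b => (d2 z4 : AbsGal F ⧸ R F → AbsGal F ⧸ R F → ZMod 4) (τb a) (τb b) -
      d2 z4 a b) ∈ B24 χb := by
    refine ⟨d1 β, loc1_d1 hβR hβ, ?_⟩
    intro a b
    obtain ⟨g, rfl⟩ := QuotientGroup.mk_surjective a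
    obtain ⟨h, rfl⟩ := QuotientGroup.mk_surjective b
    change d2 z4 (τb (g : AbsGal F ⧸ R F)) (τb (h : AbsGal F ⧸ R F)) -
      d2 z4 (g : AbsGal F ⧸ R F) (h : AbsGal F ⧸ R F) = _
    rw [hτb, hτb, d2_mk hz4R, d2_mk hz4R, hchi4, d1_mk hβR, d1_mk hβR, ← QuotientGroup.mk_mul,
      d1_mk hβR]
    exact hβeq g h
  obtain ⟨⟨z1, hz1, hz1gen⟩, hτinv⟩ := hLift (AbsGal F ⧸ R F) χb hχbc τb hτbc hτb2 hτbχ hline1
    (d2 z4) hz4b hz4n hz4τ L
  -- descent of cocycles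
  have hdesc : ∀ z ∈ CZ2 (cyc F) L, Inv2 z →
      (d2 z : AbsGal F ⧸ R F → AbsGal F ⧸ R F → L) ∈ CZ2 χb L := by
    intro z hz hzR
    refine ⟨continuous_d2 hzR hz.1, ?_⟩
    intro a b d
    obtain ⟨g, rfl⟩ := QuotientGroup.mk_surjective a
    obtain ⟨h, rfl⟩ := QuotientGroup.mk_surjective b
    obtain ⟨k, rfl⟩ := QuotientGroup.mk_surjective d
    rw [hchi, ← QuotientGroup.mk_mul, ← QuotientGroup.mk_mul, d2_mk hzR, d2_mk hzR,
      d2_mk hzR, d2_mk hzR]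
    exact hz.2 g h k
  refine ⟨⟨fun g h => z1 g h, ?_⟩, ?_⟩
  · intro z hz hzR
    obtain ⟨a, γ, hγ, hγeq⟩ := hz1gen (d2 z) (hdesc z hz hzR)
    refine ⟨a, fun g => γ g, hγ.comp QuotientGroup.continuous_mk, ?_⟩
    intro g h
    have h1 : d2 z (g : AbsGal F ⧸ R F) (h : AbsGal F ⧸ R F) - a * z1 g h = _ := hγeq g h
    rw [d2_mk hzR, hchi] at h1
    exact h1
  · intro z hz hzR
    obtain ⟨γ, hγ, hγeq⟩ := hτinv (d2 z) (hdesc z hz hzR)
    refine ⟨fun g => γ g, hγ.comp QuotientGroup.continuous_mk, ?_⟩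
    intro g h
    have h1 : d2 z (τb (g : AbsGal F ⧸ R F)) (τb (h : AbsGal F ⧸ R F)) -
      d2 z (g : AbsGal F ⧸ R F) (h : AbsGal F ⧸ R F) = _ := hγeq g h
    rw [hτb, hτb, d2_mk hzR, d2_mk hzR, hchi] at h1
    exact h1

end H2

/-! ### The theorem for cocycles -/

section Main

variable {F : Type} [Field F] {L : Type} [NormedField L] {n : ℕ}

/-- the continuous cocycles which vanish on the inertia groups away from `2` -/
def WF (ρ : AbsGal F →* Matrix.GeneralLinearGroup (Fin n) L) :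
    Submodule L (AbsGal F → Fin n → L) where
  carrier := {x | x ∈ Z1 ρ ∧ ∀ P : Ideal (AllInt F), P.IsPrime → (2 : AllInt F) ∉ P →
    ∀ g ∈ inert F P, x g = 0}
  add_mem' := by
    rintro x y ⟨hx, hx'⟩ ⟨hy, hy'⟩
    refine ⟨(Z1 ρ).add_mem hx hy, fun P hP h2 g hg => ?_⟩
    rw [Pi.add_apply, hx' P hP h2 g hg, hy' P hP h2 g hg, add_zero]
  zero_mem' := ⟨(Z1 ρ).zero_mem, fun P hP h2 g hg => rfl⟩
  smul_mem' := by
    rintro a x ⟨hx, hx'⟩
    refine ⟨(Z1 ρ).smul_mem a hx, fun P hP h2 g hg => ?_⟩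
    rw [Pi.smul_apply, hx' P hP h2 g hg, smul_zero]

theorem ultra_of_algebra (L : Type) [NormedField L] [NormedAlgebra ℚ_[2] L] :
    IsUltrametricDist L := by
  apply IsUltrametricDist.isUltrametricDist_of_forall_norm_natCast_le_one
  intro m
  have h1 : ((m : ℕ) : L) = algebraMap ℚ_[2] L ((m : ℕ) : ℚ_[2]) := by rw [map_natCast]
  rw [h1, norm_algebraMap', ← Int.cast_natCast]
  exact Padic.norm_int_le_one m

theorem norm_two_lt (L : Type) [NormedField L] [NormedAlgebra ℚ_[2] L] : ‖(2 : L)‖ < 1 := by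
  have h1 : (2 : L) = algebraMap ℚ_[2] L (2 : ℚ_[2]) := by rw [map_ofNat]
  rw [h1, norm_algebraMap']
  have h2 := Padic.norm_p_lt_one (p := 2)
  simpa using h2

variable [NumberField F] [NormedAlgebra ℚ_[2] L] [FiniteDimensional ℚ_[2] L]

theorem parity_cocycles (hAdm : StAdm) (hLine : StLine.{0}) (hLift : StLift.{0}) (hSq : StSq)
    (hCount : StCount) (hConj : StConj) (hCycR : StCycR) (hCyc : StCyc) (hFin : StFin.{0})
    (hExt : StExt.{0}) (hAlt : StAlt.{0}) (hKill : StKill) (hDR : StDR) (hPar : StPar.{0})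
    {q : ℕ} {s : F} (hq : FieldHyp q F s) (ι : AlgebraicClosure F →+* PadicAlgCl 2)
    (c : AlgebraicClosure F ≃+* AlgebraicClosure F) (σ : F ≃+* F) (hcs : ConjHyp s c σ)
    (ρ : AbsGal F →* Matrix.GeneralLinearGroup (Fin n) L) (hρ : Continuous ρ)
    (hres : ResUni ρ) (hun : UnramifiedAwayTwo ρ)
    (B : Matrix (Fin n) (Fin n) L) (hB : B.transpose = B)
    (hpair : ∀ g, (ρ g : Matrix (Fin n) (Fin n) L).transpose * B *
      (ρ (conj c σ hcs.h g) : Matrix (Fin n) (Fin n) L) = chi (cyc F) L g • B)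
    (A : Submodule L (D F ι → Fin n → L)) (hA : A ≤ Z1 (ρ.comp (D F ι).subtype)) :
    FiniteDimensional L A ∧ Module.finrank L
      (Sel (cyc F) ρ (conj c σ hcs.h) B (D F ι) (WF ρ) A) % 2 = Module.finrank L A % 2 := by
  have hR : (R F).Normal := (hAdm F).1
  have hs0 : s ≠ 0 := by
    intro h0
    have h1 := hq.hs
    rw [h0] at h1
    have h2 : (q : F) = 0 := by linear_combination h1
    exact hq.hq0.ne' (Nat.cast_eq_zero.1 h2)
  obtain ⟨hP2, hDU, hloc, hfin, hkum⟩ := hCount q F s hq ι hR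
  obtain ⟨hτc, hτ2, hτR, hτχ, hi⟩ := hConj F s c σ hcs hs0
  obtain ⟨hχc, hχR⟩ := hCycR F
  have hul : IsUltrametricDist L := ultra_of_algebra L
  have h2L : ‖(2 : L)‖ < 1 := norm_two_lt L
  obtain ⟨hρR, hxR⟩ := hKill F L h2L n ρ hρ hres hun
  obtain ⟨⟨z1, hz1⟩, hτinv⟩ := h2part hAdm hLine hLift hSq hCount hConj hCycR hCyc hq ι c σ hcs L
  have hWR : ∀ x ∈ WF ρ, ∀ r ∈ R F, x r = 0 := fun x hx => hxR x hx.1 hx.2
  have hWinv : ∀ x ∈ WF ρ, ∀ g, ∀ r ∈ R F, x (g * r) = x g := by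
    intro x hx g r hr
    rw [hx.1.2 g r, hWR x hx r hr, Matrix.mulVec_zero, add_zero]
  have hinv2 : ∀ x ∈ WF ρ, ∀ y ∈ WF ρ, Inv2 (fun g h => x g ⬝ᵥ B.mulVec
      ((ρ (conj c σ hcs.h g) : Matrix (Fin n) (Fin n) L).mulVec (y (conj c σ hcs.h h)))) := by
    intro x hx y hy g h r hr r' hr'
    simp only [map_mul, hWinv x hx g r hr, hWinv y hy _ _ (hτR r' hr'), hρR _ (hτR r hr), mul_one]
  obtain ⟨hAlt1, hAlt2⟩ := hAlt (AbsGal F) (cyc F) hχc (conj c σ hcs.h) hτc hτ2 hτχ L n ρ hρ B hB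
    hpair
  refine hPar (AbsGal F) (D F ι) (cyc F) hχc (conj c σ hcs.h) hτc hτ2 hτχ L n ρ hρ B hB hpair
    (WF ρ) ?_ ?_ ?_ ?_ ?_ ?_ A hA
  · exact hFin (AbsGal F) (R F) hfin L h2L n ρ hρ hres (WF ρ) (fun x hx => hx.1) hWR
  · exact fun x hx => hx.1
  · intro y hy
    obtain ⟨x, hx, hxR', hxy⟩ := hExt (AbsGal F) (R F) (D F ι) hR (hAdm F).2.1 (isClosed_D F ι)
      (hDR q F s hq ι) hloc L h2L n ρ hρ hres hρR y hy
    exact ⟨x, ⟨hx, fun P hP h2 g hg => hxR' g ((hAdm F).2.2.1 P hP h2 hg)⟩, hxy⟩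
  · intro x hx h0
    funext g
    obtain ⟨d, hd, r, hr, rfl⟩ := hDR q F s hq ι g
    rw [hWinv x hx d r hr]
    exact h0 ⟨d, hd⟩
  · exact ⟨z1, fun x hx y hy => hz1 _ (hAlt1 x hx.1 y hy.1) (hinv2 x hx y hy)⟩
  · intro x hx z hz
    have e : z = (fun g h => x g ⬝ᵥ B.mulVec
      ((ρ (conj c σ hcs.h g) : Matrix (Fin n) (Fin n) L).mulVec (x (conj c σ hcs.h h)))) := by
      funext g h
      exact hz g h
    rw [e]
    exact hτinv _ (hAlt1 x hx.1 x hx.1) (hinv2 x hx x hx)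

end Main

end BKPar
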