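import Pool.Agent.Lib.MP_7c08ba_nt.Par.Stmts

set_option autoImplicit false

/-!
Module PAR: an alternating form has even rank; the Selmer cocycles are the radical of an
alternating form on the cocycles with restriction in `A`.
-/

noncomputable section

namespace BKPar

universe u

section Alt

variable {K V : Type*} [Field K] [AddCommGroup V] [Module K V] [FiniteDimensional K V]

omit [FiniteDimensional K V] in
theorem skew_of_alt (f : V →ₗ[K] V →ₗ[K] K) (halt : ∀ x, f x x = 0) (x y : V) :
    f x y = -f y x := by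
  have h := halt (x + y)
  simp only [map_add, LinearMap.add_apply, halt, zero_add, add_zero] at h
  exact eq_neg_of_add_eq_zero_right h

/-- a nondegenerate alternating form lives on a space of even dimension -/
theorem even_of_nondeg (h2 : (2 : K) ≠ 0) (f : V →ₗ[K] V →ₗ[K] K) (halt : ∀ x, f x x = 0)
    (hnd : ∀ x, (∀ y, f y x = 0) → x = 0) : Even (Module.finrank K V) := by
  classical
  set b := Module.finBasis K V with hb
  set M : Matrix (Fin (Module.finrank K V)) (Fin (Module.finrank K V)) K :=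
    Matrix.of fun i j => f (b i) (b j) with hM
  have hT : M.transpose = -M := by
    ext i j
    rw [Matrix.transpose_apply, Matrix.neg_apply, hM, Matrix.of_apply, Matrix.of_apply]
    exact skew_of_alt f halt _ _
  have hdet : M.det ≠ 0 := by
    intro h0
    obtain ⟨v, hv, hMv⟩ := Matrix.exists_mulVec_eq_zero_iff.mpr h0
    apply hv
    have hx : (∑ j, v j • b j) = 0 := by
      apply hnd
      intro y
      have key : ∀ i, f (b i) (∑ j, v j • b j) = 0 := by
        intro i
        have h1 := congrFun hMv i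
        rw [Matrix.mulVec, dotProduct, Pi.zero_apply] at h1
        rw [map_sum]
        rw [← h1]
        refine Finset.sum_congr rfl fun j _ => ?_
        rw [map_smul, smul_eq_mul, hM, Matrix.of_apply, mul_comm]
      generalize (∑ j, v j • b j) = x at key ⊢
      rw [← b.sum_repr y, map_sum, LinearMap.sum_apply]
      refine Finset.sum_eq_zero fun i _ => ?_
      rw [map_smul, LinearMap.smul_apply, key, smul_zero]
    have h3 := Fintype.linearIndependent_iff.mp b.linearIndependent v hx
    funext j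
    exact h3 j
  rcases Nat.even_or_odd (Module.finrank K V) with h | h
  · exact h
  · exfalso
    have h1 : M.det = -M.det := by
      conv_lhs => rw [← Matrix.det_transpose, hT, Matrix.det_neg, Fintype.card_fin, h.neg_one_pow]
      rw [neg_one_mul]
    have h3 : (2 : K) * M.det = 0 := by
      rw [two_mul]
      nth_rewrite 1 [h1]
      exact neg_add_cancel _
    rcases mul_eq_zero.mp h3 with h4 | h4
    · exact h2 h4
    · exact hdet h4

/-- the radical of an alternating form has the parity of the dimension of the space -/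
theorem finrank_radical (h2 : (2 : K) ≠ 0) (f : V →ₗ[K] V →ₗ[K] K) (halt : ∀ x, f x x = 0)
    (R : Submodule K V) (hR : ∀ x, x ∈ R ↔ ∀ y, f y x = 0) :
    Module.finrank K R % 2 = Module.finrank K V % 2 := by
  obtain ⟨C, hC⟩ := Submodule.exists_isCompl R
  have h1 : Module.finrank K R + Module.finrank K C = Module.finrank K V :=
    Submodule.finrank_add_eq_of_isCompl hC
  have h3 : Even (Module.finrank K C) := by
    refine even_of_nondeg h2 (f.domRestrict₁₂ C C) (fun x => ?_) (fun x hx => ?_)
    · rw [LinearMap.domRestrict₁₂_apply]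
      exact halt _
    · have h4 : (x : V) ∈ R := by
        rw [hR]
        intro y
        obtain ⟨r, hr, c, hc, rfl⟩ := Submodule.mem_sup.mp
          (show y ∈ R ⊔ C from hC.sup_eq_top ▸ Submodule.mem_top)
        rw [map_add, LinearMap.add_apply]
        have h5 : f r x = 0 := by
          rw [skew_of_alt f halt, (hR r).mp hr, neg_zero]
        have h6 : f c x = 0 := by
          have := hx ⟨c, hc⟩
          rwa [LinearMap.domRestrict₁₂_apply] at this
        rw [h5, h6, add_zero]
      have h5 : (x : V) ∈ R ⊓ C := ⟨h4, x.2⟩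
      rw [hC.inf_eq_bot, Submodule.mem_bot] at h5
      exact Subtype.ext h5
  obtain ⟨k, hk⟩ := h3
  omega

end Alt

/-- the two-coboundaries as a subspace -/
def CB2s {G : Type*} [Group G] [TopologicalSpace G] (χ : G →* ℤ_[2]ˣ) (L : Type*) [NormedField L]
    [NormedAlgebra ℚ_[2] L] : Submodule L (G → G → L) where
  carrier := CB2 χ L
  add_mem' := by
    rintro z z' ⟨β, hβ, h⟩ ⟨β', hβ', h'⟩
    refine ⟨β + β', hβ.add hβ', fun g k => ?_⟩
    simp only [Pi.add_apply, h, h']
    ring
  zero_mem' := ⟨0, continuous_const, fun g k => by simp⟩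
  smul_mem' := by
    rintro a z ⟨β, hβ, h⟩
    refine ⟨a • β, hβ.const_smul a, fun g k => ?_⟩
    simp only [Pi.smul_apply, h, smul_eq_mul]
    ring

theorem mem_CB2s {G : Type*} [Group G] [TopologicalSpace G] {χ : G →* ℤ_[2]ˣ} {L : Type*}
    [NormedField L] [NormedAlgebra ℚ_[2] L] {z : G → G → L} : z ∈ CB2s χ L ↔ z ∈ CB2 χ L :=
  Iff.rfl

/-- restriction of two-coboundaries -/
theorem CB2.restrict {G : Type*} [Group G] [TopologicalSpace G] {χ : G →* ℤ_[2]ˣ} {L : Type*}
    [NormedField L] [NormedAlgebra ℚ_[2] L] {z : G → G → L} (h : z ∈ CB2 χ L) (D : Subgroup G) :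
    (fun g k : D => z g k) ∈ CB2 (χ.comp D.subtype) L := by
  obtain ⟨β, hβ, h⟩ := h
  exact ⟨fun d => β d, hβ.comp continuous_subtype_val, fun g k => h g k⟩

section

variable {Γ : Type u} [Group Γ] [TopologicalSpace Γ] {L : Type} [NormedField L]
  [NormedAlgebra ℚ_[2] L] {n : ℕ}

/-- restriction of functions to a subgroup -/
def resD (Dd : Subgroup Γ) (L : Type) [NormedField L] (n : ℕ) :
    (Γ → Fin n → L) →ₗ[L] (Dd → Fin n → L) where
  toFun x := fun d => x d
  map_add' _ _ := rfl
  map_smul' _ _ := rfl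

/-- the cup product with the conjugate, as a bilinear map -/
def cupL (ρ : Γ →* Matrix.GeneralLinearGroup (Fin n) L) (τ : Γ →* Γ)
    (B : Matrix (Fin n) (Fin n) L) (Dd : Subgroup Γ) :
    (Γ → Fin n → L) →ₗ[L] (Γ → Fin n → L) →ₗ[L] (Dd → Dd → L) :=
  LinearMap.mk₂ L (fun y x => cupD ρ τ B Dd (fun d => y d) x)
    (by
      intro y y' x
      funext g k
      simp only [cupD, Pi.add_apply, add_dotProduct])
    (by
      intro a y x
      funext g k
      simp only [cupD, Pi.smul_apply, smul_dotProduct])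
    (by
      intro y x x'
      funext g k
      simp only [cupD, Pi.add_apply, Matrix.mulVec_add, dotProduct_add])
    (by
      intro a y x
      funext g k
      simp only [cupD, Pi.smul_apply, Matrix.mulVec_smul, dotProduct_smul])

omit [TopologicalSpace Γ] [NormedAlgebra ℚ_[2] L] in
theorem cupL_apply (ρ : Γ →* Matrix.GeneralLinearGroup (Fin n) L) (τ : Γ →* Γ)
    (B : Matrix (Fin n) (Fin n) L) (Dd : Subgroup Γ) (y x : Γ → Fin n → L) :
    cupL ρ τ B Dd y x = cupD ρ τ B Dd (fun d => y d) x := rfl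

end

/-- a functional which is injective on a line -/
theorem exists_functional {K Q : Type*} [Field K] [AddCommGroup Q] [Module K Q] (v : Q) :
    ∃ Λ : Q →ₗ[K] K, ∀ a : K, Λ (a • v) = 0 → a • v = 0 := by
  by_cases hv : v = 0
  · exact ⟨0, fun a _ => by rw [hv, smul_zero]⟩
  · have h1 : ¬ ∀ Λ : Module.Dual K Q, Λ v = 0 := fun h =>
      hv ((Module.forall_dual_apply_eq_zero_iff K v).mp h)
    push Not at h1
    obtain ⟨Λ, hΛ⟩ := h1
    refine ⟨Λ, fun a ha => ?_⟩
    rw [map_smul, smul_eq_mul] at ha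
    rcases mul_eq_zero.mp ha with h | h
    · rw [h, zero_smul]
    · exact absurd h hΛ

theorem stPar (h : StAlt.{u}) : StPar.{u} := by
  intro Γ _ _ _ _ Dd χ hχ τ hτ hττ hχτ L _ _ n ρ hρ B hB hrel W hW hWZ hsurj hinj hline hinv A hA
  have h2 : (2 : L) ≠ 0 := by
    have h3 : (algebraMap ℚ_[2] L) 2 ≠ 0 := by
      rw [Ne, map_eq_zero]
      norm_num
    rwa [map_ofNat] at h3
  -- restriction
  set res := resD Dd L n with hres
  have hAle : A ≤ W.map res := by
    intro y hy
    obtain ⟨x, hx, hxy⟩ := hsurj y (hA hy)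
    exact ⟨x, hx, funext hxy⟩
  have hAfin : FiniteDimensional L A := Submodule.finiteDimensional_of_le hAle
  refine ⟨hAfin, ?_⟩
  -- the space of cocycles with restriction in `A`
  set A' : Submodule L (Γ → Fin n → L) := W ⊓ A.comap res with hA'
  have hA'fin : FiniteDimensional L A' := Submodule.finiteDimensional_of_le inf_le_left
  have hdim : Module.finrank L A' = Module.finrank L A := by
    have e1 : Submodule.map res A' = A := by
      apply le_antisymm
      · rintro _ ⟨x, ⟨_, hx⟩, rfl⟩
        exact hx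
      · intro y hy
        obtain ⟨x, hx, hxy⟩ := hAle hy
        exact ⟨x, ⟨hx, by
          rw [SetLike.mem_coe, Submodule.mem_comap, hxy]
          exact hy⟩, hxy⟩
    rw [← e1]
    have hinj' : Function.Injective (res.domRestrict A') := by
      rw [injective_iff_map_eq_zero]
      intro x hx
      apply Subtype.ext
      refine hinj x x.2.1 fun d => ?_
      exact congrFun hx d
    have e2 : Submodule.map res A' = LinearMap.range (res.domRestrict A') := by
      rw [LinearMap.range_domRestrict]
    rw [e2]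
    exact (LinearMap.finrank_range_of_inj hinj').symm
  -- the alternating form
  obtain ⟨z1, hz1⟩ := hline
  set Q := (Dd → Dd → L) ⧸ CB2s (χ.comp Dd.subtype) L with hQ
  obtain ⟨Λ, hΛ⟩ := exists_functional (K := L)
    ((CB2s (χ.comp Dd.subtype) L).mkQ (fun g k : Dd => z1 g k))
  have hΛ' : ∀ x ∈ W, ∀ y ∈ W, Λ ((CB2s (χ.comp Dd.subtype) L).mkQ (cupL ρ τ B Dd x y)) = 0 →
      cupL ρ τ B Dd x y ∈ CB2 (χ.comp Dd.subtype) L := by
    intro x hx y hy h0
    obtain ⟨a, ha⟩ := hz1 x hx y hy
    have h3 := CB2.restrict ha Dd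
    have h4 : (CB2s (χ.comp Dd.subtype) L).mkQ (cupL ρ τ B Dd x y) =
        a • (CB2s (χ.comp Dd.subtype) L).mkQ (fun g k : Dd => z1 g k) := by
      rw [← map_smul, ← sub_eq_zero, ← map_sub]
      rw [Submodule.mkQ_apply, Submodule.Quotient.mk_eq_zero, mem_CB2s]
      exact h3
    rw [h4] at h0
    have h5 := hΛ a h0
    rw [← h4, Submodule.mkQ_apply, Submodule.Quotient.mk_eq_zero, mem_CB2s] at h5
    exact h5
  set f : A' →ₗ[L] A' →ₗ[L] L :=
    ((cupL ρ τ B Dd).domRestrict₁₂ A' A').compr₂ (Λ ∘ₗ (CB2s (χ.comp Dd.subtype) L).mkQ) with hf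
  have hfa : ∀ x y : A', f x y =
      Λ ((CB2s (χ.comp Dd.subtype) L).mkQ (cupL ρ τ B Dd x y)) := fun x y => rfl
  have hiff : ∀ x y : A', f x y = 0 ↔ cupL ρ τ B Dd x y ∈ CB2 (χ.comp Dd.subtype) L := by
    intro x y
    rw [hfa]
    refine ⟨hΛ' x x.2.1 y y.2.1, fun h0 => ?_⟩
    have h3 : (CB2s (χ.comp Dd.subtype) L).mkQ (cupL ρ τ B Dd x y) = 0 := by
      rw [Submodule.mkQ_apply, Submodule.Quotient.mk_eq_zero, mem_CB2s]
      exact h0
    rw [h3, map_zero]
  have halt : ∀ x : A', f x x = 0 := by
    intro x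
    rw [hiff]
    have hx : (x : Γ → Fin n → L) ∈ W := x.2.1
    set z : Γ → Γ → L := fun g k => (x : Γ → Fin n → L) g ⬝ᵥ
      B.mulVec ((ρ (τ g) : Matrix (Fin n) (Fin n) L).mulVec ((x : Γ → Fin n → L) (τ k))) with hz
    have h3 := (h Γ χ hχ τ hτ hττ hχτ L n ρ hρ B hB hrel).2 x (hWZ hx) z (fun _ _ => rfl)
    have h4 := hinv x hx z (fun _ _ => rfl)
    have h5 : z ∈ CB2s χ L := by
      have h6 := (CB2s χ L).sub_mem h3 h4
      have h7 : (fun g k => z (τ g) (τ k) + z g k) - (fun g k => z (τ g) (τ k) - z g k) =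
          (2 : L) • z := by
        funext g k
        simp only [Pi.sub_apply, Pi.smul_apply, smul_eq_mul]
        ring
      rw [h7] at h6
      exact ((CB2s χ L).smul_mem_iff h2).mp h6
    exact CB2.restrict h5 Dd
  -- the radical
  have hSel : Sel χ ρ τ B Dd W A ≤ A' := fun x hx => ⟨hx.1, hx.2.1⟩
  have hrad := finrank_radical h2 f halt ((Sel χ ρ τ B Dd W A).comap A'.subtype) (by
    intro x
    constructor
    · intro hx y
      rw [hiff]
      exact hx.2.2 _ y.2.2
    · intro hx
      refine ⟨x.2.1, x.2.2, fun y hy => ?_⟩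
      obtain ⟨w, hw, rfl⟩ := hAle hy
      exact (hiff ⟨w, hw, hy⟩ x).mp (hx ⟨w, hw, hy⟩))
  rw [← hdim, ← hrad]
  congr 1
  exact (Submodule.comapSubtypeEquivOfLe hSel).finrank_eq.symm

end BKPar
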