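import Mathlib
import Pool.Agent.Lib.MP_7c08ba_nt.Par.Final

set_option autoImplicit false
set_option linter.unusedSectionVars false

/-!
The parity theorem for classes.
-/

noncomputable section

namespace BKPar

open Pool.Agent.Lib.MP_7c08ba_nt NumberField

section Lin

variable {L M M' : Type} [Field L] [AddCommGroup M] [Module L M] [AddCommGroup M'] [Module L M']

/-- The dimension of `A / (A ∩ B)`. -/
def classRank (A B : Submodule L M) : Cardinal := Module.rank L (A ⧸ B.submoduleOf A)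

theorem classRank_eq (A B : Submodule L M) (h : B ≤ A) [FiniteDimensional L A] :
    classRank A B = ((Module.finrank L A - Module.finrank L B : ℕ) : Cardinal) := by
  rw [classRank, ← Module.finrank_eq_rank L (A ⧸ B.submoduleOf A)]
  congr 1
  have h1 := Submodule.finrank_quotient_add_finrank (B.submoduleOf A)
  have h2 : Module.finrank L (B.submoduleOf A) = Module.finrank L B :=
    (Submodule.submoduleOfEquivOfLe h).finrank_eq
  omega

theorem exists_ranks {B S : Submodule L M} {A' B' : Submodule L M'} (hA : B' ≤ A')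
    (hfA : FiniteDimensional L A') (hS : B ≤ S) (hfS : FiniteDimensional L S)
    (hB : Module.finrank L B = Module.finrank L B') (hle : Module.finrank L S ≤ Module.finrank L A')
    (hpar : Module.finrank L S % 2 = Module.finrank L A' % 2) :
    ∃ m k : ℕ, classRank S B = m ∧ classRank A' B' = (m + 2 * k : ℕ) := by
  have h1 : Module.finrank L B ≤ Module.finrank L S := Submodule.finrank_mono hS
  refine ⟨Module.finrank L S - Module.finrank L B,
    (Module.finrank L A' - Module.finrank L S) / 2, classRank_eq S B hS, ?_⟩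
  rw [classRank_eq A' B' hA]
  congr 1
  omega

end Lin

section

variable {F : Type} [Field F] {L : Type} [NormedField L] {n : ℕ}

theorem B1_le_Z1 {Γ : Type} [Group Γ] [TopologicalSpace Γ] [IsTopologicalGroup Γ]
    (ρ : Γ →* Matrix.GeneralLinearGroup (Fin n) L) (hρ : Continuous ρ) : B1 ρ ≤ Z1 ρ := by
  rintro _ ⟨v, rfl⟩
  refine ⟨?_, ?_⟩
  · have h1 : Continuous fun g => (ρ g : Matrix (Fin n) (Fin n) L) :=
      Units.continuous_val.comp hρ
    exact (h1.matrix_mulVec continuous_const).sub continuous_const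
  · intro g h
    change (ρ (g * h) : Matrix (Fin n) (Fin n) L).mulVec v - v =
      ((ρ g : Matrix (Fin n) (Fin n) L).mulVec v - v) + (ρ g : Matrix (Fin n) (Fin n) L).mulVec
        ((ρ h : Matrix (Fin n) (Fin n) L).mulVec v - v)
    rw [map_mul, Units.val_mul, Matrix.mulVec_sub, Matrix.mulVec_mulVec]
    abel

theorem B1_le_WF (ρ : AbsGal F →* Matrix.GeneralLinearGroup (Fin n) L) (hρ : Continuous ρ)
    (hun : UnramifiedAwayTwo ρ) : B1 ρ ≤ WF ρ := by
  intro x hx
  refine ⟨B1_le_Z1 ρ hρ hx, ?_⟩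
  obtain ⟨v, rfl⟩ := hx
  intro P hP h2 g hg
  change (ρ g : Matrix (Fin n) (Fin n) L).mulVec v - v = 0
  rw [hun P hP h2 g hg, Units.val_one, Matrix.one_mulVec, sub_self]

/-- restriction of functions to a subgroup -/
def restr {Γ : Type} [Group Γ] (H : Subgroup Γ) (L : Type) [NormedField L] (n : ℕ) :
    (Γ → Fin n → L) →ₗ[L] (H → Fin n → L) where
  toFun x d := x d
  map_add' _ _ := rfl
  map_smul' _ _ := rfl

theorem map_B1 {Γ : Type} [Group Γ] (H : Subgroup Γ)
    (ρ : Γ →* Matrix.GeneralLinearGroup (Fin n) L) :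
    (B1 ρ).map (restr H L n) = B1 (ρ.comp H.subtype) := by
  apply le_antisymm
  · rintro _ ⟨_, ⟨v, rfl⟩, rfl⟩
    exact ⟨v, rfl⟩
  · rintro _ ⟨v, rfl⟩
    exact ⟨_, ⟨v, rfl⟩, rfl⟩

variable [NormedAlgebra ℚ_[2] L]

theorem B1_le_Sel (ρ : AbsGal F →* Matrix.GeneralLinearGroup (Fin n) L) (hρ : Continuous ρ)
    (hun : UnramifiedAwayTwo ρ) (τ : AbsGal F →* AbsGal F) (hτ : Continuous τ)
    (B : Matrix (Fin n) (Fin n) L) (χ : AbsGal F →* ℤ_[2]ˣ)
    (hpair : ∀ g, (ρ g : Matrix (Fin n) (Fin n) L).transpose * B *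
      (ρ (τ g) : Matrix (Fin n) (Fin n) L) = chi χ L g • B)
    (D' : Subgroup (AbsGal F)) (A : Submodule L (D' → Fin n → L))
    (hA1 : B1 (ρ.comp D'.subtype) ≤ A) (hA : A ≤ Z1 (ρ.comp D'.subtype)) :
    B1 ρ ≤ Sel χ ρ τ B D' (WF ρ) A := by
  intro x hx
  refine ⟨B1_le_WF ρ hρ hun hx, ?_, ?_⟩
  · apply hA1
    rw [← map_B1]
    exact ⟨x, hx, rfl⟩
  · obtain ⟨v, rfl⟩ := hx
    intro y hy
    obtain ⟨hyc, hyco⟩ := hA hy
    have hcρ : Continuous fun g : D' => (ρ (τ g) : Matrix (Fin n) (Fin n) L) :=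
      Units.continuous_val.comp (hρ.comp (hτ.comp continuous_subtype_val))
    refine ⟨fun g => -(y g ⬝ᵥ B.mulVec ((ρ (τ g) : Matrix (Fin n) (Fin n) L).mulVec v)), ?_, ?_⟩
    · apply Continuous.neg
      exact hyc.dotProduct (continuous_const.matrix_mulVec (hcρ.matrix_mulVec continuous_const))
    · intro g h
      have e1 : cupD ρ τ B D' y (fun g => (ρ g : Matrix (Fin n) (Fin n) L).mulVec v - v) g h =
          y g ⬝ᵥ B.mulVec ((ρ (τ g) : Matrix (Fin n) (Fin n) L).mulVec
            ((ρ (τ h) : Matrix (Fin n) (Fin n) L).mulVec v)) -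
          y g ⬝ᵥ B.mulVec ((ρ (τ g) : Matrix (Fin n) (Fin n) L).mulVec v) := by
        simp only [cupD, Matrix.mulVec_sub, dotProduct_sub]
      have e2 : y (g * h) = y g + (ρ g : Matrix (Fin n) (Fin n) L).mulVec (y h) := hyco g h
      have e3 : ∀ w w' : Fin n → L, ((ρ g : Matrix (Fin n) (Fin n) L).mulVec w) ⬝ᵥ
          B.mulVec ((ρ (τ g) : Matrix (Fin n) (Fin n) L).mulVec w') =
          chi χ L g * (w ⬝ᵥ B.mulVec w') := by
        intro w w'
        rw [Matrix.mulVec_mulVec, ← Matrix.vecMul_transpose, ← Matrix.dotProduct_mulVec,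
          Matrix.mulVec_mulVec, ← Matrix.mul_assoc, hpair g, Matrix.smul_mulVec,
          dotProduct_smul, smul_eq_mul]
      have e4 : ((ρ (τ (g * h))) : Matrix (Fin n) (Fin n) L).mulVec v =
          (ρ (τ g) : Matrix (Fin n) (Fin n) L).mulVec
            ((ρ (τ h) : Matrix (Fin n) (Fin n) L).mulVec v) := by
        rw [map_mul, map_mul, Units.val_mul, Matrix.mulVec_mulVec]
      change cupD ρ τ B D' y (fun g => (ρ g : Matrix (Fin n) (Fin n) L).mulVec v - v) g h = _
      rw [e1]
      have e5 : chi (χ.comp D'.subtype) L g = chi χ L g := rfl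
      have e6 : ((g * h : D') : AbsGal F) = (g : AbsGal F) * (h : AbsGal F) := rfl
      simp only [e5, e6, e4, e2, add_dotProduct, e3]
      ring

end

end BKPar
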