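import Pool.Agent.Lib.MP_7c08ba_nt.Par.Stmts
import Pool.Agent.Lib.MP_7c08ba_nt.Quad

set_option autoImplicit false

/-!
Module CYC: the explicit classes `κ ∪ φ` modulo `4`, with `κ` the Kummer cocycle of a unit outside
`2` and `φ` the cyclotomic homomorphism of order `4` of `ℚ(ζ₁₆)`.
-/

noncomputable section

namespace BKPar

namespace Cyc

set_option linter.unusedSectionVars false

open Pool.Agent.Lib.MP_7c08ba_nt NumberField

/-! ### Roots of unity -/

section Roots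

variable {Ω : Type*} [Field Ω] {ζ : Ω} (hζ : IsPrimitiveRoot ζ 16)

/-- the isomorphism of `ℤ/4` with the fourth roots of unity -/
def E (ζ : Ω) (κ : ZMod 4) : Ω := ζ ^ (4 * κ.val)

lemma E_zero : E ζ 0 = 1 := by
  simp [E]

include hζ

lemma pow_congr {a b : ℕ} (h : a % 16 = b % 16) : ζ ^ a = ζ ^ b := by
  rw [pow_eq_pow_mod a hζ.pow_eq_one, pow_eq_pow_mod b hζ.pow_eq_one, h]

lemma E_add (a b : ZMod 4) : E ζ (a + b) = E ζ a * E ζ b := by
  rw [E, E, E, ← pow_add]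
  apply pow_congr hζ
  revert a b
  decide

lemma E_ne (a : ZMod 4) : E ζ a ≠ 0 := pow_ne_zero _ (hζ.ne_zero (by norm_num))

lemma E_inj {a b : ZMod 4} (h : E ζ a = E ζ b) : a = b := by
  have ha := ZMod.val_lt a
  have hb := ZMod.val_lt b
  have h1 := hζ.pow_inj (by omega) (by omega) h
  exact ZMod.val_injective 4 (by omega)

lemma E_pow (a : ZMod 4) (n : ℕ) : E ζ a ^ n = E ζ (n * a) := by
  induction n with
  | zero => simp [E_zero]
  | succ n ih =>
    rw [pow_succ, ih, ← E_add hζ]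
    congr 1
    push_cast
    ring

lemma E_neg (a : ZMod 4) : E ζ (-a) = (E ζ a)⁻¹ := by
  apply eq_inv_of_mul_eq_one_left
  rw [← E_add hζ, neg_add_cancel, E_zero]

lemma E_zpow (a : ZMod 4) (n : ℤ) : E ζ a ^ n = E ζ (n * a) := by
  obtain ⟨n, rfl | rfl⟩ := n.eq_nat_or_neg
  · rw [zpow_natCast, E_pow hζ]
    push_cast
    rfl
  · rw [zpow_neg, zpow_natCast, E_pow hζ, ← E_neg hζ]
    congr 1
    push_cast
    ring

lemma E_surj {x : Ω} (hx : x ^ 4 = 1) : ∃ κ : ZMod 4, x = E ζ κ := by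
  have h4 : IsPrimitiveRoot (ζ ^ 4) 4 := hζ.pow (by norm_num) (by norm_num)
  obtain ⟨i, hi, hi'⟩ := h4.eq_pow_of_pow_eq_one hx
  refine ⟨(i : ZMod 4), ?_⟩
  rw [E, ZMod.val_natCast, Nat.mod_eq_of_lt hi, ← hi', pow_mul]

lemma pow_eight : ζ ^ 8 = -1 := by
  have h2 : IsPrimitiveRoot (ζ ^ 8) 2 := hζ.pow (by norm_num) (by norm_num)
  exact h2.eq_neg_one_of_two_right

lemma E_two : E ζ 2 = -1 := pow_eight hζ

lemma E_one_sq : E ζ 1 ^ 2 = -1 := by
  rw [E_pow hζ, ← E_two hζ]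
  congr 1

lemma prod_eq_two : (1 - ζ ^ 1) * (1 - ζ ^ 3) * (1 - ζ ^ 5) * (1 - ζ ^ 7) * (1 - ζ ^ 9) *
    (1 - ζ ^ 11) * (1 - ζ ^ 13) * (1 - ζ ^ 15) = 2 := by
  have h8 : ζ ^ 8 = -1 := pow_eight hζ
  have e9 : ζ ^ 9 = -ζ := by linear_combination ζ * h8
  have e10 : ζ ^ 10 = -ζ ^ 2 := by linear_combination ζ ^ 2 * h8
  have e11 : ζ ^ 11 = -ζ ^ 3 := by linear_combination ζ ^ 3 * h8
  have e12 : ζ ^ 12 = -ζ ^ 4 := by linear_combination ζ ^ 4 * h8
  have e13 : ζ ^ 13 = -ζ ^ 5 := by linear_combination ζ ^ 5 * h8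
  have e14 : ζ ^ 14 = -ζ ^ 6 := by linear_combination ζ ^ 6 * h8
  have e15 : ζ ^ 15 = -ζ ^ 7 := by linear_combination ζ ^ 7 * h8
  rw [e9, e11, e13, e15]
  calc (1 - ζ ^ 1) * (1 - ζ ^ 3) * (1 - ζ ^ 5) * (1 - ζ ^ 7) * (1 - -ζ) *
      (1 - -ζ ^ 3) * (1 - -ζ ^ 5) * (1 - -ζ ^ 7) =
      (1 - ζ ^ 2) * (1 - ζ ^ 6) * (1 - ζ ^ 10) * (1 - ζ ^ 14) := by ring
    _ = (1 - ζ ^ 2) * (1 - ζ ^ 6) * (1 - -ζ ^ 2) * (1 - -ζ ^ 6) := by rw [e10, e14]
    _ = (1 - ζ ^ 4) * (1 - ζ ^ 12) := by ring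
    _ = (1 - ζ ^ 4) * (1 - -ζ ^ 4) := by rw [e12]
    _ = 1 - ζ ^ 8 := by ring
    _ = 2 := by rw [h8]; norm_num

omit hζ in
lemma mem_units (x : ZMod 16) : (∃ y : ZMod 16, x * y = 1) ↔
    x ∈ ({1, 3, 5, 7, 9, 11, 13, 15} : Finset (ZMod 16)) := by
  revert x
  decide

omit hζ in
lemma image_units : (Finset.univ : Finset (ZMod 16)ˣ).image
    (fun a : (ZMod 16)ˣ => (a : ZMod 16)) = {1, 3, 5, 7, 9, 11, 13, 15} := by
  ext x
  rw [← mem_units, ← isUnit_iff_exists_inv, Finset.mem_image]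
  constructor
  · rintro ⟨a, -, rfl⟩
    exact a.isUnit
  · rintro ⟨a, rfl⟩
    exact ⟨a, Finset.mem_univ _, rfl⟩

lemma prod_units : ∏ a : (ZMod 16)ˣ, (1 - ζ ^ (a : ZMod 16).val) = 2 := by
  have h1 : ∏ a : (ZMod 16)ˣ, (1 - ζ ^ (a : ZMod 16).val) =
      ∏ a ∈ (Finset.univ : Finset (ZMod 16)ˣ).image (fun a : (ZMod 16)ˣ => (a : ZMod 16)),
        (1 - ζ ^ a.val) := by
    rw [Finset.prod_image]
    intro a _ b _ h
    exact Units.ext h
  rw [h1, image_units, ← prod_eq_two hζ]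
  rw [Finset.prod_insert (by decide), Finset.prod_insert (by decide),
    Finset.prod_insert (by decide), Finset.prod_insert (by decide),
    Finset.prod_insert (by decide), Finset.prod_insert (by decide),
    Finset.prod_insert (by decide), Finset.prod_singleton]
  simp only [← mul_assoc]
  rfl

end Roots

/-! ### The homomorphism of order four -/

/-- the exponent of `3` in `(ℤ/16)^× / {±1}` -/
def phi0 (a : ZMod 16) : ZMod 4 :=
  if a = 1 ∨ a = 15 then 0 else if a = 3 ∨ a = 13 then 1 else if a = 7 ∨ a = 9 then 2 else 3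

lemma phi0_mul_aux : ∀ a b : ZMod 16, a.val % 2 = 1 → b.val % 2 = 1 →
    phi0 (a * b) = phi0 a + phi0 b := by
  decide

lemma unit_odd (a : (ZMod 16)ˣ) : (a : ZMod 16).val % 2 = 1 := by
  have h := ZMod.val_coe_unit_coprime a
  have h2 : Nat.Coprime (a : ZMod 16).val 2 := Nat.Coprime.coprime_dvd_right (by norm_num) h
  rw [Nat.coprime_comm, Nat.coprime_two_left] at h2
  exact Nat.odd_iff.mp h2

lemma phi0_mul (a b : (ZMod 16)ˣ) : phi0 ((a * b : (ZMod 16)ˣ) : ZMod 16) =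
    phi0 (a : ZMod 16) + phi0 (b : ZMod 16) := by
  rw [Units.val_mul]
  exact phi0_mul_aux _ _ (unit_odd a) (unit_odd b)

lemma phi0_one : phi0 1 = 0 := by decide

lemma phi0_inv_mul (u a : (ZMod 16)ˣ) : phi0 ((u⁻¹ * a : (ZMod 16)ˣ) : ZMod 16) =
    phi0 (a : ZMod 16) - phi0 (u : ZMod 16) := by
  have h := phi0_mul u (u⁻¹ * a)
  rw [mul_inv_cancel_left] at h
  rw [h, add_sub_cancel_left]

lemma phi0_even : ∀ a : ZMod 16, a.val % 2 = 1 → red (phi0 a) = 0 →
    (2 * a.val) % 16 = 2 ∧ (14 * a.val) % 16 = 14 ∨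
    (2 * a.val) % 16 = 14 ∧ (14 * a.val) % 16 = 2 := by
  decide

lemma phi0_odd : ∀ a : ZMod 16, a.val % 2 = 1 → red (phi0 a) ≠ 0 →
    (2 * a.val) % 16 = 6 ∧ (14 * a.val) % 16 = 10 ∨
    (2 * a.val) % 16 = 10 ∧ (14 * a.val) % 16 = 6 := by
  decide

lemma red_mul (a b : ZMod 4) : red (a * b) = red a * red b := by
  revert a b
  decide

lemma red_eq_zero (a : ZMod 4) : red a = 0 ↔ 2 * a = 0 := by
  revert a
  decide

lemma mul_ne_zero_iff (a b : ZMod 2) : a * b ≠ 0 ↔ a ≠ 0 ∧ b ≠ 0 := by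
  revert a b
  decide

lemma val_mul_aux : ∀ a b : ZMod 4, 4 * (a.val * b.val) % 16 = 4 * (a * b).val % 16 := by
  decide

/-! ### The action on roots of unity -/

section Act

variable (F : Type) [Field F] [NumberField F]

/-- the cyclotomic character modulo `16` -/
def Au : AbsGal F →* (ZMod 16)ˣ :=
  (Units.map ((PadicInt.toZModPow (p := 2) 4 : ℤ_[2] →+* ZMod (2 ^ 4)) :
    ℤ_[2] →* ZMod (2 ^ 4))).comp (cyc F)

variable {F}

lemma spec (g : AbsGal F) (n : ℕ) (x : AlgebraicClosure F) (hx : x ^ 2 ^ n = 1) :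
    g x = x ^ ((cyc F g).val.toZModPow n).val := by
  exact cyclotomicCharacter.spec 2 (MulSemiringAction.toRingAut (AbsGal F) (AlgebraicClosure F) g)
    x hx

variable {ζ : AlgebraicClosure F} (hζ : IsPrimitiveRoot ζ 16)

include hζ

lemma act_zeta (g : AbsGal F) : g ζ = ζ ^ (Au F g : ZMod 16).val :=
  spec g 4 ζ hζ.pow_eq_one

lemma act_E (g : AbsGal F) (κ : ZMod 4) : g (E ζ κ) = E ζ (chi4 (cyc F) g * κ) := by
  have h4 : (ζ ^ 4) ^ 2 ^ 2 = 1 := by
    rw [← pow_mul]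
    exact hζ.pow_eq_one
  have h1 := spec g 2 (ζ ^ 4) h4
  have h2 : g (E ζ κ) = (g (ζ ^ 4)) ^ κ.val := by
    rw [E, pow_mul, map_pow g (ζ ^ 4)]
  rw [h2, h1, E, ← pow_mul, ← pow_mul]
  apply pow_congr hζ
  change (4 * ((chi4 (cyc F) g).val * κ.val)) % 16 = _
  exact val_mul_aux _ _

/-- Kummer cocycles of families of fourth roots. -/
lemma kum {X : Type*} (x : X → AlgebraicClosure F) (hx : ∀ a, x a ≠ 0)
    (act : AbsGal F → X → X) (hact : ∀ g h a, act (g * h) a = act g (act h a))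
    (h4 : ∀ g a, (g (x a)) ^ 4 = (x (act g a)) ^ 4) :
    ∃ k : AbsGal F → X → ZMod 4, (∀ g a, g (x a) = E ζ (k g a) * x (act g a)) ∧
      ∀ g h a, k (g * h) a = chi4 (cyc F) g * k h a + k g (act h a) := by
  have h5 : ∀ g a, ∃ κ : ZMod 4, g (x a) = E ζ κ * x (act g a) := by
    intro g a
    have h6 : (g (x a) / x (act g a)) ^ 4 = 1 := by
      rw [div_pow, h4, div_self (pow_ne_zero _ (hx _))]
    obtain ⟨κ, hκ⟩ := E_surj hζ h6
    refine ⟨κ, ?_⟩
    rw [← hκ, div_mul_cancel₀ _ (hx _)]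
  choose k hk using h5
  refine ⟨k, hk, fun g h a => ?_⟩
  apply E_inj hζ
  apply mul_right_cancel₀ (hx (act (g * h) a))
  rw [← hk, AlgEquiv.mul_apply, hk h a, map_mul, act_E hζ, hk g, hact, E_add hζ, mul_assoc]

omit hζ in
/-- Invariance of the Kummer cocycles. -/
lemma kum_inv (hζ : IsPrimitiveRoot ζ 16) {X : Type*} {x : X → AlgebraicClosure F}
    (hx : ∀ a, x a ≠ 0)
    {act : AbsGal F → X → X} (hact : ∀ g h a, act (g * h) a = act g (act h a))
    {k : AbsGal F → X → ZMod 4} (hk : ∀ g a, g (x a) = E ζ (k g a) * x (act g a))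
    {w : AbsGal F} (hw : ∀ a, act w a = a) (hw' : ∀ a, w (x a) = x a) (g : AbsGal F) (a : X) :
    k (g * w) a = k g a := by
  apply E_inj hζ
  apply mul_right_cancel₀ (hx (act g a))
  have h1 := hk (g * w) a
  rw [AlgEquiv.mul_apply, hw', hk g, hact, hw] at h1
  exact h1.symm

omit hζ in
lemma Au_eq (hζ : IsPrimitiveRoot ζ 16) {g h : AbsGal F} (hgh : g ζ = h ζ) :
    Au F g = Au F h := by
  rw [act_zeta hζ, act_zeta hζ] at hgh
  have h1 := hζ.pow_inj (ZMod.val_lt _) (ZMod.val_lt _) hgh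
  exact Units.ext (ZMod.val_injective 16 h1)

omit hζ in
lemma Au_one (hζ : IsPrimitiveRoot ζ 16) {w : AbsGal F} (hw : w ζ = ζ) : Au F w = 1 := by
  rw [← map_one (Au F)]
  exact Au_eq hζ (by rw [hw]; rfl)

/-- the action on `√2` -/
lemma act_sqrt {t : AlgebraicClosure F} (ht : t ^ 2 = 2) (h : AbsGal F) :
    red (phi0 (Au F h : ZMod 16)) ≠ 0 ↔ h t ≠ t := by
  have h8 : ζ ^ 8 = -1 := pow_eight hζ
  have hw : (ζ ^ 2 + ζ ^ 14) ^ 2 = 2 := by
    linear_combination (2 * ζ ^ 8 - 2 + ζ ^ 4 * (ζ ^ 16 - ζ ^ 8 + 1)) * h8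
  have hw0 : ζ ^ 2 + ζ ^ 14 ≠ 0 := by
    intro h0
    rw [h0] at hw
    norm_num at hw
  have hne : -(ζ ^ 2 + ζ ^ 14) ≠ ζ ^ 2 + ζ ^ 14 := by
    intro h1
    have h2 : (2 : AlgebraicClosure F) * (ζ ^ 2 + ζ ^ 14) = 0 := by linear_combination -h1
    rcases mul_eq_zero.mp h2 with h3 | h3
    · norm_num at h3
    · exact hw0 h3
  have hz : h (ζ ^ 2 + ζ ^ 14) = ζ ^ (2 * (Au F h : ZMod 16).val) +
      ζ ^ (14 * (Au F h : ZMod 16).val) := by
    rw [map_add, map_pow, map_pow, act_zeta hζ, ← pow_mul, ← pow_mul, mul_comm 2, mul_comm 14]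
  have key : red (phi0 (Au F h : ZMod 16)) ≠ 0 ↔ h (ζ ^ 2 + ζ ^ 14) ≠ ζ ^ 2 + ζ ^ 14 := by
    by_cases hr : red (phi0 (Au F h : ZMod 16)) = 0
    · have h1 : h (ζ ^ 2 + ζ ^ 14) = ζ ^ 2 + ζ ^ 14 := by
        rw [hz]
        rcases phi0_even _ (unit_odd (Au F h)) hr with ⟨h2, h3⟩ | ⟨h2, h3⟩
        · rw [pow_congr hζ (a := 2 * _) (b := 2) h2, pow_congr hζ (a := 14 * _) (b := 14) h3]
        · rw [pow_congr hζ (a := 2 * _) (b := 14) h2, pow_congr hζ (a := 14 * _) (b := 2) h3,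
            add_comm]
      simp [hr, h1]
    · have e6 : ζ ^ 6 + ζ ^ 10 = -(ζ ^ 2 + ζ ^ 14) := by
        linear_combination (ζ ^ 2 + ζ ^ 6) * h8
      have h1 : h (ζ ^ 2 + ζ ^ 14) = -(ζ ^ 2 + ζ ^ 14) := by
        rw [hz, ← e6]
        rcases phi0_odd _ (unit_odd (Au F h)) hr with ⟨h2, h3⟩ | ⟨h2, h3⟩
        · rw [pow_congr hζ (a := 2 * _) (b := 6) h2, pow_congr hζ (a := 14 * _) (b := 10) h3]
        · rw [pow_congr hζ (a := 2 * _) (b := 10) h2, pow_congr hζ (a := 14 * _) (b := 6) h3,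
            add_comm]
      simp only [ne_eq, hr, not_false_eq_true, h1, hne]
  rw [key]
  have h1 : (t - (ζ ^ 2 + ζ ^ 14)) * (t + (ζ ^ 2 + ζ ^ 14)) = 0 := by
    linear_combination ht - hw
  rcases mul_eq_zero.mp h1 with h2 | h2
  · rw [sub_eq_zero.mp h2]
  · rw [eq_neg_of_add_eq_zero_left h2, map_neg]
    simp only [ne_eq, neg_inj]

end Act

/-! ### Smoothness -/

section Smooth

variable {F : Type} [Field F] [NumberField F]

/-- The stabiliser of finitely many elements is open. -/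
lemma isOpen_stab {S : Set (AlgebraicClosure F)} (hS : S.Finite) :
    ∃ W : Subgroup (AbsGal F), IsOpen (W : Set (AbsGal F)) ∧ ∀ w ∈ W, ∀ x ∈ S, w x = x := by
  have : FiniteDimensional F (IntermediateField.adjoin F S) := by
    have := hS.to_subtype
    exact IntermediateField.finiteDimensional_adjoin
      (fun x _ => (Algebra.IsIntegral.isIntegral x))
  refine ⟨(IntermediateField.adjoin F S).fixingSubgroup,
    IntermediateField.fixingSubgroup_isOpen _, fun w hw x hx => ?_⟩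
  rw [IntermediateField.mem_fixingSubgroup_iff] at hw
  exact hw x (IntermediateField.subset_adjoin F S hx)

end Smooth

/-! ### Units outside `2` -/

section TwoUnit

variable {F : Type} [Field F] [NumberField F]

lemma tu_of_pow {x : AlgebraicClosure F} {n : ℕ} (hn : 0 < n) (h : IsTwoUnit (x ^ n)) :
    IsTwoUnit x := by
  obtain ⟨h0, k, hk, hk'⟩ := h
  have h2 : IsIntegral ℤ (2 : AlgebraicClosure F) := by
    have : IsIntegral ℤ (algebraMap ℤ (AlgebraicClosure F) 2) := isIntegral_algebraMap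
    simpa using this
  obtain ⟨m, rfl⟩ : ∃ m, n = m + 1 := ⟨n - 1, by omega⟩
  have key : ∀ z : AlgebraicClosure F, IsIntegral ℤ (2 ^ k * z ^ (m + 1)) →
      IsIntegral ℤ (2 ^ k * z) := by
    intro z hz
    refine IsIntegral.of_pow hn ?_
    have h3 : (2 ^ k * z) ^ (m + 1) = (2 : AlgebraicClosure F) ^ (k * m) *
        (2 ^ k * z ^ (m + 1)) := by
      rw [mul_pow, ← mul_assoc, ← pow_mul, ← pow_add]
      ring_nf
    rw [h3]
    exact (h2.pow _).mul hz
  refine ⟨fun h => h0 (by rw [h, zero_pow (by omega)]), k, key x hk, key x⁻¹ ?_⟩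
  rw [inv_pow]
  exact hk'

lemma int_map (c : AlgebraicClosure F ≃+* AlgebraicClosure F) {x : AlgebraicClosure F}
    (h : IsIntegral ℤ x) : IsIntegral ℤ (c x) :=
  h.map (c : AlgebraicClosure F →+* AlgebraicClosure F).toIntAlgHom

lemma tu_map (c : AlgebraicClosure F ≃+* AlgebraicClosure F) {x : AlgebraicClosure F}
    (h : IsTwoUnit x) : IsTwoUnit (c x) := by
  obtain ⟨h0, k, hk, hk'⟩ := h
  refine ⟨by simpa using h0, k, ?_, ?_⟩
  · have := int_map c hk
    rwa [map_mul, map_pow, map_ofNat] at this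
  · have := int_map c hk'
    rwa [map_mul, map_pow, map_ofNat, map_inv₀] at this

lemma tu_mul {x y : AlgebraicClosure F} (hx : IsTwoUnit x) (hy : IsTwoUnit y) :
    IsTwoUnit (x * y) := by
  obtain ⟨h0, k, hk, hk'⟩ := hx
  obtain ⟨g0, l, hl, hl'⟩ := hy
  refine ⟨mul_ne_zero h0 g0, k + l, ?_, ?_⟩
  · have h1 : (2 : AlgebraicClosure F) ^ (k + l) * (x * y) = (2 ^ k * x) * (2 ^ l * y) := by
      ring
    rw [h1]
    exact hk.mul hl
  · have h1 : (2 : AlgebraicClosure F) ^ (k + l) * (x * y)⁻¹ = (2 ^ k * x⁻¹) * (2 ^ l * y⁻¹) := by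
      rw [mul_inv]
      ring
    rw [h1]
    exact hk'.mul hl'

lemma tu_one_sub {ζ : AlgebraicClosure F} (hζ : IsPrimitiveRoot ζ 16) (a : (ZMod 16)ˣ) :
    IsTwoUnit (1 - ζ ^ (a : ZMod 16).val) := by
  have hint : ∀ b : (ZMod 16)ˣ, IsIntegral ℤ (1 - ζ ^ (b : ZMod 16).val) := fun b =>
    isIntegral_one.sub ((hζ.isIntegral (by norm_num)).pow _)
  have h2 : IsIntegral ℤ (2 : AlgebraicClosure F) := by
    have : IsIntegral ℤ (algebraMap ℤ (AlgebraicClosure F) 2) := isIntegral_algebraMap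
    simpa using this
  have h3 := prod_units hζ
  rw [← Finset.mul_prod_erase _ _ (Finset.mem_univ a)] at h3
  have h0 : 1 - ζ ^ (a : ZMod 16).val ≠ 0 := by
    intro h0
    rw [h0, zero_mul] at h3
    norm_num at h3
  refine ⟨h0, 1, ?_, ?_⟩
  · rw [pow_one]
    exact h2.mul (hint a)
  · rw [pow_one, ← h3, mul_comm, inv_mul_cancel_left₀ h0]
    exact IsIntegral.prod _ (fun b _ => hint b)

lemma tu_zeta {ζ : AlgebraicClosure F} (hζ : IsPrimitiveRoot ζ 16) : IsTwoUnit ζ := by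
  refine ⟨hζ.ne_zero (by norm_num), 0, ?_, ?_⟩
  · rw [pow_zero, one_mul]
    exact hζ.isIntegral (by norm_num)
  · rw [pow_zero, one_mul]
    exact hζ.inv.isIntegral (by norm_num)

lemma fixR (hS : StSq) {x : AlgebraicClosure F} (hx : IsTwoUnit x) (n : ℕ)
    (h : ∀ r ∈ R F, r (x ^ 2 ^ n) = x ^ 2 ^ n) : ∀ r ∈ R F, r x = x := by
  induction n generalizing x with
  | zero => simpa using h
  | succ n ih =>
    apply hS F x hx
    have hx2 : IsTwoUnit (x ^ 2) := by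
      rw [sq]
      exact tu_mul hx hx
    apply ih hx2
    intro r hr
    rw [← pow_mul, ← pow_succ']
    exact h r hr

/-- The norms of units outside `2` are powers of `2`. -/
lemma norm_pow {q : ℕ} {s : F} (hyp : FieldHyp q F s) {σ : F ≃+* F} (hσ : σ s = -s) (b : F)
    (hb : IsTwoUnit (algebraMap F (AlgebraicClosure F) b))
    (hb' : IsTwoUnit (algebraMap F (AlgebraicClosure F) (σ b))) :
    ∃ m : ℤ, b * σ b = 2 ^ m := by
  have hq0 : 0 < q := hyp.hq0
  obtain ⟨u, v, rfl⟩ := exists_coords hq0 hyp.hF hyp.hs b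
  have h1 : ((u : F) + v * s) * σ ((u : F) + v * s) = ((u ^ 2 + q * v ^ 2 : ℚ) : F) := by
    rw [map_add, map_mul, hσ, map_ratCast, map_ratCast]
    push_cast
    linear_combination (-(v : F) ^ 2) * hyp.hs
  have h2 := tu_mul hb hb'
  rw [← map_mul, h1] at h2
  set N : ℚ := u ^ 2 + q * v ^ 2 with hN
  have hN0 : (algebraMap F (AlgebraicClosure F) (N : F)) = algebraMap ℚ (AlgebraicClosure F) N := by
    rw [map_ratCast, eq_ratCast]
  rw [hN0] at h2
  obtain ⟨h0, k, hk, hk'⟩ := h2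
  have hne : N ≠ 0 := fun h => h0 (by rw [h, map_zero])
  have hpos : 0 < N := by
    have : 0 ≤ N := by positivity
    exact lt_of_le_of_ne this (Ne.symm hne)
  have inj : Function.Injective (algebraMap ℚ (AlgebraicClosure F)) :=
    (algebraMap ℚ (AlgebraicClosure F)).injective
  have key : ∀ z : ℚ, IsIntegral ℤ (2 ^ k * algebraMap ℚ (AlgebraicClosure F) z) →
      ∃ n : ℤ, (n : ℚ) = 2 ^ k * z := by
    intro z hz
    have h3 : (2 : AlgebraicClosure F) ^ k * algebraMap ℚ (AlgebraicClosure F) z =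
        algebraMap ℚ (AlgebraicClosure F) (2 ^ k * z) := by
      rw [map_mul, map_pow, map_ofNat]
    rw [h3, isIntegral_algebraMap_iff inj] at hz
    exact IsIntegrallyClosed.isIntegral_iff.mp hz
  obtain ⟨n, hn⟩ := key N hk
  rw [← map_inv₀] at hk'
  obtain ⟨n', hn'⟩ := key N⁻¹ hk'
  have hnn : n * n' = 2 ^ (k + k) := by
    have : (n : ℚ) * n' = 2 ^ (k + k) := by
      rw [hn, hn', pow_add]
      field_simp
    exact_mod_cast this
  have hnpos : 0 < n := by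
    have : (0 : ℚ) < n := by
      rw [hn]
      positivity
    exact_mod_cast this
  obtain ⟨j, -, hj⟩ : ∃ j, j ≤ k + k ∧ n.natAbs = 2 ^ j := by
    rw [← Nat.dvd_prime_pow Nat.prime_two]
    have h4 : n ∣ 2 ^ (k + k) := ⟨n', hnn.symm⟩
    have h5 := Int.natAbs_dvd_natAbs.mpr h4
    rwa [Int.natAbs_pow] at h5
  have hj' : (n : ℚ) = 2 ^ j := by
    have : n = 2 ^ j := by
      rw [← Int.natAbs_of_nonneg hnpos.le, hj]
      push_cast
      rfl
    rw [this]
    push_cast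
    rfl
  refine ⟨(j : ℤ) - k, ?_⟩
  rw [h1]
  have h6 : N = 2 ^ ((j : ℤ) - k) := by
    rw [zpow_sub₀ two_ne_zero, zpow_natCast, zpow_natCast, ← hj', hn]
    field_simp
  rw [h6]
  push_cast
  rfl

end TwoUnit

/-! ### Complex conjugation -/

section CC

variable {F : Type} [Field F] [NumberField F] {s : F} {c : AlgebraicClosure F ≃+* AlgebraicClosure F}
  {σ : F ≃+* F} (hcs : ConjHyp s c σ) {ζ : AlgebraicClosure F} (hζ : IsPrimitiveRoot ζ 16)

include hcs

lemma c_symm (x : AlgebraicClosure F) : c.symm x = c x := by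
  rw [RingEquiv.symm_apply_eq, hcs.hc]

lemma c_i (hs : s ≠ 0) {i : AlgebraicClosure F} (hi : i ^ 2 = -1) : c i = -i := by
  have h1 : (c i - i) * (c i + i) = 0 := by
    have h2 : (c i) ^ 2 = -1 := by rw [← map_pow, hi, map_neg, map_one]
    linear_combination h2 - hi
  rcases mul_eq_zero.mp h1 with h2 | h2
  · exfalso
    have hci : c i = i := sub_eq_zero.mp h2
    obtain ⟨u, hu⟩ := IsAlgClosed.exists_pow_nat_eq (algebraMap F (AlgebraicClosure F) s)
      (n := 2) (by norm_num)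
    have hcu : (c u) ^ 2 = -u ^ 2 := by
      rw [← map_pow, hu, hcs.h, hcs.hσ, map_neg]
    have h3 : (c u - i * u) * (c u + i * u) = 0 := by
      linear_combination hcu - u ^ 2 * hi
    have hu0 : u ≠ 0 := by
      rintro rfl
      rw [zero_pow two_ne_zero] at hu
      exact hs ((map_eq_zero _).mp hu.symm)
    have h4 : u = -u := by
      rcases mul_eq_zero.mp h3 with h5 | h5
      · have h6 : c u = i * u := sub_eq_zero.mp h5
        have h7 := hcs.hc u
        rw [h6, map_mul, hci, h6] at h7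
        linear_combination -h7 + u * hi
      · have h6 : c u = -(i * u) := eq_neg_of_add_eq_zero_left h5
        have h7 := hcs.hc u
        rw [h6, map_neg, map_mul, hci, h6] at h7
        linear_combination -h7 + u * hi
    have h8 : (2 : AlgebraicClosure F) * u = 0 := by linear_combination h4
    rcases mul_eq_zero.mp h8 with h9 | h9
    · norm_num at h9
    · exact hu0 h9
  · exact eq_neg_of_add_eq_zero_left h2

include hζ

lemma c_E (hs : s ≠ 0) (κ : ZMod 4) : c (E ζ κ) = E ζ (-κ) := by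
  have h1 : E ζ κ = E ζ 1 ^ κ.val := by
    rw [E_pow hζ, ZMod.natCast_zmod_val, mul_one]
  have h2 : c (E ζ 1) = E ζ (-1) := by
    rw [c_i hcs hs (E_one_sq hζ), E_neg hζ]
    apply eq_inv_of_mul_eq_one_left
    linear_combination -(E_one_sq hζ)
  rw [h1, map_pow, h2, E_pow hζ, ZMod.natCast_zmod_val]
  congr 1
  ring

/-- the conjugate of the cyclotomic character modulo `16` -/
lemma Au_conj (g : AbsGal F) : Au F (conj c σ hcs.h g) = Au F g := by
  apply Au_eq hζ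
  obtain ⟨m, -, hm⟩ := hζ.eq_pow_of_pow_eq_one
    (show c ζ ^ 16 = 1 by rw [← map_pow, hζ.pow_eq_one, map_one])
  have h1 : conj c σ hcs.h g ζ = c (g (c.symm ζ)) := rfl
  have h2 : ζ ^ (m * m) = ζ := by
    have := hcs.hc ζ
    rw [← hm, map_pow, ← hm, ← pow_mul] at this
    exact this
  rw [h1, c_symm hcs, ← hm, map_pow, act_zeta hζ, ← pow_mul, map_pow, ← hm, ← pow_mul]
  have h3 : m * ((Au F g : ZMod 16).val * m) = m * m * (Au F g : ZMod 16).val := by ring
  rw [h3, pow_mul, h2]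

end CC

/-! ### The cochain for `1 - ζ` -/

section Theta

variable {F : Type} [Field F] [NumberField F]

/-- the coboundary relation of the product of the `1 - ζ ^ a` -/
lemma theta_rel {k : AbsGal F → (ZMod 16)ˣ → ZMod 4}
    (hk : ∀ g h a, k (g * h) a = chi4 (cyc F) g * k h a + k g (Au F h * a)) (g h : AbsGal F) :
    chi4 (cyc F) g * (∑ a : (ZMod 16)ˣ, phi0 (a : ZMod 16) * k h a) -
      (∑ a : (ZMod 16)ˣ, phi0 (a : ZMod 16) * k (g * h) a) +
      (∑ a : (ZMod 16)ˣ, phi0 (a : ZMod 16) * k g a) =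
    (∑ a : (ZMod 16)ˣ, k g a) * phi0 (Au F h : ZMod 16) := by
  have h1 : ∑ a : (ZMod 16)ˣ, phi0 (a : ZMod 16) * k g (Au F h * a) =
      ∑ a : (ZMod 16)ˣ, (phi0 (a : ZMod 16) - phi0 (Au F h : ZMod 16)) * k g a := by
    rw [← Equiv.sum_comp (Equiv.mulLeft (Au F h))
      (fun a : (ZMod 16)ˣ => (phi0 (a : ZMod 16) - phi0 (Au F h : ZMod 16)) * k g a)]
    refine Finset.sum_congr rfl fun a _ => ?_
    rw [Equiv.coe_mulLeft, phi0_mul]
    ring
  have h2 : ∑ a : (ZMod 16)ˣ, phi0 (a : ZMod 16) * k (g * h) a =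
      chi4 (cyc F) g * (∑ a : (ZMod 16)ˣ, phi0 (a : ZMod 16) * k h a) +
      ∑ a : (ZMod 16)ˣ, phi0 (a : ZMod 16) * k g (Au F h * a) := by
    rw [Finset.mul_sum, ← Finset.sum_add_distrib]
    refine Finset.sum_congr rfl fun a _ => ?_
    rw [hk]
    ring
  have h3 : ∑ a : (ZMod 16)ˣ, (phi0 (a : ZMod 16) - phi0 (Au F h : ZMod 16)) * k g a =
      (∑ a : (ZMod 16)ˣ, phi0 (a : ZMod 16) * k g a) -
      (∑ a : (ZMod 16)ˣ, k g a) * phi0 (Au F h : ZMod 16) := by
    rw [Finset.sum_mul, ← Finset.sum_sub_distrib]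
    refine Finset.sum_congr rfl fun a _ => ?_
    ring
  rw [h2, h1, h3]
  ring

end Theta

end Cyc

open Cyc Pool.Agent.Lib.MP_7c08ba_nt in
/-- Module CYC. -/
theorem stCyc (_hA : StAdm) (hS : StSq) : StCyc := by
  intro q F _ _ s hyp c σ hcs y t hy hyf ht
  have hs0 : s ≠ 0 := by
    rintro rfl
    have h1 := hyp.hs
    rw [zero_pow two_ne_zero, eq_comm, neg_eq_zero] at h1
    exact hyp.hq0.ne' (by exact_mod_cast h1)
  obtain ⟨ζ, hζ⟩ := HasEnoughRootsOfUnity.exists_primitiveRoot (AlgebraicClosure F) (2 ^ 4)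
  replace hζ : IsPrimitiveRoot ζ 16 := hζ
  -- the roots
  obtain ⟨r, hr⟩ := IsAlgClosed.exists_pow_nat_eq y (n := 2) (by norm_num)
  have hR : ∀ a : (ZMod 16)ˣ, ∃ z : AlgebraicClosure F, z ^ 4 = 1 - ζ ^ (a : ZMod 16).val :=
    fun a => IsAlgClosed.exists_pow_nat_eq _ (by norm_num)
  choose Rt hRt using hR
  have hr4 : r ^ 4 = y ^ 2 := by rw [← hr]; ring
  have htr : IsTwoUnit r := tu_of_pow (n := 2) (by norm_num) (by rw [hr]; exact hy)
  have htR : ∀ a, IsTwoUnit (Rt a) := fun a => tu_of_pow (n := 4) (by norm_num)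
    (by rw [hRt]; exact tu_one_sub hζ a)
  have hr0 : r ≠ 0 := htr.1
  have hR0 : ∀ a, Rt a ≠ 0 := fun a => (htR a).1
  obtain ⟨b, hb⟩ : y ^ 2 ∈ Set.range (algebraMap F (AlgebraicClosure F)) := by
    rw [InfiniteGalois.mem_range_algebraMap_iff_fixed]
    exact hyf
  have hcb : c (y ^ 2) = algebraMap F (AlgebraicClosure F) (σ b) := by rw [← hb, hcs.h]
  -- invariance under `R`
  have hRζ : ∀ w ∈ R F, w ζ = ζ := fixR hS (tu_zeta hζ) 4 (fun w _ => by
    have : ζ ^ 2 ^ 4 = 1 := hζ.pow_eq_one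
    rw [this, map_one])
  have hRr : ∀ w ∈ R F, w r = r := fixR hS htr 2 (fun w _ => by
    have : r ^ 2 ^ 2 = y ^ 2 := hr4
    rw [this, hyf])
  have hRR : ∀ w ∈ R F, ∀ a, w (Rt a) = Rt a := by
    intro w hw a
    refine fixR hS (htR a) 2 (fun w hw => ?_) w hw
    have : Rt a ^ 2 ^ 2 = 1 - ζ ^ (a : ZMod 16).val := hRt a
    rw [this, map_sub, map_one, map_pow, hRζ w hw]
  -- Kummer cocycles
  obtain ⟨κ₀, hκ, hκc⟩ := kum hζ (fun _ : Unit => r) (fun _ => hr0) (fun _ _ => ())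
    (fun _ _ _ => rfl) (fun g _ => by rw [← map_pow, hr4, hyf])
  obtain ⟨κ₁, hκ', -⟩ := kum hζ (fun _ : Unit => c r) (fun _ => by simpa using hr0)
    (fun _ _ => ()) (fun _ _ _ => rfl) (fun g _ => by
      rw [← map_pow, ← map_pow, hr4, hcb, AlgEquiv.commutes])
  obtain ⟨k, hk, hkc⟩ := kum hζ Rt hR0 (fun g a => Au F g * a)
    (fun g h a => by rw [map_mul, mul_assoc]) (fun g a => by
      rw [← map_pow, hRt, hRt, map_sub, map_one, map_pow, act_zeta hζ, ← pow_mul]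
      congr 1
      apply pow_congr hζ
      rw [Units.val_mul, ZMod.val_mul, Nat.mod_mod])
  set κ : AbsGal F → ZMod 4 := fun g => κ₀ g () with hκdef
  set κ' : AbsGal F → ZMod 4 := fun g => κ₁ g () with hκdef'
  have hκr : ∀ g, g r = E ζ (κ g) * r := fun g => hκ g ()
  have hκr' : ∀ g, g (c r) = E ζ (κ' g) * c r := fun g => hκ' g ()
  have hκm : ∀ g h, κ (g * h) = chi4 (cyc F) g * κ h + κ g := fun g h => hκc g h ()
  set φ : AbsGal F → ZMod 4 := fun g => phi0 (Au F g : ZMod 16) with hφ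
  have hφm : ∀ g h, φ (g * h) = φ g + φ h := fun g h => by
    simp only [hφ]
    rw [map_mul, phi0_mul]
  -- invariance
  have inv1 : ∀ w : AbsGal F, w r = r → ∀ g, κ (g * w) = κ g := fun w hw g =>
    kum_inv hζ (x := fun _ : Unit => r) (act := fun _ _ => ()) (fun _ => hr0)
      (fun _ _ _ => rfl) hκ (fun _ => rfl) (fun _ => hw) g ()
  have inv2 : ∀ w : AbsGal F, w ζ = ζ → ∀ g, φ (g * w) = φ g := fun w hw g => by
    simp only [hφ]
    rw [map_mul, Au_one hζ hw, mul_one]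
  have inv3 : ∀ w : AbsGal F, w ζ = ζ → (∀ a, w (Rt a) = Rt a) → ∀ g a, k (g * w) a = k g a :=
    fun w hw hw' g a => kum_inv hζ hR0 (fun g h a => by rw [map_mul, mul_assoc]) hk
      (fun a => by rw [Au_one hζ hw, one_mul]) hw' g a
  obtain ⟨W, hW, hWS⟩ := isOpen_stab (F := F) (S := {r, ζ} ∪ Set.range Rt)
    ((Set.toFinite _).union (Set.finite_range Rt))
  have hWr : ∀ w ∈ W, w r = r := fun w hw => hWS w hw r (by simp)
  have hWζ : ∀ w ∈ W, w ζ = ζ := fun w hw => hWS w hw ζ (by simp)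
  have hWR : ∀ w ∈ W, ∀ a, w (Rt a) = Rt a := fun w hw a => hWS w hw (Rt a) (by simp)
  -- conjugation
  have hconj : ∀ g, κ (conj c σ hcs.h g) = -κ' g := by
    intro g
    apply E_inj hζ
    apply mul_right_cancel₀ hr0
    rw [← hκr]
    change c (g (c.symm r)) = _
    rw [c_symm hcs, hκr', map_mul, c_E hcs hζ hs0, hcs.hc]
  have hφconj : ∀ g, φ (conj c σ hcs.h g) = φ g := fun g => by
    simp only [hφ]
    rw [Au_conj hcs hζ]
  -- the norm relation
  obtain ⟨m, hm⟩ := norm_pow hyp hcs.hσ b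
    (by
      rw [hb, sq]
      exact tu_mul hy hy)
    (by
      rw [← hcb, sq, map_mul]
      exact tu_mul (tu_map c hy) (tu_map c hy))
  set θ : AlgebraicClosure F := ∏ a, Rt a with hθ
  have hθ0 : θ ≠ 0 := Finset.prod_ne_zero_iff.mpr fun a _ => hR0 a
  have hθ4 : θ ^ 4 = 2 := by
    rw [hθ, ← Finset.prod_pow, ← prod_units hζ]
    exact Finset.prod_congr rfl fun a _ => hRt a
  have hθg : ∀ g : AbsGal F, g θ = E ζ (∑ a, k g a) * θ := by
    intro g
    have hEs : ∀ S : Finset (ZMod 16)ˣ, ∏ a ∈ S, E ζ (k g a) = E ζ (∑ a ∈ S, k g a) := by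
      intro S
      induction S using Finset.induction_on with
      | empty => simp [E_zero]
      | insert a S ha ih => rw [Finset.prod_insert ha, Finset.sum_insert ha, E_add hζ, ih]
    rw [hθ, map_prod, ← hEs]
    have h1 : ∏ a, g (Rt a) = ∏ a, (E ζ (k g a) * Rt (Au F g * a)) :=
      Finset.prod_congr rfl fun a _ => hk g a
    rw [h1, Finset.prod_mul_distrib]
    congr 1
    exact Equiv.prod_comp (Equiv.mulLeft (Au F g)) Rt
  obtain ⟨e, he⟩ : ∃ e : ZMod 4, r * c r / θ ^ m = E ζ e := by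
    apply E_surj hζ
    have h1 : r ^ 4 * (c r) ^ 4 = 2 ^ m := by
      rw [← map_pow, hr4, hcb, ← hb, ← map_mul, hm, map_zpow₀, map_ofNat]
    have h2 : (θ ^ m) ^ 4 = 2 ^ m := by
      rw [← zpow_natCast, ← zpow_mul, mul_comm m, zpow_mul, zpow_natCast, hθ4]
    rw [div_pow, mul_pow, h1, h2, div_self (zpow_ne_zero _ two_ne_zero)]
  have he' : r * c r = E ζ e * θ ^ m := by
    rw [← he, div_mul_cancel₀ _ (zpow_ne_zero _ hθ0)]
  have hrel : ∀ g, κ g + κ' g + e = chi4 (cyc F) g * e + m * ∑ a, k g a := by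
    intro g
    apply E_inj hζ
    apply mul_right_cancel₀ (zpow_ne_zero m hθ0)
    have h1 : g (r * c r) = E ζ (κ g + κ' g + e) * θ ^ m := by
      rw [map_mul, hκr, hκr', E_add hζ, E_add hζ]
      linear_combination (E ζ (κ g) * E ζ (κ' g)) * he'
    rw [← h1, he', map_mul, act_E hζ, map_zpow₀, hθg, mul_zpow, E_zpow hζ, E_add hζ, mul_assoc]
  refine ⟨fun g h => κ g * φ h, ⟨⟨W, hW, ?_⟩, ?_⟩, ?_, ?_,
    fun g => -(m * ∑ a : (ZMod 16)ˣ, phi0 (a : ZMod 16) * k g a) - e * φ g, ⟨W, hW, ?_⟩, ?_, ?_⟩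
  · intro g h w hw w' hw'
    simp only
    rw [inv1 w (hWr w hw), inv2 w' (hWζ w' hw')]
  · intro g h j
    simp only
    rw [hκm, hφm]
    ring
  · intro g h w hw w' hw'
    simp only
    rw [inv1 w (hRr w hw), inv2 w' (hRζ w' hw')]
  · intro g h
    simp only
    rw [red_mul, mul_ne_zero_iff, act_sqrt hζ ht]
    have h1 : g y = E ζ (2 * κ g) * y := by
      rw [← hr, map_pow, hκr, mul_pow, E_pow hζ]
      push_cast
      rfl
    have h2 : red (κ g) = 0 ↔ g y = y := by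
      rw [red_eq_zero, h1]
      constructor
      · intro h3
        rw [h3, E_zero, one_mul]
      · intro h3
        apply E_inj hζ
        apply mul_right_cancel₀ hy.1
        rw [h3, E_zero, one_mul]
    rw [ne_eq, h2]
  · intro g w hw
    simp only
    rw [inv2 w (hWζ w hw)]
    congr 3
    refine Finset.sum_congr rfl fun a _ => ?_
    rw [inv3 w (hWζ w hw) (hWR w hw)]
  · intro g w hw
    simp only
    rw [inv2 w (hRζ w hw)]
    congr 3
    refine Finset.sum_congr rfl fun a _ => ?_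
    rw [inv3 w (hRζ w hw) (hRR w hw)]
  · intro g h
    simp only
    have h1 := theta_rel hkc g h
    have h2 := hrel g
    have h3 : phi0 (Au F h : ZMod 16) = φ h := rfl
    rw [h3] at h1
    rw [hconj, hφconj, hφm]
    linear_combination (m : ZMod 4) * h1 - φ h * h2

end BKPar
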