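import Pool.Agent.Lib.MP_7c08ba_nt.Par.Stmts
import Pool.Agent.Lib.MP_7c08ba_nt.Gen.Main

set_option autoImplicit false

/-!
Module FIN: the cocycles which vanish on `R` form a space of finite dimension.
-/

noncomputable section

namespace BKPar

universe u

/-- the indicator of the complement of an open subgroup of index two is a smooth homomorphism -/
theorem indicator_mem_Hom2 {G : Type*} [Group G] [TopologicalSpace G] (N : Subgroup G)
    (hi : N.index = 2) (ho : IsOpen (N : Set G)) [DecidablePred (· ∈ N)] :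
    (fun g : G => if g ∈ N then (0 : ZMod 2) else 1) ∈ Hom2 G := by
  refine ⟨⟨N, ho, fun g w hw => ?_⟩, fun x y => ?_⟩
  · have h1 : g * w ∈ N ↔ g ∈ N := N.mul_mem_cancel_right hw
    by_cases hg : g ∈ N
    · simp only [if_pos hg, if_pos (h1.mpr hg)]
    · simp only [if_neg hg, if_neg (fun h => hg (h1.mp h))]
  · have h1 : x * y ∈ N ↔ (x ∈ N ↔ y ∈ N) := Subgroup.mul_mem_iff_of_index_two hi
    by_cases hx : x ∈ N
    · by_cases hy : y ∈ N
      · simp only [if_pos hx, if_pos hy, if_pos (h1.mpr (iff_of_true hx hy)), add_zero]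
      · simp only [if_pos hx, if_neg hy, if_neg (fun h => hy ((h1.mp h).mp hx)), zero_add]
    · by_cases hy : y ∈ N
      · simp only [if_neg hx, if_pos hy, if_neg (fun h => hx ((h1.mp h).mpr hy)), add_zero]
      · simp only [if_neg hx, if_neg hy, if_pos (h1.mpr (iff_of_false hx hy))]
        decide

theorem stFin : StFin.{u} := by
  intro Γ _ _ _ _ _ R hfin L _ _ h2 n ρ hρ hres W hW hR
  classical
  let S : Set (Γ → ZMod 2) := {f | f ∈ Hom2 Γ ∧ ∀ r ∈ R, f r = 0}
  have hS : Finite S := hfin
  let gf : S → Γ := fun f => if h : ∃ g, f.1 g ≠ 0 then h.choose else 1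
  let Φ : W →ₗ[L] (S → Fin n → L) :=
    { toFun := fun x f => x.1 (gf f)
      map_add' := fun x y => rfl
      map_smul' := fun a x => rfl }
  have hinj : Function.Injective Φ := by
    rw [injective_iff_map_eq_zero]
    intro x hx
    by_contra hne
    have hx1 : x.1 ≠ 0 := fun h => hne (Subtype.ext h)
    obtain ⟨σ₀, hσ₀⟩ := Function.ne_iff.mp hx1
    obtain ⟨hxc, hxcoc⟩ := hW x.2
    let ρ0 : Γ →* Matrix (Fin n) (Fin n) L := (Units.coeHom _).comp ρ
    have hρ0 : Continuous ρ0 := Units.continuous_val.comp hρ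
    obtain ⟨N, hN, hNi, hNo, hNz⟩ := BKGen.exists_index_p_of_cocycle (p := 2)
      (by simpa using h2) ρ0 hρ0 x.1 hxc hxcoc (fun σ i => hres σ i) σ₀ hσ₀
    let f : Γ → ZMod 2 := fun g => if g ∈ N then (0 : ZMod 2) else 1
    have hf : f ∈ S := by
      refine ⟨indicator_mem_Hom2 N hNi hNo, fun r hr => ?_⟩
      exact if_pos (hNz r (hR x.1 x.2 r hr))
    have hex : ∃ g, f g ≠ 0 := by
      by_contra hcon
      push Not at hcon
      have htop : N = ⊤ := by
        rw [eq_top_iff]
        intro g _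
        by_contra hg
        have h1 : f g = 1 := if_neg hg
        rw [hcon g] at h1
        exact zero_ne_one h1
      rw [htop, Subgroup.index_top] at hNi
      exact absurd hNi (by decide)
    have hg : gf ⟨f, hf⟩ = hex.choose := dif_pos hex
    have h1 : x.1 (gf ⟨f, hf⟩) = 0 := congrFun hx ⟨f, hf⟩
    have h2 : gf ⟨f, hf⟩ ∈ N := hNz _ h1
    have h3 : f (gf ⟨f, hf⟩) ≠ 0 := by
      rw [hg]; exact hex.choose_spec
    exact h3 (if_pos h2)
  exact FiniteDimensional.of_injective Φ hinj

end BKPar
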