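import Pool.Agent.Lib.MP_7c08ba_nt.Par.Stmts
import Pool.Agent.Lib.MP_7c08ba_nt.Gen.Main

set_option autoImplicit false

/-!
Module KILL: `R` acts trivially on residually unipotent representations unramified outside `2`,
and cocycles which vanish on the inertia groups vanish on `R`.
-/

noncomputable section

namespace BKPar.Kill

open Pool.Agent.Lib.MP_7c08ba_nt NumberField Matrix Polynomial BKGen

section General

variable {L : Type*} [NormedField L] [IsUltrametricDist L]
variable {G : Type*} [Group G] [TopologicalSpace G] [IsTopologicalGroup G] [CompactSpace G]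
variable {n : Type*} [Fintype n] [DecidableEq n]

/-- the index of the subgroup of elements close to one is a power of `p` -/
theorem near_index {p : ℕ} [Fact p.Prime] (hpL : ‖(p : L)‖ < 1)
    (M : G →* Matrix n n L) (hM : Continuous M)
    (hu : ∀ σ i, ‖((M σ).charpoly - (X - 1) ^ Fintype.card n).coeff i‖ < 1)
    {ε : ℝ} (hε : 0 < ε) : ∃ k : ℕ, (near M ε hε).index = p ^ k := by
  have hp : p.Prime := Fact.out
  obtain ⟨C, hC1, hC⟩ := exists_entry_bound M hM
  have hC0 : (0 : ℝ) ≤ C := zero_le_one.trans hC1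
  have hBd1 : Bd M 1 (C * 1 * C) := bd_of_entries M hC0 hC 1 zero_le_one (by
    intro i j
    by_cases h : i = j
    · subst h; simp
    · rw [Matrix.one_apply_ne h]; simp)
  set U := near M ε hε with hU
  have hUn : U.Normal := near_normal M ε hε
  have hUo : IsOpen (U : Set G) := near_isOpen M hM ε hε
  have hfin : Finite (G ⧸ U) := U.quotient_finite_of_isOpen hUo
  have hpg : IsPGroup p (G ⧸ U) := by
    rw [isPGroup_iff_pow_pow_eq_one]
    intro x
    obtain ⟨σ, rfl⟩ := QuotientGroup.mk'_surjective U x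
    obtain ⟨k, hk⟩ := Bd.pow_sub_one hp hpL hBd1 (by positivity) σ (hu σ) hε
    refine ⟨k, ?_⟩
    rw [← map_pow]
    refine (QuotientGroup.eq_one_iff _).mpr ?_
    change Bd M (M (σ ^ p ^ k) - 1) ε
    rw [map_pow]
    exact hk
  obtain ⟨k, hk⟩ := (IsPGroup.iff_card).mp hpg
  exact ⟨k, hk⟩

end General

/-- The group `R` acts trivially on every residually unipotent matrix representation on which
the inertia groups outside `2` act trivially. -/
theorem eq_one {F : Type} [Field F] [NumberField F] {L : Type*} [NormedField L]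
    [IsUltrametricDist L] (hL : ‖(2 : L)‖ < 1) {n : Type*} [Fintype n] [DecidableEq n]
    (M : AbsGal F →* Matrix n n L) (hM : Continuous M)
    (hu : ∀ σ i, ‖((M σ).charpoly - (X - 1) ^ Fintype.card n).coeff i‖ < 1)
    (hI : ∀ P : Ideal (AllInt F), P.IsPrime → (2 : AllInt F) ∉ P → ∀ g ∈ inert F P, M g = 1)
    (r : AbsGal F) (hr : r ∈ R F) : M r = 1 := by
  have h2 : Fact (Nat.Prime 2) := ⟨Nat.prime_two⟩
  have hL2 : ‖((2 : ℕ) : L)‖ < 1 := by exact_mod_cast hL
  have key : ∀ ε : ℝ, 0 < ε → ∀ i j, ‖(M r - 1) i j‖ ≤ ε := by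
    intro ε hε i j
    have hadm : IsAdm F (near M ε hε) := by
      refine ⟨near_normal M ε hε, near_isOpen M hM ε hε, near_index hL2 M hM hu hε, ?_⟩
      intro P hP h2P g hg
      change Bd M (M g - 1) ε
      rw [hI P hP h2P g hg, sub_self]
      exact Bd.zero hε.le
    have h1 : r ∈ near M ε hε := by
      have h2 := Subgroup.mem_sInf.mp hr
      exact h2 _ hadm
    have h3 : Bd M (M r - 1) ε := h1
    have h4 := h3 1 1 i j
    rwa [map_one, Matrix.one_mul, Matrix.mul_one] at h4
  ext i j
  have h5 : ‖(M r - 1) i j‖ ≤ 0 := le_of_forall_pos_le_add fun ε hε => by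
    rw [zero_add]; exact key ε hε i j
  have h6 : (M r - 1) i j = 0 := norm_le_zero_iff.mp h5
  rw [Matrix.sub_apply, sub_eq_zero] at h6
  exact h6

end BKPar.Kill

namespace BKPar

open Pool.Agent.Lib.MP_7c08ba_nt NumberField Matrix Polynomial BKGen

/-- Module KILL. -/
theorem stKill : StKill := by
  intro F _ _ L _ _ hL n ρ hρ hres hunr
  let M : AbsGal F →* Matrix (Fin n) (Fin n) L := (Units.coeHom _).comp ρ
  have hM : Continuous M := Units.continuous_val.comp hρ
  have hMu : ∀ (σ : AbsGal F) (i : ℕ), ‖((M σ).charpoly - (X - 1) ^ n).coeff i‖ < 1 := hres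
  have hM1 : ∀ P : Ideal (AllInt F), P.IsPrime → (2 : AllInt F) ∉ P →
      ∀ g ∈ inert F P, M g = 1 := by
    intro P hP h2P g hg
    change ((ρ g : Matrix.GeneralLinearGroup (Fin n) L) : Matrix (Fin n) (Fin n) L) = 1
    rw [hunr P hP h2P g hg, Units.val_one]
  refine ⟨fun r hr => ?_, fun x hx hxI r hr => ?_⟩
  · have h1 : M r = 1 := Kill.eq_one hL M hM (by
      intro σ i
      rw [Fintype.card_fin]
      exact hMu σ i) hM1 r hr
    exact Units.ext h1
  · obtain ⟨hxc, hxx⟩ := hx
    have hcoc : IsCocycle M x := hxx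
    have hE : Continuous (extRep M x hcoc) := by
      change Continuous fun σ => Matrix.fromBlocks (M σ) (Matrix.of fun i _ => x σ i) 0 1
      refine Continuous.matrix_fromBlocks hM ?_ continuous_const continuous_const
      exact continuous_matrix fun i _ => (continuous_apply i).comp hxc
    have h1 : extRep M x hcoc r = 1 := Kill.eq_one hL (extRep M x hcoc) hE
      (fun σ i => extRep_charpoly M x hcoc σ (hMu σ) i) (by
        intro P hP h2P g hg
        change Matrix.fromBlocks (M g) (Matrix.of fun i _ => x g i) 0 1 = 1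
        rw [hM1 P hP h2P g hg, hxI P hP h2P g hg, ← Matrix.fromBlocks_one]
        congr 1) r hr
    funext i
    have h2 := congrFun (congrFun h1 (Sum.inl i)) (Sum.inr ())
    have h3 : extRep M x hcoc r (Sum.inl i) (Sum.inr ()) = x r i := rfl
    rw [h3] at h2
    rw [h2]
    simp

end BKPar

end
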