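import Mathlib
import Pool.Agent.Lib.MP_7c08ba_nt.Par.Classes
import Pool.Agent.Lib.MP_7c08ba_nt.Par.Adm
import Pool.Agent.Lib.MP_7c08ba_nt.Par.Alt
import Pool.Agent.Lib.MP_7c08ba_nt.Par.Conj
import Pool.Agent.Lib.MP_7c08ba_nt.Par.Count
import Pool.Agent.Lib.MP_7c08ba_nt.Par.Cyc
import Pool.Agent.Lib.MP_7c08ba_nt.Par.CycR
import Pool.Agent.Lib.MP_7c08ba_nt.Par.DR
import Pool.Agent.Lib.MP_7c08ba_nt.Par.Ext
import Pool.Agent.Lib.MP_7c08ba_nt.Par.Fin
import Pool.Agent.Lib.MP_7c08ba_nt.Par.Gysin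
import Pool.Agent.Lib.MP_7c08ba_nt.Par.Kill
import Pool.Agent.Lib.MP_7c08ba_nt.Par.Lift
import Pool.Agent.Lib.MP_7c08ba_nt.Par.Line
import Pool.Agent.Lib.MP_7c08ba_nt.Par.LocHom
import Pool.Agent.Lib.MP_7c08ba_nt.Par.LocSq
import Pool.Agent.Lib.MP_7c08ba_nt.Par.Par
import Pool.Agent.Lib.MP_7c08ba_nt.Par.Shapiro
import Pool.Agent.Lib.MP_7c08ba_nt.Par.Sq
import Pool.Agent.Lib.MP_7c08ba_nt.Par.Units

set_option autoImplicit false

/-!
The parity theorem.
-/

noncomputable section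

namespace BKPar

open Pool.Agent.Lib.MP_7c08ba_nt NumberField

theorem count' : StCount := stCount stAdm (stDR stAdm) (stSq stAdm) stUnits (stLocHom stLocSq)

section

variable {F : Type} [Field F] [NumberField F] {L : Type} [NormedField L] {n : ℕ}
variable [NormedAlgebra ℚ_[2] L] [FiniteDimensional ℚ_[2] L]

theorem parity_classes {q : ℕ} {s : F} (hq : FieldHyp q F s)
    (ι : AlgebraicClosure F →+* PadicAlgCl 2)
    (c : AlgebraicClosure F ≃+* AlgebraicClosure F) (σ : F ≃+* F) (hcs : ConjHyp s c σ)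
    (ρ : AbsGal F →* Matrix.GeneralLinearGroup (Fin n) L) (hρ : Continuous ρ)
    (hres : ResUni ρ) (hun : UnramifiedAwayTwo ρ)
    (B : Matrix (Fin n) (Fin n) L) (hB : B.transpose = B)
    (hpair : ∀ g, (ρ g : Matrix (Fin n) (Fin n) L).transpose * B *
      (ρ (conj c σ hcs.h g) : Matrix (Fin n) (Fin n) L) = chi (cyc F) L g • B)
    (A : Submodule L (D F ι → Fin n → L)) (hA1 : B1 (ρ.comp (D F ι).subtype) ≤ A)
    (hA : A ≤ Z1 (ρ.comp (D F ι).subtype)) :
    ∃ m k : ℕ, classRank (Sel (cyc F) ρ (conj c σ hcs.h) B (D F ι) (WF ρ) A) (B1 ρ) = m ∧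
      classRank A (B1 (ρ.comp (D F ι).subtype)) = (m + 2 * k : ℕ) := by
  have hR : (R F).Normal := (stAdm F).1
  have hs0 : s ≠ 0 := by
    intro h0
    have h1 := hq.hs
    rw [h0] at h1
    have h2 : (q : F) = 0 := by linear_combination h1
    exact hq.hq0.ne' (Nat.cast_eq_zero.1 h2)
  obtain ⟨hτc, -, -, -, -⟩ := stConj stAdm F s c σ hcs hs0
  obtain ⟨-, -, -, hfin, -⟩ := count' q F s hq ι hR
  have hul : IsUltrametricDist L := ultra_of_algebra L
  have h2L : ‖(2 : L)‖ < 1 := norm_two_lt L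
  obtain ⟨-, hxR⟩ := stKill F L h2L n ρ hρ hres hun
  have hWR : ∀ x ∈ WF ρ, ∀ r ∈ R F, x r = 0 := fun x hx => hxR x hx.1 hx.2
  have hWfin : FiniteDimensional L (WF ρ) :=
    stFin (AbsGal F) (R F) hfin L h2L n ρ hρ hres (WF ρ) (fun x hx => hx.1) hWR
  have hinj : ∀ x ∈ WF ρ, (∀ d : D F ι, x d = 0) → x = 0 := by
    intro x hx h0
    funext g
    obtain ⟨d, hd, r, hr, rfl⟩ := stDR stAdm q F s hq ι g
    rw [hx.1.2 d r, hWR x hx r hr, Matrix.mulVec_zero, add_zero]
    exact h0 ⟨d, hd⟩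
  obtain ⟨hfA, hpar⟩ := parity_cocycles stAdm (stLine stShapiro (stGysin stShapiro)) stLift
    (stSq stAdm) count' (stConj stAdm) (stCycR stAdm (stSq stAdm)) (stCyc stAdm (stSq stAdm))
    stFin stExt stAlt stKill (stDR stAdm) (stPar stAlt) hq ι c σ hcs ρ hρ hres hun B hB hpair A hA
  set S := Sel (cyc F) ρ (conj c σ hcs.h) B (D F ι) (WF ρ) A with hS
  have hSW : S ≤ WF ρ := fun x hx => hx.1
  have hSfin : FiniteDimensional L S := Submodule.finiteDimensional_of_le hSW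
  have hBS : B1 ρ ≤ S := B1_le_Sel ρ hρ hun _ hτc B (cyc F) hpair _ A hA1 hA
  -- the restriction map
  have hrinj : ∀ T : Submodule L (AbsGal F → Fin n → L), T ≤ WF ρ →
      Module.finrank L (T.map (restr (D F ι) L n)) = Module.finrank L T := by
    intro T hT
    let f : T →ₗ[L] (D F ι → Fin n → L) := (restr (D F ι) L n).comp T.subtype
    have hf : Function.Injective f := by
      rw [injective_iff_map_eq_zero]
      intro x hx
      have h1 : (x : AbsGal F → Fin n → L) = 0 := hinj x (hT x.2) (fun d => congrFun hx d)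
      exact Subtype.ext h1
    have h2 : T.map (restr (D F ι) L n) = LinearMap.range f := by
      rw [LinearMap.range_comp, Submodule.range_subtype]
    rw [h2]
    exact LinearMap.finrank_range_of_inj hf
  refine exists_ranks hA1 hfA hBS hSfin ?_ ?_ hpar
  · rw [← map_B1, hrinj _ (hBS.trans hSW)]
  · rw [← hrinj S hSW]
    apply Submodule.finrank_mono
    rintro _ ⟨x, hx, rfl⟩
    exact hx.2.1

end

end BKPar
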