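import Pool.Agent.Lib.MP_7c08ba_nt.BK.Tr
import Pool.Agent.Lib.MP_7c08ba_nt.BK.TrM
import Pool.Agent.Lib.MP_7c08ba_nt.BK.Two
import Pool.Agent.Lib.MP_7c08ba_nt.Met.NAll

set_option autoImplicit false

/-!
# Parity for the Selmer group of Bloch and Kato over all imaginary quadratic fields

The definitions of the Selmer group `H¹_f(F, V)`, of `D_dR(V) / Fil⁰` and of the classes of
representations are in `BK/Sel.lean`, `BK/Cls.lean` and `BK/ClsM.lean`; the period rings are in
`BK/Per.lean`.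
-/

noncomputable section

namespace Pool.Agent.Results.MP_7c08ba_nt.ParityAllFields

open NumberField BKS

/-- Parity for the prime `p` and the field `ℚ(√-Δ)`. -/
def ParityQuad (p Δ : ℕ) : Prop :=
  ∀ [Fact p.Prime] (F : Type) [Field F] [NumberField F] (s : F), Module.finrank ℚ F = 2 →
    s ^ 2 = -(Δ : F) → Parity p F

/-- **Parity.** -/
theorem result :
    (∀ (p : ℕ) [Fact p.Prime] (F : Type) [Field F] [NumberField F], p ≠ 2 →
      Module.finrank ℚ F = 2 → IsEmpty (F →+* ℝ) → Split p F → ParityM p F) ∧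
    (∀ (p : ℕ) [Fact p.Prime] (F : Type) [Field F] [NumberField F],
      RigidField p F → Parity p F) ∧
    (∀ D : ℕ, (D.Prime ∧ D % 16 = 7) ∨
      (∃ q r : ℕ, q.Prime ∧ r.Prime ∧ q % 8 = 3 ∧ r % 8 = 5 ∧ D = q * r) →
        ParityQuad 2 D) := by
  refine ⟨?_, ?_, ?_⟩
  · intro p _ F _ _ hp hF hreal hs
    exact ParityM.of BKMet.All.main hp hF hreal hs
  · rintro p _ F _ _ ⟨hF, hreal, ζ, ι, hζ, hsplit, hrig⟩
    exact Parity.of hF (BKF.parity_every ⟨hF, hreal, hζ, hsplit, hrig⟩)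
  · intro D hD _ F _ _ s hF hs
    exact Parity.of hF (BKF.parity_two hD hF hs)

end Pool.Agent.Results.MP_7c08ba_nt.ParityAllFields
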