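import Pool.Agent.Lib.MP_7c08ba_nt.BK.Tr
import Pool.Agent.Lib.MP_7c08ba_nt.BK.Dens
import Pool.Agent.Lib.MP_7c08ba_nt.BK.ThmR

set_option autoImplicit false

/-!
# Parity for the Selmer group of Bloch and Kato over imaginary quadratic fields

The definitions of the Selmer group `H¹_f(F, V)`, of `D_dR(V) / Fil⁰` and of the class of
representations are in `BK/Sel.lean` and `BK/Cls.lean`; the period rings are in `BK/Per.lean`.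
-/

noncomputable section

namespace Pool.Agent.Results.MP_7c08ba_nt.ParityEveryPrime

open NumberField BKS

/-- `-Δ` is a fundamental discriminant. -/
def IsFund (Δ : ℕ) : Prop :=
  (Δ % 4 = 3 ∨ Δ % 16 = 4 ∨ Δ % 16 = 8) ∧ ∀ q : ℕ, q.Prime → q ≠ 2 → ¬ q ^ 2 ∣ Δ

/-- Parity for the prime `p` and the field `ℚ(√-Δ)`. -/
def ParityQuad (p Δ : ℕ) : Prop :=
  ∀ [Fact p.Prime] (F : Type) [Field F] [NumberField F] (s : F), Module.finrank ℚ F = 2 →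
    s ^ 2 = -(Δ : F) → Parity p F

/-- The condition of Gold: for an embedding `j` of `F` into `ℚ_p`, there is an algebraic integer
`β` in `F` of norm `p ^ h`, `h > 0`, which is a unit at `j` and for which `j(β) ^ (p - 1)` is not
congruent to `1` modulo `p ^ 2`. -/
def Gold (p : ℕ) [Fact p.Prime] (F : Type) [Field F] [NumberField F] : Prop :=
  ∃ (j : F →+* ℚ_[p]) (h : ℕ) (β : 𝓞 F), h ≠ 0 ∧ Algebra.norm ℤ β = (p : ℤ) ^ h ∧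
    ‖j β‖ = 1 ∧ (p : ℝ) ^ (-2 : ℤ) < ‖(j β) ^ (p - 1) - 1‖

theorem isTotallyComplex {F : Type} [Field F] [NumberField F] (h : IsEmpty (F →+* ℝ)) :
    IsTotallyComplex F := by
  refine ⟨fun v => ?_⟩
  by_contra hv
  rw [InfinitePlace.not_isComplex_iff_isReal] at hv
  exact h.false (InfinitePlace.embedding_of_isReal hv)

/-- **Parity.** -/
theorem result :
    (∀ (p : ℕ) [Fact p.Prime] (F : Type) [Field F] [NumberField F],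
      RigidField p F → Parity p F) ∧
    (∀ D : ℕ, (D.Prime ∧ D % 16 = 7) ∨
      (∃ q r : ℕ, q.Prime ∧ r.Prime ∧ q % 8 = 3 ∧ r % 8 = 5 ∧ D = q * r) → ParityQuad 2 D) ∧
    (∀ (p : ℕ) [Fact p.Prime] (F K : Type) [Field F] [NumberField F] [Field K] [NumberField K]
      [Algebra F K] (ζ : K), p ≠ 2 → Module.finrank ℚ F = 2 → IsEmpty (F →+* ℝ) →
      IsPrimitiveRoot ζ p → IntermediateField.adjoin F {ζ} = ⊤ → ¬ p ∣ classNumber K →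
      Gold p F → Parity p F) ∧
    (∀ ε : ℝ, 0 < ε → ∃ X₀ : ℕ, ∀ X : ℕ, X₀ ≤ X →
      (1 / 2 - ε) * ({Δ : ℕ | Δ ≤ X ∧ IsFund Δ ∧ Δ % 3 = 2}.ncard : ℝ) ≤
        ({Δ : ℕ | Δ ≤ X ∧ IsFund Δ ∧ Δ % 3 = 2 ∧ ParityQuad 3 Δ}.ncard : ℝ)) := by
  refine ⟨?_, ?_, ?_, ?_⟩
  · rintro p _ F _ _ ⟨hF, hreal, ζ, ι, hζ, hsplit, hrig⟩
    exact Parity.of hF (BKF.parity_every ⟨hF, hreal, hζ, hsplit, hrig⟩)
  · intro D hD _ F _ _ s hF hs
    exact Parity.of hF (BKF.parity_two hD hF hs)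
  · intro p _ F K _ _ _ _ _ ζ hp hF hreal hζ htop hcl hG
    obtain ⟨j, h, β, hh, hN, hj, hG⟩ := hG
    exact Parity.of hF (BKF.parity_R hp (isTotallyComplex hreal) hF hζ htop hcl j
      ⟨h, β, hh, hN, hj, hG⟩)
  · intro ε hε
    obtain ⟨X₀, hX₀⟩ := BKF.dens ε hε
    have hfund : ∀ Δ : ℕ, IsFund Δ ↔ BKDH.IsFund Δ := by
      intro Δ
      unfold IsFund BKDH.IsFund BKDH.F2
      have h1 : (Δ % 4 = 3 ∨ Δ % 16 = 4 ∨ Δ % 16 = 8) ↔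
          ((Δ : ℤ) % 4 = 3 ∨ (Δ : ℤ) % 16 = 4 ∨ (Δ : ℤ) % 16 = 8) := by omega
      rw [h1]
    refine ⟨X₀, fun X hX => ?_⟩
    have h1 := hX₀ X hX
    have hfin : {Δ : ℕ | Δ ≤ X ∧ IsFund Δ ∧ Δ % 3 = 2 ∧ ParityQuad 3 Δ}.Finite :=
      (Set.finite_Iic X).subset fun Δ h => h.1
    have hsub : {Δ : ℕ | Δ ≤ X ∧ BKDH.IsFund Δ ∧ Δ % 3 = 2 ∧ ∀ (F : Type) [Field F]
        [NumberField F] (s : F), s ^ 2 = -(Δ : F) → Module.finrank ℚ F = 2 → BKF.Parity 3 F} ⊆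
        {Δ : ℕ | Δ ≤ X ∧ IsFund Δ ∧ Δ % 3 = 2 ∧ ParityQuad 3 Δ} := fun Δ h =>
      ⟨h.1, (hfund Δ).mpr h.2.1, h.2.2.1, fun F _ _ s hF hs => Parity.of hF (h.2.2.2 F s hs hF)⟩
    have h2 : {Δ : ℕ | Δ ≤ X ∧ IsFund Δ ∧ Δ % 3 = 2} =
        {Δ : ℕ | Δ ≤ X ∧ BKDH.IsFund Δ ∧ Δ % 3 = 2} :=
      Set.ext fun Δ => and_congr Iff.rfl (and_congr (hfund Δ) Iff.rfl)
    rw [h2]
    exact h1.trans (by exact_mod_cast Set.ncard_le_ncard hsub hfin)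

end Pool.Agent.Results.MP_7c08ba_nt.ParityEveryPrime
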