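import Mathlib
import Pool.Agent.Lib.MP_7c08ba_nt.Defs
import Pool.Agent.Lib.MP_7c08ba_nt.Par.Main
import Pool.Agent.Lib.MP_7c08ba_nt.Gen.RigidTwo

/-!
Problem MP_7c08ba_nt, Q1, at `p = 2`: parity of the dimensions of Selmer groups.
-/

set_option autoImplicit false

noncomputable section

namespace Pool.Agent.Results.MP_7c08ba_nt.SelmerParity

open NumberField Matrix Pool.Agent.Lib.MP_7c08ba_nt

/-! ### The field, the place, complex conjugation -/

/-- The discriminants of the theorem: `D ≡ 7 (mod 16)` is prime, or `D = q r` with primes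
`q ≡ 3` and `r ≡ 5 (mod 8)`. -/
def GoodDisc (D : ℕ) : Prop :=
  (D.Prime ∧ D % 16 = 7) ∨ ∃ q r : ℕ, q.Prime ∧ r.Prime ∧ q % 8 = 3 ∧ r % 8 = 5 ∧ D = q * r

/-- `F = ℚ(s)` is quadratic with `s² = -D`. -/
def IsQuad (D : ℕ) {F : Type} [Field F] [NumberField F] (s : F) : Prop :=
  Module.finrank ℚ F = 2 ∧ s ^ 2 = -(D : F)

/-- The places above `2` of the algebraic closure of `F`, given by embeddings into the algebraic
closure of `ℚ₂`. -/
abbrev Place (F : Type) [Field F] : Type := AlgebraicClosure F →+* PadicAlgCl 2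

/-- The decomposition group of a place above `2`. -/
def dec {F : Type} [Field F] (ι : Place F) : Subgroup (AbsGal F) where
  carrier := {g | ∀ x, ‖ι (g x)‖ = ‖ι x‖}
  one_mem' := fun _ => rfl
  mul_mem' := by
    intro a b ha hb x
    rw [AlgEquiv.mul_apply, ha, hb]
  inv_mem' := by
    intro a ha x
    have h := ha (a⁻¹ x)
    rw [← AlgEquiv.mul_apply, mul_inv_cancel, AlgEquiv.one_apply] at h
    exact h.symm

/-- The decomposition group as a topological group. -/
def Loc {F : Type} [Field F] (ι : Place F) : Type := dec ι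

instance {F : Type} [Field F] (ι : Place F) : Group (Loc ι) := (dec ι).toGroup

instance {F : Type} [Field F] (ι : Place F) : TopologicalSpace (Loc ι) :=
  instTopologicalSpaceSubtype

/-- The inclusion of the decomposition group. -/
def incl {F : Type} [Field F] (ι : Place F) : Loc ι →* AbsGal F := (dec ι).subtype

/-- `c` is an involution of the algebraic closure which moves `s` (a complex conjugation) and
`τ g = c g c`. -/
def IsConj {F : Type} [Field F] (s : F) (c : AlgebraicClosure F ≃+* AlgebraicClosure F)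
    (τ : AbsGal F →* AbsGal F) : Prop :=
  (∀ x, c (c x) = x) ∧
  c (algebraMap F (AlgebraicClosure F) s) ≠ algebraMap F (AlgebraicClosure F) s ∧
  ∀ (g : AbsGal F) (x : AlgebraicClosure F), τ g x = c (g (c x))

/-- The `2`-adic cyclotomic character. -/
def cyc (F : Type) [Field F] : AbsGal F →* ℤ_[2]ˣ :=
  (cyclotomicCharacter (AlgebraicClosure F) 2).comp
    (MulSemiringAction.toRingAut (AbsGal F) (AlgebraicClosure F))

/-- The cyclotomic character with values in an extension `L` of `ℚ₂`. -/
def cycL {F : Type} [Field F] (L : Type) [NormedField L] [NormedAlgebra ℚ_[2] L] (g : AbsGal F) :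
    L := algebraMap ℚ_[2] L (((cyc F g : ℤ_[2]ˣ) : ℤ_[2]) : ℚ_[2])

/-! ### Representations and cocycles -/

section Cochains

/-- Representations of a group on `L ^ n`. -/
abbrev Rep (G : Type) [Group G] (L : Type) [NormedField L] (n : ℕ) : Type :=
  G →* Matrix.GeneralLinearGroup (Fin n) L

/-- Functions with values in `L ^ n`. -/
def Fn (X L : Type) (n : ℕ) : Type := X → Fin n → L

instance (X L : Type) [NormedField L] (n : ℕ) : AddCommGroup (Fn X L n) :=
  Pi.addCommGroup (f := fun _ : X => Fin n → L)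

instance (X L : Type) [NormedField L] (n : ℕ) : Module L (Fn X L n) :=
  Pi.module X (fun _ => Fin n → L) L

variable {G : Type} [Group G] [TopologicalSpace G] {L : Type} [NormedField L] {n : ℕ}

/-- The action of a group element on a vector. -/
def act (ρ : Rep G L n) (g : G) (v : Fin n → L) : Fin n → L :=
  (ρ g : Matrix (Fin n) (Fin n) L) *ᵥ v

/-- Continuous `1`-cocycles. -/
def IsCocycle (ρ : Rep G L n) (x : G → Fin n → L) : Prop :=
  Continuous x ∧ ∀ g h, x (g * h) = x g + act ρ g (x h)

/-- `1`-coboundaries. -/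
def IsCoboundary (ρ : Rep G L n) (x : G → Fin n → L) : Prop :=
  ∃ v : Fin n → L, ∀ g, x g = act ρ g v - v

theorem act_add (ρ : Rep G L n) (g : G) (v w : Fin n → L) :
    act ρ g (v + w) = act ρ g v + act ρ g w := Matrix.mulVec_add _ _ _

theorem act_smul (ρ : Rep G L n) (g : G) (a : L) (v : Fin n → L) :
    act ρ g (a • v) = a • act ρ g v := Matrix.mulVec_smul _ _ _

theorem IsCocycle.add {ρ : Rep G L n} {x y : G → Fin n → L} (hx : IsCocycle ρ x)
    (hy : IsCocycle ρ y) : IsCocycle ρ (x + y) := by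
  refine ⟨hx.1.add hy.1, fun g h => ?_⟩
  simp only [Pi.add_apply, hx.2, hy.2, act_add]
  abel

theorem IsCocycle.zero {ρ : Rep G L n} : IsCocycle ρ (0 : G → Fin n → L) := by
  refine ⟨continuous_const, fun g h => ?_⟩
  simp [act]

theorem IsCocycle.smul {ρ : Rep G L n} {x : G → Fin n → L} (a : L) (hx : IsCocycle ρ x) :
    IsCocycle ρ (a • x) := by
  refine ⟨hx.1.const_smul a, fun g h => ?_⟩
  simp only [Pi.smul_apply, hx.2, act_smul, smul_add]

theorem IsCoboundary.add {ρ : Rep G L n} {x y : G → Fin n → L} (hx : IsCoboundary ρ x)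
    (hy : IsCoboundary ρ y) : IsCoboundary ρ (x + y) := by
  obtain ⟨v, hv⟩ := hx
  obtain ⟨w, hw⟩ := hy
  refine ⟨v + w, fun g => ?_⟩
  simp only [Pi.add_apply, hv, hw, act_add]
  abel

theorem IsCoboundary.zero {ρ : Rep G L n} : IsCoboundary ρ (0 : G → Fin n → L) :=
  ⟨0, fun g => by simp [act]⟩

theorem IsCoboundary.smul {ρ : Rep G L n} {x : G → Fin n → L} (a : L) (hx : IsCoboundary ρ x) :
    IsCoboundary ρ (a • x) := by
  obtain ⟨v, hv⟩ := hx
  refine ⟨a • v, fun g => ?_⟩
  simp only [Pi.smul_apply, hv, act_smul, smul_sub]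

/-- The space of continuous `1`-cocycles. -/
def cocycle (ρ : Rep G L n) : Submodule L (Fn G L n) where
  carrier := {x | IsCocycle ρ x}
  add_mem' := IsCocycle.add
  zero_mem' := IsCocycle.zero
  smul_mem' := fun a _ => IsCocycle.smul a

/-- The space of `1`-coboundaries. -/
def coboundary (ρ : Rep G L n) : Submodule L (Fn G L n) where
  carrier := {x | IsCoboundary ρ x}
  add_mem' := IsCoboundary.add
  zero_mem' := IsCoboundary.zero
  smul_mem' := fun a _ => IsCoboundary.smul a

/-- The dimension of the space of classes `Z / (Z ∩ B)`. -/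
def dim {M : Type} [AddCommGroup M] [Module L M] (Z B : Submodule L M) : Cardinal :=
  Module.rank L (Z ⧸ B.submoduleOf Z)

end Cochains

section Selmer

variable {F : Type} [Field F] {L : Type} [NormedField L] {n : ℕ}

/-- The representation is continuous, residually unipotent and unramified outside `2`. -/
def IsGood (ρ : Rep (AbsGal F) L n) : Prop :=
  Continuous ρ ∧ ResUnipotent ρ ∧
  ∀ P : Ideal (AllInt F), P.IsPrime → (2 : AllInt F) ∉ P → ∀ g ∈ inert F P, ρ g = 1

/-- The restriction to the decomposition group. -/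
def res (ρ : Rep (AbsGal F) L n) (ι : Place F) : Rep (Loc ι) L n := ρ.comp (incl ι)

/-- The bilinear form with matrix `B`. -/
def pair (B : Matrix (Fin n) (Fin n) L) (v w : Fin n → L) : L := v ⬝ᵥ (B *ᵥ w)

variable [NormedAlgebra ℚ_[2] L]

/-- The form is symmetric and `⟨ρ(g) v, ρ(τ g) w⟩ = χ(g) ⟨v, w⟩` for the cyclotomic
character `χ`. -/
def IsPolarised (ρ : Rep (AbsGal F) L n) (τ : AbsGal F →* AbsGal F)
    (B : Matrix (Fin n) (Fin n) L) : Prop :=
  (∀ v w : Fin n → L, pair B v w = pair B w v) ∧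
  ∀ (g : AbsGal F) (v w : Fin n → L),
    pair B (act ρ g v) (act ρ (τ g) w) = cycL L g * pair B v w

/-- For a cocycle `y` of the decomposition group and a cocycle `x` of the absolute Galois group:
the cup product of `y` and of the conjugate cocycle `g ↦ x (τ g)`, with values in `L(1)`, is the
coboundary of a continuous cochain on the decomposition group. -/
def Orthogonal (ρ : Rep (AbsGal F) L n) (τ : AbsGal F →* AbsGal F)
    (B : Matrix (Fin n) (Fin n) L) (ι : Place F)
    (y : Loc ι → Fin n → L) (x : AbsGal F → Fin n → L) : Prop :=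
  ∃ β : Loc ι → L, Continuous β ∧ ∀ g h : Loc ι,
    pair B (y g) (act ρ (τ (incl ι g)) (x (τ (incl ι h)))) =
      cycL L (incl ι g) * β h - β (g * h) + β g

/-- Selmer cocycles for the local condition `A` at the place `ι`: continuous cocycles of the
absolute Galois group which vanish on the inertia groups at all primes not above `2`, with
restriction to the decomposition group of `ι` in `A`, and with conjugate orthogonal to `A` (this is
the condition at the other place above `2`). -/
def IsSelmer (ρ : Rep (AbsGal F) L n) (τ : AbsGal F →* AbsGal F)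
    (B : Matrix (Fin n) (Fin n) L) (ι : Place F)
    (A : Submodule L (Fn (Loc ι) L n)) (x : AbsGal F → Fin n → L) : Prop :=
  IsCocycle ρ x ∧
  (∀ P : Ideal (AllInt F), P.IsPrime → (2 : AllInt F) ∉ P → ∀ g ∈ inert F P, x g = 0) ∧
  (fun d => x (incl ι d)) ∈ A ∧ ∀ y ∈ A, Orthogonal ρ τ B ι y x

variable {ρ : Rep (AbsGal F) L n} {τ : AbsGal F →* AbsGal F} {B : Matrix (Fin n) (Fin n) L}
  {ι : Place F} {A : Submodule L (Fn (Loc ι) L n)}

theorem IsSelmer.add {x x' : AbsGal F → Fin n → L} (h : IsSelmer ρ τ B ι A x)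
    (h' : IsSelmer ρ τ B ι A x') : IsSelmer ρ τ B ι A (x + x') := by
  obtain ⟨h1, h2, h3, h4⟩ := h
  obtain ⟨h1', h2', h3', h4'⟩ := h'
  refine ⟨h1.add h1', fun P hP hP2 g hg => ?_, A.add_mem h3 h3', fun y hy => ?_⟩
  · rw [Pi.add_apply, h2 P hP hP2 g hg, h2' P hP hP2 g hg, add_zero]
  · obtain ⟨β, hβ, hβ'⟩ := h4 y hy
    obtain ⟨γ, hγ, hγ'⟩ := h4' y hy
    refine ⟨β + γ, hβ.add hγ, fun g h => ?_⟩
    have e : pair B (y g) (act ρ (τ (incl ι g)) ((x + x') (τ (incl ι h)))) =
        pair B (y g) (act ρ (τ (incl ι g)) (x (τ (incl ι h)))) +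
        pair B (y g) (act ρ (τ (incl ι g)) (x' (τ (incl ι h)))) := by
      rw [Pi.add_apply, act_add, pair, Matrix.mulVec_add, dotProduct_add]
      rfl
    rw [e, hβ', hγ']
    simp only [Pi.add_apply]
    ring

theorem IsSelmer.zero : IsSelmer ρ τ B ι A 0 := by
  refine ⟨IsCocycle.zero, fun P hP hP2 g hg => rfl, A.zero_mem, fun y _ =>
    ⟨0, continuous_const, fun g h => ?_⟩⟩
  simp [pair, act]

theorem IsSelmer.smul {x : AbsGal F → Fin n → L} (a : L) (h : IsSelmer ρ τ B ι A x) :
    IsSelmer ρ τ B ι A (a • x) := by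
  obtain ⟨h1, h2, h3, h4⟩ := h
  refine ⟨h1.smul a, fun P hP hP2 g hg => ?_, A.smul_mem a h3, fun y hy => ?_⟩
  · rw [Pi.smul_apply, h2 P hP hP2 g hg, smul_zero]
  · obtain ⟨β, hβ, hβ'⟩ := h4 y hy
    refine ⟨a • β, hβ.const_smul a, fun g h => ?_⟩
    have e : pair B (y g) (act ρ (τ (incl ι g)) ((a • x) (τ (incl ι h)))) =
        a * pair B (y g) (act ρ (τ (incl ι g)) (x (τ (incl ι h)))) := by
      rw [Pi.smul_apply, act_smul, pair, Matrix.mulVec_smul, dotProduct_smul, smul_eq_mul]
      rfl
    rw [e, hβ']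
    simp only [Pi.smul_apply, smul_eq_mul]
    ring

variable (ρ τ B ι A)

/-- The space of Selmer cocycles. -/
def selmer : Submodule L (Fn (AbsGal F) L n) where
  carrier := {x | IsSelmer ρ τ B ι A x}
  add_mem' := IsSelmer.add
  zero_mem' := IsSelmer.zero
  smul_mem' := fun a _ => IsSelmer.smul a

end Selmer

/-! ### Proof -/

theorem fieldHyp {D : ℕ} (hD : GoodDisc D) {F : Type} [Field F] [NumberField F] {s : F}
    (hF : IsQuad D s) : BKPar.FieldHyp D F s := by
  obtain ⟨hF, hs⟩ := hF
  rcases hD with ⟨hp, h16⟩ | ⟨q, r, hq, hr, h3, h5, rfl⟩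
  · exact ⟨hp.pos, hp.prime.squarefree, by omega, hF, hs, fun j => BKGen.rigidTwo hp h16 hF hs j⟩
  · have hne : q ≠ r := by rintro rfl; omega
    refine ⟨Nat.mul_pos hq.pos hr.pos, ?_, ?_, hF, hs,
      fun j => BKGen.rigidTwo_qr hq hr h3 h5 hF hs j⟩
    · rw [Nat.squarefree_mul ((Nat.coprime_primes hq hr).2 hne)]
      exact ⟨hq.prime.squarefree, hr.prime.squarefree⟩
    · rw [Nat.mul_mod, h3, h5]

theorem coboundary_eq {G : Type} [Group G] [TopologicalSpace G] {L : Type} [NormedField L] {n : ℕ}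
    (ρ : Rep G L n) : coboundary ρ = BKPar.B1 ρ := by
  ext x
  constructor
  · rintro ⟨v, hv⟩
    exact ⟨v, funext fun g => (hv g).symm⟩
  · rintro ⟨v, rfl⟩
    exact ⟨v, fun g => rfl⟩

theorem selmer_eq {F : Type} [Field F] {L : Type} [NormedField L] [NormedAlgebra ℚ_[2] L] {n : ℕ}
    (ρ : Rep (AbsGal F) L n) (τ : AbsGal F →* AbsGal F)
    (B : Matrix (Fin n) (Fin n) L) (ι : Place F) (A : Submodule L (Fn (Loc ι) L n)) :
    selmer ρ τ B ι A = BKPar.Sel (BKPar.cyc F) ρ τ B (BKPar.D F ι) (BKPar.WF ρ) A := by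
  ext x
  constructor
  · rintro ⟨h1, h2, h3, h4⟩
    exact ⟨⟨h1, h2⟩, h3, h4⟩
  · rintro ⟨⟨h1, h2⟩, h3, h4⟩
    exact ⟨h1, h2, h3, h4⟩

/-- The automorphism of `F` induced by `c`. -/
theorem exists_sigma {D : ℕ} (hD : 0 < D) {F : Type} [Field F] [NumberField F]
    (hF : Module.finrank ℚ F = 2) {s : F} (hs : s ^ 2 = -(D : F))
    (c : AlgebraicClosure F ≃+* AlgebraicClosure F) (hc : ∀ x, c (c x) = x)
    (hcs : c (algebraMap F (AlgebraicClosure F) s) ≠ algebraMap F (AlgebraicClosure F) s) :
    ∃ σ : F ≃+* F, BKPar.ConjHyp s c σ := by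
  set f : F →+* AlgebraicClosure F := algebraMap F (AlgebraicClosure F) with hf
  have h1 : c (f s) = -f s := by
    have h2 : (c (f s)) ^ 2 = (f s) ^ 2 := by
      rw [← map_pow, ← map_pow, hs, map_neg, map_neg, map_natCast, map_natCast]
    rcases sq_eq_sq_iff_eq_or_eq_neg.1 h2 with h3 | h3
    · exact absurd h3 hcs
    · exact h3
  have hmem : ∀ x : F, (c : AlgebraicClosure F →+* AlgebraicClosure F).comp f x ∈ f.range := by
    intro x
    obtain ⟨a, b, rfl⟩ := exists_coords hD hF hs x
    refine ⟨a - b * s, ?_⟩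
    change f (a - b * s) = c (f (a + b * s))
    rw [map_sub, map_mul, map_add, map_mul, map_add, map_mul, h1, map_ratCast, map_ratCast,
      map_ratCast, map_ratCast]
    ring
  have hbij : Function.Bijective f.rangeRestrict :=
    ⟨fun x y hxy => f.injective (congrArg Subtype.val hxy), f.rangeRestrict_surjective⟩
  let e : F ≃+* f.range := RingEquiv.ofBijective f.rangeRestrict hbij
  let σ₀ : F →+* F := (e.symm : f.range →+* F).comp
    (((c : AlgebraicClosure F →+* AlgebraicClosure F).comp f).codRestrict f.range hmem)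
  have hσ : ∀ x, f (σ₀ x) = c (f x) := by
    intro x
    have h2 : e (σ₀ x) = _ := e.apply_symm_apply _
    exact congrArg Subtype.val h2
  have hσσ : ∀ x, σ₀ (σ₀ x) = x := by
    intro x
    apply f.injective
    rw [hσ, hσ, hc]
  refine ⟨RingEquiv.ofRingHom σ₀ σ₀ (RingHom.ext hσσ) (RingHom.ext hσσ), fun a => (hσ a).symm, ?_,
    hc⟩
  apply f.injective
  change f (σ₀ s) = _
  rw [hσ, h1, map_neg]

/-- **Parity of Selmer groups.** Let `F = ℚ(√-D)` be one of the fields of `GoodDisc`, `ι` a place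
above `2`, `c` an involution of the algebraic closure which is nontrivial on `F` (complex
conjugation) and `τ g = c g c`. Let `ρ` be a continuous representation of the absolute Galois group
of `F` over a finite extension `L` of `ℚ₂`, unramified outside `2` and residually unipotent, with a
symmetric bilinear form such that `⟨ρ(g) v, ρ(τ g) w⟩ = χ(g) ⟨v, w⟩` for the cyclotomic character
`χ`. Let `A` be any subspace of the first cohomology group of the decomposition group (given as a
space of cocycles containing the coboundaries). Then the Selmer group with local condition `A` at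
`ι` and the orthogonal condition at the conjugate place has finite dimension `m`, and the dimension
of `A` is `m + 2 k`. -/
theorem result (D : ℕ) (hD : GoodDisc D) (F : Type) [Field F] [NumberField F] (s : F)
    (hF : IsQuad D s) (ι : Place F) (c : AlgebraicClosure F ≃+* AlgebraicClosure F)
    (τ : AbsGal F →* AbsGal F) (hτ : IsConj s c τ)
    (L : Type) [NormedField L] [NormedAlgebra ℚ_[2] L] [FiniteDimensional ℚ_[2] L]
    (n : ℕ) (ρ : Rep (AbsGal F) L n) (hρ : IsGood ρ)
    (B : Matrix (Fin n) (Fin n) L) (hB : IsPolarised ρ τ B)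
    (A : Submodule L (Fn (Loc ι) L n)) (hA : coboundary (res ρ ι) ≤ A)
    (hA' : A ≤ cocycle (res ρ ι)) :
    ∃ m k : ℕ, dim (selmer ρ τ B ι A) (coboundary ρ) = m ∧
      dim A (coboundary (res ρ ι)) = (m + 2 * k : ℕ) := by
  have hFH := fieldHyp hD hF
  obtain ⟨hc, hcs, hτ⟩ := hτ
  obtain ⟨hρc, hres, hun⟩ := hρ
  obtain ⟨hsym, hpair⟩ := hB
  obtain ⟨σ, hσ⟩ := exists_sigma hFH.hq0 hF.1 hF.2 c hc hcs
  have hτ' : BKPar.conj c σ hσ.h = τ := by
    ext g x
    rw [hτ]
    change c (g (c.symm x)) = _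
    have h1 : c.symm x = c x := by rw [RingEquiv.symm_apply_eq, hc]
    rw [h1]
  have hBs : B.transpose = B := by
    ext i j
    have h1 := hsym (Pi.single j 1) (Pi.single i 1)
    simp only [pair] at h1
    simpa using h1
  have hpair' : ∀ g, (ρ g : Matrix (Fin n) (Fin n) L).transpose * B *
      (ρ (BKPar.conj c σ hσ.h g) : Matrix (Fin n) (Fin n) L) =
        BKPar.chi (BKPar.cyc F) L g • B := by
    intro g
    rw [hτ']
    ext i j
    have h1 := hpair g (Pi.single i 1) (Pi.single j 1)
    simp only [pair, act] at h1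
    rw [← Matrix.vecMul_transpose, ← Matrix.dotProduct_mulVec, Matrix.mulVec_mulVec,
      Matrix.mulVec_mulVec] at h1
    change _ = cycL L g * B i j
    simpa using h1
  have h1 := BKPar.parity_classes hFH ι c σ hσ ρ hρc hres hun B hBs hpair' A
    (by
      have h2 := coboundary_eq (res ρ ι)
      exact h2 ▸ hA) hA'
  rw [hτ'] at h1
  obtain ⟨m, k, h2, h3⟩ := h1
  refine ⟨m, k, ?_, ?_⟩
  · rw [selmer_eq, coboundary_eq]
    exact h2
  · rw [coboundary_eq]
    exact h3

end Pool.Agent.Results.MP_7c08ba_nt.SelmerParity
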